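import Mathlib

/-! Lattices of commuting projections and finite partitions generated by them. -/

set_option linter.unusedSectionVars false

namespace Pool.Agent.CSLRad

open Finset

variable {H : Type*} [NormedAddCommGroup H] [InnerProductSpace ℂ H] [CompleteSpace H]

/-- A lattice of commuting projections containing `0` and `1`. -/
structure IsPL (L : Set (H →L[ℂ] H)) : Prop where
  proj : ∀ P ∈ L, IsStarProjection P
  comm : ∀ P ∈ L, ∀ Q ∈ L, P * Q = Q * P
  zero_mem : (0 : H →L[ℂ] H) ∈ L
  one_mem : (1 : H →L[ℂ] H) ∈ L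
  inf_mem : ∀ P ∈ L, ∀ Q ∈ L, P * Q ∈ L
  sup_mem : ∀ P ∈ L, ∀ Q ∈ L, P + Q - P * Q ∈ L

/-- The complementary lattice. -/
def cpl (L : Set (H →L[ℂ] H)) : Set (H →L[ℂ] H) := {P | 1 - P ∈ L}

lemma IsPL.cpl {L : Set (H →L[ℂ] H)} (hL : IsPL L) : IsPL (cpl L) where
  proj P hP := by
    have := (hL.proj _ hP).one_sub
    simpa using this
  comm P hP Q hQ := by
    have h1 := hL.comm _ hP _ hQ
    have e1 : (1 - P) * (1 - Q) = 1 - P - Q + P * Q := by noncomm_ring
    have e2 : (1 - Q) * (1 - P) = 1 - P - Q + Q * P := by noncomm_ring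
    rw [e1, e2] at h1
    exact add_left_cancel h1
  zero_mem := by simpa [CSLRad.cpl] using hL.one_mem
  one_mem := by simpa [CSLRad.cpl] using hL.zero_mem
  inf_mem P hP Q hQ := by
    have h1 := hL.sup_mem _ hP _ hQ
    have e1 : 1 - P + (1 - Q) - (1 - P) * (1 - Q) = 1 - P * Q := by noncomm_ring
    rw [e1] at h1
    exact h1
  sup_mem P hP Q hQ := by
    have h1 := hL.inf_mem _ hP _ hQ
    have e1 : (1 - P) * (1 - Q) = 1 - (P + Q - P * Q) := by noncomm_ring
    rw [e1] at h1
    exact h1

lemma mem_cpl {L : Set (H →L[ℂ] H)} {P : H →L[ℂ] H} : P ∈ cpl L ↔ 1 - P ∈ L := Iff.rfl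

lemma cpl_cpl (L : Set (H →L[ℂ] H)) : cpl (cpl L) = L := by
  ext P
  simp [cpl]

/-- Operators leaving invariant the ranges of all projections in `L`. -/
def AlgL (L : Set (H →L[ℂ] H)) : Set (H →L[ℂ] H) := {T | ∀ P ∈ L, (1 - P) * T * P = 0}

/-- The Boolean algebra generated by `L`. -/
inductive BoolGen (L : Set (H →L[ℂ] H)) : (H →L[ℂ] H) → Prop
  | of {P} : P ∈ L → BoolGen L P
  | cpl {P} : BoolGen L P → BoolGen L (1 - P)
  | mul {P Q} : BoolGen L P → BoolGen L Q → BoolGen L (P * Q)

lemma BoolGen.commute {L : Set (H →L[ℂ] H)} {X Y : H →L[ℂ] H} (hX : ∀ P ∈ L, P * X = X * P)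
    (hY : BoolGen L Y) : Y * X = X * Y := by
  induction hY with
  | of h => exact hX _ h
  | cpl _ ih =>
    rw [sub_mul, mul_sub, ih, one_mul, mul_one]
  | mul _ _ ih1 ih2 =>
    rw [mul_assoc, ih2, ← mul_assoc, ih1, mul_assoc]

lemma BoolGen.comm_mem {L : Set (H →L[ℂ] H)} (hL : IsPL L) {X Y : H →L[ℂ] H} (hX : X ∈ L)
    (hY : BoolGen L Y) : Y * X = X * Y :=
  hY.commute fun P hP => hL.comm P hP X hX

lemma BoolGen.comm {L : Set (H →L[ℂ] H)} (hL : IsPL L) {X Y : H →L[ℂ] H} (hX : BoolGen L X)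
    (hY : BoolGen L Y) : Y * X = X * Y :=
  hY.commute fun _ hP => (hX.comm_mem hL hP).symm

lemma BoolGen.proj {L : Set (H →L[ℂ] H)} (hL : IsPL L) {Y : H →L[ℂ] H}
    (hY : BoolGen L Y) : IsStarProjection Y := by
  induction hY with
  | of h => exact hL.proj _ h
  | cpl _ ih => exact ih.one_sub
  | mul h1 h2 ih1 ih2 => exact ih1.mul ih2 (h2.comm hL h1)

lemma BoolGen.add {L : Set (H →L[ℂ] H)} {P Q : H →L[ℂ] H} (hP : BoolGen L P)
    (hQ : BoolGen L Q) (h : P * Q = 0) : BoolGen L (P + Q) := by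
  have : P + Q = 1 - (1 - P) * (1 - Q) := by
    have e : (1 - P) * (1 - Q) = 1 - P - Q + P * Q := by noncomm_ring
    rw [e, h]
    abel
  rw [this]
  exact (hP.cpl.mul hQ.cpl).cpl

/-- A finite partition of the identity into pieces generated by `L`, indexed by a partially ordered
type, such that sums over upper sets lie in `L`. -/
structure Part (L : Set (H →L[ℂ] H)) where
  ι : Type
  [fin : Fintype ι]
  [dec : DecidableEq ι]
  [ord : PartialOrder ι]
  e : ι → H →L[ℂ] H
  proj : ∀ i, IsStarProjection (e i)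
  orth : ∀ i j, i ≠ j → e i * e j = 0
  sum_one : ∑ i, e i = 1
  mem : ∀ U : Finset ι, IsUpperSet (U : Set ι) → ∑ i ∈ U, e i ∈ L
  gen : ∀ i, BoolGen L (e i)

attribute [instance] Part.fin Part.dec Part.ord

/-- `P` is resolved by the partition. -/
def Part.Res {L : Set (H →L[ℂ] H)} (p : Part L) (P : H →L[ℂ] H) : Prop :=
  ∃ U : Finset p.ι, IsUpperSet (U : Set p.ι) ∧ P = ∑ i ∈ U, p.e i

/-- The trivial partition. -/
def Part.triv {L : Set (H →L[ℂ] H)} (hL : IsPL L) : Part L where
  ι := Unit
  e := fun _ => 1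
  proj := fun _ => IsStarProjection.one _
  orth := fun i j h => absurd (Subsingleton.elim i j) h
  sum_one := by simp
  mem := fun U _ => by
    by_cases h : () ∈ U
    · have : U = {()} := by
        ext x
        simp [h]
      rw [this]
      simpa using hL.one_mem
    · have : U = ∅ := by
        ext x
        simp [h]
      rw [this]
      simpa using hL.zero_mem
  gen := fun _ => .of hL.one_mem

/-- Refining a partition by one more projection of `L`. -/
def Part.refine {L : Set (H →L[ℂ] H)} (hL : IsPL L) (p : Part L) (P : H →L[ℂ] H) (hP : P ∈ L) :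
    Part L where
  ι := p.ι × Bool
  e := fun x => p.e x.1 * (if x.2 then P else 1 - P)
  proj := by
    rintro ⟨i, b⟩
    have hc : p.e i * P = P * p.e i := (p.gen i).comm_mem hL hP
    cases b
    · simp only [Bool.false_eq_true, if_false]
      refine (p.proj i).mul (hL.proj P hP).one_sub ?_
      show p.e i * (1 - P) = (1 - P) * p.e i
      rw [mul_sub, sub_mul, hc, mul_one, one_mul]
    · simp only [if_true]
      exact (p.proj i).mul (hL.proj P hP) hc
  orth := by
    rintro ⟨i, b⟩ ⟨j, c⟩ hne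
    have hP2 : P * P = P := (hL.proj P hP).isIdempotentElem
    have hcj : p.e j * P = P * p.e j := (p.gen j).comm_mem hL hP
    have hci : p.e i * P = P * p.e i := (p.gen i).comm_mem hL hP
    by_cases hij : i = j
    · subst hij
      have hbc : b ≠ c := by
        rintro rfl
        exact hne rfl
      have hz1 : P * (1 - P) = 0 := by rw [mul_sub, hP2, mul_one, sub_self]
      have hz2 : (1 - P) * P = 0 := by rw [sub_mul, hP2, one_mul, sub_self]
      have hc' : p.e i * (1 - P) = (1 - P) * p.e i := by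
        rw [mul_sub, sub_mul, hci, mul_one, one_mul]
      have k1 : p.e i * (1 - P) * (p.e i * P) = 0 := by
        calc p.e i * (1 - P) * (p.e i * P) = p.e i * ((1 - P) * p.e i) * P := by noncomm_ring
          _ = p.e i * p.e i * ((1 - P) * P) := by rw [← hc']; noncomm_ring
          _ = 0 := by rw [hz2, mul_zero]
      have k2 : p.e i * P * (p.e i * (1 - P)) = 0 := by
        calc p.e i * P * (p.e i * (1 - P)) = p.e i * (P * p.e i) * (1 - P) := by noncomm_ring
          _ = p.e i * p.e i * (P * (1 - P)) := by rw [← hci]; noncomm_ring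
          _ = 0 := by rw [hz1, mul_zero]
      cases b <;> cases c
      · exact absurd rfl hbc
      · simpa using k1
      · simpa using k2
      · exact absurd rfl hbc
    · have ho := p.orth i j hij
      have hcj' : (if b then P else 1 - P) * p.e j = p.e j * (if b then P else 1 - P) := by
        cases b
        · simp only [Bool.false_eq_true, if_false]
          rw [mul_sub, sub_mul, hcj, mul_one, one_mul]
        · simp only [if_true]
          exact hcj.symm
      show p.e i * (if b then P else 1 - P) * (p.e j * (if c then P else 1 - P)) = 0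
      rw [mul_assoc, ← mul_assoc (if b then P else 1 - P), hcj', ← mul_assoc, ← mul_assoc, ho]
      simp
  sum_one := by
    rw [← Finset.univ_product_univ, Finset.sum_product]
    simp only [Fintype.sum_bool, if_true, Bool.false_eq_true, if_false]
    simp only [← mul_add, add_sub_cancel, mul_one]
    exact p.sum_one
  mem := by
    intro U hU
    let Ut : Finset p.ι := univ.filter fun i => (i, true) ∈ U
    let Uf : Finset p.ι := univ.filter fun i => (i, false) ∈ U
    have hUt : IsUpperSet (Ut : Set p.ι) := by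
      intro i j hij hi
      simp only [Ut, coe_filter, mem_univ, true_and, Set.mem_ofPred_eq] at hi ⊢
      exact hU (show ((i, true) : p.ι × Bool) ≤ (j, true) from ⟨hij, le_refl _⟩) hi
    have hUf : IsUpperSet (Uf : Set p.ι) := by
      intro i j hij hi
      simp only [Uf, coe_filter, mem_univ, true_and, Set.mem_ofPred_eq] at hi ⊢
      exact hU (show ((i, false) : p.ι × Bool) ≤ (j, false) from ⟨hij, le_refl _⟩) hi
    have hsub : Uf ⊆ Ut := by
      intro i hi
      simp only [Uf, Ut, mem_filter, mem_univ, true_and] at hi ⊢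
      exact hU (show ((i, false) : p.ι × Bool) ≤ (i, true) from ⟨le_refl _, Bool.false_le _⟩) hi
    have e1 : ∑ x ∈ U, p.e x.1 * (if x.2 then P else 1 - P) =
        (∑ i ∈ Ut, p.e i) * P + (∑ i ∈ Uf, p.e i) * (1 - P) := by
      have : ∑ x ∈ U, p.e x.1 * (if x.2 then P else 1 - P) =
          ∑ x : p.ι × Bool, if x ∈ U then p.e x.1 * (if x.2 then P else 1 - P) else 0 := by
        simp
      rw [this, ← Finset.univ_product_univ, Finset.sum_product]
      simp only [Fintype.sum_bool, if_true, Bool.false_eq_true, if_false]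
      rw [Finset.sum_add_distrib, Finset.sum_mul, Finset.sum_mul, Finset.sum_filter,
        Finset.sum_filter]
    have e2 : (∑ i ∈ Ut, p.e i) * (∑ i ∈ Uf, p.e i) = ∑ i ∈ Uf, p.e i := by
      rw [Finset.sum_mul_sum, Finset.sum_comm]
      refine Finset.sum_congr rfl fun j hj => ?_
      rw [Finset.sum_eq_single_of_mem j (hsub hj)]
      · exact (p.proj j).isIdempotentElem
      · intro i _ hij
        exact p.orth i j hij
    have m1 := p.mem Ut hUt
    have m2 := p.mem Uf hUf
    rw [e1]
    have m3 := hL.sup_mem _ (hL.inf_mem _ m1 _ hP) _ m2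
    have hc : (∑ i ∈ Uf, p.e i) * P = P * (∑ i ∈ Uf, p.e i) := hL.comm _ m2 _ hP
    have e3 : (∑ i ∈ Ut, p.e i) * P + (∑ i ∈ Uf, p.e i) - (∑ i ∈ Ut, p.e i) * P * (∑ i ∈ Uf, p.e i)
        = (∑ i ∈ Ut, p.e i) * P + (∑ i ∈ Uf, p.e i) * (1 - P) := by
      rw [mul_assoc, ← hc, ← mul_assoc, e2]
      noncomm_ring
    rw [← e3]
    exact m3
  gen := by
    rintro ⟨i, b⟩
    refine (p.gen i).mul ?_
    cases b
    · simpa using (BoolGen.of hP).cpl
    · simpa using BoolGen.of hP

lemma Part.refine_res_new {L : Set (H →L[ℂ] H)} (hL : IsPL L) (p : Part L) (P : H →L[ℂ] H)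
    (hP : P ∈ L) : (p.refine hL P hP).Res P := by
  refine ⟨(univ ×ˢ {true} : Finset (p.ι × Bool)), ?_, ?_⟩
  · show IsUpperSet ((univ ×ˢ {true} : Finset (p.ι × Bool)) : Set (p.ι × Bool))
    rintro ⟨i, b⟩ ⟨j, c⟩ ⟨_, hbc⟩ hi
    simp only [coe_product, coe_univ, coe_singleton, Set.mem_prod, Set.mem_univ,
      Set.mem_singleton_iff, true_and] at hi ⊢
    subst hi
    exact top_le_iff.mp hbc
  · show P = ∑ x ∈ (univ ×ˢ {true} : Finset (p.ι × Bool)), p.e x.1 * (if x.2 then P else 1 - P)
    rw [Finset.sum_product]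
    simp only [sum_singleton, if_true]
    rw [← Finset.sum_mul, p.sum_one, one_mul]

lemma Part.refine_res_old {L : Set (H →L[ℂ] H)} (hL : IsPL L) (p : Part L) (P : H →L[ℂ] H)
    (hP : P ∈ L) {Q : H →L[ℂ] H} (hQ : p.Res Q) : (p.refine hL P hP).Res Q := by
  obtain ⟨U, hU, rfl⟩ := hQ
  refine ⟨(U ×ˢ univ : Finset (p.ι × Bool)), ?_, ?_⟩
  · show IsUpperSet ((U ×ˢ univ : Finset (p.ι × Bool)) : Set (p.ι × Bool))
    rintro ⟨i, b⟩ ⟨j, c⟩ ⟨hij, _⟩ hi
    simp only [coe_product, coe_univ, Set.mem_prod, Set.mem_univ, and_true] at hi ⊢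
    exact hU hij hi
  · show _ = ∑ x ∈ (U ×ˢ univ : Finset (p.ι × Bool)), p.e x.1 * (if x.2 then P else 1 - P)
    rw [Finset.sum_product]
    simp only [Fintype.sum_bool, if_true, Bool.false_eq_true, if_false]
    simp only [← mul_add, add_sub_cancel, mul_one]

/-- Every finite subset of `L` is resolved by some partition. -/
lemma exists_part {L : Set (H →L[ℂ] H)} (hL : IsPL L) (S : Finset (H →L[ℂ] H))
    (hS : ∀ P ∈ S, P ∈ L) : ∃ p : Part L, ∀ P ∈ S, p.Res P := by
  classical
  induction S using Finset.induction with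
  | empty => exact ⟨Part.triv hL, by simp⟩
  | insert P S _ ih =>
    obtain ⟨p, hp⟩ := ih fun Q hQ => hS Q (mem_insert_of_mem hQ)
    have hPL := hS P (mem_insert_self _ _)
    refine ⟨p.refine hL P hPL, fun Q hQ => ?_⟩
    rcases mem_insert.mp hQ with rfl | hQ
    · exact p.refine_res_new hL _ _
    · exact p.refine_res_old hL _ _ (hp Q hQ)

namespace Part

variable {L : Set (H →L[ℂ] H)} (p : Part L)

/-- Sum of the pieces over a finite set of indices. -/
noncomputable def s (U : Finset p.ι) : H →L[ℂ] H := ∑ i ∈ U, p.e i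

lemma s_univ : p.s univ = 1 := p.sum_one

lemma s_empty : p.s ∅ = 0 := by simp [s]

lemma e_mul (i j : p.ι) : p.e i * p.e j = if i = j then p.e i else 0 := by
  split_ifs with h
  · subst h
    exact (p.proj i).isIdempotentElem
  · exact p.orth i j h

lemma s_mul (U V : Finset p.ι) : p.s U * p.s V = p.s (U ∩ V) := by
  unfold s
  rw [Finset.sum_mul_sum]
  simp only [e_mul]
  simp only [Finset.sum_ite_eq]
  rw [← Finset.sum_filter, Finset.filter_mem_eq_inter]

lemma e_mul_s (i : p.ι) (V : Finset p.ι) : p.e i * p.s V = if i ∈ V then p.e i else 0 := by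
  unfold s
  rw [Finset.mul_sum]
  simp only [e_mul]
  simp only [Finset.sum_ite_eq]

lemma s_mul_e (i : p.ι) (V : Finset p.ι) : p.s V * p.e i = if i ∈ V then p.e i else 0 := by
  unfold s
  rw [Finset.sum_mul]
  simp only [e_mul]
  by_cases h : i ∈ V
  · rw [if_pos h, Finset.sum_eq_single_of_mem i h]
    · simp
    · intro b _ hb
      simp [hb]
  · rw [if_neg h]
    refine Finset.sum_eq_zero fun b hb => ?_
    have : b ≠ i := by
      rintro rfl
      exact h hb
    simp [this]

lemma s_compl (U : Finset p.ι) : p.s Uᶜ = 1 - p.s U := by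
  rw [eq_sub_iff_add_eq, ← p.s_univ]
  unfold s
  rw [add_comm]
  exact Finset.sum_add_sum_compl U _

lemma gen_s (U : Finset p.ι) : BoolGen L (p.s U) := by
  classical
  induction U using Finset.induction with
  | empty =>
    have := p.mem ∅ (by simp [IsUpperSet])
    rw [s_empty]
    simp only [sum_empty] at this
    exact .of this
  | insert i U hi ih =>
    have : p.s (insert i U) = p.e i + p.s U := by
      unfold s
      rw [Finset.sum_insert hi]
    rw [this]
    refine (p.gen i).add ih ?_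
    rw [e_mul_s, if_neg hi]

lemma proj_s (U : Finset p.ι) : IsStarProjection (p.s U) := by
  constructor
  · show p.s U * p.s U = p.s U
    rw [s_mul, Finset.inter_self]
  · show star (p.s U) = p.s U
    unfold s
    rw [star_sum]
    exact Finset.sum_congr rfl fun i _ => (p.proj i).isSelfAdjoint

lemma s_mem (U : Finset p.ι) (hU : IsUpperSet (U : Set p.ι)) : p.s U ∈ L := p.mem U hU

end Part

lemma proj_inner {P : H →L[ℂ] H} (hP : IsStarProjection P) (x y : H) :
    inner ℂ (P x) y = inner ℂ x (P y) := by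
  have h : ContinuousLinearMap.adjoint P = P := hP.isSelfAdjoint
  conv_lhs => rw [← h]
  exact ContinuousLinearMap.adjoint_inner_left P y x

lemma proj_norm_sq {P : H →L[ℂ] H} (hP : IsStarProjection P) (x : H) :
    ‖P x‖ ^ 2 = (inner ℂ (P x) x).re := by
  have h1 : P (P x) = P x := by
    have := hP.isIdempotentElem
    exact congrArg (fun T : H →L[ℂ] H => T x) this
  have h2 : inner ℂ (P x) (P x) = inner ℂ (P x) x := by
    rw [← proj_inner hP (P x) x, h1]
  rw [← h2, inner_self_eq_norm_sq_to_K]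
  norm_cast

lemma proj_norm_le {P : H →L[ℂ] H} (hP : IsStarProjection P) (x : H) : ‖P x‖ ≤ ‖x‖ := by
  have h1 := proj_norm_sq hP x
  have h2 : (inner ℂ (P x) x).re ≤ ‖P x‖ * ‖x‖ := re_inner_le_norm (𝕜 := ℂ) _ _
  by_contra h
  push Not at h
  have : 0 < ‖P x‖ := lt_of_le_of_lt (norm_nonneg _) h
  nlinarith

lemma proj_opNorm_le {P : H →L[ℂ] H} (hP : IsStarProjection P) : ‖P‖ ≤ 1 :=
  P.opNorm_le_bound zero_le_one fun x => by rw [one_mul]; exact proj_norm_le hP x

lemma Part.norm_sq_s {L : Set (H →L[ℂ] H)} (p : Part L) (U : Finset p.ι) (x : H) :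
    ‖p.s U x‖ ^ 2 = ∑ i ∈ U, ‖p.e i x‖ ^ 2 := by
  rw [proj_norm_sq (p.proj_s U)]
  simp_rw [proj_norm_sq (p.proj _)]
  unfold s
  rw [_root_.sum_apply, sum_inner, Complex.re_sum]

lemma Part.norm_sq {L : Set (H →L[ℂ] H)} (p : Part L) (x : H) :
    ‖x‖ ^ 2 = ∑ i, ‖p.e i x‖ ^ 2 := by
  have := p.norm_sq_s univ x
  rw [p.s_univ] at this
  simpa using this

lemma Part.sum_apply {L : Set (H →L[ℂ] H)} (p : Part L) (x : H) :
    ∑ i, p.e i x = x := by
  have := congrArg (fun T : H →L[ℂ] H => T x) p.sum_one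
  simpa using this

lemma Part.norm_sq_sum {L : Set (H →L[ℂ] H)} (p : Part L) (y : p.ι → H)
    (hy : ∀ i, p.e i (y i) = y i) (U : Finset p.ι) :
    ‖∑ i ∈ U, y i‖ ^ 2 = ∑ i ∈ U, ‖y i‖ ^ 2 := by
  have h0 : ∀ i j, p.e i (y j) = if i = j then y i else 0 := by
    intro i j
    rw [← hy j]
    have := congrArg (fun T : H →L[ℂ] H => T (y j)) (p.e_mul i j)
    simp only [mul_apply_eq_comp] at this
    rw [this]
    split_ifs with h
    · subst h
      exact hy i
    · simp
  rw [p.norm_sq]
  have h1 : ∀ i, p.e i (∑ j ∈ U, y j) = if i ∈ U then y i else 0 := by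
    intro i
    rw [map_sum]
    simp only [h0]
    simp
  simp only [h1]
  have : ∀ i, ‖if i ∈ U then y i else 0‖ ^ 2 = if i ∈ U then ‖y i‖ ^ 2 else 0 := by
    intro i
    split_ifs <;> simp
  simp only [this]
  simp

end Pool.Agent.CSLRad
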