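import Mathlib

/-! Finite transport (Hall/Strassen) lemma and a max-flow lemma on a finite preordered set. -/

namespace Pool.Agent.CSLRad

open Finset Filter Topology

section Transport

variable {ι : Type*} [Fintype ι] [DecidableEq ι] [Preorder ι]

/-- Layer cake inequality for antitone weights. -/
lemma layer_cake (a b : ι → ℝ)
    (h : ∀ D : Finset ι, IsLowerSet (D : Set ι) → ∑ i ∈ D, b i ≤ ∑ i ∈ D, a i) :
    ∀ (n : ℕ) (F : ι → ℝ), (∀ i, 0 ≤ F i) → Antitone F → (univ.filter (fun i => 0 < F i)).card ≤ n →
    ∑ i, F i * b i ≤ ∑ i, F i * a i := by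
  classical
  intro n
  induction n with
  | zero =>
    intro F hF _ hcard
    have h0 : univ.filter (fun i => 0 < F i) = ∅ := by
      simpa using hcard
    have : ∀ i, F i = 0 := by
      intro i
      by_contra hne
      have : i ∈ univ.filter (fun i => 0 < F i) := by
        simp only [mem_filter, mem_univ, true_and]
        exact lt_of_le_of_ne (hF i) (Ne.symm hne)
      rw [h0] at this
      simp at this
    simp [this]
  | succ n ih =>
    intro F hF hanti hcard
    set D := univ.filter (fun i => 0 < F i) with hD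
    by_cases hDe : D = ∅
    · have : ∀ i, F i = 0 := by
        intro i
        by_contra hne
        have : i ∈ D := by
          simp only [hD, mem_filter, mem_univ, true_and]
          exact lt_of_le_of_ne (hF i) (Ne.symm hne)
        rw [hDe] at this
        simp at this
      simp [this]
    · obtain ⟨i0, hi0, hmin⟩ := D.exists_min_image F (nonempty_iff_ne_empty.mpr hDe)
      have hm : 0 < F i0 := by
        have := hi0
        simp only [hD, mem_filter, mem_univ, true_and] at this
        exact this
      set m := F i0 with hmdef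
      have hDlow : IsLowerSet (D : Set ι) := by
        intro x y hyx hx
        simp only [hD, coe_filter, mem_univ, true_and, Set.mem_ofPred_eq] at hx ⊢
        exact lt_of_lt_of_le hx (hanti hyx)
      let F' : ι → ℝ := fun i => if i ∈ D then F i - m else 0
      have hF' : ∀ i, 0 ≤ F' i := by
        intro i
        simp only [F']
        split_ifs with hi
        · have := hmin i hi
          linarith
        · exact le_refl _
      have hFF' : ∀ i, F i = F' i + (if i ∈ D then m else 0) := by
        intro i
        simp only [F']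
        split_ifs with hi
        · ring
        · have : ¬ 0 < F i := by
            simpa [hD] using hi
          have h2 := hF i
          linarith
      have hanti' : Antitone F' := by
        intro x y hxy
        simp only [F']
        by_cases hy : y ∈ D
        · have hx : x ∈ D := hDlow hxy hy
          simp only [hx, hy, if_true]
          have := hanti hxy
          linarith
        · simp only [hy, if_false]
          split_ifs with hx
          · have := hmin x hx
            linarith
          · exact le_refl _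
      have hcard' : (univ.filter (fun i => 0 < F' i)).card ≤ n := by
        have hsub : univ.filter (fun i => 0 < F' i) ⊆ D.erase i0 := by
          intro i hi
          simp only [mem_filter, mem_univ, true_and, F'] at hi
          split_ifs at hi with hiD
          · rw [mem_erase]
            refine ⟨?_, hiD⟩
            rintro rfl
            simp [hmdef] at hi
          · exact absurd hi (lt_irrefl _)
        have h1 := card_le_card hsub
        rw [card_erase_of_mem hi0] at h1
        omega
      have key := ih F' hF' hanti' hcard'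
      have e1 : ∀ c : ι → ℝ, ∑ i, F i * c i = ∑ i, F' i * c i + m * ∑ i ∈ D, c i := by
        intro c
        have : ∀ i, F i * c i = F' i * c i + (if i ∈ D then m * c i else 0) := by
          intro i
          rw [hFF' i]
          split_ifs <;> ring
        simp_rw [this]
        rw [sum_add_distrib, ← sum_filter, mul_sum]
        simp
      rw [e1 a, e1 b]
      have h3 := h D hDlow
      have h4 : m * ∑ i ∈ D, b i ≤ m * ∑ i ∈ D, a i := mul_le_mul_of_nonneg_left h3 hm.le
      linarith

/-- Transport plan (Hall / Strassen for a finite preordered set). -/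
lemma exists_plan (a b : ι → ℝ) (ha : ∀ i, 0 ≤ a i) (hb : ∀ i, 0 ≤ b i)
    (h : ∀ D : Finset ι, IsLowerSet (D : Set ι) → ∑ i ∈ D, b i ≤ ∑ i ∈ D, a i) :
    ∃ π : ι → ι → ℝ, (∀ i j, 0 ≤ π i j) ∧ (∀ i j, ¬ i ≤ j → π i j = 0) ∧
      (∀ i, ∑ j, π i j ≤ a i) ∧ (∀ j, ∑ i, π i j = b j) := by
  classical
  let Pi0 : Set (ι → ι → ℝ) := {π | (∀ i j, 0 ≤ π i j) ∧ (∀ i j, ¬ i ≤ j → π i j = 0) ∧
      (∀ i, ∑ j, π i j ≤ a i)}
  have hcont : ∀ i j : ι, Continuous (fun π : ι → ι → ℝ => π i j) := fun i j =>
    (continuous_apply j).comp (continuous_apply i)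
  have hclosed : IsClosed Pi0 := by
    have e : Pi0 = (⋂ i, ⋂ j, {π | 0 ≤ π i j}) ∩ ((⋂ i, ⋂ j, {π | ¬ i ≤ j → π i j = 0}) ∩
        (⋂ i, {π | ∑ j, π i j ≤ a i})) := by
      ext π
      simp [Pi0]
    rw [e]
    refine IsClosed.inter ?_ (IsClosed.inter ?_ ?_)
    · exact isClosed_iInter fun i => isClosed_iInter fun j => isClosed_le continuous_const (hcont i j)
    · refine isClosed_iInter fun i => isClosed_iInter fun j => ?_
      by_cases hij : i ≤ j
      · simp [hij]
      · simp only [hij, not_false_eq_true, true_implies]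
        exact isClosed_eq (hcont i j) continuous_const
    · exact isClosed_iInter fun i => isClosed_le (continuous_finsetSum _ fun j _ => hcont i j)
        continuous_const
  have hcompact : IsCompact Pi0 := by
    refine IsCompact.of_isClosed_subset (isCompact_Icc (a := (0 : ι → ι → ℝ))
      (b := fun i _ => a i)) hclosed ?_
    rintro π ⟨h1, _, h3⟩
    refine ⟨fun i j => h1 i j, fun i j => ?_⟩
    exact (single_le_sum (fun j _ => h1 i j) (mem_univ j)).trans (h3 i)
  let c : (ι → ι → ℝ) →L[ℝ] (ι → ℝ) :=
    ContinuousLinearMap.pi fun j => ∑ i, (ContinuousLinearMap.proj j).comp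
      (ContinuousLinearMap.proj (R := ℝ) (φ := fun _ : ι => ι → ℝ) i)
  have hc : ∀ π j, c π j = ∑ i, π i j := by
    intro π j
    simp [c]
  let K : Set (ι → ℝ) := c '' Pi0
  have hKc : IsClosed K := (hcompact.image c.continuous).isClosed
  have hPconv : Convex ℝ Pi0 := by
    rintro π ⟨h1, h2, h3⟩ ρ ⟨g1, g2, g3⟩ s t hs ht hst
    refine ⟨fun i j => ?_, fun i j hij => ?_, fun i => ?_⟩
    · simp only [Pi.add_apply, Pi.smul_apply, smul_eq_mul]
      have := mul_nonneg hs (h1 i j)
      have := mul_nonneg ht (g1 i j)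
      linarith
    · simp [h2 i j hij, g2 i j hij]
    · simp only [Pi.add_apply, Pi.smul_apply, smul_eq_mul, sum_add_distrib, ← mul_sum]
      have e1 := mul_le_mul_of_nonneg_left (h3 i) hs
      have e2 := mul_le_mul_of_nonneg_left (g3 i) ht
      calc s * ∑ j, π i j + t * ∑ j, ρ i j ≤ s * a i + t * a i := add_le_add e1 e2
        _ = a i := by rw [← add_mul, hst, one_mul]
  have hKconv : Convex ℝ K := hPconv.linear_image c.toLinearMap
  by_cases hbK : b ∈ K
  · obtain ⟨π, ⟨h1, h2, h3⟩, hπ⟩ := hbK
    refine ⟨π, h1, h2, h3, fun j => ?_⟩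
    rw [← hc, hπ]
  · exfalso
    obtain ⟨f, u, hf1, hf2⟩ := geometric_hahn_banach_closed_point hKconv hKc hbK
    let g : ι → ℝ := fun j => f (Pi.single j 1)
    have hfg : ∀ x : ι → ℝ, f x = ∑ j, x j * g j := by
      intro x
      conv_lhs => rw [← univ_sum_single x]
      rw [map_sum]
      refine sum_congr rfl fun j _ => ?_
      have : (Pi.single j (x j) : ι → ℝ) = x j • Pi.single j (1 : ℝ) := by
        rw [← Pi.single_smul, smul_eq_mul, mul_one]
      rw [this, map_smul, smul_eq_mul]
    have hmax : ∀ i : ι, ∃ j, i ≤ j ∧ ∀ k, i ≤ k → g k ≤ g j := by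
      intro i
      obtain ⟨j, hj, hj2⟩ := (univ.filter (fun j => i ≤ j)).exists_max_image g
        ⟨i, by simp⟩
      simp only [mem_filter, mem_univ, true_and] at hj hj2
      exact ⟨j, hj, hj2⟩
    choose J hJ1 hJ2 using hmax
    let F : ι → ℝ := fun i => max (g (J i)) 0
    have hF0 : ∀ i, 0 ≤ F i := fun i => le_max_right _ _
    have hFanti : Antitone F := by
      intro i i' hii'
      exact max_le_max (hJ2 i _ (hii'.trans (hJ1 i'))) (le_refl _)
    have hFg : ∀ i, g i ≤ F i := fun i => (hJ2 i i (le_refl _)).trans (le_max_left _ _)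
    let π : ι → ι → ℝ := fun i j => if j = J i ∧ 0 < g (J i) then a i else 0
    have hπrow : ∀ i (w : ι → ℝ), ∑ j, π i j * w j = if 0 < g (J i) then a i * w (J i) else 0 := by
      intro i w
      simp only [π]
      by_cases hg : 0 < g (J i)
      · simp [hg]
      · simp [hg]
    have hπ : π ∈ Pi0 := by
      refine ⟨fun i j => ?_, fun i j hij => ?_, fun i => ?_⟩
      · simp only [π]
        split_ifs
        · exact ha i
        · exact le_refl _
      · simp only [π]
        rw [if_neg]
        rintro ⟨rfl, _⟩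
        exact hij (hJ1 i)
      · have := hπrow i (fun _ => 1)
        simp only [mul_one] at this
        rw [this]
        split_ifs
        · exact le_refl _
        · exact ha i
    have h1 := hf1 (c π) ⟨π, hπ, rfl⟩
    have h2 : f (c π) = ∑ i, F i * a i := by
      rw [hfg]
      simp_rw [hc, sum_mul]
      rw [sum_comm]
      refine sum_congr rfl fun i _ => ?_
      rw [hπrow i g]
      simp only [F]
      split_ifs with hg
      · rw [max_eq_left hg.le, mul_comm]
      · rw [max_eq_right (not_lt.mp hg), zero_mul]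
    have h3 : f b ≤ ∑ i, F i * b i := by
      rw [hfg]
      refine sum_le_sum fun i _ => ?_
      rw [mul_comm]
      exact mul_le_mul_of_nonneg_right (hFg i) (hb i)
    have h4 := layer_cake a b h _ F hF0 hFanti (le_refl _)
    linarith

/-- A max-flow (polymatroid) lemma. -/
lemma exists_flow (a b : ι → ℝ) (ha : ∀ i, 0 ≤ a i) (hb : ∀ i, 0 ≤ b i) (c : ℝ)
    (hc : ∀ D : Finset ι, IsLowerSet (D : Set ι) → c ≤ ∑ i ∈ D, a i + ∑ i ∈ Dᶜ, b i) :
    ∃ f : ι → ℝ, (∀ i, 0 ≤ f i) ∧ (∀ i, f i ≤ b i) ∧
      (∀ D : Finset ι, IsLowerSet (D : Set ι) → ∑ i ∈ D, f i ≤ ∑ i ∈ D, a i) ∧ c ≤ ∑ i, f i := by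
  classical
  let K : Set (ι → ℝ) := {f | (∀ i, 0 ≤ f i) ∧ (∀ i, f i ≤ b i) ∧
      (∀ D : Finset ι, IsLowerSet (D : Set ι) → ∑ i ∈ D, f i ≤ ∑ i ∈ D, a i)}
  have hclosed : IsClosed K := by
    have e : K = (⋂ i, {f | 0 ≤ f i}) ∩ ((⋂ i, {f | f i ≤ b i}) ∩
        (⋂ D : Finset ι, {f | IsLowerSet (D : Set ι) → ∑ i ∈ D, f i ≤ ∑ i ∈ D, a i})) := by
      ext f
      simp [K]
    rw [e]
    refine IsClosed.inter ?_ (IsClosed.inter ?_ ?_)
    · exact isClosed_iInter fun i => isClosed_le continuous_const (continuous_apply i)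
    · exact isClosed_iInter fun i => isClosed_le (continuous_apply i) continuous_const
    · refine isClosed_iInter fun D => ?_
      by_cases hD : IsLowerSet (D : Set ι)
      · simp only [hD, true_implies]
        exact isClosed_le (continuous_finsetSum _ fun j _ => continuous_apply j) continuous_const
      · simp [hD]
  have hcompact : IsCompact K := by
    refine IsCompact.of_isClosed_subset (isCompact_Icc (a := (0 : ι → ℝ)) (b := b)) hclosed ?_
    rintro f ⟨h1, h2, _⟩
    exact ⟨h1, h2⟩
  have hne : K.Nonempty := by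
    refine ⟨0, fun i => le_refl _, hb, fun D _ => ?_⟩
    simp only [Pi.zero_apply, sum_const_zero]
    exact sum_nonneg fun i _ => ha i
  obtain ⟨f, ⟨hf0, hfb, hfD⟩, hmax⟩ := hcompact.exists_isMaxOn hne
    (f := fun f : ι → ℝ => ∑ i, f i) (continuous_finsetSum _ fun j _ => continuous_apply j).continuousOn
  refine ⟨f, hf0, hfb, hfD, ?_⟩
  let tight : Finset ι → Prop := fun D => IsLowerSet (D : Set ι) ∧ ∑ i ∈ D, f i = ∑ i ∈ D, a i
  have htu : ∀ D1, tight D1 → ∀ D2, tight D2 → tight (D1 ∪ D2) := by
    rintro D1 ⟨l1, t1⟩ D2 ⟨l2, t2⟩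
    have lu : IsLowerSet ((D1 ∪ D2 : Finset ι) : Set ι) := by
      rw [coe_union]
      exact l1.union l2
    have li : IsLowerSet ((D1 ∩ D2 : Finset ι) : Set ι) := by
      rw [coe_inter]
      exact l1.inter l2
    refine ⟨lu, ?_⟩
    have e1 := sum_union_inter (s₁ := D1) (s₂ := D2) (f := f)
    have e2 := sum_union_inter (s₁ := D1) (s₂ := D2) (f := a)
    have h1 := hfD _ lu
    have h2 := hfD _ li
    linarith
  let D0 : Finset ι := (univ.filter tight).sup id
  have hD0 : tight D0 := by
    refine sup_induction (p := tight) ?_ htu ?_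
    · refine ⟨by simp [IsLowerSet], by simp⟩
    · intro D hD
      simpa using hD
  have hout : ∀ j, j ∉ D0 → f j = b j := by
    intro j hj
    by_contra hne'
    have hlt : f j < b j := lt_of_le_of_ne (hfb j) hne'
    have hnt : ∀ D : Finset ι, IsLowerSet (D : Set ι) → j ∈ D → ∑ i ∈ D, f i < ∑ i ∈ D, a i := by
      intro D hD hjD
      refine lt_of_le_of_ne (hfD D hD) fun heq => hj ?_
      have : D ≤ D0 := le_sup (f := id) (s := univ.filter tight) (by simp [tight, hD, heq])
      exact this hjD
    have hev : ∀ᶠ ε : ℝ in 𝓝[>] (0 : ℝ), (f j + ε ≤ b j) ∧ ∀ D ∈ (univ : Finset (Finset ι)),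
        (IsLowerSet (D : Set ι) → j ∈ D → ∑ i ∈ D, f i + ε ≤ ∑ i ∈ D, a i) := by
      refine Filter.Eventually.and ?_ ?_
      · have : Tendsto (fun ε : ℝ => f j + ε) (𝓝[>] 0) (𝓝 (f j + 0)) :=
          (tendsto_const_nhds.add tendsto_id).mono_left nhdsWithin_le_nhds
        rw [add_zero] at this
        exact this.eventually_le_const hlt
      · rw [Filter.eventually_all_finset]
        intro D _
        by_cases hD : IsLowerSet (D : Set ι) ∧ j ∈ D
        · have : Tendsto (fun ε : ℝ => ∑ i ∈ D, f i + ε) (𝓝[>] 0) (𝓝 (∑ i ∈ D, f i + 0)) :=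
            (tendsto_const_nhds.add tendsto_id).mono_left nhdsWithin_le_nhds
          rw [add_zero] at this
          filter_upwards [this.eventually_le_const (hnt D hD.1 hD.2)] with ε hε
          intro _ _
          exact hε
        · refine Filter.Eventually.of_forall fun ε h1 h2 => absurd ⟨h1, h2⟩ hD
    obtain ⟨ε, ⟨hε1, hε2⟩, hε0⟩ := (hev.and self_mem_nhdsWithin).exists
    have hε0 : 0 < ε := hε0
    let f' : ι → ℝ := fun i => f i + if i = j then ε else 0
    have hsum : ∀ D : Finset ι, ∑ i ∈ D, f' i = ∑ i ∈ D, f i + if j ∈ D then ε else 0 := by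
      intro D
      simp [f', sum_add_distrib]
    have hf'K : f' ∈ K := by
      refine ⟨fun i => ?_, fun i => ?_, fun D hD => ?_⟩
      · simp only [f']
        split_ifs
        · linarith [hf0 i]
        · linarith [hf0 i]
      · simp only [f']
        split_ifs with hij
        · rw [hij]; exact hε1
        · linarith [hfb i]
      · rw [hsum]
        split_ifs with hjD
        · exact hε2 D (mem_univ _) hD hjD
        · linarith [hfD D hD]
    have := hmax hf'K
    simp only [Set.mem_ofPred_eq] at this
    have h2 := hsum univ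
    simp only [mem_univ, if_true] at h2
    have h3 : ∑ i, f' i ≤ ∑ i, f i := this
    rw [h2] at h3
    linarith
  have h1 := hc D0 hD0.1
  have h2 : ∑ i ∈ D0ᶜ, f i = ∑ i ∈ D0ᶜ, b i := by
    refine sum_congr rfl fun j hj => hout j (by simpa using hj)
  calc c ≤ ∑ i ∈ D0, a i + ∑ i ∈ D0ᶜ, b i := h1
    _ = ∑ i ∈ D0, f i + ∑ i ∈ D0ᶜ, f i := by rw [hD0.2, h2]
    _ = ∑ i, f i := sum_add_sum_compl D0 f

end Transport

end Pool.Agent.CSLRad
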