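import Mathlib

/-! Weak limits along ultrafilters in Hilbert spaces. -/

set_option linter.unusedSectionVars false

namespace Pool.Agent.CSLRad

open Filter Topology

variable {H : Type*} [NormedAddCommGroup H] [InnerProductSpace ℂ H] [CompleteSpace H]
variable {K : Type*} [NormedAddCommGroup K] [InnerProductSpace ℂ K] [CompleteSpace K]
variable {D : Type*}

/-- Weak convergence. -/
def WTendsto (x : D → H) (l : Filter D) (y : H) : Prop :=
  ∀ ξ, Tendsto (fun d => inner ℂ (x d) ξ) l (𝓝 (inner ℂ y ξ))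

lemma WTendsto.unique {x : D → H} {l : Filter D} [l.NeBot] {y z : H}
    (h1 : WTendsto x l y) (h2 : WTendsto x l z) : y = z := by
  refine ext_inner_right ℂ fun ξ => tendsto_nhds_unique (h1 ξ) (h2 ξ)

lemma WTendsto.add {x x' : D → H} {l : Filter D} {y y' : H}
    (h1 : WTendsto x l y) (h2 : WTendsto x' l y') : WTendsto (fun d => x d + x' d) l (y + y') := by
  intro ξ
  simp only [inner_add_left]
  exact (h1 ξ).add (h2 ξ)

lemma WTendsto.sub {x x' : D → H} {l : Filter D} {y y' : H}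
    (h1 : WTendsto x l y) (h2 : WTendsto x' l y') : WTendsto (fun d => x d - x' d) l (y - y') := by
  intro ξ
  simp only [inner_sub_left]
  exact (h1 ξ).sub (h2 ξ)

lemma WTendsto.smul {x : D → H} {l : Filter D} {y : H} (c : ℂ)
    (h1 : WTendsto x l y) : WTendsto (fun d => c • x d) l (c • y) := by
  intro ξ
  simp only [inner_smul_left]
  exact (h1 ξ).const_mul _

lemma WTendsto.sum {J : Type*} {s : Finset J} {x : J → D → H} {l : Filter D} {y : J → H}
    (h1 : ∀ j ∈ s, WTendsto (x j) l (y j)) :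
    WTendsto (fun d => ∑ j ∈ s, x j d) l (∑ j ∈ s, y j) := by
  intro ξ
  simp only [sum_inner]
  exact tendsto_finsetSum _ fun j hj => h1 j hj ξ

lemma WTendsto.map {x : D → H} {l : Filter D} {y : H} (B : H →L[ℂ] K)
    (h1 : WTendsto x l y) : WTendsto (fun d => B (x d)) l (B y) := by
  intro ξ
  have e : ∀ z : H, inner ℂ (B z) ξ = inner ℂ z (ContinuousLinearMap.adjoint B ξ) := fun z =>
    (ContinuousLinearMap.adjoint_inner_right B z ξ).symm
  simp only [e]
  exact h1 _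

lemma wtendsto_const (y : H) (l : Filter D) : WTendsto (fun _ => y) l y := fun _ =>
  tendsto_const_nhds

lemma WTendsto.congr' {x x' : D → H} {l : Filter D} {y : H} (h : x =ᶠ[l] x')
    (h1 : WTendsto x l y) : WTendsto x' l y := by
  intro ξ
  refine (h1 ξ).congr' ?_
  filter_upwards [h] with d hd
  rw [hd]

/-- Lower semicontinuity of sums of squares. -/
lemma WTendsto.sum_sq_le {J : Type*} [Fintype J] {x : J → D → H} {l : Filter D} [l.NeBot]
    {y : J → H} (h1 : ∀ j, WTendsto (x j) l (y j)) {c : ℝ}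
    (hc : ∀ᶠ d in l, ∑ j, ‖x j d‖ ^ 2 ≤ c) : ∑ j, ‖y j‖ ^ 2 ≤ c := by
  have hlim : Tendsto (fun d => ∑ j, (inner ℂ (x j d) (y j)).re) l (𝓝 (∑ j, ‖y j‖ ^ 2)) := by
    have : ∑ j, ‖y j‖ ^ 2 = ∑ j, (inner ℂ (y j) (y j)).re := by
      refine Finset.sum_congr rfl fun j _ => ?_
      have := @inner_self_eq_norm_sq_to_K ℂ H _ _ _ (y j)
      rw [this]
      norm_cast
    rw [this]
    exact tendsto_finsetSum _ fun j _ => (Complex.continuous_re.tendsto _).comp (h1 j (y j))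
  have hb : ∀ᶠ d in l, ∑ j, (inner ℂ (x j d) (y j)).re ≤ (c + ∑ j, ‖y j‖ ^ 2) / 2 := by
    filter_upwards [hc] with d hd
    have : ∀ j, (inner ℂ (x j d) (y j)).re ≤ (‖x j d‖ ^ 2 + ‖y j‖ ^ 2) / 2 := by
      intro j
      have h2 : (inner ℂ (x j d) (y j)).re ≤ ‖x j d‖ * ‖y j‖ := re_inner_le_norm (𝕜 := ℂ) _ _
      nlinarith [sq_nonneg (‖x j d‖ - ‖y j‖)]
    calc ∑ j, (inner ℂ (x j d) (y j)).re ≤ ∑ j, (‖x j d‖ ^ 2 + ‖y j‖ ^ 2) / 2 :=
          Finset.sum_le_sum fun j _ => this j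
      _ = (∑ j, ‖x j d‖ ^ 2 + ∑ j, ‖y j‖ ^ 2) / 2 := by
          rw [← Finset.sum_div, Finset.sum_add_distrib]
      _ ≤ _ := by linarith
  have := le_of_tendsto hlim hb
  linarith

lemma WTendsto.norm_le {x : D → H} {l : Filter D} [l.NeBot]
    {y : H} (h1 : WTendsto x l y) {c : ℝ} (hc0 : 0 ≤ c)
    (hc : ∀ᶠ d in l, ‖x d‖ ≤ c) : ‖y‖ ≤ c := by
  have := WTendsto.sum_sq_le (J := Unit) (x := fun _ => x) (y := fun _ => y) (fun _ => h1)
    (c := c ^ 2) (by
      filter_upwards [hc] with d hd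
      simp only [Finset.univ_unique, Finset.sum_const, Finset.card_singleton, one_smul]
      exact pow_le_pow_left₀ (norm_nonneg _) hd 2)
  simp only [Finset.univ_unique, Finset.sum_const, Finset.card_singleton, one_smul] at this
  exact (pow_le_pow_iff_left₀ (norm_nonneg _) hc0 (by norm_num)).1 this

/-- Weak compactness of balls, along an ultrafilter. -/
lemma exists_wlim (U : Ultrafilter D) (x : D → H) (C : ℝ) (hx : ∀ d, ‖x d‖ ≤ C) :
    ∃ y : H, WTendsto x U y := by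
  have hex : ∀ ξ : H, ∃ c : ℂ, Tendsto (fun d => inner ℂ (x d) ξ) U (𝓝 c) := by
    intro ξ
    have hK : IsCompact (Metric.closedBall (0 : ℂ) (C * ‖ξ‖)) := isCompact_closedBall _ _
    have hle : ((U.map (fun d => inner ℂ (x d) ξ) : Ultrafilter ℂ) : Filter ℂ) ≤
        𝓟 (Metric.closedBall (0 : ℂ) (C * ‖ξ‖)) := by
      rw [le_principal_iff]
      rw [Ultrafilter.coe_map, Filter.mem_map]
      refine Filter.univ_mem' fun d => ?_
      simp only [Metric.mem_closedBall, dist_zero_right, Set.mem_preimage]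
      exact (norm_inner_le_norm _ _).trans (mul_le_mul_of_nonneg_right (hx d) (norm_nonneg _))
    obtain ⟨c, _, hc⟩ := hK.ultrafilter_le_nhds _ hle
    exact ⟨c, hc⟩
  choose ℓ hℓ using hex
  have hadd : ∀ ξ η, ℓ (ξ + η) = ℓ ξ + ℓ η := by
    intro ξ η
    refine tendsto_nhds_unique (hℓ (ξ + η)) ?_
    simp only [inner_add_right]
    exact (hℓ ξ).add (hℓ η)
  have hsmul : ∀ (c : ℂ) ξ, ℓ (c • ξ) = c * ℓ ξ := by
    intro c ξ
    refine tendsto_nhds_unique (hℓ (c • ξ)) ?_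
    simp only [inner_smul_right]
    exact (hℓ ξ).const_mul c
  have hbd : ∀ ξ, ‖ℓ ξ‖ ≤ C * ‖ξ‖ := by
    intro ξ
    refine le_of_tendsto (hℓ ξ).norm (Filter.Eventually.of_forall fun d => ?_)
    exact (norm_inner_le_norm _ _).trans (mul_le_mul_of_nonneg_right (hx d) (norm_nonneg _))
  let L : H →ₗ[ℂ] ℂ := { toFun := ℓ, map_add' := hadd, map_smul' := by intro c ξ; simpa using hsmul c ξ }
  let L' : H →L[ℂ] ℂ := L.mkContinuous C hbd
  refine ⟨(InnerProductSpace.toDual ℂ H).symm L', fun ξ => ?_⟩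
  rw [InnerProductSpace.toDual_symm_apply]
  exact hℓ ξ

/-- WOT compactness of balls of operators, along an ultrafilter. -/
lemma exists_wotlim (U : Ultrafilter D) (A : D → H →L[ℂ] K) (C : ℝ) (hC : 0 ≤ C)
    (hA : ∀ d, ‖A d‖ ≤ C) :
    ∃ B : H →L[ℂ] K, (∀ ξ, WTendsto (fun d => A d ξ) U (B ξ)) ∧ ‖B‖ ≤ C := by
  have hb : ∀ ξ d, ‖A d ξ‖ ≤ C * ‖ξ‖ := fun ξ d =>
    ((A d).le_opNorm ξ).trans (mul_le_mul_of_nonneg_right (hA d) (norm_nonneg _))
  have hex : ∀ ξ : H, ∃ y : K, WTendsto (fun d => A d ξ) U y := fun ξ =>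
    exists_wlim U _ (C * ‖ξ‖) (hb ξ)
  choose B hB using hex
  have hadd : ∀ ξ η, B (ξ + η) = B ξ + B η := by
    intro ξ η
    refine (hB (ξ + η)).unique ?_
    simp only [map_add]
    exact (hB ξ).add (hB η)
  have hsmul : ∀ (c : ℂ) ξ, B (c • ξ) = c • B ξ := by
    intro c ξ
    refine (hB (c • ξ)).unique ?_
    simp only [map_smul]
    exact (hB ξ).smul c
  have hbd : ∀ ξ, ‖B ξ‖ ≤ C * ‖ξ‖ := by
    intro ξ
    exact (hB ξ).norm_le (by positivity) (Filter.Eventually.of_forall fun d => hb ξ d)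
  let L : H →ₗ[ℂ] K := { toFun := B, map_add' := hadd, map_smul' := hsmul }
  exact ⟨L.mkContinuous C hbd, hB, L.mkContinuous_norm_le hC hbd⟩

end Pool.Agent.CSLRad
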