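import Mathlib
import Pool.Agent.CSLRad.Transport
import Pool.Agent.CSLRad.Wlim
import Pool.Agent.CSLRad.Basic

/-! Row interpolation in the algebra of a lattice of commuting projections. -/

set_option linter.unusedSectionVars false

namespace Pool.Agent.CSLRad

open Finset Filter Topology

variable {H : Type*} [NormedAddCommGroup H] [InnerProductSpace ℂ H] [CompleteSpace H]

/-- Finite subsets of `L`. -/
def FS (L : Set (H →L[ℂ] H)) := {S : Finset (H →L[ℂ] H) // ∀ P ∈ S, P ∈ L}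

instance (L : Set (H →L[ℂ] H)) : Preorder (FS L) := inferInstanceAs
  (Preorder {S : Finset (H →L[ℂ] H) // ∀ P ∈ S, P ∈ L})

instance (L : Set (H →L[ℂ] H)) : Nonempty (FS L) := ⟨⟨∅, by simp⟩⟩

instance (L : Set (H →L[ℂ] H)) : IsDirectedOrder (FS L) := by
  classical
  refine ⟨fun S T => ⟨⟨S.1 ∪ T.1, ?_⟩, ?_, ?_⟩⟩
  · intro P hP
    rcases mem_union.mp hP with h | h
    · exact S.2 P h
    · exact T.2 P h
  · exact Finset.subset_union_left (s₁ := S.1) (s₂ := T.1)
  · exact Finset.subset_union_right (s₁ := S.1) (s₂ := T.1)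

lemma exists_uf (L : Set (H →L[ℂ] H)) : ∃ U : Ultrafilter (FS L),
    ∀ P ∈ L, ∀ᶠ S in (U : Filter (FS L)), P ∈ S.1 := by
  refine ⟨Ultrafilter.of atTop, fun P hP => ?_⟩
  have h1 : ∀ᶠ S : FS L in atTop, P ∈ S.1 := by
    refine (eventually_ge_atTop (⟨{P}, by simpa using hP⟩ : FS L)).mono fun S hS => ?_
    exact hS (mem_singleton_self P)
  exact h1.filter_mono (Ultrafilter.of_le _)

/-- The lower set condition from domination. -/
lemma Part.dom_lower {L : Set (H →L[ℂ] H)} (p : Part L) {κ κ' : Type*} [Fintype κ] [Fintype κ']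
    (x : κ → H) (y : κ' → H)
    (h : ∀ M ∈ L, ∑ k, ‖(1 - M) (x k)‖ ^ 2 ≤ ∑ k, ‖(1 - M) (y k)‖ ^ 2)
    (D : Finset p.ι) (hD : IsLowerSet (D : Set p.ι)) :
    ∑ i ∈ D, ∑ k, ‖p.e i (x k)‖ ^ 2 ≤ ∑ i ∈ D, ∑ k, ‖p.e i (y k)‖ ^ 2 := by
  have hU : IsUpperSet ((Dᶜ : Finset p.ι) : Set p.ι) := by
    rw [coe_compl]
    exact hD.compl
  have h1 := h _ (p.s_mem _ hU)
  have e : 1 - p.s Dᶜ = p.s D := by
    rw [← p.s_compl, compl_compl]
  rw [e] at h1
  simp only [p.norm_sq_s] at h1
  rw [sum_comm, sum_comm (s := D)]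
  exact h1

/-- Finite level row interpolation. -/
lemma ri_fin {L : Set (H →L[ℂ] H)} (p : Part L) {κ : Type*} [Fintype κ] (y : κ → H) (z : H)
    (h : ∀ M ∈ L, ‖(1 - M) z‖ ^ 2 ≤ ∑ k, ‖(1 - M) (y k)‖ ^ 2) :
    ∃ A : κ → H →L[ℂ] H, (∀ ξ : κ → H, ‖∑ k, A k (ξ k)‖ ^ 2 ≤ ∑ k, ‖ξ k‖ ^ 2) ∧
      ∑ k, A k (y k) = z ∧ ∀ P, p.Res P → ∀ k, (1 - P) * A k * P = 0 := by
  classical
  set a : p.ι → ℝ := fun i => ∑ k, ‖p.e i (y k)‖ ^ 2 with ha_def
  set b : p.ι → ℝ := fun i => ‖p.e i z‖ ^ 2 with hb_def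
  have ha : ∀ i, 0 ≤ a i := fun i => sum_nonneg fun k _ => sq_nonneg _
  have hb : ∀ i, 0 ≤ b i := fun i => sq_nonneg _
  have hD : ∀ D : Finset p.ι, IsLowerSet (D : Set p.ι) → ∑ i ∈ D, b i ≤ ∑ i ∈ D, a i := by
    intro D hD
    have := p.dom_lower (κ := Unit) (fun _ => z) y (by simpa using h) D hD
    simpa using this
  obtain ⟨π, hπ0, hπle, hπa, hπb⟩ := exists_plan a b ha hb hD
  let c : p.ι → p.ι → ℝ := fun i j => π i j / (a i * b j)
  let A : κ → H →L[ℂ] H := fun k => ∑ i, ∑ j, (c i j : ℂ) •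
    InnerProductSpace.rankOne ℂ (p.e j z) (p.e i (y k))
  have hA : ∀ k ξ, A k ξ = ∑ j, (∑ i, (c i j : ℂ) * inner ℂ (p.e i (y k)) ξ) • p.e j z := by
    intro k ξ
    simp only [A, _root_.sum_apply, smul_apply,
      InnerProductSpace.rankOne_apply, smul_smul]
    rw [sum_comm]
    refine sum_congr rfl fun j _ => ?_
    rw [← sum_smul]
  -- sums over rows
  have hsumA : ∀ ξ : κ → H, ∑ k, A k (ξ k) =
      ∑ j, (∑ i, (c i j : ℂ) * ∑ k, inner ℂ (p.e i (y k)) (ξ k)) • p.e j z := by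
    intro ξ
    simp only [hA]
    rw [sum_comm]
    refine sum_congr rfl fun j _ => ?_
    rw [← sum_smul]
    congr 1
    rw [sum_comm]
    refine sum_congr rfl fun i _ => ?_
    rw [mul_sum]
  have hez : ∀ j, p.e j (p.e j z) = p.e j z := by
    intro j
    have := congrArg (fun T : H →L[ℂ] H => T z) (p.proj j).isIdempotentElem
    exact this
  have hin : ∀ i (x ξ : H), inner ℂ (p.e i x) ξ = inner ℂ (p.e i x) (p.e i ξ) := by
    intro i x ξ
    rw [← proj_inner (p.proj i) (p.e i x) ξ]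
    have := congrArg (fun T : H →L[ℂ] H => T x) (p.proj i).isIdempotentElem
    have h2 : p.e i (p.e i x) = p.e i x := this
    rw [h2]
  have hπa0 : ∀ i j, a i = 0 → π i j = 0 := by
    intro i j hi
    have h1 := hπa i
    rw [hi] at h1
    have h2 := single_le_sum (fun j _ => hπ0 i j) (mem_univ j)
    exact le_antisymm (h2.trans h1) (hπ0 i j)
  have hπb0 : ∀ i j, b j = 0 → π i j = 0 := by
    intro i j hj
    have h1 := hπb j
    rw [hj] at h1
    have h2 := single_le_sum (fun i _ => hπ0 i j) (mem_univ i)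
    exact le_antisymm (h2.trans h1.le) (hπ0 i j)
  refine ⟨A, ?_, ?_, ?_⟩
  · intro ξ
    rw [hsumA]
    set t : p.ι → ℝ := fun i => ∑ k, ‖p.e i (ξ k)‖ ^ 2 with ht_def
    set sI : p.ι → ℂ := fun i => ∑ k, inner ℂ (p.e i (y k)) (ξ k) with hs_def
    have ht : ∀ i, 0 ≤ t i := fun i => sum_nonneg fun k _ => sq_nonneg _
    have hs : ∀ i, ‖sI i‖ ^ 2 ≤ a i * t i := by
      intro i
      have h1 : ‖sI i‖ ≤ ∑ k, ‖p.e i (y k)‖ * ‖p.e i (ξ k)‖ := by
        refine (norm_sum_le _ _).trans (sum_le_sum fun k _ => ?_)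
        rw [hin]
        exact norm_inner_le_norm _ _
      calc ‖sI i‖ ^ 2 ≤ (∑ k, ‖p.e i (y k)‖ * ‖p.e i (ξ k)‖) ^ 2 :=
            pow_le_pow_left₀ (norm_nonneg _) h1 2
        _ ≤ _ := sum_mul_sq_le_sq_mul_sq _ _ _
    rw [p.norm_sq_sum (fun j => (∑ i, (c i j : ℂ) * sI i) • p.e j z)
      (fun j => by rw [map_smul, hez]) univ]
    have hterm : ∀ j, ‖(∑ i, (c i j : ℂ) * sI i) • p.e j z‖ ^ 2 ≤ ∑ i, π i j * (t i / a i) := by
      intro j
      rw [norm_smul, mul_pow]
      by_cases hbj : b j = 0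
      · have : ‖p.e j z‖ ^ 2 = 0 := hbj
        rw [this, mul_zero]
        exact sum_nonneg fun i _ => mul_nonneg (hπ0 i j) (div_nonneg (ht i) (ha i))
      · have hbpos : 0 < b j := lt_of_le_of_ne (hb j) (Ne.symm hbj)
        have h1 : ‖∑ i, (c i j : ℂ) * sI i‖ ≤ (∑ i, π i j * (‖sI i‖ / a i)) / b j := by
          refine (norm_sum_le _ _).trans ?_
          rw [sum_div]
          refine sum_le_sum fun i _ => ?_
          rw [norm_mul, Complex.norm_real, Real.norm_eq_abs, abs_of_nonneg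
            (div_nonneg (hπ0 i j) (mul_nonneg (ha i) (hb j)))]
          apply le_of_eq
          show π i j / (a i * b j) * ‖sI i‖ = _
          by_cases hai : a i = 0
          · simp [hai]
          · field_simp
        have h2 : (∑ i, π i j * (‖sI i‖ / a i)) ^ 2 ≤
            (∑ i, π i j) * ∑ i, π i j * (t i / a i) := by
          refine sum_sq_le_sum_mul_sum_of_sq_le_mul _ (fun i _ => hπ0 i j)
            (fun i _ => mul_nonneg (hπ0 i j) (div_nonneg (ht i) (ha i))) (fun i _ => ?_)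
          rw [mul_pow, div_pow]
          by_cases hai : a i = 0
          · simp [hai]
          · have hapos : 0 < a i := lt_of_le_of_ne (ha i) (Ne.symm hai)
            have h3 : ‖sI i‖ ^ 2 / a i ^ 2 ≤ t i / a i := by
              rw [div_le_div_iff₀ (by positivity) hapos]
              calc ‖sI i‖ ^ 2 * a i ≤ (a i * t i) * a i := mul_le_mul_of_nonneg_right (hs i) hapos.le
                _ = t i * a i ^ 2 := by ring
            calc π i j ^ 2 * (‖sI i‖ ^ 2 / a i ^ 2) ≤ π i j ^ 2 * (t i / a i) :=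
                  mul_le_mul_of_nonneg_left h3 (sq_nonneg _)
              _ = _ := by ring
        rw [hπb j] at h2
        calc ‖∑ i, (c i j : ℂ) * sI i‖ ^ 2 * ‖p.e j z‖ ^ 2
            ≤ ((∑ i, π i j * (‖sI i‖ / a i)) / b j) ^ 2 * b j :=
              mul_le_mul_of_nonneg_right (pow_le_pow_left₀ (norm_nonneg _) h1 2) (hb j)
          _ = (∑ i, π i j * (‖sI i‖ / a i)) ^ 2 / b j := by
              field_simp
          _ ≤ (b j * ∑ i, π i j * (t i / a i)) / b j := by gcongr
          _ = _ := by field_simp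
    calc ∑ j, ‖(∑ i, (c i j : ℂ) * sI i) • p.e j z‖ ^ 2 ≤ ∑ j, ∑ i, π i j * (t i / a i) :=
          sum_le_sum fun j _ => hterm j
      _ = ∑ i, (∑ j, π i j) * (t i / a i) := by
          rw [sum_comm]
          refine sum_congr rfl fun i _ => ?_
          rw [sum_mul]
      _ ≤ ∑ i, t i := by
          refine sum_le_sum fun i _ => ?_
          by_cases hai : a i = 0
          · simp [hai, ht i]
          · have hapos : 0 < a i := lt_of_le_of_ne (ha i) (Ne.symm hai)
            calc (∑ j, π i j) * (t i / a i) ≤ a i * (t i / a i) :=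
                  mul_le_mul_of_nonneg_right (hπa i) (div_nonneg (ht i) (ha i))
              _ = t i := by field_simp
      _ = ∑ k, ‖ξ k‖ ^ 2 := by
          simp only [ht_def]
          rw [sum_comm]
          refine sum_congr rfl fun k _ => ?_
          rw [← p.norm_sq]
  · rw [hsumA]
    have h1 : ∀ i, ∑ k, inner ℂ (p.e i (y k)) (y k) = (a i : ℂ) := by
      intro i
      simp only [ha_def]
      push_cast
      refine sum_congr rfl fun k _ => ?_
      rw [hin, inner_self_eq_norm_sq_to_K]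
      norm_cast
    simp only [h1]
    have h2 : ∀ j, (∑ i, (c i j : ℂ) * (a i : ℂ)) • p.e j z = p.e j z := by
      intro j
      by_cases hbj : b j = 0
      · have : p.e j z = 0 := by
          have h3 : ‖p.e j z‖ ^ 2 = 0 := hbj
          simpa using h3
        rw [this, smul_zero]
      · have h3 : ∑ i, (c i j : ℂ) * (a i : ℂ) = 1 := by
          have h4 : ∀ i, (c i j : ℂ) * (a i : ℂ) = ((π i j / b j : ℝ) : ℂ) := by
            intro i
            rw [← Complex.ofReal_mul]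
            congr 1
            simp only [c]
            by_cases hai : a i = 0
            · simp [hai, hπa0 i j hai]
            · field_simp
          simp only [h4]
          rw [← Complex.ofReal_sum, ← sum_div, hπb, div_self hbj, Complex.ofReal_one]
        rw [h3, one_smul]
    simp only [h2]
    exact p.sum_apply z
  · rintro P ⟨U, hU, rfl⟩ k
    have hsU : ∑ i ∈ U, p.e i = p.s U := rfl
    rw [hsU]
    ext ξ
    simp only [mul_apply_eq_comp, zero_apply]
    rw [hA, map_sum]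
    refine sum_eq_zero fun j _ => ?_
    rw [map_smul]
    by_cases hj : j ∈ U
    · have : (1 - p.s U) (p.e j z) = 0 := by
        have h3 := congrArg (fun T : H →L[ℂ] H => T z) (p.s_mul_e j U)
        simp only [mul_apply_eq_comp, if_pos hj] at h3
        simp [h3]
      rw [this, smul_zero]
    · have : ∑ i, (c i j : ℂ) * inner ℂ (p.e i (y k)) (p.s U ξ) = 0 := by
        refine sum_eq_zero fun i _ => ?_
        by_cases hij : i ≤ j
        · have hi : i ∉ U := fun hi => hj (hU hij hi)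
          have h3 : inner ℂ (p.e i (y k)) (p.s U ξ) = 0 := by
            rw [proj_inner (p.proj i)]
            have h4 := congrArg (fun T : H →L[ℂ] H => T ξ) (p.e_mul_s i U)
            simp only [mul_apply_eq_comp, if_neg hi] at h4
            rw [h4]
            simp
          rw [h3, mul_zero]
        · have : c i j = 0 := by simp [c, hπle i j hij]
          rw [this]
          simp
      rw [this, zero_smul]

/-- Row interpolation for a lattice of commuting projections. -/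
lemma row_interp {L : Set (H →L[ℂ] H)} (hL : IsPL L) {κ : Type*} [Fintype κ] (y : κ → H) (z : H)
    (h : ∀ M ∈ L, ‖(1 - M) z‖ ^ 2 ≤ ∑ k, ‖(1 - M) (y k)‖ ^ 2) :
    ∃ A : κ → H →L[ℂ] H, (∀ k, A k ∈ AlgL L) ∧
      (∀ ξ : κ → H, ‖∑ k, A k (ξ k)‖ ^ 2 ≤ ∑ k, ‖ξ k‖ ^ 2) ∧ ∑ k, A k (y k) = z := by
  classical
  obtain ⟨U, hU⟩ := exists_uf L
  have hex : ∀ S : FS L, ∃ A : κ → H →L[ℂ] H,
      (∀ ξ : κ → H, ‖∑ k, A k (ξ k)‖ ^ 2 ≤ ∑ k, ‖ξ k‖ ^ 2) ∧
      ∑ k, A k (y k) = z ∧ ∀ P ∈ S.1, ∀ k, (1 - P) * A k * P = 0 := by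
    intro S
    obtain ⟨p, hp⟩ := exists_part hL S.1 S.2
    obtain ⟨A, h1, h2, h3⟩ := ri_fin p y z h
    exact ⟨A, h1, h2, fun P hP => h3 P (hp P hP)⟩
  choose A hA1 hA2 hA3 using hex
  have hnorm : ∀ k S, ‖A S k‖ ≤ 1 := by
    intro k S
    refine (A S k).opNorm_le_bound zero_le_one fun ξ => ?_
    have h1 := hA1 S (Pi.single k ξ)
    have e1 : ∑ j, A S j ((Pi.single k ξ : κ → H) j) = A S k ξ := by
      rw [sum_eq_single_of_mem k (mem_univ _)]
      · simp
      · intro j _ hj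
        simp [hj]
    have e2 : ∑ j, ‖(Pi.single k ξ : κ → H) j‖ ^ 2 = ‖ξ‖ ^ 2 := by
      rw [sum_eq_single_of_mem k (mem_univ _)]
      · simp
      · intro j _ hj
        simp [hj]
    rw [e1, e2] at h1
    rw [one_mul]
    exact (pow_le_pow_iff_left₀ (norm_nonneg _) (norm_nonneg _) (by norm_num)).1 h1
  have hex2 : ∀ k, ∃ B : H →L[ℂ] H, (∀ ξ, WTendsto (fun S => A S k ξ) U (B ξ)) ∧ ‖B‖ ≤ 1 :=
    fun k => exists_wotlim U (fun S => A S k) 1 zero_le_one (hnorm k)
  choose B hB _ using hex2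
  refine ⟨B, ?_, ?_, ?_⟩
  · intro k P hP
    ext ξ
    simp only [mul_apply_eq_comp, zero_apply]
    have h1 : WTendsto (fun S => (1 - P) (A S k (P ξ))) U ((1 - P) (B k (P ξ))) :=
      (hB k (P ξ)).map (1 - P)
    have h2 : WTendsto (fun S => (1 - P) (A S k (P ξ))) U 0 := by
      refine (wtendsto_const 0 _).congr' ?_
      filter_upwards [hU P hP] with S hS
      have := congrArg (fun T : H →L[ℂ] H => T ξ) (hA3 S P hS k)
      simp only [mul_apply_eq_comp, zero_apply] at this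
      exact this.symm
    exact h1.unique h2
  · intro ξ
    have h1 : WTendsto (fun S => ∑ k, A S k (ξ k)) U (∑ k, B k (ξ k)) :=
      WTendsto.sum fun k _ => hB k (ξ k)
    have h2 := WTendsto.sum_sq_le (J := Unit) (x := fun _ S => ∑ k, A S k (ξ k))
      (y := fun _ => ∑ k, B k (ξ k)) (fun _ => h1) (c := ∑ k, ‖ξ k‖ ^ 2)
      (Filter.Eventually.of_forall fun S => by simpa using hA1 S ξ)
    simpa using h2
  · have h1 : WTendsto (fun S => ∑ k, A S k (y k)) U (∑ k, B k (y k)) :=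
      WTendsto.sum fun k _ => hB k (y k)
    refine h1.unique ?_
    refine (wtendsto_const z _).congr' ?_
    filter_upwards with S
    exact (hA2 S).symm

end Pool.Agent.CSLRad
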