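import Mathlib
import Pool.Agent.CSLRad.Interp

/-! A Grothendieck type inequality relative to a lattice of commuting projections. -/

set_option linter.unusedSectionVars false

namespace Pool.Agent.CSLRad

open Finset Filter Topology

variable {H : Type*} [NormedAddCommGroup H] [InnerProductSpace ℂ H] [CompleteSpace H]

/-- Sign of a Boolean. -/
def sg (b : Bool) : ℝ := if b then 1 else -1

lemma sg_not (b : Bool) : sg (!b) = - sg b := by cases b <;> simp [sg]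

lemma sg_mul_self (b : Bool) : sg b * sg b = 1 := by cases b <;> simp [sg]

lemma norm_sg (b : Bool) : ‖sg b‖ = 1 := by cases b <;> simp [sg]

section Rademacher

variable {κ : Type*} [Fintype κ] [DecidableEq κ]

/-- Flip one sign. -/
def flipEquiv (a : κ) : (κ → Bool) ≃ (κ → Bool) where
  toFun ω := Function.update ω a (!ω a)
  invFun ω := Function.update ω a (!ω a)
  left_inv ω := by ext k; by_cases h : k = a <;> simp [h]
  right_inv ω := by ext k; by_cases h : k = a <;> simp [h]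

lemma flip_same (a : κ) (ω : κ → Bool) : flipEquiv a ω a = !ω a := by simp [flipEquiv]

lemma flip_ne (a : κ) (ω : κ → Bool) {k : κ} (h : k ≠ a) : flipEquiv a ω k = ω k := by
  simp [flipEquiv, h]

/-- Rademacher sum. -/
noncomputable def rad (x : κ → H) (s : Finset κ) (ω : κ → Bool) : H :=
  ∑ k ∈ s, (sg (ω k) : ℂ) • x k

lemma sum_sg_mul (i j : κ) : ∑ ω : κ → Bool, sg (ω i) * sg (ω j) =
    if i = j then (Fintype.card (κ → Bool) : ℝ) else 0 := by
  split_ifs with h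
  · subst h
    simp only [sg_mul_self]
    simp
  · have h1 : ∑ ω : κ → Bool, sg (ω i) * sg (ω j) = ∑ ω : κ → Bool, - (sg (ω i) * sg (ω j)) := by
      rw [← Equiv.sum_comp (flipEquiv i)]
      refine sum_congr rfl fun ω _ => ?_
      rw [flip_same, flip_ne i ω (Ne.symm h), sg_not]
      ring
    rw [sum_neg_distrib] at h1
    linarith

lemma sum_inner_rad (x y : κ → H) : ∑ ω : κ → Bool, inner ℂ (rad x univ ω) (rad y univ ω) =
    (Fintype.card (κ → Bool) : ℂ) * ∑ k, inner ℂ (x k) (y k) := by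
  unfold rad
  simp only [sum_inner, inner_sum, inner_smul_left, inner_smul_right, Complex.conj_ofReal]
  calc ∑ ω : κ → Bool, ∑ j, (sg (ω j) : ℂ) * ∑ i, (sg (ω i) : ℂ) * inner ℂ (x i) (y j)
      = ∑ j, ∑ i, ((∑ ω : κ → Bool, sg (ω j) * sg (ω i) : ℝ) : ℂ) * inner ℂ (x i) (y j) := by
        simp only [mul_sum]
        rw [sum_comm]
        refine sum_congr rfl fun j _ => ?_
        rw [sum_comm]
        refine sum_congr rfl fun i _ => ?_
        push_cast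
        rw [sum_mul]
        refine sum_congr rfl fun ω _ => ?_
        ring
    _ = ∑ j, (Fintype.card (κ → Bool) : ℂ) * inner ℂ (x j) (y j) := by
        refine sum_congr rfl fun j _ => ?_
        rw [sum_eq_single_of_mem j (mem_univ _)]
        · rw [sum_sg_mul, if_pos rfl]
          push_cast
          rfl
        · intro i _ hij
          rw [sum_sg_mul, if_neg (Ne.symm hij)]
          simp
    _ = _ := by rw [mul_sum]

lemma sum_norm_sq_rad (x : κ → H) : ∑ ω : κ → Bool, ‖rad x univ ω‖ ^ 2 =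
    (Fintype.card (κ → Bool) : ℝ) * ∑ k, ‖x k‖ ^ 2 := by
  have h := sum_inner_rad x x
  simp only [inner_self_eq_norm_sq_to_K] at h
  have h2 := congrArg Complex.re h
  rw [Complex.re_sum] at h2
  have e1 : ∀ r : ℝ, (((r : ℂ)) ^ 2).re = r ^ 2 := by
    intro r
    rw [← Complex.ofReal_pow]
    exact Complex.ofReal_re _
  simp only [Complex.coe_algebraMap] at h2
  simp only [e1] at h2
  rw [h2]
  have e2 : (Fintype.card (κ → Bool) : ℂ) * ∑ k, ((‖x k‖ : ℂ)) ^ 2 =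
    (((Fintype.card (κ → Bool) : ℝ) * ∑ k, ‖x k‖ ^ 2 : ℝ) : ℂ) := by
    push_cast
    rfl
  rw [e2, Complex.ofReal_re]

lemma norm_four (u v : H) : ‖u + v‖ ^ 4 + ‖u - v‖ ^ 4 ≤
    2 * (‖u‖ ^ 4 + 6 * (‖u‖ ^ 2 * ‖v‖ ^ 2) + ‖v‖ ^ 4) := by
  set r : ℝ := (inner ℂ u v).re with hr
  have h1 : ‖u + v‖ ^ 2 = ‖u‖ ^ 2 + 2 * r + ‖v‖ ^ 2 := by
    have := @norm_add_sq ℂ H _ _ _ u v
    simpa using this
  have h2 : ‖u - v‖ ^ 2 = ‖u‖ ^ 2 - 2 * r + ‖v‖ ^ 2 := by
    have := @norm_sub_sq ℂ H _ _ _ u v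
    simpa using this
  have h3 : |r| ≤ ‖u‖ * ‖v‖ := by
    have := norm_inner_le_norm (𝕜 := ℂ) u v
    exact (Complex.abs_re_le_norm _).trans this
  have h4 : r ^ 2 ≤ ‖u‖ ^ 2 * ‖v‖ ^ 2 := by
    rw [← mul_pow, ← sq_abs]
    exact pow_le_pow_left₀ (abs_nonneg _) h3 2
  have e1 : ‖u + v‖ ^ 4 = (‖u + v‖ ^ 2) ^ 2 := by ring
  have e2 : ‖u - v‖ ^ 4 = (‖u - v‖ ^ 2) ^ 2 := by ring
  rw [e1, e2, h1, h2]
  nlinarith

lemma sum_norm_four_rad (x : κ → H) (s : Finset κ) :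
    (∑ ω : κ → Bool, ‖rad x s ω‖ ^ 4 ≤
      3 * (Fintype.card (κ → Bool) : ℝ) * (∑ k ∈ s, ‖x k‖ ^ 2) ^ 2) ∧
    (∑ ω : κ → Bool, ‖rad x s ω‖ ^ 2 = (Fintype.card (κ → Bool) : ℝ) * ∑ k ∈ s, ‖x k‖ ^ 2) := by
  induction s using Finset.induction with
  | empty => simp [rad]
  | insert a s ha ih =>
    obtain ⟨ih4, ih2⟩ := ih
    have hr : ∀ ω, rad x (insert a s) ω = rad x s ω + (sg (ω a) : ℂ) • x a := by
      intro ω
      unfold rad
      rw [sum_insert ha, add_comm]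
    have hf : ∀ ω, rad x s (flipEquiv a ω) = rad x s ω := by
      intro ω
      unfold rad
      refine sum_congr rfl fun k hk => ?_
      rw [flip_ne a ω (by rintro rfl; exact ha hk)]
    have hr2 : ∀ ω, rad x (insert a s) (flipEquiv a ω) = rad x s ω - (sg (ω a) : ℂ) • x a := by
      intro ω
      rw [hr, hf, flip_same, sg_not]
      push_cast
      rw [neg_smul, sub_eq_add_neg]
    have hn : ∀ ω : κ → Bool, ‖(sg (ω a) : ℂ) • x a‖ = ‖x a‖ := by
      intro ω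
      rw [norm_smul, Complex.norm_real, norm_sg, one_mul]
    constructor
    · have h1 : 2 * ∑ ω : κ → Bool, ‖rad x (insert a s) ω‖ ^ 4 =
          ∑ ω : κ → Bool, (‖rad x s ω + (sg (ω a) : ℂ) • x a‖ ^ 4 +
            ‖rad x s ω - (sg (ω a) : ℂ) • x a‖ ^ 4) := by
        rw [sum_add_distrib, two_mul]
        congr 1
        · exact sum_congr rfl fun ω _ => by rw [hr]
        · rw [← Equiv.sum_comp (flipEquiv a)]
          exact sum_congr rfl fun ω _ => by rw [hr2]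
      have h2 : 2 * ∑ ω : κ → Bool, ‖rad x (insert a s) ω‖ ^ 4 ≤
          2 * (∑ ω : κ → Bool, ‖rad x s ω‖ ^ 4 + 6 * ‖x a‖ ^ 2 * ∑ ω : κ → Bool, ‖rad x s ω‖ ^ 2
            + (Fintype.card (κ → Bool) : ℝ) * ‖x a‖ ^ 4) := by
        rw [h1]
        calc _ ≤ ∑ ω : κ → Bool, 2 * (‖rad x s ω‖ ^ 4 + 6 * (‖rad x s ω‖ ^ 2 * ‖x a‖ ^ 2) +
              ‖x a‖ ^ 4) := by
              refine sum_le_sum fun ω _ => ?_
              have := norm_four (rad x s ω) ((sg (ω a) : ℂ) • x a)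
              rw [hn] at this
              exact this
          _ = _ := by
              rw [← mul_sum, sum_add_distrib, sum_add_distrib, ← mul_sum, ← sum_mul]
              simp
              ring
      rw [sum_insert ha]
      set S := ∑ k ∈ s, ‖x k‖ ^ 2
      set N := (Fintype.card (κ → Bool) : ℝ)
      have hN : 0 ≤ N := Nat.cast_nonneg _
      rw [ih2] at h2
      have hS : 0 ≤ S := sum_nonneg fun k _ => sq_nonneg _
      have hx : 0 ≤ ‖x a‖ ^ 2 := sq_nonneg _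
      have e4 : ‖x a‖ ^ 4 = (‖x a‖ ^ 2) ^ 2 := by ring
      rw [e4] at h2
      nlinarith [mul_nonneg hN (sq_nonneg (‖x a‖ ^ 2))]
    · have h1 : 2 * ∑ ω : κ → Bool, ‖rad x (insert a s) ω‖ ^ 2 =
          ∑ ω : κ → Bool, (‖rad x s ω + (sg (ω a) : ℂ) • x a‖ ^ 2 +
            ‖rad x s ω - (sg (ω a) : ℂ) • x a‖ ^ 2) := by
        rw [sum_add_distrib, two_mul]
        congr 1
        · exact sum_congr rfl fun ω _ => by rw [hr]
        · rw [← Equiv.sum_comp (flipEquiv a)]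
          exact sum_congr rfl fun ω _ => by rw [hr2]
      have h2 : ∀ ω : κ → Bool, ‖rad x s ω + (sg (ω a) : ℂ) • x a‖ ^ 2 +
            ‖rad x s ω - (sg (ω a) : ℂ) • x a‖ ^ 2 = 2 * (‖rad x s ω‖ ^ 2 + ‖x a‖ ^ 2) := by
        intro ω
        have := parallelogram_law_with_norm ℂ (rad x s ω) ((sg (ω a) : ℂ) • x a)
        rw [hn] at this
        nlinarith
      simp only [h2] at h1
      rw [← mul_sum, sum_add_distrib, ih2] at h1
      rw [sum_insert ha]
      simp only [sum_const, card_univ, nsmul_eq_mul] at h1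
      linarith

lemma map_rad (B : H →L[ℂ] H) (x : κ → H) (s : Finset κ) (ω : κ → Bool) :
    B (rad x s ω) = rad (fun k => B (x k)) s ω := by
  simp [rad, map_sum]

end Rademacher

/-- Truncation at finite level. -/
lemma trunc_fin {L : Set (H →L[ℂ] H)} (p : Part L) {κ : Type*} [Fintype κ] [DecidableEq κ]
    (x : κ → H) (c2 : ℝ) (hc : 0 < c2) :
    ∃ u r : (κ → Bool) → H, (∀ ω, u ω + r ω = rad x univ ω) ∧
      (∀ ω, ‖u ω‖ ≤ ‖rad x univ ω‖) ∧
      ∀ U : Finset p.ι, (∀ ω, ‖p.s U (u ω)‖ ^ 2 ≤ c2 * ∑ k, ‖p.s U (x k)‖ ^ 2) ∧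
        (∑ ω, ‖p.s U (u ω)‖ ^ 2 ≤ (Fintype.card (κ → Bool) : ℝ) * ∑ k, ‖p.s U (x k)‖ ^ 2) ∧
        (∑ ω, ‖p.s U (r ω)‖ ^ 2 ≤
          (Fintype.card (κ → Bool) : ℝ) * (3 / c2) * ∑ k, ‖p.s U (x k)‖ ^ 2) := by
  classical
  set N := (Fintype.card (κ → Bool) : ℝ) with hN
  set a : p.ι → ℝ := fun i => ∑ k, ‖p.e i (x k)‖ ^ 2 with ha_def
  have ha : ∀ i, 0 ≤ a i := fun i => sum_nonneg fun k _ => sq_nonneg _
  let G : (κ → Bool) → Finset p.ι := fun ω =>
    univ.filter fun i => ‖p.e i (rad x univ ω)‖ ^ 2 ≤ c2 * a i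
  have hsU : ∀ U : Finset p.ι, ∑ k, ‖p.s U (x k)‖ ^ 2 = ∑ i ∈ U, a i := by
    intro U
    simp only [p.norm_sq_s]
    rw [sum_comm]
  have hmul : ∀ (U V : Finset p.ι) (y : H), p.s U (p.s V y) = p.s (U ∩ V) y := by
    intro U V y
    have := congrArg (fun T : H →L[ℂ] H => T y) (p.s_mul U V)
    exact this
  refine ⟨fun ω => p.s (G ω) (rad x univ ω), fun ω => p.s (G ω)ᶜ (rad x univ ω), ?_, ?_, ?_⟩
  · intro ω
    show p.s (G ω) (rad x univ ω) + p.s (G ω)ᶜ (rad x univ ω) = rad x univ ω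
    rw [p.s_compl]
    simp
  · intro ω
    exact proj_norm_le (p.proj_s _) _
  · intro U
    refine ⟨?_, ?_, ?_⟩
    · intro ω
      rw [hmul, p.norm_sq_s, hsU, mul_sum]
      calc ∑ i ∈ U ∩ G ω, ‖p.e i (rad x univ ω)‖ ^ 2 ≤ ∑ i ∈ U ∩ G ω, c2 * a i := by
            refine sum_le_sum fun i hi => ?_
            have := (mem_inter.mp hi).2
            simp only [G, mem_filter, mem_univ, true_and] at this
            exact this
        _ ≤ ∑ i ∈ U, c2 * a i := sum_le_sum_of_subset_of_nonneg inter_subset_left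
            fun i _ _ => mul_nonneg hc.le (ha i)
    · calc ∑ ω, ‖p.s U (p.s (G ω) (rad x univ ω))‖ ^ 2 ≤ ∑ ω, ‖p.s U (rad x univ ω)‖ ^ 2 := by
            refine sum_le_sum fun ω _ => ?_
            rw [hmul, inter_comm, ← hmul]
            exact pow_le_pow_left₀ (norm_nonneg _) (proj_norm_le (p.proj_s _) _) 2
        _ = _ := by
            simp only [map_rad]
            exact (sum_norm_four_rad (fun k => p.s U (x k)) univ).2
    · rw [hsU]
      simp only [hmul, p.norm_sq_s]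
      have h1 : ∑ ω, ∑ i ∈ U ∩ (G ω)ᶜ, ‖p.e i (rad x univ ω)‖ ^ 2 =
          ∑ i ∈ U, ∑ ω, if i ∈ G ω then 0 else ‖p.e i (rad x univ ω)‖ ^ 2 := by
        rw [sum_comm]
        refine sum_congr rfl fun ω _ => ?_
        have hzero : ∑ i ∈ U.filter (fun i => i ∈ G ω),
            (if i ∈ G ω then 0 else ‖p.e i (rad x univ ω)‖ ^ 2) = 0 :=
          sum_eq_zero fun i hi => if_pos (mem_filter.mp hi).2
        rw [← sum_filter_not_add_sum_filter U (fun i => i ∈ G ω), hzero, add_zero]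
        refine sum_congr ?_ ?_
        · ext i
          simp
        · intro i hi
          rw [if_neg (mem_filter.mp hi).2]
      rw [h1, mul_sum]
      refine sum_le_sum fun i _ => ?_
      have h4 : ∑ ω, ‖p.e i (rad x univ ω)‖ ^ 4 ≤ 3 * N * (a i) ^ 2 := by
        simp only [map_rad]
        exact (sum_norm_four_rad (fun k => p.e i (x k)) univ).1
      by_cases hai : a i = 0
      · have h5 : ∀ k, p.e i (x k) = 0 := by
          intro k
          have h6 : ‖p.e i (x k)‖ ^ 2 ≤ a i := single_le_sum (f := fun k => ‖p.e i (x k)‖ ^ 2)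
            (fun k _ => sq_nonneg _) (mem_univ k)
          rw [hai] at h6
          have h7 : ‖p.e i (x k)‖ ^ 2 = 0 := le_antisymm h6 (sq_nonneg _)
          simpa using h7
        rw [hai, mul_zero]
        refine le_of_eq (sum_eq_zero fun ω _ => ?_)
        have : p.e i (rad x univ ω) = 0 := by
          rw [map_rad]
          simp [rad, h5]
        rw [this]
        simp
      · have hapos : 0 < a i := lt_of_le_of_ne (ha i) (Ne.symm hai)
        have h8 : c2 * a i * (∑ ω, if i ∈ G ω then 0 else ‖p.e i (rad x univ ω)‖ ^ 2) ≤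
            3 * N * (a i) ^ 2 := by
          refine le_trans ?_ h4
          rw [mul_sum]
          refine sum_le_sum fun ω _ => ?_
          split_ifs with hi
          · rw [mul_zero]
            positivity
          · simp only [G, mem_filter, mem_univ, true_and, not_le] at hi
            have e4 : ‖p.e i (rad x univ ω)‖ ^ 4 =
              ‖p.e i (rad x univ ω)‖ ^ 2 * ‖p.e i (rad x univ ω)‖ ^ 2 := by ring
            rw [e4]
            exact mul_le_mul_of_nonneg_right hi.le (sq_nonneg _)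
        have h9 : c2 * a i * (∑ ω, if i ∈ G ω then 0 else ‖p.e i (rad x univ ω)‖ ^ 2) ≤
            c2 * a i * (N * (3 / c2) * a i) := by
          refine h8.trans (le_of_eq ?_)
          field_simp
        exact le_of_mul_le_mul_left h9 (by positivity)

/-- Truncation lemma. -/
lemma trunc {L : Set (H →L[ℂ] H)} (hL : IsPL L) {κ : Type*} [Fintype κ] [DecidableEq κ]
    (x : κ → H) (c2 : ℝ) (hc : 0 < c2) :
    ∃ u r : (κ → Bool) → H, (∀ ω, u ω + r ω = rad x univ ω) ∧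
      ∀ P ∈ L, (∀ ω, ‖(1 - P) (u ω)‖ ^ 2 ≤ c2 * ∑ k, ‖(1 - P) (x k)‖ ^ 2) ∧
        (∑ ω, ‖(1 - P) (u ω)‖ ^ 2 ≤ (Fintype.card (κ → Bool) : ℝ) * ∑ k, ‖(1 - P) (x k)‖ ^ 2) ∧
        (∑ ω, ‖(1 - P) (r ω)‖ ^ 2 ≤
          (Fintype.card (κ → Bool) : ℝ) * (3 / c2) * ∑ k, ‖(1 - P) (x k)‖ ^ 2) := by
  classical
  obtain ⟨U, hU⟩ := exists_uf L
  have hex : ∀ S : FS L, ∃ u r : (κ → Bool) → H, (∀ ω, u ω + r ω = rad x univ ω) ∧
      (∀ ω, ‖u ω‖ ≤ ‖rad x univ ω‖) ∧
      ∀ P ∈ S.1, (∀ ω, ‖(1 - P) (u ω)‖ ^ 2 ≤ c2 * ∑ k, ‖(1 - P) (x k)‖ ^ 2) ∧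
        (∑ ω, ‖(1 - P) (u ω)‖ ^ 2 ≤ (Fintype.card (κ → Bool) : ℝ) * ∑ k, ‖(1 - P) (x k)‖ ^ 2) ∧
        (∑ ω, ‖(1 - P) (r ω)‖ ^ 2 ≤
          (Fintype.card (κ → Bool) : ℝ) * (3 / c2) * ∑ k, ‖(1 - P) (x k)‖ ^ 2) := by
    intro S
    obtain ⟨p, hp⟩ := exists_part hL S.1 S.2
    obtain ⟨u, r, h1, h2, h3⟩ := trunc_fin p x c2 hc
    refine ⟨u, r, h1, h2, fun P hP => ?_⟩
    obtain ⟨V, _, rfl⟩ := hp P hP
    have e : 1 - ∑ i ∈ V, p.e i = p.s Vᶜ := by
      rw [p.s_compl]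
      rfl
    rw [e]
    exact h3 _
  choose u r h1 h2 h3 using hex
  have hex2 : ∀ ω, ∃ y : H, WTendsto (fun S => u S ω) U y := fun ω =>
    exists_wlim U _ ‖rad x univ ω‖ fun S => h2 S ω
  choose u' hu' using hex2
  have hr' : ∀ ω, WTendsto (fun S => r S ω) U (rad x univ ω - u' ω) := by
    intro ω
    refine ((wtendsto_const (rad x univ ω) _).sub (hu' ω)).congr' ?_
    filter_upwards with S
    rw [← h1 S ω]
    abel
  refine ⟨u', fun ω => rad x univ ω - u' ω, fun ω => add_sub_cancel _ _,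
    fun P hP => ⟨?_, ?_, ?_⟩⟩
  · intro ω
    have := WTendsto.sum_sq_le (J := Unit) (x := fun _ S => (1 - P) (u S ω))
      (y := fun _ => (1 - P) (u' ω)) (fun _ => (hu' ω).map (1 - P))
      (c := c2 * ∑ k, ‖(1 - P) (x k)‖ ^ 2)
      (by
        filter_upwards [hU P hP] with S hS
        simpa using (h3 S P hS).1 ω)
    simpa using this
  · refine WTendsto.sum_sq_le (x := fun ω S => (1 - P) (u S ω))
      (y := fun ω => (1 - P) (u' ω)) (fun ω => (hu' ω).map (1 - P)) ?_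
    filter_upwards [hU P hP] with S hS
    exact (h3 S P hS).2.1
  · refine WTendsto.sum_sq_le (x := fun ω S => (1 - P) (r S ω))
      (y := fun ω => (1 - P) (rad x univ ω - u' ω)) (fun ω => (hr' ω).map (1 - P)) ?_
    filter_upwards [hU P hP] with S hS
    exact (h3 S P hS).2.2

/-- The value set of the amplified form. -/
def giSet (L : Set (H →L[ℂ] H)) (T : H →L[ℂ] H) (a b : (H →L[ℂ] H) → ℝ) : Set ℝ :=
  {r | ∃ (n : ℕ) (x w : Fin n → H), (∀ M ∈ L, ∑ k, ‖(1 - M) (x k)‖ ^ 2 ≤ a M) ∧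
    (∀ M ∈ L, ∑ k, ‖M (w k)‖ ^ 2 ≤ b M) ∧ r = ‖∑ k, inner ℂ (T (x k)) (w k)‖}

lemma giSet_bdd {L : Set (H →L[ℂ] H)} (hL : IsPL L) (T : H →L[ℂ] H) (a b : (H →L[ℂ] H) → ℝ) :
    BddAbove (giSet L T a b) := by
  refine ⟨‖T‖ * ((a 0 + b 1) / 2), ?_⟩
  rintro r ⟨n, x, w, hx, hw, rfl⟩
  have h0 := hx 0 hL.zero_mem
  have h1 := hw 1 hL.one_mem
  simp only [sub_zero, one_apply_eq_self] at h0 h1
  calc ‖∑ k, inner ℂ (T (x k)) (w k)‖ ≤ ∑ k, ‖T‖ * ((‖x k‖ ^ 2 + ‖w k‖ ^ 2) / 2) := by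
        refine (norm_sum_le _ _).trans (sum_le_sum fun k _ => ?_)
        calc ‖inner ℂ (T (x k)) (w k)‖ ≤ ‖T (x k)‖ * ‖w k‖ := norm_inner_le_norm _ _
          _ ≤ ‖T‖ * ‖x k‖ * ‖w k‖ := mul_le_mul_of_nonneg_right (T.le_opNorm _) (norm_nonneg _)
          _ = ‖T‖ * (‖x k‖ * ‖w k‖) := by ring
          _ ≤ _ := by
            refine mul_le_mul_of_nonneg_left ?_ (norm_nonneg _)
            nlinarith [sq_nonneg (‖x k‖ - ‖w k‖)]
    _ = ‖T‖ * ((∑ k, ‖x k‖ ^ 2 + ∑ k, ‖w k‖ ^ 2) / 2) := by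
        rw [← mul_sum, ← sum_div, sum_add_distrib]
    _ ≤ _ := by
        refine mul_le_mul_of_nonneg_left ?_ (norm_nonneg _)
        linarith

/-- Homogeneous form of membership. -/
lemma giSet_scaled {L : Set (H →L[ℂ] H)} (hL : IsPL L) (T : H →L[ℂ] H)
    (a b : (H →L[ℂ] H) → ℝ) {κ : Type*} [Fintype κ] (x w : κ → H) (s t : ℝ) (hs : 0 < s)
    (ht : 0 < t) (hx : ∀ M ∈ L, ∑ k, ‖(1 - M) (x k)‖ ^ 2 ≤ s ^ 2 * a M)
    (hw : ∀ M ∈ L, ∑ k, ‖M (w k)‖ ^ 2 ≤ t ^ 2 * b M) :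
    ‖∑ k, inner ℂ (T (x k)) (w k)‖ ≤ s * t * sSup (giSet L T a b) := by
  let e := Fintype.equivFin κ
  have hmem : ‖∑ k, inner ℂ (T (((s⁻¹ : ℝ) : ℂ) • x (e.symm k))) (((t⁻¹ : ℝ) : ℂ) • w (e.symm k))‖ ∈
      giSet L T a b := by
    refine ⟨Fintype.card κ, fun k => ((s⁻¹ : ℝ) : ℂ) • x (e.symm k),
      fun k => ((t⁻¹ : ℝ) : ℂ) • w (e.symm k), ?_, ?_, rfl⟩
    · intro M hM
      have h1 : ∀ k, ‖(1 - M) (((s⁻¹ : ℝ) : ℂ) • x (e.symm k))‖ ^ 2 =
          (s⁻¹) ^ 2 * ‖(1 - M) (x (e.symm k))‖ ^ 2 := by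
        intro k
        rw [map_smul, norm_smul, Complex.norm_real, mul_pow, Real.norm_eq_abs, sq_abs]
      simp only [h1]
      rw [← mul_sum, Equiv.sum_comp e.symm (fun k => ‖(1 - M) (x k)‖ ^ 2)]
      calc (s⁻¹) ^ 2 * ∑ k, ‖(1 - M) (x k)‖ ^ 2 ≤ (s⁻¹) ^ 2 * (s ^ 2 * a M) :=
            mul_le_mul_of_nonneg_left (hx M hM) (sq_nonneg _)
        _ = a M := by field_simp
    · intro M hM
      have h1 : ∀ k, ‖M (((t⁻¹ : ℝ) : ℂ) • w (e.symm k))‖ ^ 2 =
          (t⁻¹) ^ 2 * ‖M (w (e.symm k))‖ ^ 2 := by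
        intro k
        rw [map_smul, norm_smul, Complex.norm_real, mul_pow, Real.norm_eq_abs, sq_abs]
      simp only [h1]
      rw [← mul_sum, Equiv.sum_comp e.symm (fun k => ‖M (w k)‖ ^ 2)]
      calc (t⁻¹) ^ 2 * ∑ k, ‖M (w k)‖ ^ 2 ≤ (t⁻¹) ^ 2 * (t ^ 2 * b M) :=
            mul_le_mul_of_nonneg_left (hw M hM) (sq_nonneg _)
        _ = b M := by field_simp
  have h2 := le_csSup (giSet_bdd hL T a b) hmem
  have h3 : ∑ k, inner ℂ (T (((s⁻¹ : ℝ) : ℂ) • x (e.symm k))) (((t⁻¹ : ℝ) : ℂ) • w (e.symm k)) =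
      ((s⁻¹ * t⁻¹ : ℝ) : ℂ) * ∑ k, inner ℂ (T (x k)) (w k) := by
    rw [← Equiv.sum_comp e.symm (fun k => inner ℂ (T (x k)) (w k)), mul_sum]
    refine sum_congr rfl fun k _ => ?_
    rw [map_smul, inner_smul_left, inner_smul_right, Complex.conj_ofReal]
    push_cast
    ring
  rw [h3, norm_mul, Complex.norm_real, Real.norm_eq_abs, abs_of_pos (by positivity)] at h2
  calc ‖∑ k, inner ℂ (T (x k)) (w k)‖ = s * t * (s⁻¹ * t⁻¹ * ‖∑ k, inner ℂ (T (x k)) (w k)‖) := by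
        field_simp
    _ ≤ _ := mul_le_mul_of_nonneg_left h2 (by positivity)

/-- Grothendieck type inequality relative to `L`. -/
lemma grothendieck {L : Set (H →L[ℂ] H)} (hL : IsPL L) (T : H →L[ℂ] H)
    (a b : (H →L[ℂ] H) → ℝ) (β : ℝ)
    (hβ : ∀ u v : H, (∀ M ∈ L, ‖(1 - M) u‖ ^ 2 ≤ a M) → (∀ M ∈ L, ‖M v‖ ^ 2 ≤ b M) →
      ‖inner ℂ (T u) v‖ ≤ β)
    {κ : Type*} [Fintype κ] (x w : κ → H) (hx : ∀ M ∈ L, ∑ k, ‖(1 - M) (x k)‖ ^ 2 ≤ a M)
    (hw : ∀ M ∈ L, ∑ k, ‖M (w k)‖ ^ 2 ≤ b M) :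
    ‖∑ k, inner ℂ (T (x k)) (w k)‖ ≤ 96 * β := by
  classical
  set B := sSup (giSet L T a b) with hB
  have ha0 : ∀ M ∈ L, 0 ≤ a M := fun M hM => (sum_nonneg fun k _ => sq_nonneg _).trans (hx M hM)
  have hb0 : ∀ M ∈ L, 0 ≤ b M := fun M hM => (sum_nonneg fun k _ => sq_nonneg _).trans (hw M hM)
  have hβ0 : 0 ≤ β := (norm_nonneg _).trans (hβ 0 0 (fun M hM => by simpa using ha0 M hM)
    (fun M hM => by simpa using hb0 M hM))
  have hmain : ∀ r ∈ giSet L T a b, r ≤ 48 * β + B / 2 := by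
    rintro r ⟨n, x, w, hx, hw, rfl⟩
    obtain ⟨u, r, hur, hu⟩ := trunc hL x 48 (by norm_num)
    obtain ⟨v, q, hvq, hv⟩ := trunc hL.cpl w 48 (by norm_num)
    have hv' : ∀ P ∈ L, (∀ ω, ‖P (v ω)‖ ^ 2 ≤ 48 * ∑ k, ‖P (w k)‖ ^ 2) ∧
        (∑ ω, ‖P (v ω)‖ ^ 2 ≤ (Fintype.card (Fin n → Bool) : ℝ) * ∑ k, ‖P (w k)‖ ^ 2) ∧
        (∑ ω, ‖P (q ω)‖ ^ 2 ≤
          (Fintype.card (Fin n → Bool) : ℝ) * (3 / 48) * ∑ k, ‖P (w k)‖ ^ 2) := by
      intro P hP
      have := hv (1 - P) (by rw [mem_cpl]; simpa using hP)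
      simpa only [sub_sub_cancel] using this
    set N := (Fintype.card (Fin n → Bool) : ℝ) with hN
    have hNpos : 0 < N := by
      rw [hN]
      exact_mod_cast Fintype.card_pos
    set S : ℝ := Real.sqrt N with hS
    have hSpos : 0 < S := Real.sqrt_pos.mpr hNpos
    have hS2 : S ^ 2 = N := Real.sq_sqrt hNpos.le
    have e1 : (N : ℂ) * ∑ k, inner ℂ (T (x k)) (w k) =
        ∑ ω : Fin n → Bool, inner ℂ (T (u ω)) (v ω) + ∑ ω : Fin n → Bool, inner ℂ (T (u ω)) (q ω)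
        + ∑ ω : Fin n → Bool, inner ℂ (T (r ω)) (rad w univ ω) := by
      have h1 := sum_inner_rad (fun k => T (x k)) w
      have h2 : ∀ ω : Fin n → Bool, inner ℂ (rad (fun k => T (x k)) univ ω) (rad w univ ω) =
          inner ℂ (T (u ω)) (v ω) + inner ℂ (T (u ω)) (q ω) +
          inner ℂ (T (r ω)) (rad w univ ω) := by
        intro ω
        rw [← map_rad, ← hur ω, map_add, inner_add_left]
        congr 1
        rw [← hvq ω, inner_add_right]
      simp only [h2, sum_add_distrib] at h1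
      rw [h1, hN]
      push_cast
      rfl
    have b1 : ‖∑ ω : Fin n → Bool, inner ℂ (T (u ω)) (v ω)‖ ≤ N * (48 * β) := by
      refine (norm_sum_le _ _).trans ?_
      have h1 : ∀ ω ∈ (univ : Finset (Fin n → Bool)), ‖inner ℂ (T (u ω)) (v ω)‖ ≤ 48 * β := by
        intro ω _
        set c : ℝ := Real.sqrt 48 with hc
        have hcpos : 0 < c := Real.sqrt_pos.mpr (by norm_num)
        have hc2 : c ^ 2 = 48 := Real.sq_sqrt (by norm_num)
        have h2 := hβ (((c⁻¹ : ℝ) : ℂ) • u ω) (((c⁻¹ : ℝ) : ℂ) • v ω) (fun M hM => by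
          rw [map_smul, norm_smul, Complex.norm_real, mul_pow, Real.norm_eq_abs, sq_abs]
          calc (c⁻¹) ^ 2 * ‖(1 - M) (u ω)‖ ^ 2 ≤ (c⁻¹) ^ 2 * (48 * a M) := by
                refine mul_le_mul_of_nonneg_left (((hu M hM).1 ω).trans ?_) (sq_nonneg _)
                exact mul_le_mul_of_nonneg_left (hx M hM) (by norm_num)
            _ = a M := by rw [← hc2]; field_simp) (fun M hM => by
          rw [map_smul, norm_smul, Complex.norm_real, mul_pow, Real.norm_eq_abs, sq_abs]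
          calc (c⁻¹) ^ 2 * ‖M (v ω)‖ ^ 2 ≤ (c⁻¹) ^ 2 * (48 * b M) := by
                refine mul_le_mul_of_nonneg_left (((hv' M hM).1 ω).trans ?_) (sq_nonneg _)
                exact mul_le_mul_of_nonneg_left (hw M hM) (by norm_num)
            _ = b M := by rw [← hc2]; field_simp)
        rw [map_smul, inner_smul_left, inner_smul_right, Complex.conj_ofReal, norm_mul, norm_mul,
          Complex.norm_real, Real.norm_eq_abs, abs_of_pos (by positivity)] at h2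
        calc ‖inner ℂ (T (u ω)) (v ω)‖ = 48 * (c⁻¹ * (c⁻¹ * ‖inner ℂ (T (u ω)) (v ω)‖)) := by
              rw [← hc2]; field_simp
          _ ≤ 48 * β := mul_le_mul_of_nonneg_left h2 (by norm_num)
      refine (sum_le_card_nsmul _ _ _ h1).trans (le_of_eq ?_)
      rw [card_univ, nsmul_eq_mul]
    have b2 : ‖∑ ω : Fin n → Bool, inner ℂ (T (u ω)) (q ω)‖ ≤ S * (S / 4) * B := by
      refine giSet_scaled hL T a b u q S (S / 4) hSpos (by positivity) (fun M hM => ?_)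
        (fun M hM => ?_)
      · rw [hS2]
        exact ((hu M hM).2.1).trans (mul_le_mul_of_nonneg_left (hx M hM) hNpos.le)
      · have e : (S / 4) ^ 2 = N * (3 / 48) := by
          rw [div_pow, hS2]
          ring
        rw [e]
        exact ((hv' M hM).2.2).trans (mul_le_mul_of_nonneg_left (hw M hM) (by positivity))
    have b3 : ‖∑ ω : Fin n → Bool, inner ℂ (T (r ω)) (rad w univ ω)‖ ≤ (S / 4) * S * B := by
      refine giSet_scaled hL T a b r (fun ω => rad w univ ω) (S / 4) S (by positivity) hSpos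
        (fun M hM => ?_) (fun M hM => ?_)
      · have e : (S / 4) ^ 2 = N * (3 / 48) := by
          rw [div_pow, hS2]
          ring
        rw [e]
        exact ((hu M hM).2.2).trans (mul_le_mul_of_nonneg_left (hx M hM) (by positivity))
      · rw [hS2]
        simp only [map_rad]
        rw [sum_norm_sq_rad]
        exact mul_le_mul_of_nonneg_left (hw M hM) hNpos.le
    have h5 : ‖(N : ℂ) * ∑ k, inner ℂ (T (x k)) (w k)‖ ≤ N * (48 * β + B / 2) := by
      rw [e1]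
      refine (norm_add₃_le).trans ?_
      have : S * (S / 4) * B + (S / 4) * S * B = N * (B / 2) := by
        rw [← hS2]
        ring
      linarith
    rw [norm_mul, Complex.norm_real, Real.norm_eq_abs, abs_of_pos hNpos] at h5
    exact le_of_mul_le_mul_left h5 hNpos
  have hne : (giSet L T a b).Nonempty := by
    refine ⟨_, 0, fun _ => 0, fun _ => 0, ?_, ?_, rfl⟩
    · intro M hM
      simpa using ha0 M hM
    · intro M hM
      simpa using hb0 M hM
  have hB2 : B ≤ 48 * β + B / 2 := csSup_le hne hmain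
  have h6 := giSet_scaled hL T a b x w 1 1 one_pos one_pos (by simpa using hx) (by simpa using hw)
  rw [← hB] at h6
  linarith

end Pool.Agent.CSLRad
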