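import Mathlib
import Pool.Agent.CSLRad.GI

/-! Domination paths and their comparison with products of operators in the algebra. -/

set_option linter.unusedSectionVars false

namespace Pool.Agent.CSLRad

open Finset Filter Topology

variable {H : Type*} [NormedAddCommGroup H] [InnerProductSpace ℂ H] [CompleteSpace H]

/-- `x` is dominated by `y` with respect to `L`. -/
def Dom (L : Set (H →L[ℂ] H)) {κ κ' : Type*} [Fintype κ] [Fintype κ'] (x : κ → H) (y : κ' → H) :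
    Prop := ∀ M ∈ L, ∑ k, ‖(1 - M) (x k)‖ ^ 2 ≤ ∑ k, ‖(1 - M) (y k)‖ ^ 2

lemma Dom.trans {L : Set (H →L[ℂ] H)} {κ κ' κ'' : Type*} [Fintype κ] [Fintype κ'] [Fintype κ'']
    {x : κ → H} {y : κ' → H} {z : κ'' → H} (h1 : Dom L x y) (h2 : Dom L y z) : Dom L x z :=
  fun M hM => (h1 M hM).trans (h2 M hM)

lemma Dom.norm_le {L : Set (H →L[ℂ] H)} (hL : IsPL L) {κ κ' : Type*} [Fintype κ] [Fintype κ']
    {x : κ → H} {y : κ' → H} (h1 : Dom L x y) : ∑ k, ‖x k‖ ^ 2 ≤ ∑ k, ‖y k‖ ^ 2 := by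
  simpa using h1 0 hL.zero_mem

/-- Vectors reachable by domination paths. -/
def Reach (L : Set (H →L[ℂ] H)) : List (Set (H →L[ℂ] H)) → (κ : Type) → [Fintype κ] →
    (κ → H) → Prop
  | [], _, _, y => ∑ k, ‖y k‖ ^ 2 ≤ 1
  | (Ts :: l), κ, _, y => ∃ (T : κ → H →L[ℂ] H) (x : κ → H), (∀ k, T k ∈ Ts) ∧
      (∀ k, y k = T k (x k)) ∧
      ∃ (κ' : Type) (_ : Fintype κ') (u : κ' → H), Reach L l κ' u ∧ Dom L x u

/-- Vectors reachable by products of operators. -/
def SReach (L : Set (H →L[ℂ] H)) : List (H →L[ℂ] H) → H → Prop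
  | [], z => ‖z‖ ≤ 1
  | (T :: l), z => ∃ A ∈ AlgL L, ‖A‖ ≤ 1 ∧ ∃ x, SReach L l x ∧ z = A (T x)

lemma adj_inner (A : H →L[ℂ] H) (x y : H) :
    inner ℂ (ContinuousLinearMap.adjoint A x) y = inner ℂ x (A y) :=
  ContinuousLinearMap.adjoint_inner_left A y x

lemma adj_inner' (A : H →L[ℂ] H) (x y : H) :
    inner ℂ x (ContinuousLinearMap.adjoint A y) = inner ℂ (A x) y :=
  ContinuousLinearMap.adjoint_inner_right A x y

lemma norm_sq_re (x : H) : ‖x‖ ^ 2 = (inner ℂ x x).re := by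
  rw [inner_self_eq_norm_sq_to_K]
  norm_cast

/-- Dual form of row interpolation. -/
lemma dual_interp {L : Set (H →L[ℂ] H)} (hL : IsPL L) {κ : Type*} [Fintype κ] (y : κ → H)
    (z η : H) (h : ∀ M ∈ L, ‖(1 - M) z‖ ^ 2 ≤ ∑ k, ‖(1 - M) (y k)‖ ^ 2) :
    ∃ w : κ → H, (∀ M ∈ L, ∑ k, ‖M (w k)‖ ^ 2 ≤ ‖M η‖ ^ 2) ∧
      ∑ k, inner ℂ (y k) (w k) = inner ℂ z η := by
  obtain ⟨A, hA1, hA2, hA3⟩ := row_interp hL y z h
  have hcol : ∀ ζ : H, ∑ k, ‖ContinuousLinearMap.adjoint (A k) ζ‖ ^ 2 ≤ ‖ζ‖ ^ 2 := by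
    intro ζ
    set s := ∑ k, ‖ContinuousLinearMap.adjoint (A k) ζ‖ ^ 2 with hs
    have hs0 : 0 ≤ s := sum_nonneg fun k _ => sq_nonneg _
    have h1 : s = (inner ℂ ζ (∑ k, A k (ContinuousLinearMap.adjoint (A k) ζ))).re := by
      rw [inner_sum, Complex.re_sum]
      refine sum_congr rfl fun k _ => ?_
      rw [norm_sq_re, adj_inner]
    have h2 : s ≤ ‖ζ‖ * ‖∑ k, A k (ContinuousLinearMap.adjoint (A k) ζ)‖ := by
      rw [h1]
      exact re_inner_le_norm (𝕜 := ℂ) _ _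
    have h3 := hA2 fun k => ContinuousLinearMap.adjoint (A k) ζ
    have h4 : ‖∑ k, A k (ContinuousLinearMap.adjoint (A k) ζ)‖ ≤ Real.sqrt s :=
      Real.le_sqrt_of_sq_le h3
    have h5 : s ≤ ‖ζ‖ * Real.sqrt s := h2.trans (mul_le_mul_of_nonneg_left h4 (norm_nonneg _))
    have h6 : Real.sqrt s ≤ ‖ζ‖ := by
      by_contra hcon
      push Not at hcon
      have hpos : 0 < Real.sqrt s := lt_of_le_of_lt (norm_nonneg _) hcon
      have h7 : Real.sqrt s * Real.sqrt s = s := Real.mul_self_sqrt hs0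
      nlinarith
    calc s = Real.sqrt s ^ 2 := (Real.sq_sqrt hs0).symm
      _ ≤ ‖ζ‖ ^ 2 := pow_le_pow_left₀ (Real.sqrt_nonneg _) h6 2
  refine ⟨fun k => ContinuousLinearMap.adjoint (A k) η, ?_, ?_⟩
  · intro M hM
    have hMp := hL.proj M hM
    have hinv : ∀ k ζ, M (ContinuousLinearMap.adjoint (A k) ((1 - M) ζ)) = 0 := by
      intro k ζ
      refine ext_inner_right ℂ fun ξ => ?_
      rw [proj_inner hMp, adj_inner, proj_inner hMp.one_sub, inner_zero_left]
      have := congrArg (fun T : H →L[ℂ] H => T ξ) (hA1 k M hM)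
      simp only [mul_apply_eq_comp, zero_apply] at this
      rw [this, inner_zero_right]
    have hsplit : ∀ k, M (ContinuousLinearMap.adjoint (A k) η) =
        M (ContinuousLinearMap.adjoint (A k) (M η)) := by
      intro k
      have h1 : η = M η + (1 - M) η := by simp
      conv_lhs => rw [h1]
      rw [map_add, map_add, hinv, add_zero]
    calc ∑ k, ‖M (ContinuousLinearMap.adjoint (A k) η)‖ ^ 2
        ≤ ∑ k, ‖ContinuousLinearMap.adjoint (A k) (M η)‖ ^ 2 := by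
          refine sum_le_sum fun k _ => ?_
          rw [hsplit]
          exact pow_le_pow_left₀ (norm_nonneg _) (proj_norm_le hMp _) 2
      _ ≤ _ := hcol _
  · simp only [adj_inner']
    rw [← sum_inner, hA3]

/-- Interpolation by the adjoint of an operator in the algebra. -/
lemma op_interp {L : Set (H →L[ℂ] H)} (hL : IsPL L) (v η : H)
    (h : ∀ M ∈ L, ‖M v‖ ^ 2 ≤ ‖M η‖ ^ 2) :
    ∃ A ∈ AlgL L, ‖A‖ ≤ 1 ∧ ContinuousLinearMap.adjoint A η = v := by
  obtain ⟨B, hB1, hB2, hB3⟩ := row_interp hL.cpl (κ := Unit) (fun _ => η) v (by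
    intro M hM
    simpa using h (1 - M) hM)
  refine ⟨ContinuousLinearMap.adjoint (B ()), ?_, ?_, ?_⟩
  · intro P hP
    have hPp := hL.proj P hP
    have h1 := hB1 () (1 - P) (by rw [mem_cpl]; simpa using hP)
    rw [sub_sub_cancel] at h1
    ext ξ
    refine ext_inner_right ℂ fun ζ => ?_
    simp only [mul_apply_eq_comp, zero_apply, inner_zero_left]
    rw [proj_inner hPp.one_sub, adj_inner, proj_inner hPp]
    have := congrArg (fun T : H →L[ℂ] H => T ζ) h1
    simp only [mul_apply_eq_comp, zero_apply] at this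
    rw [this, inner_zero_right]
  · rw [LinearIsometryEquiv.norm_map]
    refine (B ()).opNorm_le_bound zero_le_one fun ξ => ?_
    have h2 : ‖B () ξ‖ ^ 2 ≤ ‖ξ‖ ^ 2 := by
      simpa using hB2 fun _ => ξ
    rw [one_mul]
    exact (pow_le_pow_iff_left₀ (n := 2) (norm_nonneg _) (norm_nonneg _) (by norm_num)).1 h2
  · rw [ContinuousLinearMap.adjoint_adjoint]
    simpa using hB3

lemma reach_scalar_aux {L : Set (H →L[ℂ] H)} (hL : IsPL L) (l : List (H →L[ℂ] H)) :
    ∀ (κ : Type) [Fintype κ] (y : κ → H), Reach L (l.map fun T => {T}) κ y →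
    ∀ z : H, (∀ M ∈ L, ‖(1 - M) z‖ ^ 2 ≤ ∑ k, ‖(1 - M) (y k)‖ ^ 2) →
    ∀ (η : H) (C : ℝ), (∀ z', SReach L l z' → ‖inner ℂ z' η‖ ≤ C) →
    ‖inner ℂ z η‖ ≤ 96 ^ l.length * C := by
  induction l with
  | nil =>
    intro κ _ y hy z hz η C hC
    have h0 := hz 0 hL.zero_mem
    simp only [sub_zero, one_apply_eq_self] at h0
    have hy' : ∑ k, ‖y k‖ ^ 2 ≤ 1 := hy
    have h1 : ‖z‖ ≤ 1 := by
      have := h0.trans hy'
      nlinarith [norm_nonneg z]
    simpa using hC z h1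
  | cons T l ih =>
    intro κ _ y hy z hz η C hC
    obtain ⟨T', x, hT', hyx, κ', _, u, hu, hxu⟩ := hy
    have hTk : ∀ k, T' k = T := fun k => by simpa using hT' k
    obtain ⟨w, hw1, hw2⟩ := dual_interp hL y z η hz
    have key := grothendieck hL T (fun M => ∑ k, ‖(1 - M) (x k)‖ ^ 2) (fun M => ‖M η‖ ^ 2)
      (96 ^ l.length * C) (fun u' v' hu' hv' => by
        obtain ⟨A, hA, hA1, hA2⟩ := op_interp hL v' η hv'
        have e1 : inner ℂ (T u') v' = inner ℂ u' (ContinuousLinearMap.adjoint T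
            (ContinuousLinearMap.adjoint A η)) := by
          rw [hA2, adj_inner']
        rw [e1]
        refine ih κ' u hu u' (fun M hM => (hu' M hM).trans (hxu M hM)) _ C fun z' hz' => ?_
        rw [adj_inner', adj_inner']
        exact hC _ ⟨A, hA, hA1, z', hz', rfl⟩) x w (fun M _ => le_refl _) hw1
    have e : ∑ k, inner ℂ (T (x k)) (w k) = inner ℂ z η := by
      rw [← hw2]
      refine sum_congr rfl fun k _ => ?_
      rw [hyx, hTk]
    rw [e] at key
    calc ‖inner ℂ z η‖ ≤ 96 * (96 ^ l.length * C) := key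
      _ = 96 ^ (T :: l).length * C := by
        rw [List.length_cons, pow_succ]
        ring

/-- Scalar bounds control vector valued paths. -/
lemma reach_scalar {L : Set (H →L[ℂ] H)} (hL : IsPL L) (T : H →L[ℂ] H) (l : List (H →L[ℂ] H))
    (C : ℝ) (hC : ∀ z, SReach L l z → ‖T z‖ ≤ C) (κ : Type) [Fintype κ] (y : κ → H)
    (hy : Reach L ((T :: l).map fun T => {T}) κ y) :
    ∑ k, ‖y k‖ ^ 2 ≤ (96 ^ (l.length + 1) * C) ^ 2 := by
  obtain ⟨T', x, hT', hyx, κ', _, u, hu, hxu⟩ := hy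
  have hTk : ∀ k, T' k = T := fun k => by simpa using hT' k
  set s := ∑ k, ‖y k‖ ^ 2 with hs
  have hs0 : 0 ≤ s := sum_nonneg fun k _ => sq_nonneg _
  by_cases hsz : s = 0
  · rw [hsz]
    positivity
  have hspos : 0 < s := lt_of_le_of_ne hs0 (Ne.symm hsz)
  set t := Real.sqrt s with ht
  have htpos : 0 < t := Real.sqrt_pos.mpr hspos
  have ht2 : t ^ 2 = s := Real.sq_sqrt hs0
  let w : κ → H := fun k => ((t⁻¹ : ℝ) : ℂ) • y k
  have hw : ∀ M ∈ L, ∑ k, ‖M (w k)‖ ^ 2 ≤ 1 := by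
    intro M hM
    calc ∑ k, ‖M (w k)‖ ^ 2 ≤ ∑ k, ‖w k‖ ^ 2 := sum_le_sum fun k _ =>
          pow_le_pow_left₀ (norm_nonneg _) (proj_norm_le (hL.proj M hM) _) 2
      _ = (t⁻¹) ^ 2 * s := by
          rw [hs, mul_sum]
          refine sum_congr rfl fun k _ => ?_
          simp only [w]
          rw [norm_smul, Complex.norm_real, mul_pow, Real.norm_eq_abs, sq_abs]
      _ = 1 := by rw [← ht2]; field_simp
  have key := grothendieck hL T (fun M => ∑ k, ‖(1 - M) (x k)‖ ^ 2) (fun _ => 1)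
    (96 ^ l.length * C) (fun u' v' hu' hv' => by
      have hv1 : ‖v'‖ ≤ 1 := by
        have := hv' 1 hL.one_mem
        simp only [one_apply_eq_self] at this
        nlinarith [norm_nonneg v']
      rw [← adj_inner' T]
      refine reach_scalar_aux hL l κ' u hu u' (fun M hM => (hu' M hM).trans (hxu M hM)) _ C
        fun z' hz' => ?_
      rw [adj_inner']
      calc ‖inner ℂ (T z') v'‖ ≤ ‖T z'‖ * ‖v'‖ := norm_inner_le_norm _ _
        _ ≤ C * 1 := mul_le_mul (hC z' hz') hv1 (norm_nonneg _)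
            ((norm_nonneg _).trans (hC z' hz'))
        _ = C := mul_one C) x w (fun M _ => le_refl _) hw
  have e : ∑ k, inner ℂ (T (x k)) (w k) = (t : ℂ) := by
    have h1 : ∀ k, inner ℂ (T (x k)) (w k) = (((t⁻¹ : ℝ) * ‖y k‖ ^ 2 : ℝ) : ℂ) := by
      intro k
      have h2 : T (x k) = y k := by rw [hyx, hTk]
      rw [h2]
      simp only [w]
      rw [inner_smul_right, inner_self_eq_norm_sq_to_K]
      push_cast
      rfl
    simp only [h1]
    rw [← Complex.ofReal_sum, ← mul_sum, ← hs, ← ht2]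
    congr 1
    field_simp
  rw [e, Complex.norm_real, Real.norm_eq_abs, abs_of_pos htpos] at key
  rw [← ht2]
  refine pow_le_pow_left₀ htpos.le ?_ 2
  calc t ≤ 96 * (96 ^ l.length * C) := key
    _ = 96 ^ (l.length + 1) * C := by
      rw [pow_succ]
      ring

end Pool.Agent.CSLRad
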