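import Mathlib
import Pool.Agent.CSLRad.Scal

/-! A max-flow statement for families of vectors. -/

set_option linter.unusedSectionVars false

namespace Pool.Agent.CSLRad

open Finset Filter Topology

variable {H : Type*} [NormedAddCommGroup H] [InnerProductSpace ℂ H] [CompleteSpace H]

/-- Finite level of the flow lemma. -/
lemma flow_fin {L : Set (H →L[ℂ] H)} (p : Part L) {ι κ : Type*} [Fintype ι] [Fintype κ]
    (u : ι → H) (w : κ → H) (c : ℝ)
    (h : ∀ M ∈ L, c ≤ ∑ i, ‖(1 - M) (u i)‖ ^ 2 + ∑ k, ‖M (w k)‖ ^ 2) :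
    ∃ x : κ → H, (∀ P, p.Res P → ∑ k, ‖(1 - P) (x k)‖ ^ 2 ≤ ∑ i, ‖(1 - P) (u i)‖ ^ 2) ∧
      c ≤ ∑ k, (inner ℂ (x k) (w k)).re ∧ ∑ k, ‖x k‖ ^ 2 ≤ ∑ k, ‖w k‖ ^ 2 := by
  classical
  set a : p.ι → ℝ := fun A => ∑ i, ‖p.e A (u i)‖ ^ 2 with ha_def
  set b : p.ι → ℝ := fun A => ∑ k, ‖p.e A (w k)‖ ^ 2 with hb_def
  have ha : ∀ i, 0 ≤ a i := fun i => sum_nonneg fun k _ => sq_nonneg _
  have hb : ∀ i, 0 ≤ b i := fun i => sum_nonneg fun k _ => sq_nonneg _
  have hab : ∀ D : Finset p.ι, ∑ A ∈ D, a A = ∑ i, ‖p.s D (u i)‖ ^ 2 := by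
    intro D
    simp only [p.norm_sq_s, ha_def]
    rw [sum_comm]
  have hbb : ∀ D : Finset p.ι, ∑ A ∈ D, b A = ∑ i, ‖p.s D (w i)‖ ^ 2 := by
    intro D
    simp only [p.norm_sq_s, hb_def]
    rw [sum_comm]
  obtain ⟨f, hf0, hfb, hfa, hfc⟩ := exists_flow a b ha hb c (by
    intro D hD
    have hU : IsUpperSet ((Dᶜ : Finset p.ι) : Set p.ι) := by
      rw [coe_compl]
      exact hD.compl
    have h1 := h _ (p.s_mem _ hU)
    have e : 1 - p.s Dᶜ = p.s D := by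
      rw [← p.s_compl, compl_compl]
    rw [e] at h1
    rw [hab, hbb]
    exact h1)
  let x : κ → H := fun k => ∑ A, ((f A / b A : ℝ) : ℂ) • p.e A (w k)
  have hez : ∀ j (z : H), p.e j (p.e j z) = p.e j z := by
    intro j z
    have := congrArg (fun T : H →L[ℂ] H => T z) (p.proj j).isIdempotentElem
    exact this
  have hr0 : ∀ A, 0 ≤ f A / b A := fun A => div_nonneg (hf0 A) (hb A)
  have hr1 : ∀ A, f A / b A ≤ 1 := fun A => div_le_one_of_le₀ (hfb A) (hb A)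
  have hrb : ∀ A, f A / b A * b A = f A := by
    intro A
    by_cases hA : b A = 0
    · have : f A = 0 := le_antisymm (hA ▸ hfb A) (hf0 A)
      rw [hA, this]
      simp
    · field_simp
  -- norms of components
  have hsx : ∀ (D : Finset p.ι) k, ‖p.s D (x k)‖ ^ 2 =
      ∑ A ∈ D, (f A / b A) ^ 2 * ‖p.e A (w k)‖ ^ 2 := by
    intro D k
    have e1 : p.s D (x k) = ∑ A ∈ D, ((f A / b A : ℝ) : ℂ) • p.e A (w k) := by
      simp only [x, map_sum, map_smul]
      rw [← Finset.sum_subset (Finset.subset_univ D)]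
      · refine sum_congr rfl fun A hA => ?_
        have h3 := congrArg (fun T : H →L[ℂ] H => T (w k)) (p.s_mul_e A D)
        simp only [mul_apply_eq_comp, if_pos hA] at h3
        rw [h3]
      · intro A _ hA
        have h3 := congrArg (fun T : H →L[ℂ] H => T (w k)) (p.s_mul_e A D)
        simp only [mul_apply_eq_comp, if_neg hA, zero_apply] at h3
        rw [h3, smul_zero]
    rw [e1, p.norm_sq_sum (fun A => ((f A / b A : ℝ) : ℂ) • p.e A (w k))
      (fun A => by rw [map_smul, hez]) D]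
    refine sum_congr rfl fun A _ => ?_
    rw [norm_smul, mul_pow, Complex.norm_real, Real.norm_eq_abs, sq_abs]
  have hsx2 : ∀ (D : Finset p.ι), ∑ k, ‖p.s D (x k)‖ ^ 2 ≤ ∑ A ∈ D, f A := by
    intro D
    simp only [hsx]
    rw [sum_comm]
    refine sum_le_sum fun A _ => ?_
    rw [← mul_sum]
    calc (f A / b A) ^ 2 * b A = (f A / b A) * (f A / b A * b A) := by ring
      _ = (f A / b A) * f A := by rw [hrb]
      _ ≤ 1 * f A := mul_le_mul_of_nonneg_right (hr1 A) (hf0 A)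
      _ = f A := one_mul _
  refine ⟨x, ?_, ?_, ?_⟩
  · rintro P ⟨U, hU, rfl⟩
    have hsU : ∑ i ∈ U, p.e i = p.s U := rfl
    have hD : IsLowerSet ((Uᶜ : Finset p.ι) : Set p.ι) := by
      rw [coe_compl]
      exact hU.compl
    rw [hsU, ← p.s_compl]
    rw [← hab]
    exact (hsx2 _).trans (hfa _ hD)
  · refine hfc.trans (le_of_eq ?_)
    have h1 : ∀ k, (inner ℂ (x k) (w k)).re = ∑ A, f A / b A * ‖p.e A (w k)‖ ^ 2 := by
      intro k
      simp only [x, sum_inner, Complex.re_sum]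
      refine sum_congr rfl fun A _ => ?_
      rw [inner_smul_left, Complex.conj_ofReal, Complex.re_ofReal_mul, proj_norm_sq (p.proj A)]
    simp only [h1]
    rw [sum_comm]
    refine sum_congr rfl fun A _ => ?_
    rw [← mul_sum, hrb]
  · have h1 := hsx2 univ
    rw [p.s_univ] at h1
    have h2 := hbb univ
    rw [p.s_univ] at h2
    simp only [one_apply_eq_self] at h1 h2
    rw [← h2]
    exact h1.trans (sum_le_sum fun A _ => hfb A)

/-- The flow lemma. -/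
lemma flow {L : Set (H →L[ℂ] H)} (hL : IsPL L) {ι κ : Type*} [Fintype ι] [Fintype κ]
    (u : ι → H) (w : κ → H) (c : ℝ)
    (h : ∀ M ∈ L, c ≤ ∑ i, ‖(1 - M) (u i)‖ ^ 2 + ∑ k, ‖M (w k)‖ ^ 2) :
    ∃ x : κ → H, Dom L x u ∧ c ≤ ∑ k, (inner ℂ (x k) (w k)).re := by
  classical
  obtain ⟨U, hU⟩ := exists_uf L
  have hex : ∀ S : FS L, ∃ x : κ → H,
      (∀ P ∈ S.1, ∑ k, ‖(1 - P) (x k)‖ ^ 2 ≤ ∑ i, ‖(1 - P) (u i)‖ ^ 2) ∧
      c ≤ ∑ k, (inner ℂ (x k) (w k)).re ∧ ∑ k, ‖x k‖ ^ 2 ≤ ∑ k, ‖w k‖ ^ 2 := by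
    intro S
    obtain ⟨p, hp⟩ := exists_part hL S.1 S.2
    obtain ⟨x, h1, h2, h3⟩ := flow_fin p u w c h
    exact ⟨x, fun P hP => h1 P (hp P hP), h2, h3⟩
  choose x hx1 hx2 hx3 using hex
  have hnorm : ∀ k S, ‖x S k‖ ≤ Real.sqrt (∑ k, ‖w k‖ ^ 2) := by
    intro k S
    refine Real.le_sqrt_of_sq_le ?_
    exact (single_le_sum (f := fun k => ‖x S k‖ ^ 2) (fun k _ => sq_nonneg _) (mem_univ k)).trans
      (hx3 S)
  have hex2 : ∀ k, ∃ y : H, WTendsto (fun S => x S k) U y :=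
    fun k => exists_wlim U (fun S => x S k) _ (hnorm k)
  choose y hy using hex2
  refine ⟨y, ?_, ?_⟩
  · intro P hP
    refine WTendsto.sum_sq_le (x := fun k S => (1 - P) (x S k)) (l := (U : Filter (FS L)))
      (fun k => (hy k).map (1 - P)) ?_
    filter_upwards [hU P hP] with S hS
    exact hx1 S P hS
  · have hlim : Tendsto (fun S => ∑ k, (inner ℂ (x S k) (w k)).re) U
        (𝓝 (∑ k, (inner ℂ (y k) (w k)).re)) :=
      tendsto_finsetSum _ fun k _ => (Complex.continuous_re.tendsto _).comp (hy k (w k))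
    exact ge_of_tendsto hlim (Eventually.of_forall fun S => hx2 S)

end Pool.Agent.CSLRad
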