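import Mathlib
import Pool.Agent.CSLRad.LemmaT

/-! Spectral cuts of limits of convex combinations of projections of a lattice. -/

set_option linter.unusedSectionVars false

namespace Pool.Agent.CSLRad

open Finset Filter Topology

variable {H : Type*} [NormedAddCommGroup H] [InnerProductSpace ℂ H] [CompleteSpace H]

lemma conv_part {L : Set (H →L[ℂ] H)} (hL : IsPL L) {h : H →L[ℂ] H}
    (hh : h ∈ convexHull ℝ L) : ∃ (p : Part L) (c : p.ι → ℝ), Monotone c ∧ (∀ i, 0 ≤ c i) ∧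
      (∀ i, c i ≤ 1) ∧ h = ∑ i, (c i : ℂ) • p.e i := by
  classical
  rw [_root_.convexHull_eq] at hh
  obtain ⟨J, t, w, z, hw0, hw1, hz, rfl⟩ := hh
  obtain ⟨p, hp⟩ := exists_part hL (t.image z) (by
    intro P hP
    obtain ⟨j, hj, rfl⟩ := mem_image.mp hP
    exact hz j hj)
  have hp' : ∀ j ∈ t, p.Res (z j) := fun j hj => hp _ (mem_image_of_mem z hj)
  unfold Part.Res at hp'
  choose! U hU hzU using hp'
  refine ⟨p, fun i => ∑ j ∈ t, if i ∈ U j then w j else 0, ?_, ?_, ?_, ?_⟩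
  · intro i i' hii
    refine sum_le_sum fun j hj => ?_
    by_cases h1 : i ∈ U j
    · have h2 : i' ∈ U j := hU j hj hii h1
      rw [if_pos h1, if_pos h2]
    · rw [if_neg h1]
      split_ifs
      · exact hw0 j hj
      · exact le_refl _
  · intro i
    refine sum_nonneg fun j hj => ?_
    split_ifs
    · exact hw0 j hj
    · exact le_refl _
  · intro i
    rw [← hw1]
    refine sum_le_sum fun j hj => ?_
    split_ifs
    · exact le_refl _
    · exact hw0 j hj
  · rw [Finset.centerMass_eq_of_sum_1 _ _ hw1]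
    have e1 : ∀ j ∈ t, w j • z j = ∑ i, if i ∈ U j then (w j : ℂ) • p.e i else 0 := by
      intro j hj
      conv_lhs => rw [hzU j hj]
      rw [smul_sum, ← sum_filter, filter_mem_eq_inter, univ_inter]
      refine sum_congr rfl fun i _ => ?_
      rw [Complex.coe_smul]
    rw [sum_congr rfl e1, sum_comm]
    refine sum_congr rfl fun i _ => ?_
    push_cast
    rw [sum_smul]
    refine sum_congr rfl fun j _ => ?_
    split_ifs <;> simp

lemma Part.comb_apply {L : Set (H →L[ℂ] H)} (p : Part L) (c : p.ι → ℝ) (x : H) :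
    (∑ i, (c i : ℂ) • p.e i) x = ∑ i, (c i : ℂ) • p.e i x := by
  simp [_root_.sum_apply]

lemma Part.comb_inner {L : Set (H →L[ℂ] H)} (p : Part L) (c : p.ι → ℝ) (x : H) :
    (inner ℂ ((∑ i, (c i : ℂ) • p.e i) x) x).re = ∑ i, c i * ‖p.e i x‖ ^ 2 := by
  rw [p.comb_apply, sum_inner, Complex.re_sum]
  refine sum_congr rfl fun A _ => ?_
  rw [inner_smul_left, Complex.conj_ofReal, Complex.re_ofReal_mul, proj_norm_sq (p.proj A)]

lemma conv_symm {L : Set (H →L[ℂ] H)} (hL : IsPL L) {h : H →L[ℂ] H}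
    (hh : h ∈ convexHull ℝ L) (x y : H) : inner ℂ (h x) y = inner ℂ x (h y) := by
  obtain ⟨p, c, hc, hc0, hc1, rfl⟩ := conv_part hL hh
  rw [p.comb_apply, p.comb_apply, sum_inner, inner_sum]
  refine sum_congr rfl fun A _ => ?_
  rw [inner_smul_left, inner_smul_right, Complex.conj_ofReal, proj_inner (p.proj A)]

lemma conv_nonneg {L : Set (H →L[ℂ] H)} (hL : IsPL L) {h : H →L[ℂ] H}
    (hh : h ∈ convexHull ℝ L) (x : H) : 0 ≤ (inner ℂ (h x) x).re := by
  obtain ⟨p, c, hc, hc0, hc1, rfl⟩ := conv_part hL hh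
  rw [p.comb_inner]
  exact sum_nonneg fun i _ => mul_nonneg (hc0 i) (sq_nonneg _)

lemma conv_le {L : Set (H →L[ℂ] H)} (hL : IsPL L) {h : H →L[ℂ] H}
    (hh : h ∈ convexHull ℝ L) (x : H) : (inner ℂ (h x) x).re ≤ ‖x‖ ^ 2 := by
  obtain ⟨p, c, hc, hc0, hc1, rfl⟩ := conv_part hL hh
  rw [p.comb_inner, p.norm_sq x]
  refine sum_le_sum fun i _ => ?_
  have := mul_le_mul_of_nonneg_right (hc1 i) (sq_nonneg ‖p.e i x‖)
  rwa [one_mul] at this

lemma conv_norm_le {L : Set (H →L[ℂ] H)} (hL : IsPL L) {h : H →L[ℂ] H}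
    (hh : h ∈ convexHull ℝ L) : ‖h‖ ≤ 1 := by
  have h1 : convexHull ℝ L ⊆ Metric.closedBall 0 1 := by
    refine convexHull_min ?_ (convex_closedBall _ _)
    intro P hP
    rw [mem_closedBall_zero_iff]
    exact proj_opNorm_le (hL.proj P hP)
  have := h1 hh
  rwa [mem_closedBall_zero_iff] at this

lemma conv_commute {L : Set (H →L[ℂ] H)} (hL : IsPL L) {h X : H →L[ℂ] H}
    (hh : h ∈ convexHull ℝ L) (hX : ∀ P ∈ L, P * X = X * P) : h * X = X * h := by
  obtain ⟨p, c, hc, hc0, hc1, rfl⟩ := conv_part hL hh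
  rw [sum_mul, mul_sum]
  refine sum_congr rfl fun i _ => ?_
  rw [smul_mul_assoc, mul_smul_comm, (p.gen i).commute hX]

lemma conv_cut {L : Set (H →L[ℂ] H)} (hL : IsPL L) {h : H →L[ℂ] H}
    (hh : h ∈ convexHull ℝ L) (t : ℝ) : ∃ N ∈ L, (∀ x, t * ‖N x‖ ^ 2 ≤ (inner ℂ (h (N x)) (N x)).re) ∧
      ∀ x, (inner ℂ (h ((1 - N) x)) ((1 - N) x)).re ≤ t * ‖(1 - N) x‖ ^ 2 := by
  classical
  obtain ⟨p, c, hc, hc0, hc1, rfl⟩ := conv_part hL hh
  let U : Finset p.ι := univ.filter fun i => t < c i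
  have hU : IsUpperSet (U : Set p.ι) := by
    intro i j hij hi
    simp only [U, coe_filter, mem_univ, true_and, Set.mem_ofPred_eq] at hi ⊢
    exact lt_of_lt_of_le hi (hc hij)
  refine ⟨p.s U, p.s_mem U hU, fun x => ?_, fun x => ?_⟩
  · rw [p.comb_inner, p.norm_sq (p.s U x), mul_sum]
    refine sum_le_sum fun i _ => ?_
    have h3 := congrArg (fun T : H →L[ℂ] H => T x) (p.e_mul_s i U)
    simp only [mul_apply_eq_comp] at h3
    rw [h3]
    by_cases hi : i ∈ U
    · have : t < c i := by simpa [U] using hi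
      exact mul_le_mul_of_nonneg_right this.le (sq_nonneg _)
    · simp [hi]
  · rw [← p.s_compl, p.comb_inner, p.norm_sq (p.s Uᶜ x), mul_sum]
    refine sum_le_sum fun i _ => ?_
    have h3 := congrArg (fun T : H →L[ℂ] H => T x) (p.e_mul_s i Uᶜ)
    simp only [mul_apply_eq_comp] at h3
    rw [h3]
    by_cases hi : i ∈ U
    · simp [hi]
    · have : c i ≤ t := by simpa [U] using hi
      exact mul_le_mul_of_nonneg_right this (sq_nonneg _)

/-- Closedness in the strong operator topology. -/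
def SOTClosed (L : Set (H →L[ℂ] H)) : Prop :=
  IsClosed[TopologicalSpace.induced (fun (T : H →L[ℂ] H) (x : H) => T x) Pi.topologicalSpace] L

lemma SOTClosed.mem {L : Set (H →L[ℂ] H)} (hL : SOTClosed L) {D : Type*} {l : Filter D} [l.NeBot]
    {N : D → H →L[ℂ] H} {M : H →L[ℂ] H} (hN : ∀ᶠ d in l, N d ∈ L)
    (h : ∀ v, Tendsto (fun d => N d v) l (𝓝 (M v))) : M ∈ L := by
  have h1 : Tendsto N l (@nhds _ (TopologicalSpace.induced
      (fun (T : H →L[ℂ] H) (x : H) => T x) Pi.topologicalSpace) M) := by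
    rw [nhds_induced]
    refine tendsto_comap_iff.mpr ?_
    exact tendsto_pi_nhds.mpr h
  have h2 : IsClosed[TopologicalSpace.induced (fun (T : H →L[ℂ] H) (x : H) => T x)
      Pi.topologicalSpace] L := hL
  revert h1 h2
  generalize TopologicalSpace.induced (fun (T : H →L[ℂ] H) (x : H) => T x)
      Pi.topologicalSpace = τ
  intro h1 h2
  exact h2.mem_of_tendsto h1 hN

/-- Continuous linear functionals are weakly continuous. -/
lemma WTendsto.functional {D : Type*} {x : D → H} {l : Filter D} {y : H}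
    (h1 : WTendsto x l y) (f : H →L[ℂ] ℂ) : Tendsto (fun d => f (x d)) l (𝓝 (f y)) := by
  set η := (InnerProductSpace.toDual ℂ H).symm f with hη
  have e : ∀ z, f z = (starRingEnd ℂ) (inner ℂ z η) := by
    intro z
    rw [inner_conj_symm, hη, InnerProductSpace.toDual_symm_apply]
  simp only [e]
  exact (Complex.continuous_conj.tendsto _).comp (h1 η)

/-- Mazur's lemma. -/
lemma mazur {L : Set (H →L[ℂ] H)} {D : Type*} (U : Ultrafilter D) (h' : D → H →L[ℂ] H)
    (hh' : ∀ d, h' d ∈ convexHull ℝ L) (h : H →L[ℂ] H)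
    (hlim : ∀ ξ, WTendsto (fun d => h' d ξ) U (h ξ)) (F : Finset H) (ε : ℝ) (hε : 0 < ε) :
    ∃ g ∈ convexHull ℝ L, ∀ v ∈ F, ‖(g - h) v‖ < ε := by
  classical
  let Φ : (H →L[ℂ] H) → (F → H) := fun g v => g v
  have hΦ : Convex ℝ (Φ '' (convexHull ℝ L)) := by
    rintro _ ⟨g, hg, rfl⟩ _ ⟨g', hg', rfl⟩ a b ha hb hab
    refine ⟨a • g + b • g', (convex_convexHull ℝ L) hg hg' ha hb hab, ?_⟩
    funext v
    simp [Φ]
  by_contra hcon
  push Not at hcon
  have hnot : Φ h ∉ closure (Φ '' (convexHull ℝ L)) := by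
    intro hmem
    rw [Metric.mem_closure_iff] at hmem
    obtain ⟨_, ⟨g, hg, rfl⟩, hd⟩ := hmem ε hε
    obtain ⟨v, hv, hv2⟩ := hcon g hg
    have h1 : dist (Φ h ⟨v, hv⟩) (Φ g ⟨v, hv⟩) ≤ dist (Φ h) (Φ g) := dist_le_pi_dist _ _ _
    have h2 : dist (Φ h ⟨v, hv⟩) (Φ g ⟨v, hv⟩) = ‖(g - h) v‖ := by
      rw [dist_comm, dist_eq_norm]
      rfl
    rw [h2] at h1
    linarith
  obtain ⟨f, r, hf1, hf2⟩ := RCLike.geometric_hahn_banach_closed_point (𝕜 := ℂ) hΦ.closure
    isClosed_closure hnot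
  have hf3 : ∀ x : F → H, f x = ∑ v : F, f (Pi.single v (x v)) := by
    intro x
    conv_lhs => rw [← Finset.univ_sum_single x]
    rw [map_sum]
  have hlim2 : Tendsto (fun d => f (Φ (h' d))) U (𝓝 (f (Φ h))) := by
    have : ∀ x : F → H, f x = ∑ v : F, (f.comp (ContinuousLinearMap.single ℂ (fun _ : F => H) v)) (x v) := by
      intro x
      rw [hf3]
      rfl
    simp only [this]
    exact tendsto_finsetSum _ fun v _ => WTendsto.functional (hlim v) _
  have hlim3 : Tendsto (fun d => (f (Φ (h' d))).re) U (𝓝 (f (Φ h)).re) :=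
    (Complex.continuous_re.tendsto _).comp hlim2
  have h4 : (f (Φ h)).re ≤ r := by
    refine le_of_tendsto hlim3 (Eventually.of_forall fun d => ?_)
    exact (hf1 _ (subset_closure ⟨h' d, hh' d, rfl⟩)).le
  have h5 : r < (f (Φ h)).re := hf2
  linarith

end Pool.Agent.CSLRad
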