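import Mathlib
import Pool.Agent.CSLRad.Cut

/-! Spectral cuts of limits of convex combinations of projections of a lattice, continued. -/

set_option linter.unusedSectionVars false

namespace Pool.Agent.CSLRad

open Finset Filter Topology

variable {H : Type*} [NormedAddCommGroup H] [InnerProductSpace ℂ H] [CompleteSpace H]

lemma sa_inner {r : H →L[ℂ] H} (hr : IsSelfAdjoint r) (x y : H) :
    inner ℂ (r x) y = inner ℂ x (r y) := by
  have h : ContinuousLinearMap.adjoint r = r := hr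
  conv_lhs => rw [← h]
  exact ContinuousLinearMap.adjoint_inner_left r y x

/-- Positive and negative parts with a square root. -/
lemma exists_parts {a : H →L[ℂ] H} (ha : IsSelfAdjoint a) :
    ∃ r k : H →L[ℂ] H, IsSelfAdjoint r ∧ (∀ x, 0 ≤ (inner ℂ (k x) x).re) ∧ a = r * r - k ∧
      r * k = 0 ∧ k * r = 0 ∧ (∀ X, Commute a X → Commute r X ∧ Commute k X) := by
  have hp : (0 : H →L[ℂ] H) ≤ a⁺ := CFC.posPart_nonneg a
  have hn : (0 : H →L[ℂ] H) ≤ a⁻ := CFC.negPart_nonneg a
  have hr2 : CFC.sqrt a⁺ * CFC.sqrt a⁺ = a⁺ := CFC.sqrt_mul_sqrt_self _ hp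
  have hrs : IsSelfAdjoint (CFC.sqrt a⁺) := (CFC.sqrt_nonneg _).isSelfAdjoint
  have hks : IsSelfAdjoint (a⁻) := hn.isSelfAdjoint
  have hrk : CFC.sqrt a⁺ * a⁻ = 0 := by
    ext x
    have h1 : ‖(CFC.sqrt a⁺) (a⁻ x)‖ ^ 2 = 0 := by
      rw [norm_sq_re, sa_inner hrs, ← mul_apply_eq_comp, hr2, ← mul_apply_eq_comp,
        CFC.posPart_mul_negPart]
      simp
    simpa using h1
  refine ⟨CFC.sqrt a⁺, a⁻, hrs, ?_, ?_, hrk, ?_, ?_⟩
  · intro x
    have := (ContinuousLinearMap.nonneg_iff_isPositive _).mp hn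
    exact this.re_inner_nonneg_left x
  · rw [hr2]
    exact (CFC.posPart_sub_negPart a ha).symm
  · have := congrArg star hrk
    rw [star_mul, hks.star_eq, hrs.star_eq, star_zero] at this
    exact this
  · intro X hX
    have h1 : Commute a⁺ X := hX.cfcₙ_real _
    have h2 : Commute a⁻ X := hX.cfcₙ_real _
    exact ⟨h1.cfcₙ_nnreal _, h2⟩

/-- `h` is a strong limit of convex combinations of elements of `L`. -/
def LimConv (L : Set (H →L[ℂ] H)) (h : H →L[ℂ] H) : Prop :=
  ∀ (F : Finset H) (ε : ℝ), 0 < ε → ∃ g ∈ convexHull ℝ L, ∀ v ∈ F, ‖(g - h) v‖ < ε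

lemma LimConv.net {L : Set (H →L[ℂ] H)} {h : H →L[ℂ] H} (hh : LimConv L h) :
    ∃ g : Finset H × ℕ → H →L[ℂ] H, (∀ d, g d ∈ convexHull ℝ L) ∧
      ∀ d, ∀ v ∈ d.1, ‖(g d - h) v‖ < (1 / ((d.2 : ℝ) + 1)) ^ 2 := by
  have : ∀ d : Finset H × ℕ, ∃ g ∈ convexHull ℝ L, ∀ v ∈ d.1,
      ‖(g - h) v‖ < (1 / ((d.2 : ℝ) + 1)) ^ 2 := fun d => hh d.1 _ (by positivity)
  choose g hg1 hg2 using this
  exact ⟨g, hg1, hg2⟩

lemma eventually_mem_fst (v : H) : ∀ᶠ d : Finset H × ℕ in atTop, v ∈ d.1 := by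
  classical
  filter_upwards [eventually_ge_atTop (({v}, 0) : Finset H × ℕ)] with d hd
  exact hd.1 (mem_singleton_self v)

lemma tendsto_snd_inv : Tendsto (fun d : Finset H × ℕ => 1 / ((d.2 : ℝ) + 1)) atTop (𝓝 0) := by
  classical
  have h1 : Tendsto (fun n : ℕ => 1 / ((n : ℝ) + 1)) atTop (𝓝 0) :=
    tendsto_one_div_add_atTop_nhds_zero_nat
  have h2 : Tendsto (fun d : Finset H × ℕ => d.2) atTop atTop := by
    rw [← prod_atTop_atTop_eq]
    exact tendsto_snd
  exact h1.comp h2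

lemma atTop_neBot' : (atTop : Filter (Finset H × ℕ)).NeBot := by
  classical
  infer_instance

lemma LimConv.tendsto {L : Set (H →L[ℂ] H)} {h : H →L[ℂ] H} {g : Finset H × ℕ → H →L[ℂ] H}
    (hg : ∀ d, ∀ v ∈ d.1, ‖(g d - h) v‖ < (1 / ((d.2 : ℝ) + 1)) ^ 2) (v : H) :
    Tendsto (fun d => g d v) atTop (𝓝 (h v)) := by
  rw [tendsto_iff_norm_sub_tendsto_zero]
  have h1 : Tendsto (fun d : Finset H × ℕ => (1 / ((d.2 : ℝ) + 1)) ^ 2) atTop (𝓝 0) := by
    have := (tendsto_snd_inv (H := H)).pow 2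
    simpa using this
  refine squeeze_zero' (Eventually.of_forall fun d => norm_nonneg _) ?_ h1
  filter_upwards [eventually_mem_fst v] with d hd
  have := (hg d v hd).le
  simpa using this

section facts

variable {L : Set (H →L[ℂ] H)} {h : H →L[ℂ] H}

lemma LimConv.symm (hL : IsPL L) (hh : LimConv L h) (x y : H) :
    inner ℂ (h x) y = inner ℂ x (h y) := by
  obtain ⟨g, hg1, hg2⟩ := hh.net
  have := atTop_neBot' (H := H)
  have h1 : Tendsto (fun d => inner ℂ (g d x) y) atTop (𝓝 (inner ℂ (h x) y)) :=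
    (LimConv.tendsto (L := L) hg2 x).inner tendsto_const_nhds
  have h2 : Tendsto (fun d => inner ℂ (g d x) y) atTop (𝓝 (inner ℂ x (h y))) := by
    simp only [fun d => conv_symm hL (hg1 d) x y]
    exact tendsto_const_nhds.inner (LimConv.tendsto (L := L) hg2 y)
  exact tendsto_nhds_unique h1 h2

lemma LimConv.isSelfAdjoint (hL : IsPL L) (hh : LimConv L h) : IsSelfAdjoint h := by
  rw [IsSelfAdjoint, ContinuousLinearMap.star_eq_adjoint]
  refine (ContinuousLinearMap.eq_adjoint_iff _ _).mpr (fun x y => hh.symm hL x y) |>.symm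

lemma LimConv.nonneg (hL : IsPL L) (hh : LimConv L h) (x : H) : 0 ≤ (inner ℂ (h x) x).re := by
  obtain ⟨g, hg1, hg2⟩ := hh.net
  have := atTop_neBot' (H := H)
  have h1 : Tendsto (fun d => (inner ℂ (g d x) x).re) atTop (𝓝 (inner ℂ (h x) x).re) :=
    (Complex.continuous_re.tendsto _).comp
      ((LimConv.tendsto (L := L) hg2 x).inner tendsto_const_nhds)
  exact ge_of_tendsto h1 (Eventually.of_forall fun d => conv_nonneg hL (hg1 d) x)

lemma LimConv.le (hL : IsPL L) (hh : LimConv L h) (x : H) : (inner ℂ (h x) x).re ≤ ‖x‖ ^ 2 := by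
  obtain ⟨g, hg1, hg2⟩ := hh.net
  have := atTop_neBot' (H := H)
  have h1 : Tendsto (fun d => (inner ℂ (g d x) x).re) atTop (𝓝 (inner ℂ (h x) x).re) :=
    (Complex.continuous_re.tendsto _).comp
      ((LimConv.tendsto (L := L) hg2 x).inner tendsto_const_nhds)
  exact le_of_tendsto h1 (Eventually.of_forall fun d => conv_le hL (hg1 d) x)

lemma LimConv.commute (hL : IsPL L) (hh : LimConv L h) {X : H →L[ℂ] H}
    (hX : ∀ P ∈ L, P * X = X * P) : h * X = X * h := by
  obtain ⟨g, hg1, hg2⟩ := hh.net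
  have := atTop_neBot' (H := H)
  ext v
  simp only [mul_apply_eq_comp]
  refine tendsto_nhds_unique (LimConv.tendsto (L := L) hg2 (X v)) ?_
  have h1 : Tendsto (fun d => X (g d v)) atTop (𝓝 (X (h v))) :=
    (X.continuous.tendsto _).comp (LimConv.tendsto (L := L) hg2 v)
  refine h1.congr fun d => ?_
  have := congrArg (fun T : H →L[ℂ] H => T v) (conv_commute hL (hg1 d) hX)
  simp only [mul_apply_eq_comp] at this
  exact this.symm

/-- The set of vectors of convergence of a bounded net is everything if it is dense. -/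
lemma tendsto_of_dense {D : Type*} {l : Filter D} {N : D → H →L[ℂ] H} {M : H →L[ℂ] H}
    (hN : ∀ d, ‖N d‖ ≤ 1) (hM : ‖M‖ ≤ 1) (S : Submodule ℂ H)
    (hS : ∀ v ∈ S, Tendsto (fun d => N d v) l (𝓝 (M v))) (hSp : Sᗮ = ⊥) (v : H) :
    Tendsto (fun d => N d v) l (𝓝 (M v)) := by
  have htop : v ∈ closure (S : Set H) := by
    have h1 := Submodule.topologicalClosure_eq_top_iff.mpr hSp
    rw [← Submodule.topologicalClosure_coe, h1]
    trivial
  rw [Metric.tendsto_nhds]
  intro ε hε
  obtain ⟨s, hs, hvs⟩ := Metric.mem_closure_iff.mp htop (ε / 3) (by linarith)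
  have h1 := (Metric.tendsto_nhds.mp (hS s hs)) (ε / 3) (by linarith)
  filter_upwards [h1] with d hd
  rw [dist_eq_norm] at hd hvs ⊢
  have e : N d v - M v = N d (v - s) + (N d s - M s) - M (v - s) := by
    simp only [map_sub]
    abel
  have b1 : ‖N d (v - s)‖ ≤ ‖v - s‖ := by
    have := (N d).le_of_opNorm_le (hN d) (v - s)
    simpa using this
  have b2 : ‖M (v - s)‖ ≤ ‖v - s‖ := by
    have := M.le_of_opNorm_le hM (v - s)
    simpa using this
  rw [e]
  calc ‖N d (v - s) + (N d s - M s) - M (v - s)‖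
      ≤ ‖N d (v - s) + (N d s - M s)‖ + ‖M (v - s)‖ := norm_sub_le _ _
    _ ≤ ‖N d (v - s)‖ + ‖N d s - M s‖ + ‖M (v - s)‖ := by
        gcongr
        exact norm_add_le _ _
    _ < ε := by linarith

/-- The spectral cut at one half. -/
lemma spectral_cut (hL : IsPL L) (hS : SOTClosed L) (hh : LimConv L h) :
    ∃ M ∈ L, (∀ x, ‖(1 - M) x‖ ^ 2 ≤ 2 * (‖x‖ ^ 2 - (inner ℂ (h x) x).re)) ∧
      ∀ x, ‖M x‖ ^ 2 ≤ 2 * (inner ℂ (h x) x).re := by
  set a : H →L[ℂ] H := h - ((1 / 2 : ℝ) : ℂ) • 1 with ha_def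
  have hsa : IsSelfAdjoint h := hh.isSelfAdjoint hL
  have hasa : IsSelfAdjoint a := by
    refine hsa.sub ?_
    rw [IsSelfAdjoint, star_smul, star_one]
    simp
  have haa : ∀ x y : H, inner ℂ (a x) y = inner ℂ (h x) y - ((1 / 2 : ℝ) : ℂ) * inner ℂ x y := by
    intro x y
    rw [ha_def]
    simp only [sub_apply, smul_apply, one_apply_eq_self, inner_sub_left, inner_smul_left,
      Complex.conj_ofReal]
  have haax : ∀ x : H, (inner ℂ (a x) x).re = (inner ℂ (h x) x).re - 1 / 2 * ‖x‖ ^ 2 := by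
    intro x
    rw [haa, Complex.sub_re, Complex.re_ofReal_mul, norm_sq_re]
  obtain ⟨r, k, hr, hk0, hark, hrk, hkr, hcomm⟩ := exists_parts hasa
  -- commutation of elements of `L`
  have hLh : ∀ N ∈ L, h * N = N * h := fun N hN =>
    hh.commute hL fun P hP => hL.comm P hP N hN
  have hLa : ∀ N ∈ L, Commute a N := by
    intro N hN
    show a * N = N * a
    rw [ha_def, sub_mul, mul_sub, hLh N hN]
    simp
  have hLr : ∀ N ∈ L, ∀ x, r (N x) = N (r x) := by
    intro N hN x
    have := (hcomm N (hLa N hN)).1.eq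
    exact congrArg (fun T : H →L[ℂ] H => T x) this
  have hLk : ∀ N ∈ L, ∀ x, k (N x) = N (k x) := by
    intro N hN x
    have := (hcomm N (hLa N hN)).2.eq
    exact congrArg (fun T : H →L[ℂ] H => T x) this
  have hLhx : ∀ N ∈ L, ∀ x, h (N x) = N (h x) := by
    intro N hN x
    exact congrArg (fun T : H →L[ℂ] H => T x) (hLh N hN)
  have hkrx : ∀ x, k (r x) = 0 := by
    intro x
    exact congrArg (fun T : H →L[ℂ] H => T x) hkr
  have hax : ∀ x, a x = r (r x) - k x := by
    intro x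
    exact congrArg (fun T : H →L[ℂ] H => T x) hark
  -- kernel of r
  let K : Submodule ℂ H := LinearMap.ker (r : H →ₗ[ℂ] H)
  have hKmem : ∀ x, x ∈ K ↔ r x = 0 := fun x => Iff.rfl
  have hKc : IsClosed (K : Set H) := r.isClosed_ker
  have : CompleteSpace K := hKc.completeSpace_coe
  set P₀ := K.starProjection with hP₀
  have hP₀p : IsStarProjection P₀ := isStarProjection_starProjection
  set M : H →L[ℂ] H := 1 - P₀ with hM_def
  have hMp : IsStarProjection M := hP₀p.one_sub
  have hP₀r : ∀ x, r (P₀ x) = 0 := fun x => (hKmem _).mp (K.starProjection_apply_mem x)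
  have hP₀K : ∀ x, r x = 0 → P₀ x = x := fun x hx =>
    Submodule.starProjection_eq_self_iff.mpr ((hKmem x).mpr hx)
  have hMK : ∀ x, r x = 0 → M x = 0 := by
    intro x hx
    rw [hM_def, sub_apply, one_apply_eq_self, hP₀K x hx, sub_self]
  have hMr : ∀ x, M (r x) = r x := by
    intro x
    have : P₀ (r x) = 0 := by
      refine ext_inner_right ℂ fun y => ?_
      rw [proj_inner hP₀p, sa_inner hr, hP₀r, inner_zero_right, inner_zero_left]
    rw [hM_def, sub_apply, one_apply_eq_self, this, sub_zero]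
  -- the net
  obtain ⟨g, hg1, hg2⟩ := hh.net
  have := atTop_neBot' (H := H)
  have hcut : ∀ d : Finset H × ℕ, ∃ N ∈ L,
      (∀ x, (1 / 2 + 1 / ((d.2 : ℝ) + 1)) * ‖N x‖ ^ 2 ≤ (inner ℂ (g d (N x)) (N x)).re) ∧
      ∀ x, (inner ℂ (g d ((1 - N) x)) ((1 - N) x)).re ≤
        (1 / 2 + 1 / ((d.2 : ℝ) + 1)) * ‖(1 - N) x‖ ^ 2 := fun d => conv_cut hL (hg1 d) _
  choose N hNL hN1 hN2 using hcut
  have hgN : ∀ d x, g d (N d x) = N d (g d x) := by
    intro d x
    exact congrArg (fun T : H →L[ℂ] H => T x)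
      (conv_commute hL (hg1 d) fun P hP => hL.comm P hP _ (hNL d))
  have hinv : Tendsto (fun d : Finset H × ℕ => 1 / ((d.2 : ℝ) + 1)) atTop (𝓝 0) := tendsto_snd_inv
  -- convergence on the kernel
  have hconv1 : ∀ v, r v = 0 → Tendsto (fun d => N d v) atTop (𝓝 (M v)) := by
    intro v hv
    rw [hMK v hv, tendsto_zero_iff_norm_tendsto_zero]
    refine squeeze_zero' (Eventually.of_forall fun d => norm_nonneg _) ?_ hinv
    filter_upwards [eventually_mem_fst v] with d hd
    set τ : ℝ := 1 / ((d.2 : ℝ) + 1) with hτ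
    have hτ0 : 0 < τ := by positivity
    have hNp := hL.proj _ (hNL d)
    set y := N d v with hy
    have hry : r y = 0 := by rw [hy, hLr _ (hNL d), hv, map_zero]
    have h1 : (inner ℂ (a y) y).re ≤ 0 := by
      rw [hax, hry, map_zero, zero_sub, inner_neg_left, Complex.neg_re]
      linarith [hk0 y]
    rw [haax] at h1
    have h2 := hN1 d v
    have h3 : (inner ℂ ((g d - h) y) y).re ≤ τ ^ 2 * ‖y‖ := by
      have e1 : (g d - h) y = N d ((g d - h) v) := by
        rw [sub_apply, sub_apply, map_sub, hy, hgN, hLhx _ (hNL d)]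
      calc (inner ℂ ((g d - h) y) y).re ≤ ‖(g d - h) y‖ * ‖y‖ := re_inner_le_norm (𝕜 := ℂ) _ _
        _ ≤ τ ^ 2 * ‖y‖ := by
          gcongr
          rw [e1]
          exact (proj_norm_le hNp _).trans (hg2 d v hd).le
    rw [sub_apply, inner_sub_left, Complex.sub_re] at h3
    have h4 : τ * ‖y‖ ^ 2 ≤ τ ^ 2 * ‖y‖ := by
      have : (1 / 2 + τ) * ‖y‖ ^ 2 ≤ (inner ℂ (g d y) y).re := h2
      nlinarith
    by_contra hcon
    push Not at hcon
    have h5 : 0 < ‖y‖ := lt_trans hτ0 hcon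
    have h6 : τ * ‖y‖ ≤ τ ^ 2 := by
      have : (τ * ‖y‖) * ‖y‖ ≤ τ ^ 2 * ‖y‖ := by nlinarith
      exact le_of_mul_le_mul_right this h5
    nlinarith
  -- convergence on the range of r * r
  have hconv2 : ∀ w, Tendsto (fun d => N d (r (r w))) atTop (𝓝 (M (r (r w)))) := by
    intro w
    rw [hMr, tendsto_iff_norm_sub_tendsto_zero]
    set z := r w with hz
    have hlim : Tendsto (fun d : Finset H × ℕ => Real.sqrt ((1 / ((d.2 : ℝ) + 1)) * ‖z‖ ^ 2 +
        (1 / ((d.2 : ℝ) + 1)) ^ 2 * ‖z‖)) atTop (𝓝 0) := by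
      have h1 : Tendsto (fun d : Finset H × ℕ => (1 / ((d.2 : ℝ) + 1)) * ‖z‖ ^ 2 +
        (1 / ((d.2 : ℝ) + 1)) ^ 2 * ‖z‖) atTop (𝓝 (0 * ‖z‖ ^ 2 + 0 ^ 2 * ‖z‖)) :=
        (hinv.mul_const _).add ((hinv.pow 2).mul_const _)
      have h2 : Tendsto (fun d : Finset H × ℕ => Real.sqrt ((1 / ((d.2 : ℝ) + 1)) * ‖z‖ ^ 2 +
        (1 / ((d.2 : ℝ) + 1)) ^ 2 * ‖z‖)) atTop (𝓝 (Real.sqrt (0 * ‖z‖ ^ 2 + 0 ^ 2 * ‖z‖))) :=
        (Real.continuous_sqrt.tendsto _).comp h1
      have e : Real.sqrt (0 * ‖z‖ ^ 2 + 0 ^ 2 * ‖z‖) = 0 := by simp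
      rw [e] at h2
      exact h2
    refine squeeze_zero' (Eventually.of_forall fun d => norm_nonneg _) ?_ hlim
    filter_upwards [eventually_mem_fst z] with d hd
    set τ : ℝ := 1 / ((d.2 : ℝ) + 1) with hτ
    have hτ0 : 0 < τ := by positivity
    have hNp := hL.proj _ (hNL d)
    have hNp' := hNp.one_sub
    set y := (1 - N d) z with hy
    have e0 : N d (r z) - r z = -(r y) := by
      rw [hy, sub_apply, one_apply_eq_self, map_sub, hLr _ (hNL d)]
      abel
    rw [e0, norm_neg]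
    refine Real.le_sqrt_of_sq_le ?_
    have hky : k y = 0 := by
      rw [hy, sub_apply, one_apply_eq_self, map_sub, hLk _ (hNL d), hz, hkrx, map_zero, sub_zero]
    have h1 : ‖r y‖ ^ 2 = (inner ℂ (a y) y).re := by
      rw [norm_sq_re, sa_inner hr, hax, hky, sub_zero]
      rw [← sa_inner hr, ← sa_inner hr]
    rw [h1, haax]
    have h2 : (inner ℂ (g d y) y).re ≤ (1 / 2 + τ) * ‖y‖ ^ 2 := hN2 d z
    have hyz : ‖y‖ ≤ ‖z‖ := proj_norm_le hNp' z
    have h3 : (inner ℂ ((h - g d) y) y).re ≤ τ ^ 2 * ‖z‖ := by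
      have e1 : (h - g d) y = (1 - N d) ((h - g d) z) := by
        simp only [hy, sub_apply, one_apply_eq_self, map_sub, hgN, hLhx _ (hNL d)]
        abel
      calc (inner ℂ ((h - g d) y) y).re ≤ ‖(h - g d) y‖ * ‖y‖ := re_inner_le_norm (𝕜 := ℂ) _ _
        _ ≤ τ ^ 2 * ‖z‖ := by
          gcongr
          rw [e1]
          refine (proj_norm_le hNp' _).trans ?_
          have := (hg2 d z hd).le
          rw [← neg_sub, neg_apply, norm_neg]
          exact this
    rw [sub_apply, inner_sub_left, Complex.sub_re] at h3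
    have h4 : ‖y‖ ^ 2 ≤ ‖z‖ ^ 2 := pow_le_pow_left₀ (norm_nonneg _) hyz 2
    nlinarith
  -- M belongs to L
  have hML : M ∈ L := by
    have hconv : ∀ v, Tendsto (fun d => N d v) atTop (𝓝 (M v)) := by
      let S : Submodule ℂ H :=
        { carrier := {v | Tendsto (fun d => N d v) atTop (𝓝 (M v))}
          add_mem' := by
            intro x y hx hy
            simp only [Set.mem_ofPred_eq, map_add] at hx hy ⊢
            exact hx.add hy
          zero_mem' := by
            simp only [Set.mem_ofPred_eq, map_zero]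
            exact tendsto_const_nhds
          smul_mem' := by
            intro c x hx
            simp only [Set.mem_ofPred_eq, map_smul] at hx ⊢
            exact hx.const_smul c }
      refine tendsto_of_dense (fun d => proj_opNorm_le (hL.proj _ (hNL d))) (proj_opNorm_le hMp)
        S (fun v hv => hv) ?_
      rw [Submodule.eq_bot_iff]
      intro y hy
      rw [Submodule.mem_orthogonal] at hy
      have h1 : r (r y) = 0 := by
        refine ext_inner_left ℂ fun w => ?_
        rw [inner_zero_right, ← sa_inner hr, ← sa_inner hr]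
        exact hy _ (hconv2 w)
      have h2 : r y = 0 := by
        have : ‖r y‖ ^ 2 = 0 := by
          rw [norm_sq_re, sa_inner hr, h1]
          simp
        simpa using this
      have h3 := hy _ (hconv1 y h2)
      exact inner_self_eq_zero.mp h3
    exact hS.mem (Eventually.of_forall hNL) hconv
  refine ⟨M, hML, ?_, ?_⟩
  · intro x
    have e1 : (1 - M) x = P₀ x := by
      rw [hM_def, sub_sub_cancel]
    rw [e1]
    set w := P₀ x with hw
    have hwk : r w = 0 := hP₀r x
    have h1 : (inner ℂ (a w) w).re ≤ 0 := by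
      rw [hax, hwk, map_zero, zero_sub, inner_neg_left, Complex.neg_re]
      linarith [hk0 w]
    rw [haax] at h1
    have hxw : x = w + M x := by
      rw [hM_def, sub_apply, one_apply_eq_self, ← hw]
      abel
    have h2 : inner ℂ (h w) (M x) = 0 := by
      rw [← proj_inner hMp, ← hLhx M hML, hMK w hwk, map_zero, inner_zero_left]
    have h3 : inner ℂ (h (M x)) w = 0 := by
      rw [hh.symm hL, proj_inner hMp, ← hLhx M hML, hMK w hwk, map_zero, inner_zero_right]
    have h4 : (inner ℂ (h x) x).re = (inner ℂ (h w) w).re + (inner ℂ (h (M x)) (M x)).re := by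
      conv_lhs => rw [hxw]
      rw [map_add, inner_add_left, inner_add_right, inner_add_right, h2, h3]
      simp
    have h5 : ‖x‖ ^ 2 = ‖w‖ ^ 2 + ‖M x‖ ^ 2 := by
      have hwM : inner ℂ w (M x) = 0 := by
        rw [← proj_inner hMp, hMK w hwk, inner_zero_left]
      have := norm_add_sq_eq_norm_sq_add_norm_sq_of_inner_eq_zero w (M x) hwM
      rw [← hxw] at this
      simpa [sq] using this
    have h6 := hh.le hL (M x)
    rw [h4, h5]
    linarith
  · intro x
    set w := P₀ x with hw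
    have hwk : r w = 0 := hP₀r x
    have hxw : x = w + M x := by
      rw [hM_def, sub_apply, one_apply_eq_self, ← hw]
      abel
    have h2 : inner ℂ (h w) (M x) = 0 := by
      rw [← proj_inner hMp, ← hLhx M hML, hMK w hwk, map_zero, inner_zero_left]
    have h3 : inner ℂ (h (M x)) w = 0 := by
      rw [hh.symm hL, proj_inner hMp, ← hLhx M hML, hMK w hwk, map_zero, inner_zero_right]
    have h4 : (inner ℂ (h x) x).re = (inner ℂ (h w) w).re + (inner ℂ (h (M x)) (M x)).re := by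
      conv_lhs => rw [hxw]
      rw [map_add, inner_add_left, inner_add_right, inner_add_right, h2, h3]
      simp
    have hkM : k (M x) = 0 := by
      have hkK : k (M x) = M (k x) := hLk M hML x
      rw [hkK]
      refine hMK _ ?_
      exact congrArg (fun T : H →L[ℂ] H => T x) hrk
    have h5 : (inner ℂ (a (M x)) (M x)).re = ‖r (M x)‖ ^ 2 := by
      rw [hax, hkM, sub_zero, sa_inner hr, norm_sq_re]
    rw [haax] at h5
    have h6 := hh.nonneg hL w
    have h7 := sq_nonneg ‖r (M x)‖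
    rw [h4]
    linarith

end facts

end Pool.Agent.CSLRad
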