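import Mathlib
import Pool.Agent.CSLRad.Cut2

/-! Duality for domination paths. -/

set_option linter.unusedSectionVars false

namespace Pool.Agent.CSLRad

open Finset Filter Topology

variable {H : Type*} [NormedAddCommGroup H] [InnerProductSpace ℂ H] [CompleteSpace H]

/-- Finite minimax. -/
lemma minimax_fin {V J : Type*} [AddCommGroup V] [Module ℝ V] [Fintype J] (S : Set V)
    (hS : Convex ℝ S) (hne : S.Nonempty) (f : J → V → ℝ) (hf : ∀ j, ConvexOn ℝ S (f j)) (c : ℝ)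
    (h : ∀ l : J → ℝ, (∀ j, 0 ≤ l j) → ∑ j, l j = 1 → ∃ x ∈ S, ∑ j, l j * f j x < c) :
    ∃ x ∈ S, ∀ j, f j x < c := by
  classical
  by_contra hcon
  let C : Set (J → ℝ) := {v | ∃ x ∈ S, ∀ j, f j x < v j}
  have hCconv : Convex ℝ C := by
    rintro v ⟨x, hx, hxv⟩ w ⟨y, hy, hyw⟩ a b ha hb hab
    refine ⟨a • x + b • y, hS hx hy ha hb hab, fun j => ?_⟩
    have h1 := (hf j).2 hx hy ha hb hab
    simp only [smul_eq_mul] at h1
    have h2 : a * f j x + b * f j y < a * v j + b * w j := by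
      rcases ha.lt_or_eq with ha' | ha'
      · have := mul_lt_mul_of_pos_left (hxv j) ha'
        have := mul_le_mul_of_nonneg_left (hyw j).le hb
        linarith
      · have hb1 : b = 1 := by linarith
        subst hb1
        rw [← ha']
        have := hyw j
        linarith
    simpa using lt_of_le_of_lt h1 h2
  have hCopen : IsOpen C := by
    have : C = ⋃ x ∈ S, ⋂ j, {v : J → ℝ | f j x < v j} := by
      ext v
      simp [C]
    rw [this]
    refine isOpen_biUnion fun x _ => isOpen_iInter_of_finite fun j => ?_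
    exact isOpen_lt continuous_const (continuous_apply j)
  have hnot : (fun _ => c) ∉ C := by
    rintro ⟨x, hx, hxc⟩
    exact hcon ⟨x, hx, hxc⟩
  obtain ⟨g, hg⟩ := geometric_hahn_banach_open_point hCconv hCopen hnot
  have hgs : ∀ v : J → ℝ, g v = ∑ j, v j * g (Pi.single j 1) := by
    intro v
    conv_lhs => rw [← Finset.univ_sum_single v]
    rw [map_sum]
    refine sum_congr rfl fun j _ => ?_
    have : (Pi.single j (v j) : J → ℝ) = v j • Pi.single j 1 := by
      rw [← Pi.single_smul]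
      simp
    rw [this, map_smul, smul_eq_mul]
  obtain ⟨x₀, hx₀⟩ := hne
  have hv0 : ∀ t : ℝ, 0 ≤ t → ∀ j0, g (fun j => f j x₀ + 1 + if j = j0 then t else 0) < g fun _ => c := by
    intro t ht j0
    refine hg _ ⟨x₀, hx₀, fun j => ?_⟩
    show f j x₀ < f j x₀ + 1 + if j = j0 then t else 0
    split_ifs <;> linarith
  have hneg : ∀ j, g (Pi.single j 1) ≤ 0 := by
    intro j0
    by_contra hpos
    push Not at hpos
    have key : ∀ t : ℝ, 0 ≤ t → t * g (Pi.single j0 1) < (g fun _ => c) - g (fun j => f j x₀ + 1) := by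
      intro t ht
      have h1 := hv0 t ht j0
      have e : (fun j => f j x₀ + 1 + if j = j0 then t else 0) =
          (fun j => f j x₀ + 1) + t • Pi.single j0 1 := by
        funext j
        simp only [Pi.add_apply, Pi.smul_apply, smul_eq_mul, Pi.single_apply]
        split_ifs <;> simp
      rw [e, map_add, map_smul, smul_eq_mul] at h1
      linarith
    set R := (g fun _ => c) - g (fun j => f j x₀ + 1) with hR
    have h1 := key (|R| / g (Pi.single j0 1)) (by positivity)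
    rw [div_mul_cancel₀ _ hpos.ne'] at h1
    exact absurd h1 (not_lt.mpr (le_abs_self R))
  set l : J → ℝ := fun j => -g (Pi.single j 1) with hl
  have hl0 : ∀ j, 0 ≤ l j := fun j => neg_nonneg.mpr (hneg j)
  have hgl : ∀ v : J → ℝ, g v = -∑ j, l j * v j := by
    intro v
    rw [hgs, ← sum_neg_distrib]
    refine sum_congr rfl fun j _ => ?_
    simp only [hl]
    ring
  have hsum : 0 < ∑ j, l j := by
    refine lt_of_le_of_ne (sum_nonneg fun j _ => hl0 j) fun h0 => ?_
    have hz : ∀ j, l j = 0 := by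
      intro j
      exact (sum_eq_zero_iff_of_nonneg fun j _ => hl0 j).mp h0.symm j (mem_univ j)
    have h1 := hg (fun j => f j x₀ + 1) ⟨x₀, hx₀, fun j => by linarith⟩
    rw [hgl, hgl] at h1
    simp [hz] at h1
  set s := ∑ j, l j with hs
  obtain ⟨x, hx, hxc⟩ := h (fun j => l j / s) (fun j => div_nonneg (hl0 j) hsum.le)
    (by rw [← sum_div, ← hs, div_self hsum.ne'])
  have h2 : ∑ j, l j * f j x < s * c := by
    have e : ∑ j, l j / s * f j x = (∑ j, l j * f j x) / s := by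
      rw [sum_div]
      refine sum_congr rfl fun j _ => ?_
      ring
    rw [e, div_lt_iff₀ hsum] at hxc
    linarith
  set t := (s * c - ∑ j, l j * f j x) / s with ht
  have htpos : 0 < t := div_pos (by linarith) hsum
  have h3 := hg (fun j => f j x + t) ⟨x, hx, fun j => by linarith⟩
  rw [hgl, hgl] at h3
  have e1 : ∑ j, l j * (f j x + t) = ∑ j, l j * f j x + s * t := by
    rw [hs, sum_mul, ← sum_add_distrib]
    refine sum_congr rfl fun j _ => ?_
    ring
  have e2 : ∑ j, l j * c = s * c := by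
    rw [hs, sum_mul]
  have e3 : s * t = s * c - ∑ j, l j * f j x := by
    rw [ht]
    field_simp
  rw [e1, e2, e3] at h3
  linarith

lemma sigma_norm {J : Type*} [Fintype J] (κ : J → Type*) [∀ j, Fintype (κ j)]
    (u : ∀ j, κ j → H) (p : J → ℝ) (hp : ∀ j, 0 ≤ p j) (A : H →L[ℂ] H) :
    ∑ x : (Σ j, κ j), ‖A (((Real.sqrt (p x.1) : ℝ) : ℂ) • u x.1 x.2)‖ ^ 2 =
      ∑ j, p j * ∑ k, ‖A (u j k)‖ ^ 2 := by
  rw [Fintype.sum_sigma]
  refine sum_congr rfl fun j _ => ?_
  rw [mul_sum]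
  refine sum_congr rfl fun k _ => ?_
  rw [map_smul, norm_smul, mul_pow, Complex.norm_real, Real.norm_eq_abs, sq_abs,
    Real.sq_sqrt (hp j)]

/-- Weighted concatenation of reachable families. -/
lemma reach_concat {L : Set (H →L[ℂ] H)} (l : List (Set (H →L[ℂ] H))) {n : ℕ} :
    ∀ (κ : Fin n → Type) [∀ j, Fintype (κ j)] (u : ∀ j, κ j → H), (∀ j, Reach L l (κ j) (u j)) →
    ∀ p : Fin n → ℝ, (∀ j, 0 ≤ p j) → ∑ j, p j ≤ 1 →
    Reach L l (Σ j, κ j) (fun x => ((Real.sqrt (p x.1) : ℝ) : ℂ) • u x.1 x.2) := by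
  induction l with
  | nil =>
    intro κ _ u hu p hp hp1
    show ∑ x : (Σ j, κ j), ‖(((Real.sqrt (p x.1) : ℝ) : ℂ) • u x.1 x.2)‖ ^ 2 ≤ 1
    have h1 := sigma_norm κ u p hp (1 : H →L[ℂ] H)
    simp only [one_apply_eq_self] at h1
    rw [h1]
    calc ∑ j, p j * ∑ k, ‖u j k‖ ^ 2 ≤ ∑ j, p j * 1 :=
          sum_le_sum fun j _ => mul_le_mul_of_nonneg_left (hu j) (hp j)
      _ ≤ 1 := by simpa using hp1
  | cons Ts l ih =>
    intro κ _ u hu p hp hp1
    choose T x hT hy κ' inst u' hu' hdom using hu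
    refine ⟨fun z => T z.1 z.2, fun z => ((Real.sqrt (p z.1) : ℝ) : ℂ) • x z.1 z.2,
      fun z => hT z.1 z.2, fun z => by simp only [map_smul, hy], Σ j, κ' j, inferInstance,
      fun z => ((Real.sqrt (p z.1) : ℝ) : ℂ) • u' z.1 z.2, ih κ' u' hu' p hp hp1, ?_⟩
    intro M hM
    have h1 := sigma_norm κ x p hp (1 - M)
    have h2 := sigma_norm κ' u' p hp (1 - M)
    rw [h1, h2]
    exact sum_le_sum fun j _ => mul_le_mul_of_nonneg_left (hdom j M hM) (hp j)

/-- Finite level one step duality. -/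
lemma one_step_fin {L : Set (H →L[ℂ] H)} (hL : IsPL L) (l : List (Set (H →L[ℂ] H)))
    (Ts : Set (H →L[ℂ] H)) {ε s : ℝ} (hε : 0 < ε) (hs : 0 < s)
    (hb : ∀ (κ : Type) [Fintype κ] (y : κ → H), Reach L (Ts :: l) κ y → ∑ k, ‖y k‖ ^ 2 ≤ ε ^ 2)
    {n m : ℕ} (κ : Fin n → Type) [∀ j, Fintype (κ j)] (u : ∀ j, κ j → H)
    (hu : ∀ j, Reach L l (κ j) (u j)) (T : Fin m → H →L[ℂ] H) (hT : ∀ i, T i ∈ Ts)
    (η : Fin m → H) (hη : ∀ i, ‖η i‖ ≤ 1) (t : ℝ) (ht : 0 < t) :
    ∃ h ∈ convexHull ℝ L,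
      (∀ j, s ^ 2 * ∑ k, (‖u j k‖ ^ 2 - (inner ℂ (h (u j k)) (u j k)).re) ≤ ε + t) ∧
      ∀ i, (s⁻¹) ^ 2 * (inner ℂ (h (ContinuousLinearMap.adjoint (T i) (η i)))
        (ContinuousLinearMap.adjoint (T i) (η i))).re ≤ ε + t := by
  classical
  let f : Fin n ⊕ Fin m → (H →L[ℂ] H) → ℝ := Sum.elim
    (fun j h => s ^ 2 * ∑ k, (‖u j k‖ ^ 2 - (inner ℂ (h (u j k)) (u j k)).re))
    (fun i h => (s⁻¹) ^ 2 * (inner ℂ (h (ContinuousLinearMap.adjoint (T i) (η i)))
        (ContinuousLinearMap.adjoint (T i) (η i))).re)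
  have hre : ∀ (a b : ℝ) (x y : H →L[ℂ] H) (v : H), (inner ℂ ((a • x + b • y) v) v).re =
      a * (inner ℂ (x v) v).re + b * (inner ℂ (y v) v).re := by
    intro a b x y v
    have e1 : (a • x + b • y) v = ((a : ℂ)) • x v + ((b : ℂ)) • y v := by
      simp
    rw [e1, inner_add_left, inner_smul_left, inner_smul_left, Complex.conj_ofReal,
      Complex.conj_ofReal, Complex.add_re, Complex.re_ofReal_mul, Complex.re_ofReal_mul]
  have hf : ∀ j, ConvexOn ℝ (convexHull ℝ L) (f j) := by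
    rintro (j | i)
    · refine ⟨convex_convexHull ℝ L, fun x _ y _ a b ha hb hab => le_of_eq ?_⟩
      simp only [f, Sum.elim_inl, smul_eq_mul, hre]
      have e : ∑ k, (‖u j k‖ ^ 2 - (a * (inner ℂ (x (u j k)) (u j k)).re +
          b * (inner ℂ (y (u j k)) (u j k)).re)) =
          a * ∑ k, (‖u j k‖ ^ 2 - (inner ℂ (x (u j k)) (u j k)).re) +
          b * ∑ k, (‖u j k‖ ^ 2 - (inner ℂ (y (u j k)) (u j k)).re) := by
        rw [mul_sum, mul_sum, ← sum_add_distrib]
        refine sum_congr rfl fun k _ => ?_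
        linear_combination (-(‖u j k‖ ^ 2)) * hab
      rw [e]
      ring
    · refine ⟨convex_convexHull ℝ L, fun x _ y _ a b ha hb hab => le_of_eq ?_⟩
      simp only [f, Sum.elim_inr, smul_eq_mul, hre]
      ring
  obtain ⟨h, hh, hhf⟩ := minimax_fin (convexHull ℝ L) (convex_convexHull ℝ L)
    ⟨0, subset_convexHull ℝ L hL.zero_mem⟩ f hf (ε + t) (by
      intro lam hlam0 hlam1
      by_contra hcon
      push Not at hcon
      have hp0 : ∀ j, 0 ≤ lam (Sum.inl j) := fun j => hlam0 _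
      have hq0 : ∀ i, 0 ≤ lam (Sum.inr i) := fun i => hlam0 _
      have hsum : ∑ j, lam (Sum.inl j) + ∑ i, lam (Sum.inr i) = 1 := by
        rw [← hlam1, Fintype.sum_sum_type]
      have hp1 : ∑ j, lam (Sum.inl j) ≤ 1 := by
        have := sum_nonneg fun i (_ : i ∈ univ) => hq0 i
        linarith
      have hq1 : ∑ i, lam (Sum.inr i) ≤ 1 := by
        have := sum_nonneg fun i (_ : i ∈ univ) => hp0 i
        linarith
      let U : (Σ j, κ j) → H := fun x =>
        ((Real.sqrt (lam (Sum.inl x.1)) : ℝ) : ℂ) • u x.1 x.2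
      have hU : Reach L l (Σ j, κ j) U := reach_concat l κ u hu _ hp0 hp1
      obtain ⟨x, hx1, hx2⟩ := flow hL (fun z => (s : ℂ) • U z)
        (fun i => ((s⁻¹ : ℝ) : ℂ) • ((Real.sqrt (lam (Sum.inr i)) : ℝ) : ℂ) •
          ContinuousLinearMap.adjoint (T i) (η i)) (ε + t) (by
          intro M hM
          have hMp := hL.proj M hM
          refine (hcon M (subset_convexHull ℝ L hM)).trans (le_of_eq ?_)
          rw [Fintype.sum_sum_type]
          congr 1
          · have e1 : ∀ z, ‖(1 - M) ((s : ℂ) • U z)‖ ^ 2 = s ^ 2 * ‖(1 - M) (U z)‖ ^ 2 := by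
              intro z
              rw [map_smul, norm_smul, mul_pow, Complex.norm_real, Real.norm_eq_abs, sq_abs]
            simp only [e1]
            rw [← mul_sum]
            have e2 := sigma_norm κ u _ hp0 (1 - M)
            rw [show (∑ i, ‖(1 - M) (U i)‖ ^ 2) = _ from e2, mul_sum]
            refine sum_congr rfl fun j _ => ?_
            simp only [f, Sum.elim_inl]
            rw [mul_left_comm]
            congr 2
            refine sum_congr rfl fun k _ => ?_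
            rw [proj_norm_sq hMp.one_sub, sub_apply, one_apply_eq_self, inner_sub_left,
              Complex.sub_re, ← norm_sq_re]
          · refine sum_congr rfl fun i _ => ?_
            rw [map_smul, map_smul, norm_smul, norm_smul, mul_pow, mul_pow, Complex.norm_real,
              Complex.norm_real, Real.norm_eq_abs, Real.norm_eq_abs, sq_abs, sq_abs,
              Real.sq_sqrt (hq0 i), proj_norm_sq hMp]
            simp only [f, Sum.elim_inr]
            ring)
      let x' : Fin m → H := fun i => ((s⁻¹ : ℝ) : ℂ) • x i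
      have hdom : Dom L x' U := by
        intro M hM
        have h1 := hx1 M hM
        have e1 : ∀ z, ‖(1 - M) ((s : ℂ) • U z)‖ ^ 2 = s ^ 2 * ‖(1 - M) (U z)‖ ^ 2 := by
          intro z
          rw [map_smul, norm_smul, mul_pow, Complex.norm_real, Real.norm_eq_abs, sq_abs]
        have e2 : ∀ i, ‖(1 - M) (x' i)‖ ^ 2 = (s⁻¹) ^ 2 * ‖(1 - M) (x i)‖ ^ 2 := by
          intro z
          simp only [x']
          rw [map_smul, norm_smul, mul_pow, Complex.norm_real, Real.norm_eq_abs, sq_abs]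
        simp only [e1] at h1
        simp only [e2]
        rw [← mul_sum] at h1 ⊢
        calc (s⁻¹) ^ 2 * ∑ i, ‖(1 - M) (x i)‖ ^ 2
            ≤ (s⁻¹) ^ 2 * (s ^ 2 * ∑ z, ‖(1 - M) (U z)‖ ^ 2) :=
              mul_le_mul_of_nonneg_left h1 (sq_nonneg _)
          _ = _ := by field_simp
      have hR := hb (Fin m) (fun i => T i (x' i)) ⟨T, x', hT, fun _ => rfl, _, _, U, hU, hdom⟩
      have hterm : ∀ i, (inner ℂ (x i) (((s⁻¹ : ℝ) : ℂ) • ((Real.sqrt (lam (Sum.inr i)) : ℝ) : ℂ) •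
          ContinuousLinearMap.adjoint (T i) (η i))).re ≤
          Real.sqrt (lam (Sum.inr i)) * ‖T i (x' i)‖ := by
        intro i
        have e1 : inner ℂ (x i) (((s⁻¹ : ℝ) : ℂ) • ((Real.sqrt (lam (Sum.inr i)) : ℝ) : ℂ) •
          ContinuousLinearMap.adjoint (T i) (η i)) =
            ((Real.sqrt (lam (Sum.inr i)) : ℝ) : ℂ) * inner ℂ (T i (x' i)) (η i) := by
          simp only [x']
          rw [inner_smul_right, inner_smul_right, adj_inner', map_smul, inner_smul_left,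
            Complex.conj_ofReal]
          ring
        rw [e1, Complex.re_ofReal_mul]
        refine mul_le_mul_of_nonneg_left ?_ (Real.sqrt_nonneg _)
        calc (inner ℂ (T i (x' i)) (η i)).re ≤ ‖T i (x' i)‖ * ‖η i‖ := re_inner_le_norm (𝕜 := ℂ) _ _
          _ ≤ ‖T i (x' i)‖ * 1 := mul_le_mul_of_nonneg_left (hη i) (norm_nonneg _)
          _ = _ := mul_one _
      have h5 : ∑ i, Real.sqrt (lam (Sum.inr i)) * ‖T i (x' i)‖ ≤ ε := by
        have h6 := sum_mul_sq_le_sq_mul_sq univ (fun i => Real.sqrt (lam (Sum.inr i)))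
          (fun i => ‖T i (x' i)‖)
        have h7 : ∑ i, Real.sqrt (lam (Sum.inr i)) ^ 2 ≤ 1 := by
          simp only [Real.sq_sqrt (hq0 _)]
          exact hq1
        have h8 : (∑ i, Real.sqrt (lam (Sum.inr i)) * ‖T i (x' i)‖) ^ 2 ≤ ε ^ 2 := by
          refine h6.trans ?_
          calc _ ≤ 1 * ∑ i, ‖T i (x' i)‖ ^ 2 :=
                mul_le_mul_of_nonneg_right h7 (sum_nonneg fun i _ => sq_nonneg _)
            _ ≤ ε ^ 2 := by rw [one_mul]; exact hR
        exact le_of_sq_le_sq h8 hε.le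
      have h9 := hx2.trans (sum_le_sum fun i _ => hterm i)
      linarith)
  exact ⟨h, hh, fun j => (hhf (Sum.inl j)).le, fun i => (hhf (Sum.inr i)).le⟩

/-- The quadratic functionals of reachable families. -/
def QF (L : Set (H →L[ℂ] H)) (l : List (Set (H →L[ℂ] H))) : Set ((H →L[ℂ] H) → ℝ) :=
  {q | ∃ (κ : Type) (_ : Fintype κ) (u : κ → H), Reach L l κ u ∧
    q = fun h => ∑ k, (‖u k‖ ^ 2 - (inner ℂ (h (u k)) (u k)).re)}

/-- The vectors used as constraints. -/
def VF (Ts : Set (H →L[ℂ] H)) : Set H :=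
  {v | ∃ T ∈ Ts, ∃ η : H, ‖η‖ ≤ 1 ∧ v = ContinuousLinearMap.adjoint T η}

lemma one_step_lim {L : Set (H →L[ℂ] H)} (hL : IsPL L)
    (l : List (Set (H →L[ℂ] H))) (Ts : Set (H →L[ℂ] H)) {ε s : ℝ} (hε : 0 < ε) (hs : 0 < s)
    (hb : ∀ (κ : Type) [Fintype κ] (y : κ → H), Reach L (Ts :: l) κ y → ∑ k, ‖y k‖ ^ 2 ≤ ε ^ 2) :
    ∃ h : H →L[ℂ] H, LimConv L h ∧ (∀ v ∈ VF Ts, (s⁻¹) ^ 2 * (inner ℂ (h v) v).re ≤ ε) ∧
      ∀ q ∈ QF L l, s ^ 2 * q h ≤ ε := by
  classical
  have hex : ∀ d : Finset (QF L l) × Finset (VF Ts) × ℕ, ∃ h ∈ convexHull ℝ L,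
      (∀ q ∈ d.1, s ^ 2 * (q : (H →L[ℂ] H) → ℝ) h ≤ ε + 1 / ((d.2.2 : ℝ) + 1)) ∧
      ∀ x ∈ d.2.1, (s⁻¹) ^ 2 * (inner ℂ (h (x : H)) (x : H)).re ≤
          ε + 1 / ((d.2.2 : ℝ) + 1) := by
    rintro ⟨F1, F2, n⟩
    have hq : ∀ j : Fin F1.card, ∃ (κ : Type) (_ : Fintype κ) (u : κ → H), Reach L l κ u ∧
        ((F1.equivFin.symm j : QF L l) : (H →L[ℂ] H) → ℝ) =
          fun h => ∑ k, (‖u k‖ ^ 2 - (inner ℂ (h (u k)) (u k)).re) := fun j =>
      (F1.equivFin.symm j : QF L l).2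
    choose κ inst u hu hqu using hq
    have hv : ∀ j : Fin F2.card, ∃ T ∈ Ts, ∃ η : H, ‖η‖ ≤ 1 ∧
        ((F2.equivFin.symm j : VF Ts) : H) = ContinuousLinearMap.adjoint T η := fun j =>
      (F2.equivFin.symm j : VF Ts).2
    choose T hT η hη hve using hv
    obtain ⟨h, hh, h1, h2⟩ := one_step_fin hL l Ts hε hs hb κ u hu T hT η hη
      (1 / ((n : ℝ) + 1)) (by positivity)
    refine ⟨h, hh, fun q hq => ?_, fun x hx => ?_⟩
    · have := h1 (F1.equivFin ⟨q, hq⟩)
      have e := hqu (F1.equivFin ⟨q, hq⟩)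
      rw [Equiv.symm_apply_apply] at e
      have e2 : (q : (H →L[ℂ] H) → ℝ) h = _ := congrFun e h
      rw [e2]
      exact this
    · have := h2 (F2.equivFin ⟨x, hx⟩)
      rw [← hve, Equiv.symm_apply_apply] at this
      exact this
  choose g hg1 hg2 hg3 using hex
  have hne : (atTop : Filter (Finset (QF L l) × Finset (VF Ts) × ℕ)).NeBot := inferInstance
  set U : Ultrafilter (Finset (QF L l) × Finset (VF Ts) × ℕ) := Ultrafilter.of atTop with hU
  have hUle : (U : Filter (Finset (QF L l) × Finset (VF Ts) × ℕ)) ≤ atTop := Ultrafilter.of_le _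
  clear_value U
  obtain ⟨h, hlim, _⟩ := exists_wotlim U g 1 zero_le_one (fun d => conv_norm_le hL (hg1 d))
  have hLC : LimConv L h := mazur U g hg1 h hlim
  have hsnd : Tendsto (fun d : Finset (QF L l) × Finset (VF Ts) × ℕ =>
      ε + 1 / ((d.2.2 : ℝ) + 1)) U (𝓝 ε) := by
    have h1 : Tendsto (fun n : ℕ => 1 / ((n : ℝ) + 1)) atTop (𝓝 0) :=
      tendsto_one_div_add_atTop_nhds_zero_nat
    have h2 : Tendsto (fun d : Finset (QF L l) × Finset (VF Ts) × ℕ => d.2.2) atTop atTop := by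
      have e1 : Tendsto (fun d : Finset (QF L l) × Finset (VF Ts) × ℕ => d.2) atTop atTop := by
        rw [← prod_atTop_atTop_eq]
        exact tendsto_snd
      have e2 : Tendsto (fun d : Finset (VF Ts) × ℕ => d.2) atTop atTop := by
        rw [← prod_atTop_atTop_eq]
        exact tendsto_snd
      exact e2.comp e1
    have h3 : Tendsto (fun d : Finset (QF L l) × Finset (VF Ts) × ℕ =>
        ε + 1 / ((d.2.2 : ℝ) + 1)) atTop (𝓝 (ε + 0)) :=
      tendsto_const_nhds.add (h1.comp h2)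
    rw [add_zero] at h3
    exact h3.mono_left hUle
  have hrelim : ∀ v : H, Tendsto (fun d => (inner ℂ (g d v) v).re) U (𝓝 (inner ℂ (h v) v).re) :=
    fun v => (Complex.continuous_re.tendsto _).comp (hlim v v)
  refine ⟨h, hLC, ?_, ?_⟩
  · intro v hv
    have hlimv : Tendsto (fun d => (s⁻¹) ^ 2 * (inner ℂ (g d v) v).re) U
      (𝓝 ((s⁻¹) ^ 2 * (inner ℂ (h v) v).re)) := (hrelim v).const_mul _
    refine le_of_tendsto_of_tendsto hlimv hsnd ?_
    have hev : ∀ᶠ d : Finset (QF L l) × Finset (VF Ts) × ℕ in atTop,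
        (⟨v, hv⟩ : VF Ts) ∈ d.2.1 := by
      filter_upwards [eventually_ge_atTop
        ((∅, {(⟨v, hv⟩ : VF Ts)}, 0) : Finset (QF L l) × Finset (VF Ts) × ℕ)] with d hd
      exact hd.2.1 (mem_singleton_self _)
    filter_upwards [hUle hev] with d hd
    exact hg3 d ⟨v, hv⟩ hd
  · rintro q hq
    have hq' := hq
    obtain ⟨κ, _, u, hu, rfl⟩ := hq'
    have hlimq : Tendsto (fun d => s ^ 2 * ∑ k, (‖u k‖ ^ 2 - (inner ℂ (g d (u k)) (u k)).re)) U
          (𝓝 (s ^ 2 * ∑ k, (‖u k‖ ^ 2 - (inner ℂ (h (u k)) (u k)).re))) :=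
        (tendsto_finsetSum _ fun k _ => tendsto_const_nhds.sub (hrelim (u k))).const_mul _
    refine le_of_tendsto_of_tendsto hlimq hsnd ?_
    have hev : ∀ᶠ d : Finset (QF L l) × Finset (VF Ts) × ℕ in atTop,
        (⟨_, hq⟩ : QF L l) ∈ d.1 := by
      filter_upwards [eventually_ge_atTop
        (({(⟨_, hq⟩ : QF L l)}, ∅, 0) : Finset (QF L l) × Finset (VF Ts) × ℕ)] with d hd
      exact hd.1 (mem_singleton_self _)
    filter_upwards [hUle hev] with d hd
    exact hg2 d ⟨_, hq⟩ hd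

/-- One step duality. -/
lemma one_step {L : Set (H →L[ℂ] H)} (hL : IsPL L) (hS : SOTClosed L)
    (l : List (Set (H →L[ℂ] H))) (Ts : Set (H →L[ℂ] H)) {ε δ : ℝ} (hε : 0 < ε) (hδ : 0 < δ)
    (hb : ∀ (κ : Type) [Fintype κ] (y : κ → H), Reach L (Ts :: l) κ y → ∑ k, ‖y k‖ ^ 2 ≤ ε ^ 2) :
    ∃ M ∈ L, (∀ T ∈ Ts, ‖T * M‖ ≤ Real.sqrt 2 * δ) ∧
      ∀ (κ : Type) [Fintype κ] (u : κ → H), Reach L l κ u →
        ∑ k, ‖(1 - M) (u k)‖ ^ 2 ≤ 2 * (ε / δ) ^ 2 := by
  have hsε : 0 < Real.sqrt ε := Real.sqrt_pos.mpr hε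
  obtain ⟨s, hs, hs2⟩ : ∃ s : ℝ, 0 < s ∧ s ^ 2 * ε = δ ^ 2 := by
    refine ⟨δ / Real.sqrt ε, div_pos hδ hsε, ?_⟩
    rw [div_pow, Real.sq_sqrt hε.le]
    field_simp
  obtain ⟨h, hLC, hv, hq⟩ := one_step_lim hL l Ts hε hs hb
  obtain ⟨M, hML, hM1, hM2⟩ := spectral_cut hL hS hLC
  have hMp := hL.proj M hML
  refine ⟨M, hML, ?_, ?_⟩
  · intro T hT
    have key : ∀ v ∈ VF Ts, ‖M v‖ ≤ Real.sqrt 2 * δ := by
      intro v hvv
      have h1 := hv v hvv
      have h2 : (inner ℂ (h v) v).re ≤ δ ^ 2 := by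
        rw [← hs2]
        have : (s⁻¹) ^ 2 * s ^ 2 = 1 := by field_simp
        calc (inner ℂ (h v) v).re = s ^ 2 * ((s⁻¹) ^ 2 * (inner ℂ (h v) v).re) := by
              rw [← mul_assoc, mul_comm (s ^ 2), this, one_mul]
          _ ≤ s ^ 2 * ε := mul_le_mul_of_nonneg_left h1 (sq_nonneg _)
      have h3 := (hM2 v).trans (mul_le_mul_of_nonneg_left h2 zero_le_two)
      have h4 : 2 * δ ^ 2 = (Real.sqrt 2 * δ) ^ 2 := by
        rw [mul_pow, Real.sq_sqrt zero_le_two]
      rw [h4] at h3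
      exact le_of_sq_le_sq h3 (by positivity)
    have e : T * M = ContinuousLinearMap.adjoint (M * ContinuousLinearMap.adjoint T) := by
      have h1 : star (M * star T) = T * M := by
        rw [star_mul, star_star, hMp.isSelfAdjoint.star_eq]
      exact h1.symm
    rw [e, LinearIsometryEquiv.norm_map]
    refine ContinuousLinearMap.opNorm_le_of_unit_norm (by positivity) fun η hη => ?_
    rw [mul_apply_eq_comp]
    exact key _ ⟨T, hT, η, hη.le, rfl⟩
  · intro κ _ u hu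
    have h1 : s ^ 2 * ∑ k, (‖u k‖ ^ 2 - (inner ℂ (h (u k)) (u k)).re) ≤ ε :=
      hq _ ⟨κ, _, u, hu, rfl⟩
    calc ∑ k, ‖(1 - M) (u k)‖ ^ 2 ≤ ∑ k, 2 * (‖u k‖ ^ 2 - (inner ℂ (h (u k)) (u k)).re) :=
          sum_le_sum fun k _ => hM1 (u k)
      _ = 2 * ∑ k, (‖u k‖ ^ 2 - (inner ℂ (h (u k)) (u k)).re) := by rw [mul_sum]
      _ ≤ 2 * (ε / δ) ^ 2 := by
        refine mul_le_mul_of_nonneg_left ?_ zero_le_two
        have h3 : (ε / δ) ^ 2 = ε / s ^ 2 := by
          have : s ^ 2 = δ ^ 2 / ε := by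
            rw [← hs2]
            field_simp
          rw [this]
          field_simp
        rw [h3, le_div_iff₀ (by positivity)]
        linarith

/-- Multiplying a set of operators on the left. -/
def lmulSet (B : H →L[ℂ] H) (Ts : Set (H →L[ℂ] H)) : Set (H →L[ℂ] H) := {X | ∃ T ∈ Ts, X = B * T}

/-- Several step duality. -/
lemma kdual {L : Set (H →L[ℂ] H)} (hL : IsPL L) (hS : SOTClosed L) {δ : ℝ} (hδ : 0 < δ)
    (l : List (Set (H →L[ℂ] H))) :
    ∀ (B : H →L[ℂ] H), B ∈ L → ∀ (Ts : Set (H →L[ℂ] H)), (∀ S ∈ Ts :: l, ∀ T ∈ S, T ∈ AlgL L) →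
    ∀ ε : ℝ, 0 < ε → (Real.sqrt 2 / δ) ^ l.length * ε ≤ Real.sqrt 2 * δ →
    (∀ (κ : Type) [Fintype κ] (y : κ → H), Reach L (lmulSet (1 - B) Ts :: l) κ y →
      ∑ k, ‖y k‖ ^ 2 ≤ ε ^ 2) →
    ∃ M : ℕ → H →L[ℂ] H, M 0 = B ∧ M (l.length + 1) = 1 ∧ (∀ j, M j ∈ L) ∧
      (∀ j, M j * M (j + 1) = M j) ∧
      ∀ j (hj : j < (Ts :: l).length), ∀ T ∈ (Ts :: l)[j],
        ‖(1 - M j) * T * M (j + 1)‖ ≤ Real.sqrt 2 * δ := by
  induction l with
  | nil =>
    intro B hB Ts _ ε hε hεδ hb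
    refine ⟨fun j => if j = 0 then B else 1, rfl, rfl, ?_, ?_, ?_⟩
    · intro j
      by_cases hj : j = 0
      · simp [hj, hB]
      · simp [hj, hL.one_mem]
    · intro j
      simp
    · intro j hj T hT
      have hj0 : j = 0 := by simpa using hj
      subst hj0
      simp only [List.getElem_cons_zero] at hT
      simp only [if_true, zero_add, one_ne_zero, if_false, mul_one]
      refine le_trans ?_ (by simpa using hεδ)
      refine ContinuousLinearMap.opNorm_le_of_unit_norm hε.le fun ξ hξ => ?_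
      have h1 := hb Unit (fun _ => ((1 - B) * T) ξ) ⟨fun _ => (1 - B) * T, fun _ => ξ,
        fun _ => ⟨T, hT, rfl⟩, fun _ => rfl, Unit, inferInstance, fun _ => ξ,
        (by show ∑ _k : Unit, ‖ξ‖ ^ 2 ≤ 1; simp [hξ]), fun M _ => le_refl _⟩
      have h2 : ‖((1 - B) * T) ξ‖ ^ 2 ≤ ε ^ 2 := by simpa using h1
      exact le_of_sq_le_sq h2 hε.le
  | cons Ts' l ih =>
    intro B hB Ts hAlg ε hε hεδ hb
    obtain ⟨M, hML, hM1, hM2⟩ := one_step hL hS (Ts' :: l) (lmulSet (1 - B) Ts) hε hδ hb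
    have hBp := hL.proj B hB
    have hMp := hL.proj M hML
    have hBM : B * M = M * B := hL.comm B hB M hML
    set B' := B + M - B * M with hB'
    have hB'L : B' ∈ L := hL.sup_mem B hB M hML
    have hBB' : B * B' = B := by
      rw [hB', mul_sub, mul_add, ← mul_assoc, hBp.isIdempotentElem.eq]
      abel
    have hε' : 0 < Real.sqrt 2 * (ε / δ) := by positivity
    have e1 : 1 - B' = (1 - B) * (1 - M) := by
      rw [hB']
      noncomm_ring
    obtain ⟨N, hN0, hN1, hNL, hNm, hNb⟩ := ih B' hB'L Ts'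
      (fun S hS T hT => hAlg S (List.mem_cons_of_mem _ hS) T hT) (Real.sqrt 2 * (ε / δ)) hε'
      (by
        refine le_trans (le_of_eq ?_) hεδ
        rw [List.length_cons, pow_succ]
        field_simp)
      (by
        intro κ _ y hy
        obtain ⟨T, x, hT, hyx, κ', _, u, hu, hxu⟩ := hy
        choose T' hT' hTT' using hT
        have h1 := hM2 κ (fun k => T' k (x k)) ⟨T', x, hT', fun _ => rfl, κ', _, u, hu, hxu⟩
        calc ∑ k, ‖y k‖ ^ 2 ≤ ∑ k, ‖(1 - M) (T' k (x k))‖ ^ 2 := by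
              refine sum_le_sum fun k _ => ?_
              rw [hyx, hTT', e1, mul_assoc, mul_apply_eq_comp]
              exact pow_le_pow_left₀ (norm_nonneg _) (proj_norm_le hBp.one_sub _) 2
          _ ≤ 2 * (ε / δ) ^ 2 := h1
          _ = _ := by rw [mul_pow, Real.sq_sqrt zero_le_two])
    refine ⟨fun j => Nat.casesOn j B N, rfl, ?_, ?_, ?_, ?_⟩
    · exact hN1
    · intro j
      cases j with
      | zero => exact hB
      | succ j => exact hNL j
    · intro j
      cases j with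
      | zero =>
        show B * N 0 = B
        rw [hN0, hBB']
      | succ j => exact hNm j
    · intro j hj T hT
      cases j with
      | zero =>
        show ‖(1 - B) * T * N 0‖ ≤ _
        rw [hN0]
        have hT' : T ∈ Ts := by simpa using hT
        have hTA := hAlg Ts List.mem_cons_self T hT' B hB
        have e2 : (1 - B) * T * B' = ((1 - B) * T * M) * (1 - B) := by
          calc (1 - B) * T * B' = ((1 - B) * T * B) * (1 - M) + (1 - B) * T * M := by
                rw [hB']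
                noncomm_ring
            _ = (1 - B) * T * M - ((1 - B) * T * B) * M := by
                rw [hTA]
                noncomm_ring
            _ = (1 - B) * T * M - (1 - B) * T * (B * M) := by noncomm_ring
            _ = _ := by
                rw [hBM]
                noncomm_ring
        rw [e2]
        calc ‖((1 - B) * T * M) * (1 - B)‖ ≤ ‖(1 - B) * T * M‖ * ‖(1 - B)‖ := norm_mul_le _ _
          _ ≤ (Real.sqrt 2 * δ) * 1 := by
            refine mul_le_mul (hM1 _ ⟨T, hT', rfl⟩) (proj_opNorm_le hBp.one_sub) (norm_nonneg _)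
              (by positivity)
          _ = _ := mul_one _
      | succ j => exact hNb j (by simpa using hj) T (by simpa using hT)

end Pool.Agent.CSLRad
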