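import Mathlib
import Pool.Agent.CSLRad.Dual

/-! Chains, blocks and norms of block operators. -/

set_option linter.unusedSectionVars false

namespace Pool.Agent.CSLRad

open Finset Filter Topology

variable {H : Type*} [NormedAddCommGroup H] [InnerProductSpace ℂ H] [CompleteSpace H]

lemma op_congr {A B : H →L[ℂ] H} (h : A = B) (x : H) : A x = B x := by rw [h]

lemma norm_add_sq_of_orth {x y : H} (h : inner ℂ x y = 0) :
    ‖x + y‖ ^ 2 = ‖x‖ ^ 2 + ‖y‖ ^ 2 := by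
  have := norm_add_sq_eq_norm_sq_add_norm_sq_of_inner_eq_zero x y h
  simpa [sq] using this

lemma orth_sum_norm_sq {J : Type*} (P : J → H →L[ℂ] H) (hP : ∀ j, IsStarProjection (P j))
    (horth : ∀ i j, i ≠ j → P i * P j = 0) (y : J → H) (hy : ∀ j, P j (y j) = y j)
    (s : Finset J) : ‖∑ j ∈ s, y j‖ ^ 2 = ∑ j ∈ s, ‖y j‖ ^ 2 := by
  classical
  induction s using Finset.induction with
  | empty => simp
  | insert a s ha ih =>
    rw [sum_insert ha, sum_insert ha, norm_add_sq_of_orth, ih]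
    rw [inner_sum]
    refine sum_eq_zero fun j hj => ?_
    have hne : a ≠ j := by
      rintro rfl
      exact ha hj
    rw [← hy a, ← hy j, proj_inner (hP a), ← mul_apply_eq_comp, horth a j hne]
    simp

lemma bessel {J : Type*} (P : J → H →L[ℂ] H) (hP : ∀ j, IsStarProjection (P j))
    (horth : ∀ i j, i ≠ j → P i * P j = 0) (x : H) (s : Finset J) :
    ∑ j ∈ s, ‖P j x‖ ^ 2 ≤ ‖x‖ ^ 2 := by
  have h1 := orth_sum_norm_sq P hP horth (fun j => P j x)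
    (fun j => by rw [← mul_apply_eq_comp, (hP j).isIdempotentElem.eq]) s
  set σ := ∑ j ∈ s, ‖P j x‖ ^ 2 with hσ
  have h2 : σ = (inner ℂ (∑ j ∈ s, P j x) x).re := by
    rw [sum_inner, Complex.re_sum]
    exact sum_congr rfl fun j _ => proj_norm_sq (hP j) x
  have h3 : σ ≤ ‖∑ j ∈ s, P j x‖ * ‖x‖ := by
    rw [h2]
    exact re_inner_le_norm (𝕜 := ℂ) _ _
  by_contra hcon
  push Not at hcon
  have h4 : 0 ≤ ‖∑ j ∈ s, P j x‖ := norm_nonneg _
  have h5 : 0 ≤ ‖x‖ := norm_nonneg x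
  have h6 : ‖x‖ < ‖∑ j ∈ s, P j x‖ := by
    rw [← h1] at hcon
    exact lt_of_pow_lt_pow_left₀ 2 h4 hcon
  have h7 : ‖∑ j ∈ s, P j x‖ * ‖x‖ < ‖∑ j ∈ s, P j x‖ * ‖∑ j ∈ s, P j x‖ :=
    mul_lt_mul_of_pos_left h6 (lt_of_le_of_lt h5 h6)
  rw [← sq, h1] at h7
  linarith

/-- Norms of block operators. -/
lemma norm_block_le {J : Type*} (P Q X : J → H →L[ℂ] H) (hP : ∀ j, IsStarProjection (P j))
    (hQ : ∀ j, IsStarProjection (Q j)) (hPo : ∀ i j, i ≠ j → P i * P j = 0)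
    (hQo : ∀ i j, i ≠ j → Q i * Q j = 0) {c : ℝ} (hc : 0 ≤ c) (s : Finset J)
    (hX : ∀ j ∈ s, ‖P j * X j * Q j‖ ≤ c) : ‖∑ j ∈ s, P j * X j * Q j‖ ≤ c := by
  refine ContinuousLinearMap.opNorm_le_bound _ hc fun x => ?_
  refine le_of_sq_le_sq ?_ (mul_nonneg hc (norm_nonneg x))
  rw [_root_.sum_apply]
  have hPP : ∀ j, P j * P j = P j := fun j => (hP j).isIdempotentElem.eq
  have hQQ : ∀ j, Q j * Q j = Q j := fun j => (hQ j).isIdempotentElem.eq
  rw [orth_sum_norm_sq P hP hPo (fun j => (P j * X j * Q j) x) (fun j => by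
    rw [← mul_apply_eq_comp, ← mul_assoc, ← mul_assoc, hPP])]
  calc ∑ j ∈ s, ‖(P j * X j * Q j) x‖ ^ 2 ≤ ∑ j ∈ s, c ^ 2 * ‖Q j x‖ ^ 2 := by
        refine sum_le_sum fun j hj => ?_
        have e : (P j * X j * Q j) x = (P j * X j * Q j) (Q j x) := by
          rw [← mul_apply_eq_comp, mul_assoc (P j * X j), hQQ]
        rw [e, ← mul_pow]
        refine pow_le_pow_left₀ (norm_nonneg _) ?_ 2
        exact (P j * X j * Q j).le_of_opNorm_le (hX j hj) _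
    _ = c ^ 2 * ∑ j ∈ s, ‖Q j x‖ ^ 2 := by rw [mul_sum]
    _ ≤ c ^ 2 * ‖x‖ ^ 2 := mul_le_mul_of_nonneg_left (bessel Q hQ hQo x s) (sq_nonneg c)
    _ = (c * ‖x‖) ^ 2 := by rw [mul_pow]

/-- Compression. -/
def cmp (T E : H →L[ℂ] H) : H →L[ℂ] H := E * T * E

/-- A finite increasing chain from `0` to `1` in `L`. -/
structure Chn (L : Set (H →L[ℂ] H)) (M : ℕ → H →L[ℂ] H) (k : ℕ) : Prop where
  zero : M 0 = 0
  one : M k = 1
  mem : ∀ j, M j ∈ L
  mono : ∀ j, M j * M (j + 1) = M j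

lemma mono_le {L : Set (H →L[ℂ] H)} (hL : IsPL L) {M : ℕ → H →L[ℂ] H} (hM : ∀ j, M j ∈ L)
    (hmono : ∀ j, M j * M (j + 1) = M j) {i j : ℕ} (h : i ≤ j) : M i * M j = M i := by
  induction j, h using Nat.le_induction with
  | base => exact (hL.proj _ (hM i)).isIdempotentElem.eq
  | succ j _ ih =>
    calc M i * M (j + 1) = M i * M j * M (j + 1) := by rw [ih]
      _ = M i * (M j * M (j + 1)) := by rw [mul_assoc]
      _ = M i := by rw [hmono, ih]

lemma mono_le' {L : Set (H →L[ℂ] H)} (hL : IsPL L) {M : ℕ → H →L[ℂ] H} (hM : ∀ j, M j ∈ L)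
    (hmono : ∀ j, M j * M (j + 1) = M j) {i j : ℕ} (h : i ≤ j) : M j * M i = M i := by
  rw [← hL.comm _ (hM i) _ (hM j), mono_le hL hM hmono h]

/-- Consecutive difference. -/
def dif (M : ℕ → H →L[ℂ] H) (j : ℕ) : H →L[ℂ] H := M (j + 1) - M j

section chain

variable {L : Set (H →L[ℂ] H)} {M : ℕ → H →L[ℂ] H}

lemma dif_eq (hL : IsPL L) (hM : ∀ j, M j ∈ L) (hmono : ∀ j, M j * M (j + 1) = M j) (j : ℕ) :
    dif M j = M (j + 1) * (1 - M j) := by
  unfold dif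
  rw [mul_sub, mul_one, mono_le' hL hM hmono (Nat.le_succ j)]

lemma dif_eq' (hmono : ∀ j, M j * M (j + 1) = M j) (j : ℕ) :
    dif M j = (1 - M j) * M (j + 1) := by
  unfold dif
  rw [sub_mul, one_mul, hmono]

lemma dif_gen (hL : IsPL L) (hM : ∀ j, M j ∈ L) (hmono : ∀ j, M j * M (j + 1) = M j) (j : ℕ) :
    BoolGen L (dif M j) := by
  rw [dif_eq' hmono]
  exact (BoolGen.of (hM j)).cpl.mul (.of (hM _))

lemma dif_proj (hL : IsPL L) (hM : ∀ j, M j ∈ L) (hmono : ∀ j, M j * M (j + 1) = M j) (j : ℕ) :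
    IsStarProjection (dif M j) := (dif_gen hL hM hmono j).proj hL

lemma mul_dif_of_lt (hL : IsPL L) (hM : ∀ j, M j ∈ L) (hmono : ∀ j, M j * M (j + 1) = M j)
    {i j : ℕ} (h : j < i) : M i * dif M j = dif M j := by
  unfold dif
  rw [mul_sub, mono_le' hL hM hmono h, mono_le' hL hM hmono h.le]

lemma mul_dif_of_le (hL : IsPL L) (hM : ∀ j, M j ∈ L) (hmono : ∀ j, M j * M (j + 1) = M j)
    {i j : ℕ} (h : i ≤ j) : M i * dif M j = 0 := by
  unfold dif
  rw [mul_sub, mono_le hL hM hmono (h.trans (Nat.le_succ j)), mono_le hL hM hmono h, sub_self]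

lemma dif_mul_of_lt (hL : IsPL L) (hM : ∀ j, M j ∈ L) (hmono : ∀ j, M j * M (j + 1) = M j)
    {i j : ℕ} (h : j < i) : dif M j * M i = dif M j := by
  unfold dif
  rw [sub_mul, mono_le hL hM hmono h, mono_le hL hM hmono h.le]

lemma dif_mul_of_le (hL : IsPL L) (hM : ∀ j, M j ∈ L) (hmono : ∀ j, M j * M (j + 1) = M j)
    {i j : ℕ} (h : i ≤ j) : dif M j * M i = 0 := by
  unfold dif
  rw [sub_mul, mono_le' hL hM hmono (h.trans (Nat.le_succ j)), mono_le' hL hM hmono h, sub_self]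

lemma dif_orth (hL : IsPL L) (hM : ∀ j, M j ∈ L) (hmono : ∀ j, M j * M (j + 1) = M j)
    (i j : ℕ) (h : i ≠ j) : dif M i * dif M j = 0 := by
  rcases lt_or_gt_of_ne h with h | h
  · rw [dif, sub_mul, mul_dif_of_le hL hM hmono h, mul_dif_of_le hL hM hmono h.le, sub_zero]
  · rw [dif, sub_mul, mul_dif_of_lt hL hM hmono (Nat.lt_succ_of_lt h),
      mul_dif_of_lt hL hM hmono h, sub_self]

lemma dif_sq (hL : IsPL L) (hM : ∀ j, M j ∈ L) (hmono : ∀ j, M j * M (j + 1) = M j)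
    (i : ℕ) : dif M i * dif M i = dif M i := (dif_proj hL hM hmono i).isIdempotentElem.eq

end chain

lemma AlgL.mul_eq {L : Set (H →L[ℂ] H)} {T P : H →L[ℂ] H} (hT : T ∈ AlgL L) (hP : P ∈ L) :
    T * P = P * T * P := by
  have h := hT P hP
  rw [sub_mul, sub_mul, one_mul, sub_eq_zero] at h
  exact h

lemma AlgL.mul_mem {L : Set (H →L[ℂ] H)} {S T : H →L[ℂ] H} (hS : S ∈ AlgL L) (hT : T ∈ AlgL L) :
    S * T ∈ AlgL L := by
  intro P hP
  have h1 := AlgL.mul_eq hT hP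
  have h2 := hS P hP
  calc (1 - P) * (S * T) * P = (1 - P) * S * (T * P) := by noncomm_ring
    _ = (1 - P) * S * (P * T * P) := by rw [h1]
    _ = ((1 - P) * S * P) * (T * P) := by noncomm_ring
    _ = 0 := by rw [h2, zero_mul]

lemma AlgL.add_mem {L : Set (H →L[ℂ] H)} {S T : H →L[ℂ] H} (hS : S ∈ AlgL L) (hT : T ∈ AlgL L) :
    S + T ∈ AlgL L := by
  intro P hP
  rw [mul_add, add_mul, hS P hP, hT P hP, add_zero]

lemma AlgL.zero_mem {L : Set (H →L[ℂ] H)} : (0 : H →L[ℂ] H) ∈ AlgL L := by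
  intro P hP
  simp

lemma AlgL.sum_mem {L : Set (H →L[ℂ] H)} {J : Type*} (s : Finset J) (X : J → H →L[ℂ] H)
    (hX : ∀ j ∈ s, X j ∈ AlgL L) : ∑ j ∈ s, X j ∈ AlgL L := by
  intro P hP
  rw [mul_sum, sum_mul]
  exact sum_eq_zero fun j hj => hX j hj P hP

lemma AlgL.of_commute {L : Set (H →L[ℂ] H)} (hL : IsPL L) {X : H →L[ℂ] H}
    (hX : ∀ P ∈ L, P * X = X * P) : X ∈ AlgL L := by
  intro P hP
  rw [mul_assoc, ← hX P hP, ← mul_assoc, sub_mul, one_mul, (hL.proj P hP).isIdempotentElem.eq,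
    sub_self, zero_mul]

lemma AlgL.of_gen {L : Set (H →L[ℂ] H)} (hL : IsPL L) {X : H →L[ℂ] H} (hX : BoolGen L X) :
    X ∈ AlgL L := AlgL.of_commute hL fun _ hP => (hX.comm_mem hL hP).symm

end Pool.Agent.CSLRad
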