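import Mathlib

/-!
# Definitions for the Jacobson radical of a CSL algebra
-/

namespace Pool.Agent.CSLRad

open Topology

variable {H : Type*} [NormedAddCommGroup H] [InnerProductSpace ℂ H] [CompleteSpace H]

/-- A commutative subspace lattice, given by the orthogonal projections onto its members: a
set of pairwise commuting projections containing `0` and `1`, closed under meets `P * Q` and joins
`P + Q - P * Q`, and closed in the strong operator topology. -/
structure IsCSL (L : Set (H →L[ℂ] H)) : Prop where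
  proj : ∀ P ∈ L, IsStarProjection P
  comm : ∀ P ∈ L, ∀ Q ∈ L, P * Q = Q * P
  zero_mem : (0 : H →L[ℂ] H) ∈ L
  one_mem : (1 : H →L[ℂ] H) ∈ L
  inf_mem : ∀ P ∈ L, ∀ Q ∈ L, P * Q ∈ L
  sup_mem : ∀ P ∈ L, ∀ Q ∈ L, P + Q - P * Q ∈ L
  closed : IsClosed[TopologicalSpace.induced (fun (T : H →L[ℂ] H) (x : H) => T x)
    Pi.topologicalSpace] L

/-- `Alg L`: the operators mapping the range of every projection in `L` into itself. -/
def AlgCSL (L : Set (H →L[ℂ] H)) : Subalgebra ℂ (H →L[ℂ] H) where
  carrier := {T | ∀ P ∈ L, ∀ x : H, P x = x → P (T x) = T x}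
  mul_mem' := by
    intro S T hS hT P hP x hx
    exact hS P hP _ (hT P hP x hx)
  add_mem' := by
    intro S T hS hT P hP x hx
    show P (S x + T x) = S x + T x
    rw [map_add, hS P hP x hx, hT P hP x hx]
  algebraMap_mem' := by
    intro c P _ x hx
    rw [Algebra.algebraMap_eq_smul_one]
    show P (c • x) = c • x
    rw [map_smul, hx]

/-- `C*(L)`: the C*-algebra generated by a set `L` in a C*-algebra `A` (used for `A = B(H)`). -/
noncomputable def CStarOf {A : Type*} [CStarAlgebra A] (L : Set A) : StarSubalgebra ℂ A :=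
  (StarAlgebra.adjoin ℂ L).topologicalClosure

/-- The characters (nonzero multiplicative linear functionals) of `C*(L)`. -/
abbrev Chars {A : Type*} [CStarAlgebra A] (L : Set A) : Type _ :=
  WeakDual.characterSpace ℂ (CStarOf L)

/-- Intervals of `L`: differences `P - Q` with `Q ≤ P` in `L`. -/
def IsInterval {A : Type*} [CStarAlgebra A] (L : Set A) (E : A) : Prop :=
  ∃ P ∈ L, ∃ Q ∈ L, P * Q = Q ∧ E = P - Q

/-- The seminorm attached to a character `φ` of `C*(L)`: the infimum of `‖E * T * E‖` over the
intervals `E` of `L` with `φ E = 1`. -/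
noncomputable def seminormAt {A : Type*} [CStarAlgebra A] (L : Set A) (φ : Chars L) (T : A) : ℝ :=
  sInf {r : ℝ | ∃ E : CStarOf L, IsInterval L (E : A) ∧ φ E = 1 ∧ r = ‖(E : A) * T * (E : A)‖}

/-- The ideal `I_φ` of `Alg L`, as a set. -/
def idealAt (L : Set (H →L[ℂ] H)) (φ : Chars L) : Set (AlgCSL L) :=
  {T | seminormAt L φ (T : H →L[ℂ] H) = 0}

end Pool.Agent.CSLRad
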