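import Mathlib
import Pool.Agent.CSLRad.Block

/-! Polarisation of powers along a chain, and the resulting chain property. -/

set_option linter.unusedSectionVars false

namespace Pool.Agent.CSLRad

open Finset Filter Topology

variable {H : Type*} [NormedAddCommGroup H] [InnerProductSpace ℂ H] [CompleteSpace H]

/-- Iterated product. -/
noncomputable def pf (A f : ℕ → H →L[ℂ] H) : ℕ → ℕ → H → H
  | _, 0, z => z
  | m, (n + 1), z => A m (f m (pf A f (m + 1) n z))

lemma pf_congr {A A' f : ℕ → H →L[ℂ] H} (n : ℕ) :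
    ∀ m z, (∀ j, m ≤ j → A j = A' j) → pf A f m n z = pf A' f m n z := by
  induction n with
  | zero => intro m z _; rfl
  | succ n ih =>
    intro m z h
    show A m (f m (pf A f (m + 1) n z)) = A' m (f m (pf A' f (m + 1) n z))
    rw [h m le_rfl, ih (m + 1) z fun j hj => h j (by omega)]

lemma sreach_pf {L : Set (H →L[ℂ] H)} (f : ℕ → H →L[ℂ] H) (n : ℕ) :
    ∀ m z, SReach L ((List.range' m n).map f) z → ∃ A : ℕ → H →L[ℂ] H,
      (∀ j, A j ∈ AlgL L ∧ ‖A j‖ ≤ 1) ∧ ∃ z₀ : H, ‖z₀‖ ≤ 1 ∧ z = pf A f m n z₀ := by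
  induction n with
  | zero =>
    intro m z hz
    exact ⟨fun _ => 0, fun _ => ⟨AlgL.zero_mem, by simp⟩, z, hz, rfl⟩
  | succ n ih =>
    intro m z hz
    rw [List.range'_succ, List.map_cons] at hz
    obtain ⟨B, hB, hB1, x, hx, rfl⟩ := hz
    obtain ⟨A, hA, z₀, hz₀, rfl⟩ := ih (m + 1) x hx
    refine ⟨Function.update A m B, fun j => ?_, z₀, hz₀, ?_⟩
    · by_cases hj : j = m
      · subst hj
        rw [Function.update_self]
        exact ⟨hB, hB1⟩
      · rw [Function.update_of_ne hj]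
        exact hA j
    · show _ = (Function.update A m B) m (f m (pf (Function.update A m B) f (m + 1) n z₀))
      rw [Function.update_self]
      congr 2
      refine pf_congr n (m + 1) z₀ fun j hj => ?_
      rw [Function.update_of_ne (by omega)]

section

variable {L : Set (H →L[ℂ] H)} {M : ℕ → H →L[ℂ] H}

/-- The shift operator built from the `A j`. -/
noncomputable def shiftOp (M A : ℕ → H →L[ℂ] H) (K : ℕ) : H →L[ℂ] H :=
  ∑ j ∈ range K, dif M j * A (j + 1) * dif M (j + 1)

lemma shiftOp_mem (hL : IsPL L) (hM : ∀ j, M j ∈ L) (hmono : ∀ j, M j * M (j + 1) = M j)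
    {A : ℕ → H →L[ℂ] H} (hA : ∀ j, A j ∈ AlgL L) (K : ℕ) : shiftOp M A K ∈ AlgL L :=
  AlgL.sum_mem _ _ fun j _ => AlgL.mul_mem (AlgL.mul_mem (AlgL.of_gen hL (dif_gen hL hM hmono j))
    (hA _)) (AlgL.of_gen hL (dif_gen hL hM hmono _))

lemma shiftOp_norm (hL : IsPL L) (hM : ∀ j, M j ∈ L) (hmono : ∀ j, M j * M (j + 1) = M j)
    {A : ℕ → H →L[ℂ] H} (hA : ∀ j, ‖A j‖ ≤ 1) (K : ℕ) : ‖shiftOp M A K‖ ≤ 1 := by
  refine norm_block_le (fun j => dif M j) (fun j => dif M (j + 1)) (fun j => A (j + 1))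
    (fun j => dif_proj hL hM hmono j) (fun j => dif_proj hL hM hmono _)
    (fun i j h => dif_orth hL hM hmono i j h)
    (fun i j h => dif_orth hL hM hmono _ _ (by simpa using h)) zero_le_one _ fun j _ => ?_
  calc ‖dif M j * A (j + 1) * dif M (j + 1)‖ ≤ ‖dif M j‖ * ‖A (j + 1)‖ * ‖dif M (j + 1)‖ :=
        (norm_mul_le _ _).trans (mul_le_mul_of_nonneg_right (norm_mul_le _ _) (norm_nonneg _))
    _ ≤ 1 * 1 * 1 := by
        gcongr
        · exact proj_opNorm_le (dif_proj hL hM hmono j)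
        · exact hA _
        · exact proj_opNorm_le (dif_proj hL hM hmono _)
    _ = 1 := by norm_num

lemma dif_shiftOp (hL : IsPL L) (hM : ∀ j, M j ∈ L) (hmono : ∀ j, M j * M (j + 1) = M j)
    (A : ℕ → H →L[ℂ] H) {K m : ℕ} (hm : m < K) :
    dif M m * shiftOp M A K = dif M m * A (m + 1) * dif M (m + 1) := by
  unfold shiftOp
  rw [mul_sum, sum_eq_single_of_mem m (mem_range.mpr hm)]
  · rw [← mul_assoc, ← mul_assoc, dif_sq hL hM hmono]
  · intro j _ hj
    rw [← mul_assoc, ← mul_assoc, dif_orth hL hM hmono m j (Ne.symm hj), zero_mul, zero_mul]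

lemma shiftOp_range (hL : IsPL L) (hM : ∀ j, M j ∈ L) (hmono : ∀ j, M j * M (j + 1) = M j)
    (A : ℕ → H →L[ℂ] H) (K m : ℕ) :
    M (m + 1) * shiftOp M A K * M (m + 2) = shiftOp M A K * M (m + 2) := by
  unfold shiftOp
  rw [mul_sum, sum_mul, sum_mul]
  refine sum_congr rfl fun j _ => ?_
  by_cases hj : j ≤ m
  · rw [← mul_assoc, ← mul_assoc, mul_dif_of_lt hL hM hmono (Nat.lt_succ_of_le hj)]
  · have h1 : dif M (j + 1) * M (m + 2) = 0 := dif_mul_of_le hL hM hmono (by omega)
    rw [mul_assoc _ (dif M j * A (j + 1) * dif M (j + 1)), mul_assoc (dif M j * A (j + 1)), h1]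
    simp

/-- Polarisation. -/
lemma polar (hL : IsPL L) {K : ℕ} (hM : Chn L M (K + 1)) {T : H →L[ℂ] H} (hT : T ∈ AlgL L)
    {A : ℕ → H →L[ℂ] H} (z₀ : H) :
    cmp T (dif M 0) (pf A (fun j => cmp T (dif M j)) 1 K z₀) =
      (dif M 0 * (T * (shiftOp M A K * T) ^ K) * dif M K) z₀ := by
  have hMm := hM.mem
  have hmono := hM.mono
  set f : ℕ → H →L[ℂ] H := fun j => cmp T (dif M j) with hf
  set x : ℕ → H := fun n => ((shiftOp M A K * T) ^ n) (dif M K z₀) with hx
  have hxs : ∀ n, x (n + 1) = shiftOp M A K (T (x n)) := by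
    intro n
    simp only [hx]
    rw [pow_succ', mul_apply_eq_comp, mul_apply_eq_comp]
  have key : ∀ n m, m + n = K → M (m + 1) (x n) = x n ∧
      dif M m (x n) = dif M m (pf A f (m + 1) n z₀) := by
    intro n
    induction n with
    | zero =>
      intro m hm
      have hmK : m = K := by omega
      subst hmK
      refine ⟨?_, ?_⟩
      · rw [hM.one, one_apply_eq_self]
      · show dif M m ((shiftOp M A m * T) ^ 0 <| dif M m z₀) = dif M m z₀
        rw [pow_zero, one_apply_eq_self, ← mul_apply_eq_comp, dif_sq hL hMm hmono]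
    | succ n ih =>
      intro m hm
      obtain ⟨ih1, ih2⟩ := ih (m + 1) (by omega)
      have hTx : M (m + 2) (T (x n)) = T (x n) := by
        have h1 := op_congr (AlgL.mul_eq hT (hMm (m + 2))) (x n)
        simp only [mul_apply_eq_comp] at h1
        rw [show M (m + 1 + 1) (x n) = x n from ih1] at h1
        exact h1.symm
      refine ⟨?_, ?_⟩
      · rw [hxs, ← hTx]
        have h1 := op_congr (shiftOp_range hL hMm hmono A K m) (T (x n))
        simpa only [mul_apply_eq_comp] using h1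
      · have h1 := op_congr (dif_shiftOp hL hMm hmono A (show m < K by omega)) (T (x n))
        simp only [mul_apply_eq_comp] at h1
        rw [hxs, h1]
        show dif M m (A (m + 1) (dif M (m + 1) (T (x n)))) =
          dif M m (A (m + 1) (f (m + 1) (pf A f (m + 2) n z₀)))
        congr 2
        have h2 : dif M (m + 1) * T * M (m + 1) = 0 := by
          rw [dif_eq hL hMm hmono, mul_assoc (M (m + 1 + 1)), mul_assoc (M (m + 1 + 1)),
            hT _ (hMm (m + 1)), mul_zero]
        have h3 : x n = dif M (m + 1) (x n) + M (m + 1) (x n) := by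
          unfold dif
          rw [sub_apply, ih1]
          abel
        have h4 : dif M (m + 1) (T (x n)) = dif M (m + 1) (T (dif M (m + 1) (x n))) := by
          conv_lhs => rw [h3]
          have h5 := op_congr h2 (x n)
          simp only [mul_apply_eq_comp, zero_apply] at h5
          rw [map_add, map_add, h5, add_zero]
        rw [h4, ih2]
        simp only [hf, cmp, mul_apply_eq_comp]
  obtain ⟨k1, k2⟩ := key K 0 (by omega)
  simp only [hf, cmp, mul_apply_eq_comp] at k2 ⊢
  rw [← k2]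
  have h6 : dif M 0 (x K) = x K := by
    unfold dif
    rw [hM.zero, sub_zero]
    exact k1
  rw [h6]

/-- The chain property. -/
def ChainQ (L : Set (H →L[ℂ] H)) (T : H →L[ℂ] H) (k : ℕ) (δ : ℝ) : Prop :=
  ∀ M : ℕ → H →L[ℂ] H, Chn L M k → ∃ N : ℕ → H →L[ℂ] H, Chn L N k ∧
    ∀ j < k, ‖cmp T (dif M j * dif N j)‖ ≤ δ

lemma chainQ (hL : IsPL L) (hS : SOTClosed L) {T : H →L[ℂ] H} (hT : T ∈ AlgL L) {K : ℕ}
    (hK : 1 ≤ K) {δ : ℝ} (hδ : 0 < δ) (hδ1 : δ ≤ 1)
    (hH : ∀ A ∈ AlgL L, ‖A‖ ≤ 1 → ‖T * (A * T) ^ K‖ ≤ δ ^ (2 * K)) :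
    ChainQ L T (K + 1) (192 * δ) := by
  intro M hM
  set f : ℕ → H →L[ℂ] H := fun j => cmp T (dif M j) with hf
  have hMm := hM.mem
  have hmono := hM.mono
  have hfA : ∀ j, f j ∈ AlgL L := fun j => by
    have := AlgL.of_gen hL (dif_gen hL hMm hmono j)
    exact AlgL.mul_mem (AlgL.mul_mem this hT) this
  -- scalar bound
  have hsc : ∀ z, SReach L ((List.range' 1 K).map f) z → ‖f 0 z‖ ≤ δ ^ (2 * K) := by
    intro z hz
    obtain ⟨A, hA, z₀, hz₀, rfl⟩ := sreach_pf f K 1 z hz
    rw [show f 0 = cmp T (dif M 0) from rfl, polar hL hM hT z₀]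
    have h1 := hH (shiftOp M A K) (shiftOp_mem hL hMm hmono (fun j => (hA j).1) K)
      (shiftOp_norm hL hMm hmono (fun j => (hA j).2) K)
    have h2 : ‖dif M 0 * (T * (shiftOp M A K * T) ^ K) * dif M K‖ ≤ δ ^ (2 * K) := by
      calc _ ≤ ‖dif M 0‖ * ‖T * (shiftOp M A K * T) ^ K‖ * ‖dif M K‖ :=
            (norm_mul_le _ _).trans (mul_le_mul_of_nonneg_right (norm_mul_le _ _) (norm_nonneg _))
        _ ≤ 1 * δ ^ (2 * K) * 1 := by
            gcongr
            · exact proj_opNorm_le (dif_proj hL hMm hmono 0)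
            · exact proj_opNorm_le (dif_proj hL hMm hmono K)
        _ = _ := by ring
    calc _ ≤ δ ^ (2 * K) * ‖z₀‖ := ContinuousLinearMap.le_of_opNorm_le _ h2 _
      _ ≤ δ ^ (2 * K) * 1 := mul_le_mul_of_nonneg_left hz₀ (by positivity)
      _ = _ := mul_one _
  have hvec := fun (κ : Type) [Fintype κ] (y : κ → H) =>
    reach_scalar hL (f 0) ((List.range' 1 K).map f) (δ ^ (2 * K)) hsc κ y
  have hlen : ((List.range' 1 K).map f).length = K := by simp
  rw [hlen] at hvec
  -- duality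
  have hδ' : 0 < 96 * Real.sqrt 2 * δ := by positivity
  have hs2 : Real.sqrt 2 * Real.sqrt 2 = 2 := Real.mul_self_sqrt zero_le_two
  have hs2' : Real.sqrt 2 * (96 * Real.sqrt 2 * δ) = 192 * δ := by
    calc Real.sqrt 2 * (96 * Real.sqrt 2 * δ) = 96 * (Real.sqrt 2 * Real.sqrt 2) * δ := by ring
      _ = _ := by rw [hs2]; ring
  have hset : lmulSet (1 - 0) ({f 0} : Set (H →L[ℂ] H)) = {f 0} := by
    ext X
    simp [lmulSet]
  obtain ⟨N, hN0, hN1, hNL, hNm, hNb⟩ := kdual hL hS hδ'
    ((List.range' 1 K).map fun j => ({f j} : Set (H →L[ℂ] H))) 0 hL.zero_mem {f 0}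
    (by
      intro S hSm X hX
      rcases List.mem_cons.mp hSm with rfl | h
      · rw [Set.mem_singleton_iff.mp hX]
        exact hfA 0
      · obtain ⟨j, _, rfl⟩ := List.mem_map.mp h
        rw [Set.mem_singleton_iff.mp hX]
        exact hfA j)
    (96 ^ (K + 1) * δ ^ (2 * K)) (by positivity)
    (by
      have e1 : (Real.sqrt 2 / (96 * Real.sqrt 2 * δ)) = 1 / (96 * δ) := by
        field_simp
      simp only [List.length_map, List.length_range']
      rw [e1, hs2']
      have e2 : (1 / (96 * δ)) ^ K * (96 ^ (K + 1) * δ ^ (2 * K)) = 96 * δ ^ K := by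
        rw [pow_succ, two_mul, pow_add, one_div, inv_pow, mul_pow]
        field_simp
      rw [e2]
      have h3 : δ ^ K ≤ δ := by
        calc δ ^ K ≤ δ ^ 1 := pow_le_pow_of_le_one hδ.le hδ1 hK
          _ = δ := pow_one δ
      nlinarith)
    (by
      intro κ _ y hy
      rw [hset] at hy
      refine hvec κ y ?_
      have : ((f 0 :: (List.range' 1 K).map f).map fun T => ({T} : Set (H →L[ℂ] H))) =
          {f 0} :: (List.range' 1 K).map fun j => ({f j} : Set (H →L[ℂ] H)) := by
        simp [List.map_map, Function.comp_def]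
      rw [this]
      exact hy)
  have hlen2 : ((List.range' 1 K).map fun j => ({f j} : Set (H →L[ℂ] H))).length = K := by simp
  rw [hlen2] at hN1
  refine ⟨N, ⟨hN0, hN1, hNL, hNm⟩, fun j hj => ?_⟩
  have hmem : f j ∈ (({f 0} : Set (H →L[ℂ] H)) ::
      (List.range' 1 K).map fun j => ({f j} : Set (H →L[ℂ] H)))[j]'(by simpa using hj) := by
    cases j with
    | zero => simp
    | succ j =>
      rw [List.getElem_cons_succ, List.getElem_map, List.getElem_range']
      rw [one_mul, Set.mem_singleton_iff]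
      congr 1
      omega
  have h1 := hNb j (by simpa using hj) (f j) hmem
  rw [hs2'] at h1
  have hc1 : dif M j * dif N j = dif N j * dif M j :=
    (dif_gen hL hNL hNm j).comm hL (dif_gen hL hMm hmono j)
  have e : cmp T (dif M j * dif N j) = N (j + 1) * ((1 - N j) * f j * N (j + 1)) * (1 - N j) := by
    have e1 : cmp T (dif M j * dif N j) = dif N j * f j * dif N j := by
      have e0 := congrArg (fun X => X * T * (dif M j * dif N j)) hc1
      simp only [cmp, hf] at e0 ⊢
      rw [e0]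
      simp only [mul_assoc]
    rw [e1, dif_eq hL hNL hNm]
    simp only [mul_assoc]
  rw [e]
  calc _ ≤ ‖N (j + 1)‖ * ‖(1 - N j) * f j * N (j + 1)‖ * ‖1 - N j‖ :=
        (norm_mul_le _ _).trans (mul_le_mul_of_nonneg_right (norm_mul_le _ _) (norm_nonneg _))
    _ ≤ 1 * (192 * δ) * 1 := by
        gcongr
        · exact proj_opNorm_le (hL.proj _ (hNL _))
        · exact proj_opNorm_le (hL.proj _ (hNL _)).one_sub
    _ = _ := by ring

end

end Pool.Agent.CSLRad
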