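import Mathlib
import Pool.Agent.CSLRad.Polar

/-! The rank lemma. -/

set_option linter.unusedSectionVars false

namespace Pool.Agent.CSLRad

open Finset Filter Topology

variable {H : Type*} [NormedAddCommGroup H] [InnerProductSpace ℂ H] [CompleteSpace H]
variable {L : Set (H →L[ℂ] H)}

/-- Diagonal part with respect to a partition. -/
noncomputable def Part.diag (p : Part L) (X : H →L[ℂ] H) : H →L[ℂ] H := ∑ i, p.e i * X * p.e i

lemma Part.diag_norm (p : Part L) (X : H →L[ℂ] H) : ‖p.diag X‖ ≤ ‖X‖ := by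
  refine norm_block_le p.e p.e (fun _ => X) p.proj p.proj p.orth p.orth (norm_nonneg X) univ
    fun i _ => ?_
  calc ‖p.e i * X * p.e i‖ ≤ ‖p.e i‖ * ‖X‖ * ‖p.e i‖ :=
        (norm_mul_le _ _).trans (mul_le_mul_of_nonneg_right (norm_mul_le _ _) (norm_nonneg _))
    _ ≤ 1 * ‖X‖ * 1 := by
        gcongr
        · exact proj_opNorm_le (p.proj i)
        · exact proj_opNorm_le (p.proj i)
    _ = _ := by ring

lemma Part.e_diag (p : Part L) (X : H →L[ℂ] H) (i : p.ι) :
    p.e i * p.diag X = p.e i * X * p.e i := by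
  unfold Part.diag
  rw [mul_sum, sum_eq_single_of_mem i (mem_univ i)]
  · rw [← mul_assoc, ← mul_assoc, (p.proj i).isIdempotentElem.eq]
  · intro j _ hj
    rw [← mul_assoc, ← mul_assoc, p.orth i j (Ne.symm hj), zero_mul, zero_mul]

lemma Part.diag_e (p : Part L) (X : H →L[ℂ] H) (i : p.ι) :
    p.diag X * p.e i = p.e i * X * p.e i := by
  unfold Part.diag
  rw [sum_mul, sum_eq_single_of_mem i (mem_univ i)]
  · rw [mul_assoc, (p.proj i).isIdempotentElem.eq]
  · intro j _ hj
    rw [mul_assoc, p.orth j i hj, mul_zero]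

lemma Part.diag_conj (p : Part L) (X : H →L[ℂ] H) {Y : H →L[ℂ] H}
    (hY : ∀ i, p.e i * Y = Y * p.e i) : Y * p.diag X * Y = p.diag (Y * X * Y) := by
  unfold Part.diag
  rw [mul_sum, sum_mul]
  refine sum_congr rfl fun i _ => ?_
  calc Y * (p.e i * X * p.e i) * Y = (Y * p.e i) * X * (p.e i * Y) := by noncomm_ring
    _ = (p.e i * Y) * X * (Y * p.e i) := by rw [hY i]
    _ = _ := by noncomm_ring

lemma Part.diag_mem (hL : IsPL L) (p : Part L) {X : H →L[ℂ] H} (hX : X ∈ AlgL L) :
    p.diag X ∈ AlgL L :=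
  AlgL.sum_mem _ _ fun i _ => AlgL.mul_mem (AlgL.mul_mem (AlgL.of_gen hL (p.gen i)) hX)
    (AlgL.of_gen hL (p.gen i))

lemma Part.s_diag (p : Part L) (X : H →L[ℂ] H) (U : Finset p.ι) :
    p.s U * p.diag X = p.diag X * p.s U := by
  unfold Part.s
  rw [sum_mul, mul_sum]
  refine sum_congr rfl fun i _ => ?_
  rw [p.e_diag, p.diag_e]

lemma AlgL.sub_mem {S T : H →L[ℂ] H} (hS : S ∈ AlgL L) (hT : T ∈ AlgL L) :
    S - T ∈ AlgL L := by
  intro P hP
  rw [mul_sub, sub_mul, hS P hP, hT P hP, sub_zero]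

lemma cmp_mul {S D Z : H →L[ℂ] H} (h : D * Z = Z * D) : cmp S (D * Z) = Z * cmp S D * Z := by
  unfold cmp
  have e0 : (D * Z) * S * (D * Z) = (Z * D) * S * (D * Z) :=
    congrArg (fun X => X * S * (D * Z)) h
  rw [e0]
  simp only [mul_assoc]

lemma cmp_mul_le {S D Z : H →L[ℂ] H} (h : D * Z = Z * D) (hZ : IsStarProjection Z) :
    ‖cmp S (D * Z)‖ ≤ ‖cmp S D‖ := by
  rw [cmp_mul h]
  calc ‖Z * cmp S D * Z‖ ≤ ‖Z‖ * ‖cmp S D‖ * ‖Z‖ :=
        (norm_mul_le _ _).trans (mul_le_mul_of_nonneg_right (norm_mul_le _ _) (norm_nonneg _))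
    _ ≤ 1 * ‖cmp S D‖ * 1 := by
        gcongr
        · exact proj_opNorm_le hZ
        · exact proj_opNorm_le hZ
    _ = _ := by ring

/-- A chain with small compressions. -/
structure RkW (L : Set (H →L[ℂ] H)) (S : H →L[ℂ] H) (ε : ℝ) (Q P : H →L[ℂ] H) (n : ℕ)
    (R : ℕ → H →L[ℂ] H) : Prop where
  zero : R 0 = Q
  one : ∀ j, n ≤ j → R j = P
  mem : ∀ j, R j ∈ L
  mono : ∀ j, R j * R (j + 1) = R j
  bd : ∀ j, ‖cmp S (dif R j)‖ ≤ ε

/-- Existence of a chain with small compressions of given length. -/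
def Rk (L : Set (H →L[ℂ] H)) (S : H →L[ℂ] H) (ε : ℝ) (Q P : H →L[ℂ] H) (n : ℕ) : Prop :=
  ∃ R, RkW L S ε Q P n R

section rk

variable {S : H →L[ℂ] H} {ε : ℝ} {P Q : H →L[ℂ] H}

lemma cmp_zero' (S : H →L[ℂ] H) : cmp S 0 = 0 := by simp [cmp]

lemma Rk.refl (hL : IsPL L) (hε : 0 ≤ ε) (hQ : Q ∈ L) : Rk L S ε Q Q 0 := by
  refine ⟨fun _ => Q, rfl, fun _ _ => rfl, fun _ => hQ, fun _ =>
    (hL.proj Q hQ).isIdempotentElem.eq, fun j => ?_⟩
  simp only [dif, sub_self]
  rw [cmp_zero', norm_zero]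
  exact hε

lemma Rk.single (hL : IsPL L) (hε : 0 ≤ ε) (hQ : Q ∈ L) (hP : P ∈ L) (h : Q * P = Q)
    (hb : ‖cmp S (P - Q)‖ ≤ ε) : Rk L S ε Q P 1 := by
  refine ⟨fun j => if j = 0 then Q else P, rfl, fun j hj => ?_, fun j => ?_, fun j => ?_,
    fun j => ?_⟩
  · have : j ≠ 0 := by omega
    simp [this]
  · by_cases hj : j = 0
    · simp [hj, hQ]
    · simp [hj, hP]
  · by_cases hj : j = 0
    · simp [hj, h]
    · simp [hj, (hL.proj P hP).isIdempotentElem.eq]
  · by_cases hj : j = 0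
    · simp only [dif, hj]
      simpa using hb
    · simp only [dif, hj]
      simp only [Nat.add_eq_zero_iff, hj, one_ne_zero, and_self, if_false, sub_self]
      rw [cmp_zero', norm_zero]
      exact hε

lemma Rk.trans {R : H →L[ℂ] H} {m n : ℕ} (h1 : Rk L S ε Q R m) (h2 : Rk L S ε R P n) :
    Rk L S ε Q P (m + n) := by
  obtain ⟨R1, a1, a2, a3, a4, a5⟩ := h1
  obtain ⟨R2, b1, b2, b3, b4, b5⟩ := h2
  set R' : ℕ → H →L[ℂ] H := fun j => if j < m then R1 j else R2 (j - m) with hR'
  have hr1 : ∀ j, j ≤ m → R' j = R1 j := by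
    intro j hj
    by_cases hjm : j < m
    · simp [hR', hjm]
    · have e : j = m := by omega
      subst e
      simp [hR', b1, a2 j le_rfl]
  have hr2 : ∀ j, m ≤ j → R' j = R2 (j - m) := by
    intro j hj
    have : ¬ j < m := by omega
    simp [hR', this]
  refine ⟨R', ?_, fun j hj => ?_, fun j => ?_, fun j => ?_, fun j => ?_⟩
  · rw [hr1 0 (Nat.zero_le _), a1]
  · rw [hr2 j (by omega)]
    exact b2 _ (by omega)
  · by_cases hj : j < m
    · rw [hr1 j hj.le]
      exact a3 j
    · rw [hr2 j (by omega)]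
      exact b3 _
  · by_cases hj : j < m
    · rw [hr1 j hj.le, hr1 (j + 1) hj]
      exact a4 j
    · have e : j + 1 - m = (j - m) + 1 := by omega
      rw [hr2 j (by omega), hr2 (j + 1) (by omega), e]
      exact b4 _
  · by_cases hj : j < m
    · rw [dif, hr1 j hj.le, hr1 (j + 1) hj]
      exact a5 j
    · have e : j + 1 - m = (j - m) + 1 := by omega
      rw [dif, hr2 j (by omega), hr2 (j + 1) (by omega), e]
      exact b5 _

lemma Rk.mono {m n : ℕ} (h : m ≤ n) (h1 : Rk L S ε Q P m) : Rk L S ε Q P n := by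
  obtain ⟨R1, a1, a2, a3, a4, a5⟩ := h1
  exact ⟨R1, a1, fun j hj => a2 j (h.trans hj), a3, a4, a5⟩

/-- Image of a chain under a lattice operation. -/
lemma Rk.latt (hL : IsPL L) {n : ℕ} (h1 : Rk L S ε Q P n) {X Y : H →L[ℂ] H} (hX : X ∈ L)
    (hY : Y ∈ L) : Rk L S ε (Q * X + Y - Q * X * Y) (P * X + Y - P * X * Y) n := by
  obtain ⟨R1, a1, a2, a3, a4, a5⟩ := h1
  have hXX := (hL.proj X hX).isIdempotentElem.eq
  have hYY := (hL.proj Y hY).isIdempotentElem.eq
  have hXY := hL.comm X hX Y hY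
  refine ⟨fun j => R1 j * X + Y - R1 j * X * Y, by simp only [a1], fun j hj => by
    simp only [a2 j hj], fun j => hL.sup_mem _ (hL.inf_mem _ (a3 j) _ hX) _ hY, fun j => ?_,
    fun j => ?_⟩
  · have hR := hL.comm _ (a3 j) X hX
    have hR' := hL.comm _ (a3 (j + 1)) X hX
    have hRY := hL.comm _ (a3 j) Y hY
    have hRY' := hL.comm _ (a3 (j + 1)) Y hY
    have hA : (R1 j * X) * (R1 (j + 1) * X) = R1 j * X := by
      calc (R1 j * X) * (R1 (j + 1) * X) = R1 j * (X * R1 (j + 1)) * X := by noncomm_ring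
        _ = (R1 j * R1 (j + 1)) * (X * X) := by rw [← hR']; noncomm_ring
        _ = R1 j * X := by rw [a4, hXX]
    have hYA : ∀ i, Y * (R1 i * X) = (R1 i * X) * Y := by
      intro i
      have h2 := hL.comm _ (a3 i) Y hY
      calc Y * (R1 i * X) = (Y * R1 i) * X := by noncomm_ring
        _ = R1 i * (Y * X) := by rw [← h2]; noncomm_ring
        _ = R1 i * (X * Y) := by rw [hXY]
        _ = _ := by noncomm_ring
    set A := R1 j * X with hA_def
    set B := R1 (j + 1) * X with hB_def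
    have hYa : Y * A = A * Y := hYA j
    have hYb : Y * B = B * Y := hYA (j + 1)
    calc (A + Y - A * Y) * (B + Y - B * Y)
        = A * B + A * Y - A * B * Y + Y * B + Y * Y - (Y * B) * Y - A * (Y * B) - A * (Y * Y)
          + A * (Y * B) * Y := by noncomm_ring
      _ = A * B + A * Y - A * B * Y + B * Y + Y - (B * Y) * Y - A * (B * Y) - A * Y
          + A * (B * Y) * Y := by rw [hYb, hYY]
      _ = A + A * Y - A * Y + B * Y + Y - B * (Y * Y) - (A * B) * Y - A * Y
          + (A * B) * (Y * Y) := by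
            rw [hA]
            have e1 : A * (B * Y) = A * Y := by rw [← mul_assoc, hA]
            rw [e1]
            noncomm_ring
      _ = A + Y - A * Y := by rw [hYY, hA]; abel
  · have hZc : (dif R1 j) * (X * (1 - Y)) = (X * (1 - Y)) * dif R1 j := by
      have hc : BoolGen L (X * (1 - Y)) := (BoolGen.of hX).mul (BoolGen.of hY).cpl
      have hd : BoolGen L (dif R1 j) := dif_gen hL a3 a4 j
      exact hc.comm hL hd
    have e : dif (fun j => R1 j * X + Y - R1 j * X * Y) j = dif R1 j * (X * (1 - Y)) := by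
      simp only [dif]
      noncomm_ring
    rw [e]
    exact (cmp_mul_le hZc (((BoolGen.of hX).mul (BoolGen.of hY).cpl).proj hL)).trans (a5 j)

/-- Parallel composition of chains. -/
lemma Rk.par (hL : IsPL L) (hS : S ∈ AlgL L) (hε : 0 ≤ ε) {P' : H →L[ℂ] H} {n : ℕ}
    (h1 : Rk L S ε Q P n) (h2 : Rk L S ε Q P' n) (hPP : P * P' = Q) :
    Rk L S ε Q (P + P' - P * P') n := by
  obtain ⟨R1, a1, a2, a3, a4, a5⟩ := h1
  obtain ⟨R2, b1, b2, b3, b4, b5⟩ := h2
  have hle1 : ∀ j, R1 j * P = R1 j := by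
    intro j
    by_cases hj : n ≤ j
    · rw [a2 j hj, (hL.proj P (a2 n le_rfl ▸ a3 n)).isIdempotentElem.eq]
    · rw [← a2 n le_rfl, mono_le hL a3 a4 (by omega)]
  have hle2 : ∀ j, P' * R2 j = R2 j := by
    intro j
    by_cases hj : n ≤ j
    · rw [b2 j hj, (hL.proj P' (b2 n le_rfl ▸ b3 n)).isIdempotentElem.eq]
    · rw [← b2 n le_rfl, mono_le' hL b3 b4 (by omega)]
  have hge1 : ∀ j, R1 j * Q = Q := fun j => by
    rw [← a1, mono_le' hL a3 a4 (Nat.zero_le j)]
  have hge2 : ∀ j, Q * R2 j = Q := fun j => by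
    rw [← b1, mono_le hL b3 b4 (Nat.zero_le j)]
  have hprod : ∀ i j, R1 i * R2 j = Q := by
    intro i j
    calc R1 i * R2 j = (R1 i * P) * (P' * R2 j) := by rw [hle1, hle2]
      _ = R1 i * (P * P') * R2 j := by noncomm_ring
      _ = Q := by rw [hPP, hge1, hge2]
  have hprod' : ∀ i j, R2 i * R1 j = Q := by
    intro i j
    rw [hL.comm _ (b3 i) _ (a3 j), hprod]
  have hQQ : Q * Q = Q := (hL.proj Q (a1 ▸ a3 0)).isIdempotentElem.eq
  have hdif : ∀ j, dif (fun j => R1 j + R2 j - R1 j * R2 j) j = dif R1 j + dif R2 j := by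
    intro j
    simp only [dif, hprod]
    abel
  have hoff1 : ∀ j, dif R1 j * S * dif R2 j = 0 := by
    intro j
    have e1 : dif R1 j * R2 (j + 1) = 0 := by
      rw [dif, sub_mul, hprod, hprod, sub_self]
    rw [dif_eq hL b3 b4, mul_assoc (dif R1 j), ← mul_assoc S, AlgL.mul_eq hS (b3 (j + 1)),
      ← mul_assoc, ← mul_assoc, ← mul_assoc, e1]
    simp
  have hoff2 : ∀ j, dif R2 j * S * dif R1 j = 0 := by
    intro j
    have e1 : dif R2 j * R1 (j + 1) = 0 := by
      rw [dif, sub_mul, hprod', hprod', sub_self]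
    rw [dif_eq hL a3 a4, mul_assoc (dif R2 j), ← mul_assoc S, AlgL.mul_eq hS (a3 (j + 1)),
      ← mul_assoc, ← mul_assoc, ← mul_assoc, e1]
    simp
  have horth : ∀ j, dif R1 j * dif R2 j = 0 := by
    intro j
    rw [dif, dif, sub_mul, mul_sub, mul_sub, hprod, hprod, hprod, hprod]
    simp
  have horth' : ∀ j, dif R2 j * dif R1 j = 0 := by
    intro j
    rw [dif, dif, sub_mul, mul_sub, mul_sub, hprod', hprod', hprod', hprod']
    simp
  refine ⟨fun j => R1 j + R2 j - R1 j * R2 j, ?_, fun j hj => ?_, fun j => ?_, fun j => ?_,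
    fun j => ?_⟩
  · simp only [a1, b1, hQQ]
    abel
  · simp only [a2 j hj, b2 j hj]
  · exact hL.sup_mem _ (a3 j) _ (b3 j)
  · simp only [hprod]
    have h1 := a4 j
    have h2 := b4 j
    have h3 : Q * R1 (j + 1) = Q := by rw [← a1, mono_le hL a3 a4 (Nat.zero_le _)]
    have h4 : R2 j * Q = Q := by rw [← b1, mono_le' hL b3 b4 (Nat.zero_le _)]
    calc (R1 j + R2 j - Q) * (R1 (j + 1) + R2 (j + 1) - Q)
        = R1 j * R1 (j + 1) + R1 j * R2 (j + 1) - R1 j * Q + (R2 j * R1 (j + 1) +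
          R2 j * R2 (j + 1) - R2 j * Q) - (Q * R1 (j + 1) + Q * R2 (j + 1) - Q * Q) := by
          noncomm_ring
      _ = R1 j + R2 j - Q := by
        rw [h1, h2, h3, h4, hprod, hprod', hge1, hge2, hQQ]
        abel
  · rw [hdif]
    have e : cmp S (dif R1 j + dif R2 j) =
        ∑ b : Bool, (if b then dif R1 j else dif R2 j) * S * (if b then dif R1 j else dif R2 j) := by
      simp only [Fintype.sum_bool, if_true, Bool.false_eq_true, if_false]
      calc cmp S (dif R1 j + dif R2 j) = dif R1 j * S * dif R1 j + dif R1 j * S * dif R2 j +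
          (dif R2 j * S * dif R1 j + dif R2 j * S * dif R2 j) := by
            unfold cmp
            noncomm_ring
        _ = _ := by
          rw [hoff1, hoff2]
          abel
    rw [e]
    have hpr : ∀ b : Bool, IsStarProjection (if b then dif R1 j else dif R2 j) := by
      intro b
      cases b
      · simpa using dif_proj hL b3 b4 j
      · simpa using dif_proj hL a3 a4 j
    have hor : ∀ b c : Bool, b ≠ c → (if b then dif R1 j else dif R2 j) *
        (if c then dif R1 j else dif R2 j) = 0 := by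
      intro b c hbc
      cases b <;> cases c
      · exact absurd rfl hbc
      · simpa using horth' j
      · simpa using horth j
      · exact absurd rfl hbc
    refine norm_block_le (fun b : Bool => if b then dif R1 j else dif R2 j)
      (fun b : Bool => if b then dif R1 j else dif R2 j) (fun _ => S) hpr hpr hor hor hε univ ?_
    intro b _
    cases b
    · simpa [cmp] using b5 j
    · simpa [cmp] using a5 j

/-- The two dimensional step. -/
lemma Rk.step (hL : IsPL L) (hS : S ∈ AlgL L) (hε : 0 ≤ ε) {P P' Q Q' : H →L[ℂ] H}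
    (hP : P ∈ L) (hP' : P' ∈ L) (hQ : Q ∈ L) (hQ' : Q' ∈ L) (hPP : P * P' = P) (hQQ : Q * Q' = Q)
    {ρ σ : ℕ} (h1 : Rk L S ε 0 P ρ) (h2 : Rk L S ε P P' σ)
    (hb : ‖cmp S ((P' - P) * (Q' - Q))‖ ≤ ε) : Rk L S ε (P * Q) (P' * Q') (max ρ σ + 1) := by
  have hPi := (hL.proj P hP).isIdempotentElem.eq
  have hQi := (hL.proj Q hQ).isIdempotentElem.eq
  have hPQ := hL.comm P hP Q hQ
  have hP'Q := hL.comm P' hP' Q hQ
  have hPQ' := hL.comm P hP Q' hQ'
  have hP'Q' := hL.comm P' hP' Q' hQ'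
  have hPP'c := hL.comm P hP P' hP'
  have hQQ'c := hL.comm Q hQ Q' hQ'
  have hP'P : P' * P = P := by rw [← hPP'c, hPP]
  have hQ'Q : Q' * Q = Q := by rw [← hQQ'c, hQQ]
  have hm := hL.inf_mem P hP Q hQ
  have k1 : Rk L S ε (P * Q) (P * Q') ρ := by
    have := h1.latt hL hQ' hm
    have e1 : (0 : H →L[ℂ] H) * Q' + P * Q - 0 * Q' * (P * Q) = P * Q := by simp
    have e2 : P * Q' + P * Q - P * Q' * (P * Q) = P * Q' := by
      have : P * Q' * (P * Q) = P * Q := by
        calc P * Q' * (P * Q) = (P * Q') * P * Q := by noncomm_ring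
          _ = (Q' * P) * P * Q := by rw [hPQ']
          _ = Q' * (P * P) * Q := by noncomm_ring
          _ = (Q' * P) * Q := by rw [hPi]
          _ = (P * Q') * Q := by rw [hPQ']
          _ = P * (Q' * Q) := by noncomm_ring
          _ = P * Q := by rw [hQ'Q]
      rw [this]
      abel
    rwa [e1, e2] at this
  have k2 : Rk L S ε (P * Q) (P' * Q) σ := by
    have := h2.latt hL hQ hm
    have e1 : P * Q + P * Q - P * Q * (P * Q) = P * Q := by
      have : P * Q * (P * Q) = P * Q := by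
        calc P * Q * (P * Q) = P * (Q * P) * Q := by noncomm_ring
          _ = (P * P) * (Q * Q) := by rw [← hPQ]; noncomm_ring
          _ = _ := by rw [hPi, hQi]
      rw [this]
      abel
    have e2 : P' * Q + P * Q - P' * Q * (P * Q) = P' * Q := by
      have : P' * Q * (P * Q) = P * Q := by
        calc P' * Q * (P * Q) = P' * (Q * P) * Q := by noncomm_ring
          _ = (P' * P) * (Q * Q) := by rw [← hPQ]; noncomm_ring
          _ = _ := by rw [hP'P, hQi]
      rw [this]
      abel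
    rwa [e1, e2] at this
  have hmeet : (P * Q') * (P' * Q) = P * Q := by
    calc (P * Q') * (P' * Q) = P * (Q' * P') * Q := by noncomm_ring
      _ = (P * P') * (Q' * Q) := by rw [← hP'Q']; noncomm_ring
      _ = _ := by rw [hPP, hQ'Q]
  have k3 := Rk.par hL hS hε (k1.mono (le_max_left ρ σ)) (k2.mono (le_max_right ρ σ)) hmeet
  refine k3.trans (Rk.single hL hε (hL.sup_mem _ (hL.inf_mem _ hP _ hQ') _ (hL.inf_mem _ hP' _ hQ))
    (hL.inf_mem _ hP' _ hQ') ?_ ?_)
  · rw [hmeet]
    have e1 : P * Q' * (P' * Q') = P * Q' := by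
      calc P * Q' * (P' * Q') = P * (Q' * P') * Q' := by noncomm_ring
        _ = (P * P') * (Q' * Q') := by rw [← hP'Q']; noncomm_ring
        _ = _ := by rw [hPP, (hL.proj Q' hQ').isIdempotentElem.eq]
    have e2 : P' * Q * (P' * Q') = P' * Q := by
      calc P' * Q * (P' * Q') = P' * (Q * P') * Q' := by noncomm_ring
        _ = (P' * P') * (Q * Q') := by rw [← hP'Q]; noncomm_ring
        _ = _ := by rw [(hL.proj P' hP').isIdempotentElem.eq, hQQ]
    have e3 : P * Q * (P' * Q') = P * Q := by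
      calc P * Q * (P' * Q') = P * (Q * P') * Q' := by noncomm_ring
        _ = (P * P') * (Q * Q') := by rw [← hP'Q]; noncomm_ring
        _ = _ := by rw [hPP, hQQ]
    rw [sub_mul, add_mul, e1, e2, e3]
  · rw [hmeet]
    have : P' * Q' - (P * Q' + P' * Q - P * Q) = (P' - P) * (Q' - Q) := by noncomm_ring
    rw [this]
    exact hb

lemma cmp_diag_e (p : Part L) (T : H →L[ℂ] H) (i : p.ι) : cmp (T - p.diag T) (p.e i) = 0 := by
  unfold cmp
  rw [mul_sub, sub_mul, p.e_diag, mul_assoc (p.e i * T) (p.e i) (p.e i),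
    (p.proj i).isIdempotentElem.eq, sub_self]

/-- Initial finite bound. -/
lemma rk_finite (hL : IsPL L) (p : Part L) (T : H →L[ℂ] H) (hε : 0 ≤ ε) (n : ℕ) :
    ∀ U : Finset p.ι, IsUpperSet (U : Set p.ι) → U.card = n →
      Rk L (T - p.diag T) ε 0 (p.s U) n := by
  induction n with
  | zero =>
    intro U hU hc
    rw [Finset.card_eq_zero.mp hc, p.s_empty]
    exact Rk.refl hL hε hL.zero_mem
  | succ n ih =>
    intro U hU hc
    have hne : U.Nonempty := by
      rw [← Finset.card_pos]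
      omega
    obtain ⟨i, hi⟩ := U.exists_minimal hne
    have hi1 := hi.1
    have hV : IsUpperSet ((U.erase i : Finset p.ι) : Set p.ι) := by
      intro x y hxy hx
      simp only [coe_erase, Set.mem_sdiff, mem_coe, Set.mem_singleton_iff] at hx ⊢
      refine ⟨hU hxy hx.1, ?_⟩
      rintro rfl
      exact hx.2 (le_antisymm hxy (hi.2 hx.1 hxy))
    have h1 := ih (U.erase i) hV (by rw [card_erase_of_mem hi1]; omega)
    have hs : p.s U = p.s (U.erase i) + p.e i := by
      unfold Part.s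
      rw [Finset.sum_erase_add _ _ hi1]
    refine h1.trans (Rk.single hL hε (p.s_mem _ hV) (p.s_mem _ hU) ?_ ?_)
    · rw [p.s_mul]
      congr 1
      exact inter_eq_left.mpr (erase_subset i U)
    · rw [hs, add_sub_cancel_left, cmp_diag_e, norm_zero]
      exact hε

lemma cmp_sub_diag_le (hL : IsPL L) (p : Part L) (T : H →L[ℂ] H) {X : H →L[ℂ] H}
    (hX : BoolGen L X) : ‖cmp (T - p.diag T) X‖ ≤ 2 * ‖cmp T X‖ := by
  have e : cmp (T - p.diag T) X = cmp T X - p.diag (cmp T X) := by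
    unfold cmp
    rw [← p.diag_conj T (fun i => (hX.comm hL (p.gen i)))]
    noncomm_ring
  rw [e]
  calc ‖cmp T X - p.diag (cmp T X)‖ ≤ ‖cmp T X‖ + ‖p.diag (cmp T X)‖ := norm_sub_le _ _
    _ ≤ ‖cmp T X‖ + ‖cmp T X‖ := by
      gcongr
      exact p.diag_norm _
    _ = _ := by ring

/-- The rank lemma. -/
lemma rank_bound (hL : IsPL L) {T : H →L[ℂ] H} (hT : T ∈ AlgL L) {K : ℕ} (hK : 1 ≤ K) {δ : ℝ}
    (hδ : 0 ≤ δ) (hQ : ChainQ L T (K + 1) δ) (p : Part L) :
    Rk L (T - p.diag T) (2 * δ) 0 1 (2 ^ K * (K + 2)) := by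
  classical
  set S := T - p.diag T with hS_def
  have hS : S ∈ AlgL L := AlgL.sub_mem hT (p.diag_mem hL hT)
  have hε : (0 : ℝ) ≤ 2 * δ := by linarith
  have hex : ∃ n, Rk L S (2 * δ) 0 1 n := by
    have := rk_finite hL p T hε _ univ (by simp [IsUpperSet]) rfl
    rw [p.s_univ] at this
    exact ⟨_, this⟩
  set r := Nat.find hex with hr
  have hr1 : Rk L S (2 * δ) 0 1 r := Nat.find_spec hex
  have hr2 : ∀ n, Rk L S (2 * δ) 0 1 n → r ≤ n := fun n hn => Nat.find_min' hex hn
  by_contra hcon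
  have hbig : 2 ^ K * (K + 2) < r := by
    by_contra hle
    push Not at hle
    exact hcon (hr1.mono hle)
  set a := K + 2 with ha
  -- positions along the optimal chain
  let ρ : ℕ → ℕ := fun j => if j = 0 then 0 else if j ≤ K then 2 ^ (j - 1) * a else r
  have hρ0 : ρ 0 = 0 := by simp [ρ]
  have hρ1 : ∀ j, 1 ≤ j → j ≤ K → ρ j = 2 ^ (j - 1) * a := by
    intro j h1 h2
    have : j ≠ 0 := by omega
    simp [ρ, this, h2]
  have hρ2 : ∀ j, K < j → ρ j = r := by
    intro j h1
    have h2 : j ≠ 0 := by omega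
    have h3 : ¬ j ≤ K := by omega
    simp [ρ, h2, h3]
  have hρmono : ∀ j, ρ j ≤ ρ (j + 1) := by
    intro j
    by_cases h0 : j = 0
    · subst h0
      rw [hρ0]
      exact Nat.zero_le _
    · by_cases h1 : j + 1 ≤ K
      · rw [hρ1 j (by omega) (by omega), hρ1 (j + 1) (by omega) h1]
        exact Nat.mul_le_mul_right _ (Nat.pow_le_pow_right (by norm_num) (by omega))
      · rw [hρ2 (j + 1) (by omega)]
        by_cases h2 : j ≤ K
        · rw [hρ1 j (by omega) h2]
          refine le_trans ?_ hbig.le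
          exact Nat.mul_le_mul_right _ (Nat.pow_le_pow_right (by norm_num) (by omega))
        · rw [hρ2 j (by omega)]
  obtain ⟨R, a1, a2, a3, a4, a5⟩ := hr1
  set M : ℕ → H →L[ℂ] H := fun j => R (ρ j) with hM
  have hMc : Chn L M (K + 1) := by
    refine ⟨?_, ?_, fun j => a3 _, fun j => ?_⟩
    · simp only [hM, hρ0, a1]
    · simp only [hM, hρ2 (K + 1) (by omega)]
      exact a2 r le_rfl
    · exact mono_le hL a3 a4 (hρmono j)
  -- rank of pieces of the chain
  have hpiece : ∀ i n, Rk L S (2 * δ) (R i) (R (i + n)) n := by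
    intro i n
    refine ⟨fun j => R (i + min j n), by simp, fun j hj => by simp [hj], fun j => a3 _,
      fun j => mono_le hL a3 a4 (by gcongr; omega), fun j => ?_⟩
    by_cases hj : j < n
    · have e1 : min j n = j := by omega
      have e2 : min (j + 1) n = j + 1 := by omega
      have := a5 (i + j)
      simp only [dif, e1, e2] at this ⊢
      rw [← add_assoc]
      exact this
    · have e1 : min j n = n := by omega
      have e2 : min (j + 1) n = n := by omega
      simp only [dif, e1, e2, sub_self]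
      rw [cmp_zero', norm_zero]
      exact hε
  have hM0 : ∀ j, Rk L S (2 * δ) 0 (M j) (ρ j) := by
    intro j
    have := hpiece 0 (ρ j)
    rw [a1, zero_add] at this
    exact this
  have hMM : ∀ j, Rk L S (2 * δ) (M j) (M (j + 1)) (ρ (j + 1) - ρ j) := by
    intro j
    have := hpiece (ρ j) (ρ (j + 1) - ρ j)
    have e : ρ j + (ρ (j + 1) - ρ j) = ρ (j + 1) := by
      have := hρmono j
      omega
    rw [e] at this
    exact this
  obtain ⟨N, hNc, hNb⟩ := hQ M hMc
  have hbd : ∀ j < K + 1, ‖cmp S ((M (j + 1) - M j) * (N (j + 1) - N j))‖ ≤ 2 * δ := by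
    intro j hj
    refine (cmp_sub_diag_le hL p T ?_).trans ?_
    · exact (dif_gen hL hMc.mem hMc.mono j).mul (dif_gen hL hNc.mem hNc.mono j)
    · have := hNb j hj
      simp only [dif] at this
      linarith
  have hstep : ∀ j < K + 1, Rk L S (2 * δ) (M j * N j) (M (j + 1) * N (j + 1))
      (max (ρ j) (ρ (j + 1) - ρ j) + 1) := fun j hj =>
    Rk.step hL hS hε (hMc.mem j) (hMc.mem _) (hNc.mem j) (hNc.mem _) (hMc.mono j) (hNc.mono j)
      (hM0 j) (hMM j) (hbd j hj)
  -- first step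
  have h1 : Rk L S (2 * δ) 0 (M 1 * N 1) 1 := by
    refine Rk.single hL hε hL.zero_mem (hL.inf_mem _ (hMc.mem 1) _ (hNc.mem 1)) (zero_mul _) ?_
    have := hbd 0 (by omega)
    rw [hMc.zero, hNc.zero, sub_zero, sub_zero] at this
    rw [sub_zero]
    exact this
  have h2 : ∀ j, 1 ≤ j → j ≤ K → Rk L S (2 * δ) 0 (M j * N j) (j + (2 ^ (j - 1) - 1) * a) := by
    intro j hj
    induction j, hj using Nat.le_induction with
    | base =>
      intro _
      simpa using h1
    | succ j hj ih =>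
      intro hjK
      have h3 := (ih (by omega)).trans (hstep j (by omega))
      refine h3.mono ?_
      rw [hρ1 j hj (by omega), hρ1 (j + 1) (by omega) hjK]
      have e1 : j + 1 - 1 = (j - 1) + 1 := by omega
      rw [e1, pow_succ]
      set b := 2 ^ (j - 1) with hb
      have hb1 : 1 ≤ b := Nat.one_le_two_pow
      have e2 : max (b * a) (b * 2 * a - b * a) = b * a := by
        have : b * 2 * a = b * a + b * a := by ring
        omega
      rw [e2]
      obtain ⟨c, hc⟩ : ∃ c, b = c + 1 := ⟨b - 1, by omega⟩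
      rw [hc]
      have e3 : (c + 1) * 2 - 1 = 2 * c + 1 := by omega
      rw [e3, Nat.add_sub_cancel]
      apply le_of_eq
      ring
  have h4 := (h2 K hK le_rfl).trans (hstep K (by omega))
  rw [hMc.one, hNc.one, mul_one] at h4
  have h5 := hr2 _ h4
  rw [hρ1 K hK le_rfl, hρ2 (K + 1) (by omega)] at h5
  have e1 : 2 ^ K = 2 * 2 ^ (K - 1) := by
    rw [← pow_succ']
    congr 1
    omega
  rw [e1] at hbig
  set b := 2 ^ (K - 1) with hb
  have hb1 : 1 ≤ b := Nat.one_le_two_pow
  have e2 : max (b * a) (r - b * a) = r - b * a := by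
    have : 2 * b * a = b * a + b * a := by ring
    omega
  rw [e2] at h5
  obtain ⟨c, hc⟩ : ∃ c, b = c + 1 := ⟨b - 1, by omega⟩
  rw [hc] at h5 hbig
  have e3 : (c + 1) * a = c * a + a := by ring
  rw [Nat.add_sub_cancel] at h5
  have e4 : 2 * (c + 1) * a = 2 * (c * a) + 2 * a := by ring
  rw [e4] at hbig
  rw [e3] at h5
  omega

end rk

end Pool.Agent.CSLRad
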