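import Mathlib
import Pool.Agent.CSLRad.Rank

/-! The potential argument and its consequence. -/

set_option linter.unusedSectionVars false

namespace Pool.Agent.CSLRad

open Finset Filter Topology

variable {H : Type*} [NormedAddCommGroup H] [InnerProductSpace ℂ H] [CompleteSpace H]
variable {L : Set (H →L[ℂ] H)}

lemma BoolGen.finite_support {Y : H →L[ℂ] H} (hY : BoolGen L Y) :
    ∃ S : Finset (H →L[ℂ] H), (∀ P ∈ S, P ∈ L) ∧
      ∀ p : Part L, (∀ P ∈ S, p.Res P) → ∃ U : Finset p.ι, Y = p.s U := by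
  classical
  induction hY with
  | @of P h =>
    refine ⟨{P}, by simpa using h, fun p hp => ?_⟩
    obtain ⟨U, _, hU⟩ := hp P (mem_singleton_self P)
    exact ⟨U, hU⟩
  | cpl _ ih =>
    obtain ⟨S, hS, h⟩ := ih
    refine ⟨S, hS, fun p hp => ?_⟩
    obtain ⟨U, rfl⟩ := h p hp
    exact ⟨Uᶜ, (p.s_compl U).symm⟩
  | mul _ _ ih1 ih2 =>
    obtain ⟨S1, hS1, h1⟩ := ih1
    obtain ⟨S2, hS2, h2⟩ := ih2
    refine ⟨S1 ∪ S2, fun P hP => ?_, fun p hp => ?_⟩
    · rcases mem_union.mp hP with h | h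
      · exact hS1 P h
      · exact hS2 P h
    · obtain ⟨U, rfl⟩ := h1 p fun P hP => hp P (mem_union_left _ hP)
      obtain ⟨V, rfl⟩ := h2 p fun P hP => hp P (mem_union_right _ hP)
      exact ⟨U ∩ V, p.s_mul U V⟩

lemma exists_part_gen (hL : IsPL L) (F : Finset (H →L[ℂ] H)) (hF : ∀ Y ∈ F, BoolGen L Y) :
    ∃ p : Part L, ∀ Y ∈ F, ∃ U : Finset p.ι, Y = p.s U := by
  classical
  have hF' : ∀ Y ∈ F, ∃ S : Finset (H →L[ℂ] H), (∀ P ∈ S, P ∈ L) ∧
      ∀ p : Part L, (∀ P ∈ S, p.Res P) → ∃ U : Finset p.ι, Y = p.s U :=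
    fun Y hY => (hF Y hY).finite_support
  choose! S hS1 hS2 using hF'
  obtain ⟨p, hp⟩ := exists_part hL (F.biUnion S) (by
    intro P hP
    obtain ⟨Y, hY, hPY⟩ := mem_biUnion.mp hP
    exact hS1 Y hY P hPY)
  exact ⟨p, fun Y hY => hS2 Y hY p fun P hP => hp P (mem_biUnion.mpr ⟨Y, hY, hP⟩)⟩

/-- Off-diagonal corners. -/
def offd (L : Set (H →L[ℂ] H)) (T : H →L[ℂ] H) : Set (H →L[ℂ] H) :=
  {X | ∃ Y, BoolGen L Y ∧ X = Y * T * (1 - Y)}

/-- One step of the potential estimate. -/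
lemma potential_step (hL : IsPL L) {S : H →L[ℂ] H} (hS : S ∈ AlgL L) {ε C : ℝ} (hε : 0 ≤ ε)
    (hSC : ‖S‖ ≤ C) {R : ℕ → H →L[ℂ] H} (hR : ∀ j, R j ∈ L) (hm : ∀ j, R j * R (j + 1) = R j)
    (hb : ∀ j, ‖cmp S (dif R j)‖ ≤ ε) {Y Z : H →L[ℂ] H} (hY : BoolGen L Y) (hZ : BoolGen L Z)
    (x : H) (i : ℕ) :
    ‖(1 - R i) (Y (S (Z x)))‖ ^ 2 ≤ 2 * ε ^ 2 * ‖(1 - R i) x‖ ^ 2 +
      2 * C ^ 2 * ‖(1 - R (i + 1)) x‖ ^ 2 := by
  have hC : 0 ≤ C := (norm_nonneg _).trans hSC
  have hYp := hY.proj hL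
  have hZp := hZ.proj hL
  have hc : ∀ W, BoolGen L W → ∀ M ∈ L, ∀ v, W ((1 - M) v) = (1 - M) (W v) := by
    intro W hW M hM v
    have := (hW.comm_mem hL hM)
    have h2 := op_congr this v
    simp only [mul_apply_eq_comp] at h2
    simp only [sub_apply, one_apply_eq_self, map_sub, h2]
  set z := Z x with hz
  have hz1 : ∀ j, ‖(1 - R j) z‖ ≤ ‖(1 - R j) x‖ := by
    intro j
    rw [hz, ← hc Z hZ (R j) (hR j)]
    exact proj_norm_le hZp _
  have h1 : ‖(1 - R i) (Y (S z))‖ ≤ ‖(1 - R i) (S z)‖ := by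
    rw [← hc Y hY (R i) (hR i)]
    exact proj_norm_le hYp _
  have h2 : (1 - R i) (S z) = cmp S (dif R i) ((1 - R i) z) +
      (1 - R i) (S ((1 - R (i + 1)) z)) := by
    have e1 : (1 - R i) * S = cmp S (dif R i) * (1 - R i) + (1 - R i) * (S * (1 - R (i + 1))) := by
      have k1 : (1 - R i) * S * R i = 0 := hS (R i) (hR i)
      have k2 : S * R (i + 1) = R (i + 1) * S * R (i + 1) := AlgL.mul_eq hS (hR (i + 1))
      have k3 : R (i + 1) * (1 - R i) = (1 - R i) * R (i + 1) := by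
        rw [← dif_eq hL hR hm, dif_eq' hm]
      have k4 : (1 - R i) * (1 - R i) = 1 - R i :=
        (hL.proj _ (hR i)).one_sub.isIdempotentElem.eq
      have k5 : cmp S (dif R i) * (1 - R i) = (1 - R i) * S * R (i + 1) := by
        calc cmp S (dif R i) * (1 - R i)
            = ((1 - R i) * R (i + 1)) * S * (R (i + 1) * (1 - R i)) * (1 - R i) := by
              rw [cmp]
              conv_lhs =>
                rw [show dif R i * S * dif R i = dif R i * S * dif R i from rfl]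
              have e := dif_eq hL hR hm i
              have e' := dif_eq' hm i
              have : dif R i * S * dif R i = ((1 - R i) * R (i + 1)) * S * (R (i + 1) * (1 - R i)) := by
                rw [← e, ← e']
              rw [this]
          _ = (1 - R i) * R (i + 1) * S * R (i + 1) * ((1 - R i) * (1 - R i)) := by
              noncomm_ring
          _ = (1 - R i) * (R (i + 1) * S * R (i + 1)) * (1 - R i) := by
              rw [k4]
              noncomm_ring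
          _ = (1 - R i) * (S * R (i + 1)) * (1 - R i) := by rw [← k2]
          _ = (1 - R i) * S * (R (i + 1) * (1 - R i)) := by noncomm_ring
          _ = (1 - R i) * S * ((1 - R i) * R (i + 1)) := by rw [k3]
          _ = ((1 - R i) * S * R (i + 1)) - ((1 - R i) * S * R i) * R (i + 1) := by noncomm_ring
          _ = _ := by rw [k1]; simp
      rw [k5]
      noncomm_ring
    have e2 := op_congr e1 z
    simpa only [mul_apply_eq_comp, add_apply] using e2
  have h3 : ‖(1 - R i) (S z)‖ ≤ ε * ‖(1 - R i) x‖ + C * ‖(1 - R (i + 1)) x‖ := by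
    rw [h2]
    refine (norm_add_le _ _).trans (add_le_add ?_ ?_)
    · calc _ ≤ ε * ‖(1 - R i) z‖ := ContinuousLinearMap.le_of_opNorm_le _ (hb i) _
        _ ≤ _ := mul_le_mul_of_nonneg_left (hz1 i) hε
    · refine (proj_norm_le (hL.proj _ (hR i)).one_sub _).trans ?_
      calc _ ≤ C * ‖(1 - R (i + 1)) z‖ := ContinuousLinearMap.le_of_opNorm_le _ hSC _
        _ ≤ _ := mul_le_mul_of_nonneg_left (hz1 (i + 1)) hC
  have h4 := h1.trans h3
  set a := ‖(1 - R i) x‖ with ha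
  set b := ‖(1 - R (i + 1)) x‖ with hb'
  calc ‖(1 - R i) (Y (S z))‖ ^ 2 ≤ (ε * a + C * b) ^ 2 :=
        pow_le_pow_left₀ (norm_nonneg _) h4 2
    _ ≤ 2 * ε ^ 2 * a ^ 2 + 2 * C ^ 2 * b ^ 2 := by
      nlinarith [sq_nonneg (ε * a - C * b)]

/-- Path estimate. -/
lemma path_bound (hL : IsPL L) {T : H →L[ℂ] H} {ε : ℝ} (hε : 0 < ε)
    (hε2 : ε ≤ 2) (m : ℕ) : ∀ (κ : Type) [Fintype κ] (y : κ → H),
    Reach L (List.replicate m (offd L T)) κ y → ∃ F : Finset (H →L[ℂ] H),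
      (∀ Y ∈ F, BoolGen L Y) ∧ ∀ S ∈ AlgL L, ‖S‖ ≤ 2 →
        (∀ Y ∈ F, Y * S * (1 - Y) = Y * T * (1 - Y)) → ∀ (r : ℕ) (R : ℕ → H →L[ℂ] H),
        RkW L S ε 0 1 r R → ∀ i, ∑ k, ‖(1 - R i) (y k)‖ ^ 2 ≤
          (4 * ε ^ 2) ^ m * (4 / ε ^ 2) ^ r * ((4 / ε ^ 2) ^ i)⁻¹ := by
  classical
  have hq : 1 ≤ 4 / ε ^ 2 := by
    rw [le_div_iff₀ (by positivity)]
    nlinarith
  have hq0 : 0 < 4 / ε ^ 2 := by positivity
  induction m with
  | zero =>
    intro κ _ y hy
    refine ⟨∅, by simp, fun S hS hSn _ r R hR i => ?_⟩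
    have hy1 : ∑ k, ‖y k‖ ^ 2 ≤ 1 := hy
    rw [pow_zero, one_mul]
    by_cases hi : i ≤ r
    · have h1 : 1 ≤ (4 / ε ^ 2) ^ r * ((4 / ε ^ 2) ^ i)⁻¹ := by
        rw [← div_eq_mul_inv, le_div_iff₀ (by positivity), one_mul]
        exact pow_le_pow_right₀ hq hi
      refine le_trans ?_ (hy1.trans h1)
      exact sum_le_sum fun k _ => pow_le_pow_left₀ (norm_nonneg _)
        (proj_norm_le (hL.proj _ (hR.mem i)).one_sub _) 2
    · rw [hR.one i (by omega)]
      simp only [sub_self, zero_apply, norm_zero]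
      simp only [ne_eq, OfNat.ofNat_ne_zero, not_false_eq_true, zero_pow, sum_const_zero]
      positivity
  | succ m ih =>
    intro κ _ y hy
    rw [List.replicate_succ] at hy
    obtain ⟨X, x, hX, hyx, κ', _, u, hu, hxu⟩ := hy
    choose Y hY hXY using hX
    obtain ⟨F, hF, hFb⟩ := ih κ' u hu
    refine ⟨F ∪ univ.image Y, ?_, ?_⟩
    · intro Z hZ
      rcases mem_union.mp hZ with h | h
      · exact hF Z h
      · obtain ⟨k, _, rfl⟩ := mem_image.mp h
        exact hY k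
    · intro S hS hSn hST r R hR i
      have hW := hFb S hS hSn (fun Z hZ => hST Z (mem_union_left _ hZ)) r R hR
      have hWx : ∀ i, ∑ k, ‖(1 - R i) (x k)‖ ^ 2 ≤
          (4 * ε ^ 2) ^ m * (4 / ε ^ 2) ^ r * ((4 / ε ^ 2) ^ i)⁻¹ := fun i =>
        (hxu (R i) (hR.mem i)).trans (hW i)
      have hterm : ∀ k, ‖(1 - R i) (y k)‖ ^ 2 ≤ 2 * ε ^ 2 * ‖(1 - R i) (x k)‖ ^ 2 +
          2 * 2 ^ 2 * ‖(1 - R (i + 1)) (x k)‖ ^ 2 := by
        intro k
        have e : y k = Y k (S ((1 - Y k) (x k))) := by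
          rw [hyx, hXY, ← hST (Y k) (mem_union_right _ (mem_image_of_mem Y (mem_univ k)))]
          rfl
        rw [e]
        exact potential_step hL hS hε.le hSn hR.mem hR.mono hR.bd (hY k) (hY k).cpl (x k) i
      set B := (4 * ε ^ 2) ^ m * (4 / ε ^ 2) ^ r with hB
      calc ∑ k, ‖(1 - R i) (y k)‖ ^ 2
          ≤ ∑ k, (2 * ε ^ 2 * ‖(1 - R i) (x k)‖ ^ 2 +
          2 * 2 ^ 2 * ‖(1 - R (i + 1)) (x k)‖ ^ 2) := sum_le_sum fun k _ => hterm k
        _ = 2 * ε ^ 2 * ∑ k, ‖(1 - R i) (x k)‖ ^ 2 +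
            2 * 2 ^ 2 * ∑ k, ‖(1 - R (i + 1)) (x k)‖ ^ 2 := by
            rw [sum_add_distrib, mul_sum, mul_sum]
        _ ≤ 2 * ε ^ 2 * (B * ((4 / ε ^ 2) ^ i)⁻¹) +
            2 * 2 ^ 2 * (B * ((4 / ε ^ 2) ^ (i + 1))⁻¹) := by
            gcongr
            · exact hWx i
            · exact hWx (i + 1)
        _ = (4 * ε ^ 2) * (B * ((4 / ε ^ 2) ^ i)⁻¹) := by
            rw [pow_succ (4 / ε ^ 2) i, mul_inv]
            have : (4 / ε ^ 2)⁻¹ = ε ^ 2 / 4 := by rw [inv_div]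
            rw [this]
            ring
        _ = (4 * ε ^ 2) ^ (m + 1) * (4 / ε ^ 2) ^ r * ((4 / ε ^ 2) ^ i)⁻¹ := by
            rw [hB, pow_succ]
            ring

/-- A chain along which all corners are small. -/
lemma exists_chain_offdiag (hL : IsPL L) (hSOT : SOTClosed L) {T : H →L[ℂ] H} (hT : T ∈ AlgL L)
    (hT1 : ‖T‖ ≤ 1) {r : ℕ} {ε : ℝ} (hε : 0 < ε) (hε2 : ε ≤ 2)
    (hr : ∀ p : Part L, Rk L (T - p.diag T) ε 0 1 r) :
    ∃ (m : ℕ) (N : ℕ → H →L[ℂ] H), Chn L N m ∧ ∀ j < m, ∀ Y, BoolGen L Y →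
      ‖Y * cmp T (dif N j) * (1 - Y)‖ ≤ 8 * ε := by
  obtain ⟨m, hm⟩ : ∃ m : ℕ, (4 / ε ^ 2) ^ r ≤ 4 ^ (m + 1) := by
    obtain ⟨m, hm⟩ := pow_unbounded_of_one_lt ((4 / ε ^ 2) ^ r) (show (1 : ℝ) < 4 by norm_num)
    exact ⟨m, hm.le.trans (pow_le_pow_right₀ (by norm_num) (by omega))⟩
  have hs2 : Real.sqrt 2 * Real.sqrt 2 = 2 := Real.mul_self_sqrt zero_le_two
  have hs2' : Real.sqrt 2 * (4 * Real.sqrt 2 * ε) = 8 * ε := by
    calc Real.sqrt 2 * (4 * Real.sqrt 2 * ε) = 4 * (Real.sqrt 2 * Real.sqrt 2) * ε := by ring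
      _ = _ := by rw [hs2]; ring
  have hset : lmulSet (1 - 0) (offd L T) = offd L T := by
    ext X
    simp [lmulSet]
  have hoA : ∀ X ∈ offd L T, X ∈ AlgL L := by
    rintro X ⟨Y, hY, rfl⟩
    exact AlgL.mul_mem (AlgL.mul_mem (AlgL.of_gen hL hY) hT) (AlgL.of_gen hL hY.cpl)
  obtain ⟨N, hN0, hN1, hNL, hNm, hNb⟩ := kdual hL hSOT (show 0 < 4 * Real.sqrt 2 * ε by positivity)
    (List.replicate m (offd L T)) 0 hL.zero_mem (offd L T)
    (by
      intro S hS X hX
      rcases List.mem_cons.mp hS with rfl | h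
      · exact hoA X hX
      · rw [List.eq_of_mem_replicate h] at hX
        exact hoA X hX)
    ((4 * ε) ^ (m + 1)) (by positivity)
    (by
      rw [hs2', List.length_replicate]
      have e1 : (Real.sqrt 2 / (4 * Real.sqrt 2 * ε)) = 1 / (4 * ε) := by
        field_simp
      rw [e1]
      have e2 : (1 / (4 * ε)) ^ m * (4 * ε) ^ (m + 1) = 4 * ε := by
        rw [pow_succ, one_div, inv_pow]
        field_simp
      rw [e2]
      linarith)
    (by
      intro κ _ y hy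
      rw [hset, ← List.replicate_succ] at hy
      obtain ⟨F, hF, hFb⟩ := path_bound hL hε hε2 (m + 1) κ y hy
      obtain ⟨p, hp⟩ := exists_part_gen hL F hF
      obtain ⟨R, hR⟩ := hr p
      have h1 := hFb (T - p.diag T) (AlgL.sub_mem hT (p.diag_mem hL hT))
        (by
          calc ‖T - p.diag T‖ ≤ ‖T‖ + ‖p.diag T‖ := norm_sub_le _ _
            _ ≤ 1 + 1 := add_le_add hT1 ((p.diag_norm T).trans hT1)
            _ = 2 := by norm_num)
        (by
          intro Y hY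
          obtain ⟨U, rfl⟩ := hp Y hY
          have : p.s U * p.diag T * (1 - p.s U) = 0 := by
            rw [p.s_diag, mul_assoc, mul_sub, mul_one, p.s_mul, inter_self, sub_self, mul_zero]
          calc p.s U * (T - p.diag T) * (1 - p.s U)
              = p.s U * T * (1 - p.s U) - p.s U * p.diag T * (1 - p.s U) := by
                rw [mul_sub (p.s U) T (p.diag T), sub_mul]
            _ = _ := by rw [this, sub_zero]) r R hR 0
      rw [hR.zero] at h1
      simp only [sub_zero, one_apply_eq_self, pow_zero, inv_one, mul_one] at h1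
      refine h1.trans ?_
      calc (4 * ε ^ 2) ^ (m + 1) * (4 / ε ^ 2) ^ r ≤ (4 * ε ^ 2) ^ (m + 1) * 4 ^ (m + 1) := by
            gcongr
        _ = ((4 * ε) ^ (m + 1)) ^ 2 := by
            rw [← mul_pow, ← pow_mul, mul_comm (m + 1) 2, pow_mul]
            congr 1
            ring)
  rw [List.length_replicate] at hN1
  refine ⟨m + 1, N, ⟨hN0, hN1, hNL, hNm⟩, fun j hj Y hY => ?_⟩
  have hmem : Y * T * (1 - Y) ∈ (offd L T :: List.replicate m (offd L T))[j]'(by simpa using hj) := by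
    have : (offd L T :: List.replicate m (offd L T))[j]'(by simpa using hj) = offd L T := by
      cases j with
      | zero => simp
      | succ j => simp
    rw [this]
    exact ⟨Y, hY, rfl⟩
  have h1 := hNb j (by simpa using hj) _ hmem
  rw [hs2'] at h1
  have hd := dif_gen hL hNL hNm j
  have hdY : dif N j * Y = Y * dif N j := (hY.comm hL hd)
  have e : Y * cmp T (dif N j) * (1 - Y) =
      N (j + 1) * ((1 - N j) * (Y * T * (1 - Y)) * N (j + 1)) * (1 - N j) := by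
    have e1 : Y * cmp T (dif N j) * (1 - Y) = dif N j * (Y * T * (1 - Y)) * dif N j := by
      calc Y * cmp T (dif N j) * (1 - Y) = (Y * dif N j) * T * (dif N j * (1 - Y)) := by
            unfold cmp
            noncomm_ring
        _ = (dif N j * Y) * T * (dif N j - dif N j * Y) := by
            rw [hdY, mul_sub, mul_one]
            rw [hdY]
        _ = (dif N j * Y) * T * (dif N j - Y * dif N j) := by
            have : dif N j - dif N j * Y = dif N j - Y * dif N j := by rw [hdY]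
            rw [this]
        _ = _ := by noncomm_ring
    rw [e1]
    rw [dif_eq hL hNL hNm]
    simp only [mul_assoc]
  rw [e]
  calc _ ≤ ‖N (j + 1)‖ * ‖(1 - N j) * (Y * T * (1 - Y)) * N (j + 1)‖ * ‖1 - N j‖ :=
        (norm_mul_le _ _).trans (mul_le_mul_of_nonneg_right (norm_mul_le _ _) (norm_nonneg _))
    _ ≤ 1 * (8 * ε) * 1 := by
        gcongr
        · exact proj_opNorm_le (hL.proj _ (hNL _))
        · exact proj_opNorm_le (hL.proj _ (hNL _)).one_sub
    _ = _ := by ring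

end Pool.Agent.CSLRad
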