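import Mathlib
import Pool.Agent.CSLRad.Potential

/-! Approximation by the commutant, and elements of the radical. -/

set_option linter.unusedSectionVars false

namespace Pool.Agent.CSLRad

open Finset Filter Topology

variable {H : Type*} [NormedAddCommGroup H] [InnerProductSpace ℂ H] [CompleteSpace H]
variable {L : Set (H →L[ℂ] H)}

/-- Sign operator. -/
noncomputable def Part.sgn (p : Part L) (σ : p.ι → Bool) : H →L[ℂ] H :=
  ∑ i, (sg (σ i) : ℂ) • p.e i

lemma Part.sgn_eq (p : Part L) (σ : p.ι → Bool) :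
    p.sgn σ = 2 • p.s (univ.filter fun i => σ i = true) - 1 := by
  have h1 : (1 : H →L[ℂ] H) = ∑ i, p.e i := p.sum_one.symm
  rw [h1]
  unfold Part.sgn Part.s
  rw [sum_filter, ← sum_nsmul, ← sum_sub_distrib]
  refine sum_congr rfl fun i _ => ?_
  by_cases h : σ i = true
  · simp only [h, sg, if_true, Complex.ofReal_one, one_smul]
    rw [two_smul]
    abel
  · have h' : σ i = false := by simpa using h
    simp [h', sg]

lemma Part.sum_sgn (p : Part L) (X : H →L[ℂ] H) :
    ∑ σ : p.ι → Bool, p.sgn σ * X * p.sgn σ =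
      (Fintype.card (p.ι → Bool) : ℂ) • p.diag X := by
  have e1 : ∀ σ : p.ι → Bool, p.sgn σ * X * p.sgn σ =
      ∑ i, ∑ j, ((sg (σ i) * sg (σ j) : ℝ) : ℂ) • (p.e i * X * p.e j) := by
    intro σ
    unfold Part.sgn
    rw [sum_mul, sum_mul]
    refine sum_congr rfl fun i _ => ?_
    rw [mul_sum]
    refine sum_congr rfl fun j _ => ?_
    rw [smul_mul_assoc, smul_mul_assoc, mul_smul_comm, smul_smul]
    push_cast
    rfl
  simp only [e1]
  rw [sum_comm]
  unfold Part.diag
  rw [smul_sum]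
  refine sum_congr rfl fun i _ => ?_
  rw [sum_comm, sum_eq_single_of_mem i (mem_univ i)]
  · rw [← sum_smul]
    congr 1
    have := sum_sg_mul (κ := p.ι) i i
    rw [if_pos rfl] at this
    rw [← Complex.ofReal_sum, this]
    norm_cast
  · intro j _ hj
    rw [← sum_smul]
    have := sum_sg_mul (κ := p.ι) i j
    rw [if_neg (Ne.symm hj)] at this
    rw [← Complex.ofReal_sum, this, Complex.ofReal_zero, zero_smul]

/-- Small corners imply closeness to the diagonal. -/
lemma diag_close (p : Part L) {X : H →L[ℂ] H} {c : ℝ}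
    (hX : ∀ Y, BoolGen L Y → ‖Y * X * (1 - Y)‖ ≤ c) : ‖X - p.diag X‖ ≤ 4 * c := by
  have hs : ∀ σ : p.ι → Bool, ‖X - p.sgn σ * X * p.sgn σ‖ ≤ 4 * c := by
    intro σ
    set Y := p.s (univ.filter fun i => σ i = true) with hY
    have hYg : BoolGen L Y := p.gen_s _
    have e : X - p.sgn σ * X * p.sgn σ = (2 : ℂ) • (Y * X * (1 - Y)) +
        (2 : ℂ) • ((1 - Y) * X * (1 - (1 - Y))) := by
      rw [p.sgn_eq, ← hY]
      have e2 : ∀ Z : H →L[ℂ] H, (2 : ℂ) • Z = 2 • Z := fun Z => by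
        rw [two_smul, two_smul]
      rw [e2, e2]
      noncomm_ring
    rw [e]
    refine (norm_add_le _ _).trans ?_
    rw [norm_smul, norm_smul]
    have h1 := hX Y hYg
    have h2 := hX (1 - Y) hYg.cpl
    have h3 : ‖(2 : ℂ)‖ = 2 := by norm_num
    rw [h3]
    linarith
  set n : ℂ := (Fintype.card (p.ι → Bool) : ℂ) with hn
  have hn0 : n ≠ 0 := by
    rw [hn]
    exact_mod_cast Fintype.card_ne_zero
  have hnn : ‖n‖ = (Fintype.card (p.ι → Bool) : ℝ) := by
    rw [hn]
    simp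
  have hnpos : (0 : ℝ) < (Fintype.card (p.ι → Bool) : ℝ) := by
    exact_mod_cast Fintype.card_pos
  have e : n • (X - p.diag X) = ∑ σ : p.ι → Bool, (X - p.sgn σ * X * p.sgn σ) := by
    rw [sum_sub_distrib, p.sum_sgn, smul_sub, sum_const, card_univ, ← hn]
    congr 1
    rw [hn]
    exact Nat.cast_smul_eq_nsmul ℂ _ X
  have h1 : ‖n • (X - p.diag X)‖ ≤ ‖n‖ * (4 * c) := by
    rw [e, hnn]
    calc _ ≤ ∑ σ : p.ι → Bool, ‖X - p.sgn σ * X * p.sgn σ‖ := norm_sum_le _ _
      _ ≤ ∑ _σ : p.ι → Bool, 4 * c := sum_le_sum fun σ _ => hs σ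
      _ = _ := by rw [sum_const, card_univ, nsmul_eq_mul]
  rw [norm_smul] at h1
  exact le_of_mul_le_mul_left h1 (by rw [hnn]; exact hnpos)

/-- Approximation by an element of the commutant. -/
lemma exp_exists (hL : IsPL L) {X : H →L[ℂ] H} {c : ℝ} (hc : 0 ≤ c)
    (hX : ∀ p : Part L, ‖X - p.diag X‖ ≤ c) :
    ∃ D : H →L[ℂ] H, (∀ P ∈ L, P * D = D * P) ∧ ‖X - D‖ ≤ c := by
  classical
  obtain ⟨U, hU⟩ := exists_uf L
  have hex : ∀ S : FS L, ∃ p : Part L, ∀ P ∈ S.1, p.Res P := fun S => exists_part hL S.1 S.2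
  choose p hp using hex
  obtain ⟨D, hD, _⟩ := exists_wotlim U (fun S => (p S).diag X) ‖X‖ (norm_nonneg X)
    (fun S => (p S).diag_norm X)
  refine ⟨D, fun P hP => ?_, ?_⟩
  · ext ξ
    simp only [mul_apply_eq_comp]
    have h1 : WTendsto (fun S => P ((p S).diag X ξ)) U (P (D ξ)) := (hD ξ).map P
    have h2 : WTendsto (fun S => (p S).diag X (P ξ)) U (D (P ξ)) := hD (P ξ)
    refine h1.unique (h2.congr' ?_)
    filter_upwards [hU P hP] with S hS
    obtain ⟨V, _, hV⟩ := hp S P hS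
    have : P = (p S).s V := hV
    have e := op_congr ((p S).s_diag X V) ξ
    rw [← this] at e
    simp only [mul_apply_eq_comp] at e
    exact e.symm
  · refine ContinuousLinearMap.opNorm_le_bound _ hc fun ξ => ?_
    have h1 : WTendsto (fun S => X ξ - (p S).diag X ξ) U (X ξ - D ξ) :=
      (wtendsto_const (X ξ) _).sub (hD ξ)
    refine h1.norm_le (by positivity) (Eventually.of_forall fun S => ?_)
    exact ContinuousLinearMap.le_of_opNorm_le _ (hX (p S)) ξ

/-- Membership in the radical, in terms of left inverses. -/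
def InRad (L : Set (H →L[ℂ] H)) (X : H →L[ℂ] H) : Prop :=
  X ∈ AlgL L ∧ ∀ A ∈ AlgL L, ∃ B ∈ AlgL L, B * (1 - A * X) = 1

lemma InRad.left {X C : H →L[ℂ] H} (hX : InRad L X) (hC : C ∈ AlgL L) : InRad L (C * X) := by
  refine ⟨AlgL.mul_mem hC hX.1, fun A hA => ?_⟩
  obtain ⟨B, hB, h⟩ := hX.2 (A * C) (AlgL.mul_mem hA hC)
  exact ⟨B, hB, by rw [← mul_assoc]; exact h⟩

lemma AlgL.one_mem (hL : IsPL L) : (1 : H →L[ℂ] H) ∈ AlgL L :=
  AlgL.of_gen hL (BoolGen.of hL.one_mem)

lemma InRad.right (hL : IsPL L) {X C : H →L[ℂ] H} (hX : InRad L X) (hC : C ∈ AlgL L) :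
    InRad L (X * C) := by
  refine ⟨AlgL.mul_mem hX.1 hC, fun A hA => ?_⟩
  obtain ⟨B, hB, h⟩ := hX.2 (C * A) (AlgL.mul_mem hC hA)
  refine ⟨1 + A * X * B * C, AlgL.add_mem (AlgL.one_mem hL) (AlgL.mul_mem (AlgL.mul_mem
    (AlgL.mul_mem hA hX.1) hB) hC), ?_⟩
  calc (1 + A * X * B * C) * (1 - A * (X * C))
      = 1 - A * X * C + A * X * (B * (1 - C * A * X)) * C := by noncomm_ring
    _ = 1 := by
      rw [h]
      noncomm_ring

lemma InRad.cmp (hL : IsPL L) {X E : H →L[ℂ] H} (hX : InRad L X) (hE : BoolGen L E) :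
    InRad L (cmp X E) :=
  (hX.left (AlgL.of_gen hL hE)).right hL (AlgL.of_gen hL hE)

lemma AlgL.smul_mem {X : H →L[ℂ] H} (c : ℂ) (hX : X ∈ AlgL L) : c • X ∈ AlgL L := by
  intro P hP
  rw [mul_smul_comm, smul_mul_assoc, hX P hP, smul_zero]

/-- A selfadjoint operator in the radical vanishes. -/
lemma InRad.eq_zero (hL : IsPL L) {X : H →L[ℂ] H} (hX : InRad L X) (hs : IsSelfAdjoint X) :
    X = 0 := by
  have hleft : ∀ c : ℂ, ∃ B : H →L[ℂ] H, B * (1 - c • X) = 1 := by
    intro c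
    obtain ⟨B, _, hB⟩ := hX.2 (c • 1) (AlgL.smul_mem c (AlgL.one_mem hL))
    exact ⟨B, by rw [smul_mul_assoc, one_mul] at hB; exact hB⟩
  have hunit : ∀ c : ℂ, IsUnit (1 - c • X) := by
    intro c
    obtain ⟨B, hB⟩ := hleft c
    obtain ⟨B', hB'⟩ := hleft (star c)
    have h2 := congrArg star hB'
    rw [star_mul, star_sub, star_one, star_smul, star_star, hs.star_eq] at h2
    exact ⟨⟨1 - c • X, B, by
      have : star B' = B := by
        calc star B' = (B * (1 - c • X)) * star B' := by rw [hB, one_mul]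
          _ = B * ((1 - c • X) * star B') := by rw [mul_assoc]
          _ = B := by rw [h2, mul_one]
      rw [← this]
      exact h2, hB⟩, rfl⟩
  have hspec : spectralRadius ℂ X = 0 := by
    rw [spectralRadius]
    simp only [ENNReal.iSup_eq_zero]
    intro z hz
    by_contra hne
    have hz0 : z ≠ 0 := by
      rintro rfl
      simp at hne
    have : z ∉ spectrum ℂ X := by
      rw [spectrum.notMem_iff]
      have h1 := (hunit z⁻¹)
      have h2 : algebraMap ℂ (H →L[ℂ] H) z - X = (Units.mk0 z hz0) • (1 - z⁻¹ • X) := by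
        rw [Units.smul_def, Units.val_mk0, smul_sub, smul_smul, mul_inv_cancel₀ hz0, one_smul,
          Algebra.algebraMap_eq_smul_one]
      rw [h2]
      exact h1.smul _
    exact this hz
  have h3 := hs.spectralRadius_eq_nnnorm
  rw [hspec] at h3
  have h4 : ‖X‖₊ = 0 := by exact_mod_cast h3.symm
  exact nnnorm_eq_zero.mp h4

/-- Neumann series inside the algebra. -/
lemma neumann {G : H →L[ℂ] H} (hL : IsPL L) (hG : G ∈ AlgL L) (h : ‖G‖ < 1) :
    ∃ B ∈ AlgL L, B * (1 - G) = 1 := by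
  have hs : Summable fun n : ℕ => G ^ n := summable_geometric_of_norm_lt_one h
  refine ⟨∑' n : ℕ, G ^ n, ?_, geom_series_mul_neg G h⟩
  intro P hP
  have hpow : ∀ n : ℕ, G ^ n ∈ AlgL L := by
    intro n
    induction n with
    | zero =>
      rw [pow_zero]
      exact AlgL.one_mem hL
    | succ n ih =>
      rw [pow_succ]
      exact AlgL.mul_mem ih hG
  have h1 := (hs.hasSum.mul_left (1 - P)).mul_right P
  have h2 : HasSum (fun n : ℕ => (1 - P) * G ^ n * P) 0 := by
    have : (fun n : ℕ => (1 - P) * G ^ n * P) = fun _ => 0 := by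
      funext n
      exact hpow n P hP
    rw [this]
    exact hasSum_zero
  exact h1.unique h2

/-- An element of the radical close to the commutant is small. -/
lemma rad_small (hL : IsPL L) {X D : H →L[ℂ] H} (hX : InRad L X)
    (hD : ∀ P ∈ L, P * D = D * P) {c : ℝ} (hc : 0 ≤ c) (hXD : ‖X - D‖ ≤ c) : ‖X‖ ≤ 3 * c := by
  have hDn : ‖D‖ ≤ 2 * c := by
    by_contra hcon
    push Not at hcon
    set d := ‖D‖ with hd
    have hd0 : 0 < d := lt_of_le_of_lt (by positivity) hcon
    set B : H →L[ℂ] H := ((d ^ 2)⁻¹ : ℂ) • star D with hB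
    have hDs : ∀ P ∈ L, P * star D = star D * P := by
      intro P hP
      have := congrArg star (hD P hP)
      rw [star_mul, star_mul, (hL.proj P hP).isSelfAdjoint.star_eq] at this
      exact this.symm
    have hBc : ∀ P ∈ L, P * B = B * P := by
      intro P hP
      rw [hB, mul_smul_comm, smul_mul_assoc, hDs P hP]
    set N := B * D with hN
    have hNs : IsSelfAdjoint N := by
      rw [hN, hB, smul_mul_assoc]
      have h1 : IsSelfAdjoint (star D * D) := IsSelfAdjoint.star_mul_self D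
      rw [IsSelfAdjoint, star_smul, h1.star_eq]
      congr 1
      simp
    set a : H →L[ℂ] H := N - ((1 / 2 : ℝ) : ℂ) • 1 with ha
    have has : IsSelfAdjoint a := by
      refine hNs.sub ?_
      rw [IsSelfAdjoint, star_smul, star_one]
      simp
    have hNin : ∀ x, inner ℂ (N x) x = (((d ^ 2)⁻¹ * ‖D x‖ ^ 2 : ℝ) : ℂ) := by
      intro x
      have e1 : N x = ((d ^ 2)⁻¹ : ℂ) • (star D) (D x) := rfl
      rw [e1, inner_smul_left]
      have e2 : inner ℂ ((star D) (D x)) x = inner ℂ (D x) (D x) := adj_inner D (D x) x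
      rw [e2, inner_self_eq_norm_sq_to_K]
      simp
    obtain ⟨r, k, hr, hk0, hark, hrk, hkr, hcomm⟩ := exists_parts has
    have hax : ∀ x, a x = r (r x) - k x := fun x => op_congr hark x
    have hra : ∀ P ∈ L, P * r = r * P := by
      intro P hP
      have h1 : Commute a P := by
        show a * P = P * a
        rw [ha, hN, sub_mul, mul_sub, mul_assoc, ← hD P hP, ← mul_assoc, ← hBc P hP]
        simp only [smul_mul_assoc, mul_smul_comm, one_mul, mul_one, mul_assoc]
      exact (hcomm P h1).1.eq.symm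
    have hrA : r ∈ AlgL L := AlgL.of_commute hL hra
    -- bound on r
    have haax : ∀ x : H, (inner ℂ (a x) x).re = (d ^ 2)⁻¹ * ‖D x‖ ^ 2 - 1 / 2 * ‖x‖ ^ 2 := by
      intro x
      have e1 : a x = N x - ((1 / 2 : ℝ) : ℂ) • x := rfl
      rw [e1, inner_sub_left, inner_smul_left, Complex.conj_ofReal, Complex.sub_re,
        Complex.re_ofReal_mul, hNin, Complex.ofReal_re, norm_sq_re x]
    have hrr : ∀ x, ‖r (r x)‖ ^ 2 ≤ ‖r x‖ ^ 2 := by
      intro x
      -- `‖r (r x)‖^2 = ⟪a (r x), r x⟫` since `k r = 0`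
      have hk : k (r x) = 0 := op_congr hkr x
      have h1 : (inner ℂ (a (r x)) (r x)).re = ‖r (r x)‖ ^ 2 := by
        rw [hax, hk, sub_zero, sa_inner hr, norm_sq_re]
      rw [haax] at h1
      have h2 : ‖D (r x)‖ ^ 2 ≤ d ^ 2 * ‖r x‖ ^ 2 := by
        rw [← mul_pow]
        exact pow_le_pow_left₀ (norm_nonneg _) (D.le_opNorm _) 2
      have h3 : (d ^ 2)⁻¹ * ‖D (r x)‖ ^ 2 ≤ ‖r x‖ ^ 2 := by
        rw [inv_mul_le_iff₀ (by positivity)]
        exact h2
      have h4 := sq_nonneg ‖r x‖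
      linarith
    have hrne : r ≠ 0 := by
      intro h0
      have h1 : ∀ x, ‖D x‖ ^ 2 ≤ (d ^ 2 / 2) * ‖x‖ ^ 2 := by
        intro x
        have h2 : (inner ℂ (a x) x).re ≤ 0 := by
          rw [hax, h0]
          simp only [zero_apply, zero_sub, inner_neg_left, Complex.neg_re]
          linarith [hk0 x]
        rw [haax] at h2
        have h3 : (d ^ 2)⁻¹ * ‖D x‖ ^ 2 ≤ 1 / 2 * ‖x‖ ^ 2 := by linarith
        rw [inv_mul_le_iff₀ (by positivity)] at h3
        linarith
      have h2 : d ≤ Real.sqrt (d ^ 2 / 2) := by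
        refine D.opNorm_le_bound (Real.sqrt_nonneg _) fun x => ?_
        refine le_of_sq_le_sq ?_ (by positivity)
        rw [mul_pow, Real.sq_sqrt (by positivity)]
        exact h1 x
      have h3 : d ^ 2 ≤ d ^ 2 / 2 := by
        have := pow_le_pow_left₀ hd0.le h2 2
        rwa [Real.sq_sqrt (by positivity)] at this
      have : 0 < d ^ 2 := by positivity
      linarith
    set G₁ : H →L[ℂ] H := ((1 / 2 : ℝ) : ℂ) • 1 - r * r with hG1
    have hG1n : ‖G₁‖ ≤ 1 / 2 := by
      refine ContinuousLinearMap.opNorm_le_bound _ (by norm_num) fun x => ?_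
      refine le_of_sq_le_sq ?_ (by positivity)
      have e1 : G₁ x = ((1 / 2 : ℝ) : ℂ) • x - r (r x) := rfl
      have e2 : ‖((1 / 2 : ℝ) : ℂ) • x - r (r x)‖ ^ 2 = (1 / 4) * ‖x‖ ^ 2 - ‖r x‖ ^ 2 +
          ‖r (r x)‖ ^ 2 := by
        have h1 := @norm_sub_sq ℂ H _ _ _ (((1 / 2 : ℝ) : ℂ) • x) (r (r x))
        have h2 : RCLike.re (inner ℂ (((1 / 2 : ℝ) : ℂ) • x) (r (r x))) = 1 / 2 * ‖r x‖ ^ 2 := by
          rw [inner_smul_left, Complex.conj_ofReal, ← sa_inner hr, norm_sq_re (r x)]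
          exact Complex.re_ofReal_mul _ _
        rw [h1, h2, norm_smul, Complex.norm_real, mul_pow]
        norm_num
        ring
      rw [e1, e2, mul_pow]
      have := hrr x
      norm_num
      linarith
    -- the identity
    set G := G₁ - B * (X - D) with hG
    have hBA : B ∈ AlgL L := AlgL.of_commute hL hBc
    have hDA : D ∈ AlgL L := AlgL.of_commute hL hD
    have hGA : G ∈ AlgL L := by
      refine AlgL.sub_mem (AlgL.sub_mem (AlgL.smul_mem _ (AlgL.one_mem hL)) (AlgL.mul_mem hrA hrA))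
        (AlgL.mul_mem hBA (AlgL.sub_mem hX.1 hDA))
    have hBn : ‖B‖ ≤ d⁻¹ := by
      rw [hB, norm_smul, norm_star, ← hd]
      have : ‖((d ^ 2)⁻¹ : ℂ)‖ = (d ^ 2)⁻¹ := by
        rw [norm_inv, norm_pow, Complex.norm_real, Real.norm_of_nonneg hd0.le]
      rw [this]
      apply le_of_eq
      field_simp
    have hGn : ‖G‖ < 1 := by
      have h1 : ‖B * (X - D)‖ ≤ d⁻¹ * c := by
        refine (norm_mul_le _ _).trans ?_
        exact mul_le_mul hBn hXD (norm_nonneg _) (by positivity)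
      have h2 : d⁻¹ * c < 1 / 2 := by
        rw [inv_mul_lt_iff₀ hd0]
        linarith
      calc ‖G‖ ≤ ‖G₁‖ + ‖B * (X - D)‖ := norm_sub_le _ _
        _ < 1 := by linarith
    obtain ⟨W, hW, hWG⟩ := neumann hL hGA hGn
    have hid : (1 - G) * r = B * X * r := by
      have h1 : N * r = ((1 / 2 : ℝ) : ℂ) • r + r * r * r := by
        have e1 : N = a + ((1 / 2 : ℝ) : ℂ) • 1 := by
          rw [ha]
          abel
        rw [e1, hark, add_mul, sub_mul, hkr, smul_mul_assoc, one_mul]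
        abel
      have h2 : B * D * r = N * r := rfl
      have e3 : (1 - G) * r = r - G₁ * r + B * X * r - B * D * r := by
        rw [hG]
        noncomm_ring
      rw [e3, h2, h1, hG1, sub_mul, smul_mul_assoc, one_mul]
      have e4 : r = ((1 / 2 : ℝ) : ℂ) • r + ((1 / 2 : ℝ) : ℂ) • r := by
        rw [← add_smul]
        norm_num
      nth_rewrite 1 [e4]
      abel
    have hrad : InRad L r := by
      have e1 : r = W * (B * X) * r := by
        calc r = (W * (1 - G)) * r := by rw [hWG, one_mul]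
          _ = W * ((1 - G) * r) := by rw [mul_assoc]
          _ = _ := by rw [hid]; noncomm_ring
      rw [e1]
      exact ((hX.left hBA).left hW).right hL hrA
    exact hrne (hrad.eq_zero hL hr)
  calc ‖X‖ = ‖(X - D) + D‖ := by rw [sub_add_cancel]
    _ ≤ ‖X - D‖ + ‖D‖ := norm_add_le _ _
    _ ≤ 3 * c := by linarith

end Pool.Agent.CSLRad
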