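import Mathlib
import Pool.Agent.CSLRad.Expect

/-! Suprema of directed families of commuting projections. -/

set_option linter.unusedSectionVars false

namespace Pool.Agent.CSLRad

open Finset Filter Topology

variable {H : Type*} [NormedAddCommGroup H] [InnerProductSpace ℂ H] [CompleteSpace H]
variable {L : Set (H →L[ℂ] H)}

/-- Supremum of a directed family of projections as a strong limit. -/
lemma sup_proj (S : Set (H →L[ℂ] H)) (hne : S.Nonempty) (hp : ∀ Q ∈ S, IsStarProjection Q)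
    (hdir : ∀ P ∈ S, ∀ Q ∈ S, ∃ R ∈ S, P * R = P ∧ Q * R = Q) :
    ∃ (M : H →L[ℂ] H) (l : Filter S), l.NeBot ∧ (∀ Q ∈ S, Q * M = Q) ∧
      (∀ Q ∈ S, ∀ᶠ d : S in l, Q * (d : H →L[ℂ] H) = Q) ∧
      ∀ v, Tendsto (fun d : S => (d : H →L[ℂ] H) v) l (𝓝 (M v)) := by
  have : Nonempty S := hne.to_subtype
  let l₀ : Filter S := ⨅ Q : S, 𝓟 {d : S | (Q : H →L[ℂ] H) * d = Q}
  have hl₀ : l₀.NeBot := by
    refine iInf_neBot_of_directed ?_ fun Q => ?_
    · intro P Q
      obtain ⟨R, hR, h1, h2⟩ := hdir P P.2 Q Q.2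
      refine ⟨⟨R, hR⟩, ?_, ?_⟩
      · show 𝓟 {d : S | R * (d : H →L[ℂ] H) = R} ≤ 𝓟 {d : S | (P : H →L[ℂ] H) * d = P}
        rw [principal_mono]
        intro d hd
        simp only [Set.mem_ofPred_eq] at hd ⊢
        calc (P : H →L[ℂ] H) * d = P * R * d := by rw [h1]
          _ = P * (R * d) := by rw [mul_assoc]
          _ = P := by rw [hd, h1]
      · show 𝓟 {d : S | R * (d : H →L[ℂ] H) = R} ≤ 𝓟 {d : S | (Q : H →L[ℂ] H) * d = Q}
        rw [principal_mono]
        intro d hd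
        simp only [Set.mem_ofPred_eq] at hd ⊢
        calc (Q : H →L[ℂ] H) * d = Q * R * d := by rw [h2]
          _ = Q * (R * d) := by rw [mul_assoc]
          _ = Q := by rw [hd, h2]
    · rw [principal_neBot_iff]
      exact ⟨Q, (hp Q Q.2).isIdempotentElem.eq⟩
  set U : Ultrafilter S := Ultrafilter.of l₀ with hU
  have hUle : (U : Filter S) ≤ l₀ := Ultrafilter.of_le l₀
  have hev : ∀ Q ∈ S, ∀ᶠ d : S in (U : Filter S), Q * (d : H →L[ℂ] H) = Q := by
    intro Q hQ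
    have h1 : ∀ᶠ d : S in l₀, Q * (d : H →L[ℂ] H) = Q :=
      (iInf_le (fun Q : S => 𝓟 {d : S | (Q : H →L[ℂ] H) * d = Q}) ⟨Q, hQ⟩) (mem_principal_self _)
    exact h1.filter_mono hUle
  obtain ⟨M, hM, _⟩ := exists_wotlim U (fun d : S => (d : H →L[ℂ] H)) 1 zero_le_one
    (fun d => proj_opNorm_le (hp d d.2))
  have hQM : ∀ Q ∈ S, Q * M = Q := by
    intro Q hQ
    ext ξ
    rw [mul_apply_eq_comp]
    have h1 : WTendsto (fun d : S => Q ((d : H →L[ℂ] H) ξ)) U (Q (M ξ)) := (hM ξ).map Q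
    refine h1.unique ((wtendsto_const (Q ξ) _).congr' ?_)
    filter_upwards [hev Q hQ] with d hd
    have := op_congr hd ξ
    rw [mul_apply_eq_comp] at this
    exact this.symm
  have hconj : ∀ v, inner ℂ (M v) (M v) = (starRingEnd ℂ) (inner ℂ (M v) v) := by
    intro v
    have h1 : Tendsto (fun d : S => inner ℂ ((d : H →L[ℂ] H) v) (M v)) U
      (𝓝 (inner ℂ (M v) (M v))) := hM v (M v)
    have h2 : Tendsto (fun d : S => inner ℂ ((d : H →L[ℂ] H) v) (M v)) U
        (𝓝 ((starRingEnd ℂ) (inner ℂ (M v) v))) := by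
      have h3 : Tendsto (fun d : S => (starRingEnd ℂ) (inner ℂ ((d : H →L[ℂ] H) v) v)) U
        (𝓝 ((starRingEnd ℂ) (inner ℂ (M v) v))) :=
        (Complex.continuous_conj.tendsto _).comp (hM v v)
      refine h3.congr fun d => ?_
      rw [inner_conj_symm, proj_inner (hp d d.2), ← mul_apply_eq_comp, hQM d d.2]
    exact tendsto_nhds_unique h1 h2
  have hnorm : ∀ v, ‖M v‖ ^ 2 = (inner ℂ (M v) v).re := by
    intro v
    rw [norm_sq_re, hconj, Complex.conj_re]
  refine ⟨M, U, inferInstance, hQM, hev, fun v => ?_⟩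
  rw [tendsto_iff_norm_sub_tendsto_zero]
  have h1 : Tendsto (fun d : S => ‖(d : H →L[ℂ] H) v - M v‖ ^ 2) U (𝓝 0) := by
    have e : ∀ d : S, ‖(d : H →L[ℂ] H) v - M v‖ ^ 2 = (inner ℂ ((d : H →L[ℂ] H) v) v).re -
        2 * (inner ℂ ((d : H →L[ℂ] H) v) (M v)).re + ‖M v‖ ^ 2 := by
      intro d
      have := @norm_sub_sq ℂ H _ _ _ ((d : H →L[ℂ] H) v) (M v)
      rw [this, proj_norm_sq (hp d d.2)]
      rfl
    simp only [e]
    have h2 : Tendsto (fun d : S => (inner ℂ ((d : H →L[ℂ] H) v) v).re -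
        2 * (inner ℂ ((d : H →L[ℂ] H) v) (M v)).re + ‖M v‖ ^ 2) U
        (𝓝 ((inner ℂ (M v) v).re - 2 * (inner ℂ (M v) (M v)).re + ‖M v‖ ^ 2)) :=
      (((Complex.continuous_re.tendsto _).comp (hM v v)).sub
        (((Complex.continuous_re.tendsto _).comp (hM v (M v))).const_mul 2)).add_const _
    have h3 : (inner ℂ (M v) v).re - 2 * (inner ℂ (M v) (M v)).re + ‖M v‖ ^ 2 = 0 := by
      rw [← hnorm, ← norm_sq_re]
      ring
    rw [h3] at h2
    exact h2
  have h2 := (Real.continuous_sqrt.tendsto _).comp h1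
  rw [Real.sqrt_zero] at h2
  refine h2.congr fun d => ?_
  simp only [Function.comp_apply]
  rw [Real.sqrt_sq (norm_nonneg _)]

/-- A prime filter in `L`. -/
structure PF (L F : Set (H →L[ℂ] H)) : Prop where
  sub : F ⊆ L
  one : (1 : H →L[ℂ] H) ∈ F
  zero : (0 : H →L[ℂ] H) ∉ F
  inf : ∀ P ∈ F, ∀ Q ∈ F, P * Q ∈ F
  up : ∀ P ∈ F, ∀ Q ∈ L, P * Q = P → Q ∈ F
  prime : ∀ P ∈ L, ∀ Q ∈ L, P + Q - P * Q ∈ F → P ∈ F ∨ Q ∈ F

/-- Dichotomy for the intervals of a prime filter. -/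
lemma small_or_atom (hL : IsPL L) (hSOT : SOTClosed L) {F : Set (H →L[ℂ] H)} (hF : PF L F) :
    (∃ P ∈ F, ∃ Q ∈ L, Q ∉ F ∧ ∀ M ∈ L, (M ∈ F → P * M = P) ∧ (M ∉ F → M * Q = M)) ∨
    (∀ P ∈ F, ∀ Q ∈ L, Q ∉ F → ∀ (V : Finset H) (τ : ℝ), 0 < τ → ∃ P' ∈ F, ∃ Q' ∈ L, Q' ∉ F ∧
      P' * P = P' ∧ Q * Q' = Q ∧ ∀ v ∈ V, ‖(P' * (1 - Q')) v‖ ≤ τ) := by
  have hmul : ∀ P ∈ L, ∀ Q ∈ L, P * (P + Q - P * Q) = P := by
    intro P hP Q hQ
    rw [mul_sub, mul_add, ← mul_assoc, (hL.proj P hP).isIdempotentElem.eq]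
    abel
  have hmul' : ∀ P ∈ L, ∀ Q ∈ L, Q * (P + Q - P * Q) = Q := by
    intro P hP Q hQ
    have h1 := hmul Q hQ P hP
    have : P + Q - P * Q = Q + P - Q * P := by
      rw [hL.comm P hP Q hQ]
      abel
    rw [this, h1]
  obtain ⟨Mm, l, hl, hm1, hm2, hm3⟩ := sup_proj {Q | Q ∈ L ∧ Q ∉ F} ⟨0, hL.zero_mem, hF.zero⟩
    (fun Q hQ => hL.proj Q hQ.1) (by
      rintro P ⟨hP, hPF⟩ Q ⟨hQ, hQF⟩
      refine ⟨P + Q - P * Q, ⟨hL.sup_mem P hP Q hQ, fun h => ?_⟩, hmul P hP Q hQ,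
        hmul' P hP Q hQ⟩
      rcases hF.prime P hP Q hQ h with h | h
      · exact hPF h
      · exact hQF h)
  obtain ⟨M', l', hl', hp1, hp2, hp3⟩ := sup_proj {R | 1 - R ∈ F}
    ⟨0, by simpa using hF.one⟩ (fun R hR => by
      have := (hL.proj _ (hF.sub hR)).one_sub
      simpa using this) (by
      intro P hP Q hQ
      have hP' := hF.sub hP
      have hQ' := hF.sub hQ
      refine ⟨1 - (1 - P) * (1 - Q), by simpa using hF.inf _ hP _ hQ, ?_, ?_⟩
      · have h0 : P * (1 - P) = 0 := by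
          have h1 := (hL.proj _ hP').isIdempotentElem.eq
          have : P * (1 - P) = (1 - P) - (1 - P) * (1 - P) := by noncomm_ring
          rw [this, h1, sub_self]
        rw [mul_sub, mul_one, ← mul_assoc, h0, zero_mul, sub_zero]
      · have h0 : Q * (1 - Q) = 0 := by
          have h1 := (hL.proj _ hQ').isIdempotentElem.eq
          have : Q * (1 - Q) = (1 - Q) - (1 - Q) * (1 - Q) := by noncomm_ring
          rw [this, h1, sub_self]
        rw [hL.comm _ hP' _ hQ', mul_sub, mul_one, ← mul_assoc, h0, zero_mul, sub_zero])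
  have hMmL : Mm ∈ L := hSOT.mem (l := l) (Eventually.of_forall fun d => d.2.1) hm3
  set Mp : H →L[ℂ] H := 1 - M' with hMp
  have hMpL : Mp ∈ L := by
    refine hSOT.mem (l := l') (N := fun d : {R : H →L[ℂ] H | 1 - R ∈ F} =>
      1 - (d : H →L[ℂ] H)) (Eventually.of_forall fun d => hF.sub d.2) fun v => ?_
    simp only [hMp, sub_apply]
    exact tendsto_const_nhds.sub (hp3 v)
  have hpF : ∀ M ∈ F, Mp * M = Mp := by
    intro M hM
    have h1 := hp1 (1 - M) (by simpa using hM)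
    have h2 : (1 - M) * Mp = 0 := by
      rw [hMp, mul_sub, mul_one, h1, sub_self]
    rw [sub_mul, one_mul, sub_eq_zero] at h2
    rw [hL.comm _ hMpL _ (hF.sub hM)]
    exact h2.symm
  have hmF : ∀ M ∈ L, M ∉ F → M * Mm = M := fun M hM hMF => hm1 M ⟨hM, hMF⟩
  by_cases h0 : Mp * (1 - Mm) = 0
  · right
    intro P hP Q hQ hQF V τ hτ
    have e1 : ∀ᶠ d : {Q : H →L[ℂ] H | Q ∈ L ∧ Q ∉ F} in l, ∀ v ∈ V,
        ‖(d : H →L[ℂ] H) v - Mm v‖ < τ / 2 := by
      rw [Finset.eventually_all]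
      intro v _
      have := (tendsto_iff_norm_sub_tendsto_zero.mp (hm3 v))
      exact this.eventually (gt_mem_nhds (by linarith))
    have e2 : ∀ᶠ d : {R : H →L[ℂ] H | 1 - R ∈ F} in l', ∀ v ∈ V,
        ‖(d : H →L[ℂ] H) v - M' v‖ < τ / 2 := by
      rw [Finset.eventually_all]
      intro v _
      have := (tendsto_iff_norm_sub_tendsto_zero.mp (hp3 v))
      exact this.eventually (gt_mem_nhds (by linarith))
    obtain ⟨⟨Q', hQ', hQ'F⟩, hd1, hd2⟩ := (e1.and (hm2 Q ⟨hQ, hQF⟩)).exists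
    obtain ⟨⟨R, hR⟩, hd3, hd4⟩ := (e2.and (hp2 (1 - P) (by simpa using hP))).exists
    simp only at hd1 hd2 hd3 hd4
    set P' := 1 - R with hP'
    have hP'F : P' ∈ F := hR
    have hP'L := hF.sub hP'F
    refine ⟨P', hP'F, Q', hQ', hQ'F, ?_, hd2, fun v hv => ?_⟩
    · have h1 : (1 - P) * P' = 0 := by
        rw [hP', mul_sub, mul_one, hd4, sub_self]
      rw [sub_mul, one_mul, sub_eq_zero] at h1
      rw [hL.comm _ hP'L _ (hF.sub hP)]
      exact h1.symm
    · have h1 : Mp = Mp * Mm := by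
        rw [mul_sub, mul_one, sub_eq_zero] at h0
        exact h0
      have h2 : Mm * Q' = Q' := by
        rw [hL.comm _ hMmL _ hQ', hmF Q' hQ' hQ'F]
      have h3 : P' * (1 - Q') = Mp * (Mm - Q') + (1 - Q') * (P' - Mp) := by
        have k1 : Mp * (Mm - Q') = Mp * (1 - Q') := by
          calc Mp * (Mm - Q') = Mp * (Mm - Mm * Q') := by rw [h2]
            _ = (Mp * Mm) * (1 - Q') := by noncomm_ring
            _ = _ := by rw [← h1]
        have k2 : (1 - Q') * (P' - Mp) = (P' - Mp) * (1 - Q') := by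
          have c1 := hL.comm _ hQ' _ hP'L
          have c2 := hL.comm _ hQ' _ hMpL
          calc (1 - Q') * (P' - Mp) = P' - Mp - (Q' * P' - Q' * Mp) := by noncomm_ring
            _ = P' - Mp - (P' * Q' - Mp * Q') := by rw [c1, c2]
            _ = _ := by noncomm_ring
        rw [k1, k2]
        noncomm_ring
      rw [h3, add_apply, mul_apply_eq_comp, mul_apply_eq_comp]
      refine (norm_add_le _ _).trans ?_
      have b1 : ‖Mp ((Mm - Q') v)‖ ≤ τ / 2 := by
        refine (proj_norm_le (hL.proj _ hMpL) _).trans ?_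
        rw [sub_apply, norm_sub_rev]
        exact (hd1 v hv).le
      have b2 : ‖(1 - Q') ((P' - Mp) v)‖ ≤ τ / 2 := by
        refine (proj_norm_le (hL.proj _ hQ').one_sub _).trans ?_
        have : (P' - Mp) v = -(R v - M' v) := by
          rw [hP', hMp]
          simp only [sub_apply, one_apply_eq_self]
          abel
        rw [this, norm_neg]
        exact (hd3 v hv).le
      linarith
  · left
    refine ⟨Mp, ?_, Mm, hMmL, ?_, fun M hM => ⟨fun h => hpF M h, fun h => hmF M hM h⟩⟩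
    · by_contra hcon
      have := hmF Mp hMpL hcon
      apply h0
      rw [mul_sub, mul_one, this, sub_self]
    · intro hcon
      have := hpF Mm hcon
      apply h0
      rw [mul_sub, mul_one, this, sub_self]

end Pool.Agent.CSLRad
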