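import Mathlib
import Pool.Agent.CSLRad.Sup

/-! Gluing: an element of the radical is uniformly quasinilpotent on some interval. -/

set_option linter.unusedSectionVars false

namespace Pool.Agent.CSLRad

open Finset Filter Topology

variable {H : Type*} [NormedAddCommGroup H] [InnerProductSpace ℂ H] [CompleteSpace H]
variable {L : Set (H →L[ℂ] H)}

lemma specRad_zero {X : H →L[ℂ] H} (hunit : ∀ c : ℂ, IsUnit (1 - c • X)) :
    spectralRadius ℂ X = 0 := by
  rw [spectralRadius]
  simp only [ENNReal.iSup_eq_zero]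
  intro z hz
  by_contra hne
  have hz0 : z ≠ 0 := by
    rintro rfl
    simp at hne
  have : z ∉ spectrum ℂ X := by
    rw [spectrum.notMem_iff]
    have h1 := (hunit z⁻¹)
    have h2 : algebraMap ℂ (H →L[ℂ] H) z - X = (Units.mk0 z hz0) • (1 - z⁻¹ • X) := by
      rw [Units.smul_def, Units.val_mk0, smul_sub, smul_smul, mul_inv_cancel₀ hz0, one_smul,
        Algebra.algebraMap_eq_smul_one]
    rw [h2]
    exact h1.smul _
  exact this hz

lemma InRad.unit (hL : IsPL L) {X : H →L[ℂ] H} (hX : InRad L X) (c : ℂ) :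
    IsUnit (1 - c • X) := by
  obtain ⟨B, hB, h⟩ := hX.2 (c • 1) (AlgL.smul_mem c (AlgL.one_mem hL))
  rw [smul_mul_assoc, one_mul] at h
  obtain ⟨B', _, h'⟩ := hX.2 ((-c) • B) (AlgL.smul_mem _ hB)
  have e : 1 - (-c) • B * X = B := by
    have h2 : B * (1 - c • X) = B - c • (B * X) := by
      rw [mul_sub, mul_one, mul_smul_comm]
    rw [h2] at h
    rw [smul_mul_assoc, neg_smul, ← h]
    abel
  rw [e] at h'
  have e2 : B' = 1 - c • X := by
    calc B' = B' * (B * (1 - c • X)) := by rw [h, mul_one]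
      _ = (B' * B) * (1 - c • X) := by rw [mul_assoc]
      _ = 1 - c • X := by rw [h', one_mul]
  refine ⟨⟨1 - c • X, B, ?_, h⟩, rfl⟩
  rw [← e2]
  exact h'

lemma InRad.quasi (hL : IsPL L) {X : H →L[ℂ] H} (hX : InRad L X) {c : ℝ} (hc : 0 < c) :
    ∃ n : ℕ, ‖X ^ (n + 1)‖ ≤ c ^ (n + 1) := by
  have h0 := specRad_zero (hX.unit hL)
  have h1 := spectrum.pow_norm_pow_one_div_tendsto_nhds_spectralRadius X
  rw [h0] at h1
  have h2 : ∀ᶠ n : ℕ in atTop, ENNReal.ofReal (‖X ^ n‖ ^ (1 / n : ℝ)) < ENNReal.ofReal c :=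
    h1.eventually (gt_mem_nhds (by simpa using hc))
  obtain ⟨n, hn, hn1⟩ := (h2.and (eventually_ge_atTop 1)).exists
  refine ⟨n - 1, ?_⟩
  have e : n - 1 + 1 = n := by omega
  rw [e]
  have h3 : ‖X ^ n‖ ^ (1 / n : ℝ) < c := by
    exact (ENNReal.ofReal_lt_ofReal_iff hc).mp hn
  have hn0 : (n : ℝ) ≠ 0 := by
    have : n ≠ 0 := by omega
    exact_mod_cast this
  have h4 : (‖X ^ n‖ ^ (1 / n : ℝ)) ^ n = ‖X ^ n‖ := by
    rw [← Real.rpow_natCast, ← Real.rpow_mul (norm_nonneg _), one_div, inv_mul_cancel₀ hn0,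
      Real.rpow_one]
  rw [← h4]
  exact pow_le_pow_left₀ (by positivity) h3.le n

/-- Semi-invariance of intervals. -/
lemma semi_inv {P Q A T : H →L[ℂ] H} (hL : IsPL L) (hP : P ∈ L) (hQ : Q ∈ L) (hA : A ∈ AlgL L)
    (hT : T ∈ AlgL L) : (P * (1 - Q)) * (A * T) * (P * (1 - Q)) =
      (P * (1 - Q)) * A * (P * (1 - Q)) * T * (P * (1 - Q)) := by
  have h1 : T * P = P * T * P := AlgL.mul_eq hT hP
  have h2 : (1 - Q) * A * Q = 0 := hA Q hQ
  have h3 : (1 - Q) * A = (1 - Q) * A * (1 - Q) := by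
    rw [mul_sub, mul_one, h2, sub_zero]
  have hc : P * (1 - Q) = (1 - Q) * P := by
    have := hL.comm P hP Q hQ
    rw [mul_sub, sub_mul, this, mul_one, one_mul]
  have hPP := (hL.proj P hP).isIdempotentElem.eq
  calc (P * (1 - Q)) * (A * T) * (P * (1 - Q))
      = P * ((1 - Q) * A) * (T * P) * (1 - Q) := by noncomm_ring
    _ = P * ((1 - Q) * A * (1 - Q)) * (P * T * P) * (1 - Q) := by rw [← h3, ← h1]
    _ = P * (1 - Q) * A * ((1 - Q) * P) * T * (P * (1 - Q)) := by noncomm_ring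
    _ = _ := by rw [← hc]

lemma semi_inv_pow {P Q A T : H →L[ℂ] H} (hL : IsPL L) (hP : P ∈ L) (hQ : Q ∈ L)
    (hA : A ∈ AlgL L) (hT : T ∈ AlgL L) (n : ℕ) :
    (P * (1 - Q)) * (A * T) ^ n * (P * (1 - Q)) =
      ((P * (1 - Q)) * A * (P * (1 - Q)) * T) ^ n * (P * (1 - Q)) := by
  set E := P * (1 - Q) with hE
  have hEg : BoolGen L E := (BoolGen.of hP).mul (BoolGen.of hQ).cpl
  have hEE : E * E = E := (hEg.proj hL).isIdempotentElem.eq
  have hpow : ∀ n : ℕ, (A * T) ^ n ∈ AlgL L := by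
    intro n
    induction n with
    | zero =>
      rw [pow_zero]
      exact AlgL.one_mem hL
    | succ n ih =>
      rw [pow_succ]
      exact AlgL.mul_mem ih (AlgL.mul_mem hA hT)
  induction n with
  | zero => rw [pow_zero, pow_zero, mul_one, one_mul, hEE]
  | succ n ih =>
    have h1 := semi_inv hL hP hQ (hpow n) (AlgL.mul_mem hA hT)
    have h2 := semi_inv hL hP hQ hA hT
    rw [← hE] at h1 h2
    rw [pow_succ, h1, pow_succ]
    calc E * (A * T) ^ n * E * (A * T) * E = (E * (A * T) ^ n * E) * (E * (A * T) * E) := by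
          have : (E * (A * T) ^ n * E) * (E * (A * T) * E) =
            E * (A * T) ^ n * (E * E) * (A * T) * E := by noncomm_ring
          rw [this, hEE]
      _ = ((E * A * E * T) ^ n * E) * (E * A * E * T * E) := by rw [ih, h2]
      _ = (E * A * E * T) ^ n * ((E * E) * A * E * T) * E := by noncomm_ring
      _ = _ := by rw [hEE]

lemma cmp_pow (E A T : H →L[ℂ] H) (hEE : E * E = E) (n : ℕ) :
    (E * T * E) * (A * (E * T * E)) ^ n = E * T * (E * A * E * T) ^ n * E := by
  induction n with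
  | zero => simp
  | succ n ih =>
    rw [pow_succ, ← mul_assoc, ih, pow_succ]
    calc E * T * (E * A * E * T) ^ n * E * (A * (E * T * E))
        = E * T * (E * A * E * T) ^ n * (E * A * E * T) * E := by noncomm_ring
      _ = _ := by noncomm_ring

/-- Perturbation of a power along a fixed vector. -/
lemma perturb {E A T : H →L[ℂ] H} (hE : IsStarProjection E) (hA : ‖A‖ ≤ 1) (hT : ‖T‖ ≤ 1)
    (K : ℕ) (ξ : H) {c : ℝ} (hc : c < ‖((E * A * E * T) ^ K) (E ξ)‖) :
    ∃ (V : Finset H) (τ : ℝ), 0 < τ ∧ ∀ E' : H →L[ℂ] H, IsStarProjection E' → E' * E = E' →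
      E * E' = E' → (∀ v ∈ V, ‖E' v‖ ≤ τ) → ∀ A' : H →L[ℂ] H, ‖A'‖ ≤ 1 →
      c < ‖((((E - E') * A * (E - E') + E' * A' * E') * T) ^ K) (E ξ)‖ := by
  classical
  set B := E * A * E with hB
  set v : ℕ → H := fun i => ((B * T) ^ i) (E ξ) with hv
  set τ : ℝ := (‖v K‖ - c) / (4 * K + 1) with hτ
  have hτ0 : 0 < τ := div_pos (by simpa [hv, hB] using hc) (by positivity)
  refine ⟨(range K).image (fun i => T (v i)) ∪ (range K).image (fun i => A (E (T (v i)))), τ,
    hτ0, fun E' hE' h1 h2 hV A' hA' => ?_⟩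
  have hEE : E * E = E := hE.isIdempotentElem.eq
  have hE'E' : E' * E' = E' := hE'.isIdempotentElem.eq
  have hd : IsStarProjection (E - E') := by
    constructor
    · show (E - E') * (E - E') = E - E'
      rw [sub_mul, mul_sub, mul_sub, hEE, h1, h2, hE'E']
      abel
    · exact hE.isSelfAdjoint.sub hE'.isSelfAdjoint
  have ho1 : (E - E') * E' = 0 := by rw [sub_mul, h2, hE'E', sub_self]
  have ho2 : E' * (E - E') = 0 := by rw [mul_sub, h1, hE'E', sub_self]
  set A1 := (E - E') * A * (E - E') + E' * A' * E' with hA1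
  have hA1n : ‖A1‖ ≤ 1 := by
    have e : A1 = ∑ b : Bool, (if b then E - E' else E') * (if b then A else A') *
        (if b then E - E' else E') := by
      simp [hA1]
    rw [e]
    have hpr : ∀ b : Bool, IsStarProjection (if b then E - E' else E') := by
      intro b
      cases b
      · simpa using hE'
      · simpa using hd
    have hor : ∀ b c : Bool, b ≠ c → (if b then E - E' else E') *
        (if c then E - E' else E') = 0 := by
      intro b c hbc
      cases b <;> cases c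
      · exact absurd rfl hbc
      · simpa using ho2
      · simpa using ho1
      · exact absurd rfl hbc
    refine norm_block_le (fun b : Bool => if b then E - E' else E')
      (fun b : Bool => if b then E - E' else E') (fun b : Bool => if b then A else A')
      hpr hpr hor hor zero_le_one univ ?_
    intro b _
    have hXn : ‖(if b then A else A' : H →L[ℂ] H)‖ ≤ 1 := by
      cases b
      · simpa using hA'
      · simpa using hA
    calc _ ≤ ‖(if b then E - E' else E' : H →L[ℂ] H)‖ * ‖(if b then A else A' : H →L[ℂ] H)‖ *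
          ‖(if b then E - E' else E' : H →L[ℂ] H)‖ :=
        (norm_mul_le _ _).trans (mul_le_mul_of_nonneg_right (norm_mul_le _ _) (norm_nonneg _))
      _ ≤ 1 * 1 * 1 := by
        gcongr
        · exact proj_opNorm_le (hpr b)
        · exact proj_opNorm_le (hpr b)
      _ = 1 := by norm_num
  have hstepn : ∀ x : H, ‖A1 (T x)‖ ≤ ‖x‖ := by
    intro x
    calc ‖A1 (T x)‖ ≤ 1 * ‖T x‖ := A1.le_of_opNorm_le hA1n _
      _ = ‖T x‖ := one_mul _
      _ ≤ 1 * ‖x‖ := T.le_of_opNorm_le hT _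
      _ = ‖x‖ := one_mul _
  have hdiff : ∀ i < K, ‖(A1 - B) (T (v i))‖ ≤ 4 * τ := by
    intro i hi
    set w := T (v i) with hw
    have hw1 : ‖E' w‖ ≤ τ := hV _ (mem_union_left _ (mem_image.mpr ⟨i, mem_range.mpr hi, rfl⟩))
    have hw2 : ‖E' (A (E w))‖ ≤ τ :=
      hV _ (mem_union_right _ (mem_image.mpr ⟨i, mem_range.mpr hi, rfl⟩))
    have e : (A1 - B) w = -(E' (A (E w))) - E (A (E' w)) + E' (A (E' w)) + E' (A' (E' w)) := by
      have e1 : A1 - B = -(E' * A * E) - E * A * E' + E' * A * E' + E' * A' * E' := by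
        rw [hA1, hB]
        noncomm_ring
      have e2 := op_congr e1 w
      rw [e2]
      rfl
    have hEn : ∀ x, ‖E x‖ ≤ ‖x‖ := proj_norm_le hE
    have hE'n : ∀ x, ‖E' x‖ ≤ ‖x‖ := proj_norm_le hE'
    have hAn : ∀ x, ‖A x‖ ≤ ‖x‖ := fun x => by simpa using A.le_of_opNorm_le hA x
    have hA'n : ∀ x, ‖A' x‖ ≤ ‖x‖ := fun x => by simpa using A'.le_of_opNorm_le hA' x
    rw [e]
    have b1 : ‖E (A (E' w))‖ ≤ τ := ((hEn _).trans (hAn _)).trans hw1
    have b2 : ‖E' (A (E' w))‖ ≤ τ := ((hE'n _).trans (hAn _)).trans hw1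
    have b3 : ‖E' (A' (E' w))‖ ≤ τ := ((hE'n _).trans (hA'n _)).trans hw1
    calc _ ≤ ‖-(E' (A (E w))) - E (A (E' w)) + E' (A (E' w))‖ + ‖E' (A' (E' w))‖ := norm_add_le _ _
      _ ≤ ‖-(E' (A (E w))) - E (A (E' w))‖ + ‖E' (A (E' w))‖ + ‖E' (A' (E' w))‖ := by
          gcongr
          exact norm_add_le _ _
      _ ≤ ‖-(E' (A (E w)))‖ + ‖E (A (E' w))‖ + ‖E' (A (E' w))‖ + ‖E' (A' (E' w))‖ := by
          gcongr
          exact norm_sub_le _ _
      _ ≤ 4 * τ := by
          rw [norm_neg]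
          linarith
  have hvs : ∀ i, v (i + 1) = B (T (v i)) := by
    intro i
    simp only [hv]
    rw [pow_succ', mul_apply_eq_comp, mul_apply_eq_comp]
  set z : ℕ → H := fun i => ((A1 * T) ^ i) (E ξ) with hz
  have hzs : ∀ i, z (i + 1) = A1 (T (z i)) := by
    intro i
    simp only [hz]
    rw [pow_succ', mul_apply_eq_comp, mul_apply_eq_comp]
  have herr : ∀ i ≤ K, ‖z i - v i‖ ≤ i * (4 * τ) := by
    intro i
    induction i with
    | zero =>
      intro _
      simp [hz, hv]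
    | succ i ih =>
      intro hi
      have h3 := ih (by omega)
      have e : z (i + 1) - v (i + 1) = A1 (T (z i - v i)) + (A1 - B) (T (v i)) := by
        rw [hzs, hvs, map_sub, map_sub, sub_apply]
        abel
      rw [e]
      calc _ ≤ ‖A1 (T (z i - v i))‖ + ‖(A1 - B) (T (v i))‖ := norm_add_le _ _
        _ ≤ i * (4 * τ) + 4 * τ := add_le_add ((hstepn _).trans h3) (hdiff i (by omega))
        _ = ((i + 1 : ℕ) : ℝ) * (4 * τ) := by
          push_cast
          ring
  have h4 := herr K le_rfl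
  have h5 : ‖v K‖ ≤ ‖z K‖ + ‖z K - v K‖ := by
    calc ‖v K‖ = ‖z K - (z K - v K)‖ := by rw [sub_sub_cancel]
      _ ≤ _ := norm_sub_le _ _
  have h6 : (4 * (K : ℝ) + 1) * τ = ‖v K‖ - c := by
    rw [hτ]
    field_simp
  have h7 : c < ‖z K‖ := by nlinarith
  exact h7

/-- Gluing operators along a decreasing sequence of projections. -/
lemma glue_ops (hL : IsPL L) {E A : ℕ → H →L[ℂ] H} (hE : ∀ n, BoolGen L (E n))
    (h1 : ∀ n, E (n + 1) * E n = E (n + 1)) (hA : ∀ n, A n ∈ AlgL L) (hAn : ∀ n, ‖A n‖ ≤ 1) :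
    ∃ A' ∈ AlgL L, ‖A'‖ ≤ 1 ∧ ∀ n, E n * A' * E n =
      (E n - E (n + 1)) * A n * (E n - E (n + 1)) + E (n + 1) * A' * E (n + 1) := by
  have h2 : ∀ n, E n * E (n + 1) = E (n + 1) := fun n => by
    rw [(hE (n + 1)).comm hL (hE n), h1]
  have hEE : ∀ n, E n * E n = E n := fun n => ((hE n).proj hL).isIdempotentElem.eq
  have hle : ∀ m n, m ≤ n → E n * E m = E n := by
    intro m n hmn
    induction n, hmn using Nat.le_induction with
    | base => exact hEE m
    | succ n _ ih =>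
      calc E (n + 1) * E m = E (n + 1) * E n * E m := by rw [h1]
        _ = E (n + 1) * (E n * E m) := by rw [mul_assoc]
        _ = E (n + 1) := by rw [ih, h1]
  have hle' : ∀ m n, m ≤ n → E m * E n = E n := by
    intro m n hmn
    rw [(hE n).comm hL (hE m), hle m n hmn]
  set D : ℕ → H →L[ℂ] H := fun n => E n - E (n + 1) with hD
  have hDg : ∀ n, BoolGen L (D n) := by
    intro n
    have : D n = E n * (1 - E (n + 1)) := by
      rw [hD, mul_sub, mul_one, h2]
    rw [this]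
    exact (hE n).mul (hE (n + 1)).cpl
  have hDp : ∀ n, IsStarProjection (D n) := fun n => (hDg n).proj hL
  have hED : ∀ n m, n ≤ m → E n * D m = D m := by
    intro n m h
    simp only [hD]
    rw [mul_sub, hle' n m h, hle' n (m + 1) (by omega)]
  have hED0 : ∀ n m, m < n → E n * D m = 0 := by
    intro n m h
    simp only [hD]
    rw [mul_sub, hle m n h.le, hle (m + 1) n h, sub_self]
  have hDE : ∀ n m, n ≤ m → D m * E n = D m := by
    intro n m h
    rw [(hE n).comm hL (hDg m), hED n m h]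
  have hDE0 : ∀ n m, m < n → D m * E n = 0 := by
    intro n m h
    rw [(hE n).comm hL (hDg m), hED0 n m h]
  have hDo : ∀ n m, n ≠ m → D n * D m = 0 := by
    intro n m h
    rcases lt_or_gt_of_ne h with h | h
    · have e : D n * D m = D n * (E (n + 1) * D m) := by rw [hED (n + 1) m h]
      rw [e, ← mul_assoc, hDE0 (n + 1) n (Nat.lt_succ_self n), zero_mul]
    · have e : D n * D m = D n * (E (m + 1)) * D m := by rw [hDE (m + 1) n h]
      rw [e, mul_assoc, hED0 (m + 1) m (Nat.lt_succ_self m), mul_zero]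
  let X : ℕ → H →L[ℂ] H := fun m => D m * A m * D m
  let W : ℕ → H →L[ℂ] H := fun N => ∑ m ∈ range N, X m
  have hWn : ∀ N, ‖W N‖ ≤ 1 := by
    intro N
    refine norm_block_le D D A hDp hDp hDo hDo zero_le_one _ fun m _ => ?_
    calc ‖D m * A m * D m‖ ≤ ‖D m‖ * ‖A m‖ * ‖D m‖ :=
        (norm_mul_le _ _).trans (mul_le_mul_of_nonneg_right (norm_mul_le _ _) (norm_nonneg _))
      _ ≤ 1 * 1 * 1 := by
        gcongr
        · exact proj_opNorm_le (hDp m)
        · exact hAn m
        · exact proj_opNorm_le (hDp m)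
      _ = 1 := by norm_num
  have hWA : ∀ N, W N ∈ AlgL L := fun N => AlgL.sum_mem _ _ fun m _ =>
    AlgL.mul_mem (AlgL.mul_mem (AlgL.of_gen hL (hDg m)) (hA m)) (AlgL.of_gen hL (hDg m))
  set U : Ultrafilter ℕ := Ultrafilter.of atTop with hU
  have hUle : (U : Filter ℕ) ≤ atTop := Ultrafilter.of_le _
  obtain ⟨A', hA', hA'n⟩ := exists_wotlim U W 1 zero_le_one hWn
  refine ⟨A', ?_, hA'n, ?_⟩
  · intro P hP
    ext ξ
    simp only [mul_apply_eq_comp, zero_apply]
    have k1 : WTendsto (fun N => (1 - P) (W N (P ξ))) U ((1 - P) (A' (P ξ))) :=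
      (hA' (P ξ)).map (1 - P)
    refine k1.unique ((wtendsto_const 0 _).congr' ?_)
    filter_upwards with N
    have := op_congr (hWA N P hP) ξ
    simp only [mul_apply_eq_comp, zero_apply] at this
    exact this.symm
  · intro n
    have hterm : ∀ m, E n * X m * E n - E (n + 1) * X m * E (n + 1) =
        if m = n then X n else 0 := by
      intro m
      simp only [X]
      rcases lt_trichotomy m n with h | h | h
      · rw [if_neg h.ne]
        have k1 := hED0 n m h
        have k2 := hED0 (n + 1) m (by omega)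
        rw [← mul_assoc, ← mul_assoc, k1, ← mul_assoc, ← mul_assoc, k2]
        simp
      · subst h
        rw [if_pos rfl]
        have k1 := hED m m le_rfl
        have k2 := hED0 (m + 1) m (by omega)
        have k3 := hDE m m le_rfl
        rw [← mul_assoc, ← mul_assoc, k1, ← mul_assoc, ← mul_assoc, k2, mul_assoc _ _ (E m), k3]
        simp
      · rw [if_neg h.ne']
        have k1 := hED n m h.le
        have k2 := hED (n + 1) m (by omega)
        have k3 := hDE n m h.le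
        have k4 := hDE (n + 1) m (by omega)
        rw [← mul_assoc, ← mul_assoc, k1, ← mul_assoc, ← mul_assoc, k2, mul_assoc _ _ (E n), k3,
          mul_assoc _ _ (E (n + 1)), k4, sub_self]
    have hfin : ∀ N, n < N → E n * W N * E n = X n + E (n + 1) * W N * E (n + 1) := by
      intro N hN
      have e : E n * W N * E n - E (n + 1) * W N * E (n + 1) = X n := by
        simp only [W]
        rw [mul_sum, sum_mul, mul_sum, sum_mul, ← sum_sub_distrib]
        simp only [hterm]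
        rw [sum_ite_eq' (range N) n (fun _ => X n), if_pos (mem_range.mpr hN)]
      rw [← e]
      abel
    ext ξ
    show E n (A' (E n ξ)) = X n ξ + E (n + 1) (A' (E (n + 1) ξ))
    have k1 : WTendsto (fun N => E n (W N (E n ξ))) U (E n (A' (E n ξ))) :=
      (hA' (E n ξ)).map (E n)
    have k2 : WTendsto (fun N => X n ξ + E (n + 1) (W N (E (n + 1) ξ))) U
        (X n ξ + E (n + 1) (A' (E (n + 1) ξ))) :=
      (wtendsto_const (X n ξ) _).add ((hA' (E (n + 1) ξ)).map (E (n + 1)))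
    refine k1.unique (k2.congr' ?_)
    filter_upwards [hUle (eventually_gt_atTop n)] with N hN
    have := op_congr (hfin N hN) ξ
    exact this.symm

/-- Uniform quasinilpotence on an interval. -/
lemma glue (hL : IsPL L) (hSOT : SOTClosed L) {F : Set (H →L[ℂ] H)} (hF : PF L F)
    {T : H →L[ℂ] H} (hT : InRad L T) (hT1 : ‖T‖ ≤ 1) {δ : ℝ} (hδ : 0 < δ) :
    ∃ P ∈ F, ∃ Q ∈ L, Q ∉ F ∧ ∃ K : ℕ, 1 ≤ K ∧ ∀ A ∈ AlgL L, ‖A‖ ≤ 1 →
      ‖cmp T (P * (1 - Q)) * (A * cmp T (P * (1 - Q))) ^ K‖ ≤ δ ^ (2 * K) := by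
  rcases small_or_atom hL hSOT hF with ⟨P, hP, Q, hQ, hQF, hM⟩ | hsmall
  · -- the atomic case
    have hPL := hF.sub hP
    obtain ⟨E, hE⟩ : ∃ E, E = P * (1 - Q) := ⟨_, rfl⟩
    have hEg : BoolGen L E := by
      rw [hE]
      exact (BoolGen.of hPL).mul (BoolGen.of hQ).cpl
    have hEp := hEg.proj hL
    obtain ⟨X, hX⟩ : ∃ X, X = cmp T E := ⟨_, rfl⟩
    have hXr : InRad L X := by
      rw [hX]
      exact hT.cmp hL hEg
    have hXs : star X ∈ AlgL L := by
      intro M hML
      have e1 : star X = E * star T * E := by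
        rw [hX, cmp, star_mul, star_mul, hEp.isSelfAdjoint.star_eq, mul_assoc]
      rw [e1]
      by_cases hMF : M ∈ F
      · have h2 := (hM M hML).1 hMF
        have h3 : (1 - M) * E = 0 := by
          rw [hE, ← mul_assoc, sub_mul, one_mul, hL.comm M hML P hPL, h2, sub_self, zero_mul]
        calc (1 - M) * (E * star T * E) * M = ((1 - M) * E) * (star T * E * M) := by
              simp only [mul_assoc]
          _ = 0 := by rw [h3, zero_mul]
      · have h2 := (hM M hML).2 hMF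
        have h3 : E * M = 0 := by
          rw [hE, mul_assoc, sub_mul, one_mul, hL.comm Q hQ M hML, h2, sub_self, mul_zero]
        calc (1 - M) * (E * star T * E) * M = ((1 - M) * (E * star T)) * (E * M) := by
              simp only [mul_assoc]
          _ = 0 := by rw [h3, mul_zero]
    have h0 : star X * X = 0 :=
      (hXr.left hXs).eq_zero hL (IsSelfAdjoint.star_mul_self X)
    have hX0 : X = 0 := by
      rwa [CStarRing.star_mul_self_eq_zero_iff] at h0
    refine ⟨P, hP, Q, hQ, hQF, 1, le_rfl, fun A hA hA1 => ?_⟩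
    rw [← hE, ← hX, hX0]
    simp only [zero_mul, norm_zero]
    positivity
  · -- the diffuse case
    by_contra hcon
    push Not at hcon
    have hstep : ∀ (P Q : H →L[ℂ] H), P ∈ F → Q ∈ L → Q ∉ F → ∀ n : ℕ,
        ∃ A ∈ AlgL L, ‖A‖ ≤ 1 ∧ ∃ ξ : H, ‖ξ‖ ≤ 1 ∧ ∃ P' ∈ F, ∃ Q' ∈ L, Q' ∉ F ∧
          P' * P = P' ∧ Q * Q' = Q ∧ ∀ A' : H →L[ℂ] H, ‖A'‖ ≤ 1 →
          δ ^ (2 * (n + 1)) < ‖((((P * (1 - Q) - P' * (1 - Q')) * A *
            (P * (1 - Q) - P' * (1 - Q')) + P' * (1 - Q') * A' * (P' * (1 - Q'))) * T) ^ (n + 1))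
            ((P * (1 - Q)) ξ)‖ := by
      intro P Q hP hQ hQF n
      have hPL := hF.sub hP
      obtain ⟨A, hA, hA1, hbig⟩ := hcon P hP Q hQ hQF (n + 1) (by omega)
      set E := P * (1 - Q) with hE
      have hEg : BoolGen L E := (BoolGen.of hPL).mul (BoolGen.of hQ).cpl
      have hEp := hEg.proj hL
      have h1 : δ ^ (2 * (n + 1)) < ‖(E * A * E * T) ^ (n + 1) * E‖ := by
        have e1 := cmp_pow E A T hEp.isIdempotentElem.eq (n + 1)
        rw [cmp, e1] at hbig
        refine lt_of_lt_of_le hbig ?_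
        calc ‖E * T * (E * A * E * T) ^ (n + 1) * E‖
            = ‖(E * T) * ((E * A * E * T) ^ (n + 1) * E)‖ := by rw [mul_assoc (E * T)]
          _ ≤ ‖E * T‖ * ‖(E * A * E * T) ^ (n + 1) * E‖ := norm_mul_le _ _
          _ ≤ 1 * ‖(E * A * E * T) ^ (n + 1) * E‖ := by
              gcongr
              calc ‖E * T‖ ≤ ‖E‖ * ‖T‖ := norm_mul_le _ _
                _ ≤ 1 * 1 := mul_le_mul (proj_opNorm_le hEp) hT1 (norm_nonneg _) zero_le_one
                _ = 1 := one_mul 1
          _ = _ := one_mul _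
      obtain ⟨ξ, hξ1, hξ2⟩ : ∃ ξ : H, ‖ξ‖ ≤ 1 ∧
          δ ^ (2 * (n + 1)) < ‖((E * A * E * T) ^ (n + 1) * E) ξ‖ := by
        by_contra hno
        push Not at hno
        have : ‖(E * A * E * T) ^ (n + 1) * E‖ ≤ δ ^ (2 * (n + 1)) :=
          ContinuousLinearMap.opNorm_le_of_unit_norm (by positivity) fun ξ hξ => hno ξ hξ.le
        linarith
      rw [mul_apply_eq_comp] at hξ2
      obtain ⟨V, τ, hτ, hV⟩ := perturb hEp hA1 hT1 (n + 1) ξ hξ2
      obtain ⟨P', hP', Q', hQ', hQ'F, hPP, hQQ, hsm⟩ := hsmall P hP Q hQ hQF V τ hτ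
      refine ⟨A, hA, hA1, ξ, hξ1, P', hP', Q', hQ', hQ'F, hPP, hQQ, ?_⟩
      have hP'L := hF.sub hP'
      have hE'g : BoolGen L (P' * (1 - Q')) := (BoolGen.of hP'L).mul (BoolGen.of hQ').cpl
      have e1 : (P' * (1 - Q')) * E = P' * (1 - Q') := by
        have c1 : (1 - Q') * P = P * (1 - Q') := by
          rw [mul_sub, sub_mul, mul_one, one_mul, hL.comm Q' hQ' P hPL]
        have c2 : Q' * Q = Q := by rw [hL.comm Q' hQ' Q hQ, hQQ]
        calc (P' * (1 - Q')) * E = P' * ((1 - Q') * P) * (1 - Q) := by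
              rw [hE]
              noncomm_ring
          _ = (P' * P) * (1 - Q - Q' + Q' * Q) := by
              rw [c1]
              noncomm_ring
          _ = _ := by
              rw [hPP, c2]
              noncomm_ring
      have e2 : E * (P' * (1 - Q')) = P' * (1 - Q') := by
        rw [hE'g.comm hL hEg, e1]
      intro A' hA'
      have := hV (P' * (1 - Q')) (hE'g.proj hL) e1 e2 hsm A' hA'
      exact this
    -- build the sequence
    let St := {x : (H →L[ℂ] H) × (H →L[ℂ] H) // x.1 ∈ F ∧ x.2 ∈ L ∧ x.2 ∉ F}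
    have hstep' : ∀ (x : St) (n : ℕ), ∃ (A : H →L[ℂ] H) (ξ : H) (y : St), A ∈ AlgL L ∧ ‖A‖ ≤ 1 ∧
        ‖ξ‖ ≤ 1 ∧ y.1.1 * x.1.1 = y.1.1 ∧ x.1.2 * y.1.2 = x.1.2 ∧
        ∀ A' : H →L[ℂ] H, ‖A'‖ ≤ 1 →
          δ ^ (2 * (n + 1)) < ‖((((x.1.1 * (1 - x.1.2) - y.1.1 * (1 - y.1.2)) * A *
            (x.1.1 * (1 - x.1.2) - y.1.1 * (1 - y.1.2)) +
              y.1.1 * (1 - y.1.2) * A' * (y.1.1 * (1 - y.1.2))) * T) ^ (n + 1))
            ((x.1.1 * (1 - x.1.2)) ξ)‖ := by
      rintro ⟨⟨P, Q⟩, hP, hQ, hQF⟩ n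
      obtain ⟨A, hA, hA1, ξ, hξ, P', hP', Q', hQ', hQ'F, h1, h2, h3⟩ := hstep P Q hP hQ hQF n
      exact ⟨A, ξ, ⟨(P', Q'), hP', hQ', hQ'F⟩, hA, hA1, hξ, h1, h2, h3⟩
    choose A ξ y hA hA1 hξ hy1 hy2 hbig using hstep'
    let s : ℕ → St := fun n => Nat.rec ⟨(1, 0), hF.one, hL.zero_mem, hF.zero⟩
      (fun n x => y x n) n
    have hs : ∀ n, s (n + 1) = y (s n) n := fun n => rfl
    set E : ℕ → H →L[ℂ] H := fun n => (s n).1.1 * (1 - (s n).1.2) with hE
    have hEg : ∀ n, BoolGen L (E n) := fun n =>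
      (BoolGen.of (hF.sub (s n).2.1)).mul (BoolGen.of (s n).2.2.1).cpl
    have hE1 : ∀ n, E (n + 1) * E n = E (n + 1) := by
      intro n
      have hPL := hF.sub (s n).2.1
      have hP'L := hF.sub (s (n + 1)).2.1
      have hQL := (s n).2.2.1
      have hQ'L := (s (n + 1)).2.2.1
      have k1 : (s (n + 1)).1.1 * (s n).1.1 = (s (n + 1)).1.1 := by
        rw [hs]
        exact hy1 _ _
      have k2 : (s n).1.2 * (s (n + 1)).1.2 = (s n).1.2 := by
        rw [hs]
        exact hy2 _ _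
      have c1 : (1 - (s (n + 1)).1.2) * (s n).1.1 = (s n).1.1 * (1 - (s (n + 1)).1.2) := by
        rw [mul_sub, sub_mul, mul_one, one_mul, hL.comm _ hQ'L _ hPL]
      have c2 : (s (n + 1)).1.2 * (s n).1.2 = (s n).1.2 := by
        rw [hL.comm _ hQ'L _ hQL, k2]
      calc E (n + 1) * E n = (s (n + 1)).1.1 * ((1 - (s (n + 1)).1.2) * (s n).1.1) *
            (1 - (s n).1.2) := by
            simp only [hE]
            noncomm_ring
        _ = ((s (n + 1)).1.1 * (s n).1.1) * (1 - (s n).1.2 - (s (n + 1)).1.2 +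
              (s (n + 1)).1.2 * (s n).1.2) := by
            rw [c1]
            noncomm_ring
        _ = _ := by
            rw [k1, c2]
            simp only [hE]
            noncomm_ring
    obtain ⟨A', hA', hA'1, hglue⟩ := glue_ops hL hEg hE1 (fun n => hA (s n) n)
      (fun n => hA1 (s n) n)
    have hlow : ∀ n, δ ^ (2 * (n + 1)) < ‖(A' * T) ^ (n + 1)‖ := by
      intro n
      have h1 := hbig (s n) n A' hA'1
      have h2 := hglue n
      have h3 := semi_inv_pow hL (hF.sub (s n).2.1) (s n).2.2.1 hA' hT.1 (n + 1)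
      have hEp := (hEg n).proj hL
      have h4 : ((E n * A' * E n * T) ^ (n + 1)) (E n (ξ (s n) n)) =
          (E n * (A' * T) ^ (n + 1) * E n) (ξ (s n) n) := by
        exact (op_congr h3 (ξ (s n) n)).symm
      have h5 : δ ^ (2 * (n + 1)) < ‖((E n * A' * E n * T) ^ (n + 1)) (E n (ξ (s n) n))‖ := by
        rw [h2]
        exact h1
      rw [h4] at h5
      refine lt_of_lt_of_le h5 ?_
      calc _ ≤ ‖E n * (A' * T) ^ (n + 1) * E n‖ * ‖ξ (s n) n‖ := ContinuousLinearMap.le_opNorm _ _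
        _ ≤ ‖E n * (A' * T) ^ (n + 1) * E n‖ * 1 :=
            mul_le_mul_of_nonneg_left (hξ _ _) (norm_nonneg _)
        _ = ‖E n * (A' * T) ^ (n + 1) * E n‖ := mul_one _
        _ ≤ ‖E n‖ * ‖(A' * T) ^ (n + 1)‖ * ‖E n‖ :=
            (norm_mul_le _ _).trans (mul_le_mul_of_nonneg_right (norm_mul_le _ _) (norm_nonneg _))
        _ ≤ 1 * ‖(A' * T) ^ (n + 1)‖ * 1 := by
            gcongr
            · exact proj_opNorm_le hEp
            · exact proj_opNorm_le hEp
        _ = _ := by ring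
    obtain ⟨n, hn⟩ := (hT.left hA').quasi hL (show 0 < δ ^ 2 by positivity)
    have := hlow n
    rw [← pow_mul] at hn
    linarith

end Pool.Agent.CSLRad
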