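import Mathlib
import Pool.Agent.CSLRad.Glue

/-! Elements of the radical are small near every prime filter, and the converse. -/

set_option linter.unusedSectionVars false

namespace Pool.Agent.CSLRad

open Finset Filter Topology

variable {H : Type*} [NormedAddCommGroup H] [InnerProductSpace ℂ H] [CompleteSpace H]
variable {L : Set (H →L[ℂ] H)}

/-- Norm one version of the main inclusion. -/
lemma rad_le_one (hL : IsPL L) (hSOT : SOTClosed L) {F : Set (H →L[ℂ] H)} (hF : PF L F)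
    {T : H →L[ℂ] H} (hT : InRad L T) (hT1 : ‖T‖ ≤ 1) {δ : ℝ} (hδ : 0 < δ) (hδ1 : δ ≤ 1 / 192) :
    ∃ P ∈ F, ∃ Q ∈ L, Q ∉ F ∧ ‖cmp T (P * (1 - Q))‖ ≤ 36864 * δ := by
  obtain ⟨P, hP, Q, hQ, hQF, K, hK, hH⟩ := glue hL hSOT hF hT hT1 hδ
  have hPL := hF.sub hP
  obtain ⟨E, hE⟩ : ∃ E, E = P * (1 - Q) := ⟨_, rfl⟩
  have hEg : BoolGen L E := by
    rw [hE]
    exact (BoolGen.of hPL).mul (BoolGen.of hQ).cpl
  have hEp := hEg.proj hL
  obtain ⟨S, hS⟩ : ∃ S, S = cmp T E := ⟨_, rfl⟩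
  rw [← hE, ← hS] at hH
  have hSr : InRad L S := by
    rw [hS]
    exact hT.cmp hL hEg
  have hS1 : ‖S‖ ≤ 1 := by
    rw [hS, cmp]
    calc ‖E * T * E‖ ≤ ‖E‖ * ‖T‖ * ‖E‖ :=
          (norm_mul_le _ _).trans (mul_le_mul_of_nonneg_right (norm_mul_le _ _) (norm_nonneg _))
      _ ≤ 1 * 1 * 1 := by
          gcongr
          · exact proj_opNorm_le hEp
          · exact proj_opNorm_le hEp
      _ = 1 := by norm_num
  have hδ1' : δ ≤ 1 := hδ1.trans (by norm_num)
  have hQ' := chainQ hL hSOT hSr.1 hK hδ hδ1' hH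
  have hrank := fun p : Part L => rank_bound hL hSr.1 hK (by positivity) hQ' p
  obtain ⟨m, N, hN, hNb⟩ := exists_chain_offdiag hL hSOT hSr.1 hS1
    (show 0 < 2 * (192 * δ) by positivity) (by linarith) hrank
  -- every piece is small
  have hpiece : ∀ j < m, ‖cmp S (dif N j)‖ ≤ 36864 * δ := by
    intro j hj
    have hd := dif_gen hL hN.mem hN.mono j
    have hX : InRad L (cmp S (dif N j)) := hSr.cmp hL hd
    obtain ⟨D, hD1, hD2⟩ := exp_exists hL (show 0 ≤ 4 * (8 * (2 * (192 * δ))) by positivity)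
      (fun p => diag_close p (hNb j hj))
    have := rad_small hL hX hD1 (by positivity) hD2
    calc _ ≤ 3 * (4 * (8 * (2 * (192 * δ)))) := this
      _ = _ := by ring
  -- the piece selected by the filter
  obtain ⟨j, hj, hj1, hj2⟩ : ∃ j < m, N j ∉ F ∧ N (j + 1) ∈ F := by
    by_contra hno
    push Not at hno
    have hall : ∀ j ≤ m, N j ∉ F := by
      intro j
      induction j with
      | zero =>
        intro _
        rw [hN.zero]
        exact hF.zero
      | succ j ih =>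
        intro hj
        exact hno j (by omega) (ih (by omega))
    exact hall m le_rfl (hN.one ▸ hF.one)
  have hNjL := hN.mem j
  refine ⟨P * N (j + 1), hF.inf P hP _ hj2, Q + N j - Q * N j, hL.sup_mem Q hQ _ hNjL,
    fun h => ?_, ?_⟩
  · rcases hF.prime Q hQ _ hNjL h with h | h
    · exact hQF h
    · exact hj1 h
  · have e1 : P * N (j + 1) * (1 - (Q + N j - Q * N j)) = E * dif N j := by
      have c1 : N (j + 1) * (1 - Q) = (1 - Q) * N (j + 1) := by
        rw [mul_sub, sub_mul, mul_one, one_mul, hL.comm _ (hN.mem _) Q hQ]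
      calc P * N (j + 1) * (1 - (Q + N j - Q * N j))
          = P * (N (j + 1) * (1 - Q)) * (1 - N j) := by noncomm_ring
        _ = (P * (1 - Q)) * (N (j + 1) * (1 - N j)) := by
            rw [c1]
            noncomm_ring
        _ = _ := by rw [← hE, ← dif_eq hL hN.mem hN.mono]
    have hd := dif_gen hL hN.mem hN.mono j
    have e2 : cmp T (E * dif N j) = cmp S (dif N j) := by
      rw [cmp_mul (hd.comm hL hEg), hS]
      rfl
    rw [e1, e2]
    exact hpiece j hj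

/-- Elements of the radical are small near every prime filter. -/
lemma rad_le (hL : IsPL L) (hSOT : SOTClosed L) {F : Set (H →L[ℂ] H)} (hF : PF L F)
    {T : H →L[ℂ] H} (hT : InRad L T) {ε : ℝ} (hε : 0 < ε) :
    ∃ P ∈ F, ∃ Q ∈ L, Q ∉ F ∧ ‖cmp T (P * (1 - Q))‖ ≤ ε := by
  set c : ℝ := ‖T‖ + 1 with hc
  have hc0 : 0 < c := by positivity
  set T' : H →L[ℂ] H := ((c⁻¹ : ℝ) : ℂ) • T with hT'
  have hT'r : InRad L T' := by
    have : T' = (((c⁻¹ : ℝ) : ℂ) • 1) * T := by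
      rw [hT', smul_mul_assoc, one_mul]
    rw [this]
    exact hT.left (AlgL.smul_mem _ (AlgL.one_mem hL))
  have hT'1 : ‖T'‖ ≤ 1 := by
    rw [hT', norm_smul, Complex.norm_real, Real.norm_of_nonneg (by positivity),
      inv_mul_le_iff₀ hc0]
    linarith
  set δ : ℝ := min (1 / 192) (ε / (c * 36864)) with hδ
  have hδ0 : 0 < δ := lt_min (by norm_num) (by positivity)
  obtain ⟨P, hP, Q, hQ, hQF, h⟩ := rad_le_one hL hSOT hF hT'r hT'1 hδ0 (min_le_left _ _)
  refine ⟨P, hP, Q, hQ, hQF, ?_⟩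
  have e : cmp T (P * (1 - Q)) = (c : ℂ) • cmp T' (P * (1 - Q)) := by
    have e1 : T = (c : ℂ) • T' := by
      rw [hT', smul_smul]
      have : (c : ℂ) * ((c⁻¹ : ℝ) : ℂ) = 1 := by
        rw [← Complex.ofReal_mul, mul_inv_cancel₀ hc0.ne', Complex.ofReal_one]
      rw [this, one_smul]
    have e2 : ∀ X E : H →L[ℂ] H, cmp ((c : ℂ) • X) E = (c : ℂ) • cmp X E := by
      intro X E
      simp only [cmp, mul_smul_comm, smul_mul_assoc]
    rw [← e2, ← e1]
  rw [e, norm_smul, Complex.norm_real, Real.norm_of_nonneg hc0.le]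
  calc c * ‖cmp T' (P * (1 - Q))‖ ≤ c * (36864 * δ) := mul_le_mul_of_nonneg_left h hc0.le
    _ ≤ c * (36864 * (ε / (c * 36864))) := by
        gcongr
        exact min_le_right _ _
    _ = ε := by field_simp

/-- A chain through the atoms of a partition. -/
lemma rk_atoms (hL : IsPL L) (p : Part L) (X : H →L[ℂ] H) {ε : ℝ} (hε : 0 ≤ ε)
    (hX : ∀ i, ‖cmp X (p.e i)‖ ≤ ε) (n : ℕ) :
    ∀ U : Finset p.ι, IsUpperSet (U : Set p.ι) → U.card = n → Rk L X ε 0 (p.s U) n := by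
  induction n with
  | zero =>
    intro U hU hc
    rw [Finset.card_eq_zero.mp hc, p.s_empty]
    exact Rk.refl hL hε hL.zero_mem
  | succ n ih =>
    intro U hU hc
    have hne : U.Nonempty := by
      rw [← Finset.card_pos]
      omega
    obtain ⟨i, hi⟩ := U.exists_minimal hne
    have hi1 := hi.1
    have hV : IsUpperSet ((U.erase i : Finset p.ι) : Set p.ι) := by
      intro x y hxy hx
      simp only [coe_erase, Set.mem_sdiff, mem_coe, Set.mem_singleton_iff] at hx ⊢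
      refine ⟨hU hxy hx.1, ?_⟩
      rintro rfl
      exact hx.2 (le_antisymm hxy (hi.2 hx.1 hxy))
    have h1 := ih (U.erase i) hV (by rw [card_erase_of_mem hi1]; omega)
    have hs : p.s U = p.s (U.erase i) + p.e i := by
      unfold Part.s
      rw [Finset.sum_erase_add _ _ hi1]
    refine h1.trans (Rk.single hL hε (p.s_mem _ hV) (p.s_mem _ hU) ?_ ?_)
    · rw [p.s_mul]
      congr 1
      exact inter_eq_left.mpr (erase_subset i U)
    · rw [hs, add_sub_cancel_left]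
      exact hX i

/-- Every atom is an interval. -/
lemma Part.atom_interval (p : Part L) (i : p.ι) :
    ∃ P ∈ L, ∃ Q ∈ L, p.e i = P * (1 - Q) := by
  classical
  let U : Finset p.ι := univ.filter fun j => i ≤ j
  let V : Finset p.ι := univ.filter fun j => i < j
  have hU : IsUpperSet (U : Set p.ι) := by
    intro x y hxy hx
    simp only [U, coe_filter, mem_univ, true_and, Set.mem_ofPred_eq] at hx ⊢
    exact hx.trans hxy
  have hV : IsUpperSet (V : Set p.ι) := by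
    intro x y hxy hx
    simp only [V, coe_filter, mem_univ, true_and, Set.mem_ofPred_eq] at hx ⊢
    exact lt_of_lt_of_le hx hxy
  refine ⟨p.s U, p.s_mem U hU, p.s V, p.s_mem V hV, ?_⟩
  rw [← p.s_compl, p.s_mul]
  have : U ∩ Vᶜ = {i} := by
    ext j
    simp only [U, V, mem_inter, mem_filter, mem_univ, true_and, mem_compl, mem_singleton]
    constructor
    · rintro ⟨h1, h2⟩
      by_contra hne
      exact h2 (lt_of_le_of_ne h1 (Ne.symm hne))
    · rintro rfl
      exact ⟨le_refl _, lt_irrefl _⟩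
  rw [this]
  simp [Part.s]

/-- Potential estimate for powers. -/
lemma pow_bound (hL : IsPL L) {X : H →L[ℂ] H} (hX : X ∈ AlgL L) {ε C : ℝ} (hε : 0 < ε)
    (hεC : ε ≤ C) (hXC : ‖X‖ ≤ C) {r : ℕ} {R : ℕ → H →L[ℂ] H} (hR : RkW L X ε 0 1 r R) (x : H)
    (m : ℕ) : ∀ i, ‖(1 - R i) ((X ^ m) x)‖ ^ 2 ≤
      (4 * ε ^ 2) ^ m * (C ^ 2 / ε ^ 2) ^ r * ((C ^ 2 / ε ^ 2) ^ i)⁻¹ * ‖x‖ ^ 2 := by
  have hC : 0 < C := lt_of_lt_of_le hε hεC
  have hq : 1 ≤ C ^ 2 / ε ^ 2 := by
    rw [le_div_iff₀ (by positivity), one_mul]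
    exact pow_le_pow_left₀ hε.le hεC 2
  have hq0 : 0 < C ^ 2 / ε ^ 2 := by positivity
  induction m with
  | zero =>
    intro i
    rw [pow_zero, pow_zero, one_mul, one_apply_eq_self]
    by_cases hi : i ≤ r
    · have h1 : 1 ≤ (C ^ 2 / ε ^ 2) ^ r * ((C ^ 2 / ε ^ 2) ^ i)⁻¹ := by
        rw [← div_eq_mul_inv, le_div_iff₀ (by positivity), one_mul]
        exact pow_le_pow_right₀ hq hi
      calc ‖(1 - R i) x‖ ^ 2 ≤ ‖x‖ ^ 2 := pow_le_pow_left₀ (norm_nonneg _)
            (proj_norm_le (hL.proj _ (hR.mem i)).one_sub _) 2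
        _ = 1 * ‖x‖ ^ 2 := (one_mul _).symm
        _ ≤ _ := mul_le_mul_of_nonneg_right h1 (sq_nonneg _)
    · rw [hR.one i (by omega)]
      simp only [sub_self, zero_apply, norm_zero]
      rw [zero_pow two_ne_zero]
      positivity
  | succ m ih =>
    intro i
    have hone : BoolGen L (1 : H →L[ℂ] H) := .of hL.one_mem
    have h1 := potential_step hL hX hε.le hXC hR.mem hR.mono hR.bd hone hone ((X ^ m) x) i
    simp only [one_apply_eq_self] at h1
    have h2 : (X ^ (m + 1)) x = X ((X ^ m) x) := by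
      rw [pow_succ', mul_apply_eq_comp]
    rw [h2]
    set B := (4 * ε ^ 2) ^ m * (C ^ 2 / ε ^ 2) ^ r with hB
    calc ‖(1 - R i) (X ((X ^ m) x))‖ ^ 2
        ≤ 2 * ε ^ 2 * ‖(1 - R i) ((X ^ m) x)‖ ^ 2 +
          2 * C ^ 2 * ‖(1 - R (i + 1)) ((X ^ m) x)‖ ^ 2 := h1
      _ ≤ 2 * ε ^ 2 * (B * ((C ^ 2 / ε ^ 2) ^ i)⁻¹ * ‖x‖ ^ 2) +
          2 * C ^ 2 * (B * ((C ^ 2 / ε ^ 2) ^ (i + 1))⁻¹ * ‖x‖ ^ 2) := by
          gcongr
          · exact ih i
          · exact ih (i + 1)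
      _ = (4 * ε ^ 2) ^ (m + 1) * (C ^ 2 / ε ^ 2) ^ r * ((C ^ 2 / ε ^ 2) ^ i)⁻¹ * ‖x‖ ^ 2 := by
          rw [hB, pow_succ (C ^ 2 / ε ^ 2) i, mul_inv, pow_succ (4 * ε ^ 2) m]
          have : (C ^ 2 / ε ^ 2)⁻¹ = ε ^ 2 / C ^ 2 := by rw [inv_div]
          rw [this]
          field_simp
          ring

/-- Left inverse of `1 - X` when the atoms of `X` are small. -/
lemma left_inv_of_atoms (hL : IsPL L) (p : Part L) {X : H →L[ℂ] H} (hX : X ∈ AlgL L)
    (hXs : ∀ i, ‖cmp X (p.e i)‖ ≤ 1 / 4) : ∃ B ∈ AlgL L, B * (1 - X) = 1 := by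
  have hrk := rk_atoms hL p X (show (0 : ℝ) ≤ 1 / 4 by norm_num) hXs _ univ
    (by simp [IsUpperSet]) rfl
  rw [p.s_univ] at hrk
  obtain ⟨R, hR⟩ := hrk
  set C : ℝ := ‖X‖ + 1 with hC
  have hC1 : 1 ≤ C := by
    have := norm_nonneg X
    linarith
  set r := (univ : Finset p.ι).card with hr
  set q : ℝ := C ^ 2 / (1 / 4) ^ 2 with hq
  have hq0 : 0 < q := by positivity
  obtain ⟨m, hm⟩ : ∃ m : ℕ, q ^ r < 4 ^ m := pow_unbounded_of_one_lt _ (by norm_num)
  have hXm : ‖X ^ m‖ < 1 := by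
    have hb : ‖X ^ m‖ ≤ Real.sqrt ((1 / 4) ^ m * q ^ r) := by
      refine ContinuousLinearMap.opNorm_le_bound _ (Real.sqrt_nonneg _) fun x => ?_
      refine le_of_sq_le_sq ?_ (by positivity)
      rw [mul_pow, Real.sq_sqrt (by positivity)]
      have h1 := pow_bound hL hX (show (0 : ℝ) < 1 / 4 by norm_num) (by linarith)
        (show ‖X‖ ≤ C by linarith) hR x m 0
      rw [hR.zero] at h1
      simp only [sub_zero, one_apply_eq_self, pow_zero, inv_one, mul_one] at h1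
      refine h1.trans (le_of_eq ?_)
      rw [← hq]
      norm_num
    refine lt_of_le_of_lt hb ?_
    rw [Real.sqrt_lt' one_pos, one_pow, one_div, inv_pow, inv_mul_lt_iff₀ (by positivity), mul_one]
    exact hm
  have hpow : ∀ n : ℕ, X ^ n ∈ AlgL L := by
    intro n
    induction n with
    | zero =>
      rw [pow_zero]
      exact AlgL.one_mem hL
    | succ n ih =>
      rw [pow_succ]
      exact AlgL.mul_mem ih hX
  obtain ⟨B, hB, hB1⟩ := neumann hL (hpow m) hXm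
  refine ⟨B * ∑ j ∈ range m, X ^ j, AlgL.mul_mem hB (AlgL.sum_mem _ _ fun j _ => hpow j), ?_⟩
  rw [mul_assoc, geom_sum_mul_neg, hB1]

/-- The converse inclusion, from a finite cover. -/
lemma inRad_of_cover (hL : IsPL L) {T : H →L[ℂ] H} (hT : T ∈ AlgL L)
    (hcov : ∀ ε : ℝ, 0 < ε → ∃ S : Finset ((H →L[ℂ] H) × (H →L[ℂ] H)),
      (∀ x ∈ S, x.1 ∈ L ∧ x.2 ∈ L ∧ ‖cmp T (x.1 * (1 - x.2))‖ ≤ ε) ∧
      ∀ Z, BoolGen L Z → (∀ x ∈ S, Z * (x.1 * (1 - x.2)) = 0) → Z = 0) : InRad L T := by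
  classical
  refine ⟨hT, fun A hA => ?_⟩
  set ε : ℝ := 1 / (4 * (‖A‖ + 1)) with hε
  have hε0 : 0 < ε := by positivity
  obtain ⟨S, hS1, hS2⟩ := hcov ε hε0
  obtain ⟨p, hp⟩ := exists_part hL (S.image Prod.fst ∪ S.image Prod.snd) (by
    intro P hP
    rcases mem_union.mp hP with h | h
    · obtain ⟨x, hx, rfl⟩ := mem_image.mp h
      exact (hS1 x hx).1
    · obtain ⟨x, hx, rfl⟩ := mem_image.mp h
      exact (hS1 x hx).2.1)
  refine left_inv_of_atoms hL p (AlgL.mul_mem hA hT) fun i => ?_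
  have hTi : ‖cmp T (p.e i)‖ ≤ ε := by
    by_cases hz : p.e i = 0
    · rw [hz, cmp_zero', norm_zero]
      exact hε0.le
    · obtain ⟨x, hx, hxne⟩ : ∃ x ∈ S, p.e i * (x.1 * (1 - x.2)) ≠ 0 := by
        by_contra hno
        push Not at hno
        exact hz (hS2 _ (p.gen i) hno)
      obtain ⟨U, hU, hUe⟩ := hp x.1 (mem_union_left _ (mem_image_of_mem _ hx))
      obtain ⟨V, hV, hVe⟩ := hp x.2 (mem_union_right _ (mem_image_of_mem _ hx))
      have hUe' : x.1 = p.s U := hUe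
      have hVe' : x.2 = p.s V := hVe
      have e1 : x.1 * (1 - x.2) = p.s (U ∩ Vᶜ) := by
        rw [hUe', hVe', ← p.s_compl, p.s_mul]
      rw [e1, p.e_mul_s] at hxne
      have hi : i ∈ U ∩ Vᶜ := by
        by_contra hni
        rw [if_neg hni] at hxne
        exact hxne rfl
      have e2 : p.e i = (x.1 * (1 - x.2)) * p.e i := by
        rw [e1, p.s_mul_e, if_pos hi]
      have hxg : BoolGen L (x.1 * (1 - x.2)) :=
        (BoolGen.of (hS1 x hx).1).mul (BoolGen.of (hS1 x hx).2.1).cpl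
      rw [e2]
      exact (cmp_mul_le ((p.gen i).comm hL hxg) (p.proj i)).trans (hS1 x hx).2.2
  obtain ⟨P, hP, Q, hQ, he⟩ := p.atom_interval i
  have h1 := semi_inv hL hP hQ hA hT
  have e : cmp (A * T) (p.e i) = (p.e i * A) * cmp T (p.e i) := by
    rw [he, cmp, h1, cmp]
    simp only [mul_assoc]
  rw [e]
  calc ‖(p.e i * A) * cmp T (p.e i)‖ ≤ ‖p.e i * A‖ * ‖cmp T (p.e i)‖ := norm_mul_le _ _
    _ ≤ (1 * ‖A‖) * ε := by
        refine mul_le_mul ?_ hTi (norm_nonneg _) (by positivity)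
        exact (norm_mul_le _ _).trans
          (mul_le_mul_of_nonneg_right (proj_opNorm_le (p.proj i)) (norm_nonneg _))
    _ ≤ (‖A‖ + 1) * ε := by
        gcongr
        linarith
    _ = 1 / 4 := by
        rw [hε]
        field_simp

end Pool.Agent.CSLRad
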