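import Mathlib
import Pool.Agent.CSLRad.Defs
import Pool.Agent.CSLRad.RadLe

/-!
# The Jacobson radical of a CSL algebra: proof of the main theorem
-/

set_option linter.unusedSectionVars false

namespace Pool.Agent.CSLRad

open Filter Topology

variable {H : Type*} [NormedAddCommGroup H] [InnerProductSpace ℂ H] [CompleteSpace H]

section proof

variable {L : Set (H →L[ℂ] H)}

lemma IsCSL.isPL (hL : IsCSL L) : IsPL L :=
  ⟨hL.proj, hL.comm, hL.zero_mem, hL.one_mem, hL.inf_mem, hL.sup_mem⟩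

lemma mem_algCSL (hL : IsCSL L) (T : H →L[ℂ] H) : T ∈ AlgCSL L ↔ T ∈ AlgL L := by
  constructor
  · intro h P hP
    ext x
    have hPP : P (P x) = P x := op_congr (hL.proj P hP).isIdempotentElem.eq x
    have := h P hP (P x) hPP
    simp only [mul_apply_eq_comp, sub_apply, one_apply_eq_self, zero_apply, this, sub_self]
  · intro h P hP x hx
    have := op_congr (h P hP) x
    simp only [mul_apply_eq_comp, sub_apply, one_apply_eq_self, zero_apply, hx] at this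
    exact (sub_eq_zero.mp this).symm

lemma mem_cstarOf {M : H →L[ℂ] H} (h : M ∈ L) : M ∈ CStarOf L :=
  StarSubalgebra.le_topologicalClosure _ (StarAlgebra.subset_adjoin ℂ L h)

lemma gen_cstarOf {M : H →L[ℂ] H} (h : BoolGen L M) : M ∈ CStarOf L := by
  induction h with
  | of h => exact mem_cstarOf h
  | cpl _ ih => exact sub_mem (one_mem _) ih
  | mul _ _ ih1 ih2 => exact mul_mem ih1 ih2

lemma cstarOf_comm (hL : IsCSL L) (x y : CStarOf L) : x * y = y * x := by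
  have h1 : CStarOf L ≤ StarSubalgebra.centralizer ℂ
      (StarSubalgebra.centralizer ℂ L : Set (H →L[ℂ] H)) :=
    StarSubalgebra.topologicalClosure_adjoin_le_centralizer_centralizer ℂ L
  have hst : ∀ a ∈ L, star a = a := fun a ha => (hL.proj a ha).isSelfAdjoint.star_eq
  have hx := h1 x.2
  have hy := h1 y.2
  rw [← SetLike.mem_coe, StarSubalgebra.coe_centralizer_centralizer] at hx hy
  have hcomm : ∀ a ∈ L ∪ star L, ∀ b ∈ L ∪ star L, a * b = b * a := by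
    have hu : ∀ a ∈ L ∪ star L, a ∈ L := by
      rintro a (ha | ha)
      · exact ha
      · have h2 : star a ∈ L := ha
        have h3 := hst _ h2
        rw [star_star] at h3
        rw [h3]
        exact h2
    intro a ha b hb
    exact hL.comm a (hu a ha) b (hu b hb)
  exact Subtype.ext (Set.centralizer_centralizer_comm_of_comm hcomm _ hx _ hy)

lemma mem_jacobson_iff_inRad (hL : IsCSL L) (T : AlgCSL L) :
    T ∈ Ring.jacobson (AlgCSL L) ↔ InRad L (T : H →L[ℂ] H) := by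
  rw [← Ideal.jacobson_bot, Ideal.mem_jacobson_iff]
  constructor
  · intro h
    refine ⟨(mem_algCSL hL _).mp T.2, fun A hA => ?_⟩
    obtain ⟨z, hz⟩ := h (-⟨A, (mem_algCSL hL A).mpr hA⟩)
    refine ⟨z, (mem_algCSL hL _).mp z.2, ?_⟩
    rw [Ideal.mem_bot] at hz
    have h2 := congrArg (fun X : AlgCSL L => (X : H →L[ℂ] H)) hz
    have h3 : (z : H →L[ℂ] H) * (-A) * (T : H →L[ℂ] H) + z - 1 = 0 := h2
    calc (z : H →L[ℂ] H) * (1 - A * T) = ((z : H →L[ℂ] H) * (-A) * (T : H →L[ℂ] H) + z - 1) + 1 := by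
          noncomm_ring
      _ = 1 := by rw [h3, zero_add]
  · rintro ⟨_, h⟩ y
    obtain ⟨B, hB, hB1⟩ := h (-(y : H →L[ℂ] H)) ((mem_algCSL hL _).mp (neg_mem y.2))
    refine ⟨⟨B, (mem_algCSL hL B).mpr hB⟩, ?_⟩
    rw [Ideal.mem_bot]
    apply Subtype.ext
    show B * (y : H →L[ℂ] H) * (T : H →L[ℂ] H) + B - 1 = 0
    calc B * (y : H →L[ℂ] H) * (T : H →L[ℂ] H) + B - 1
        = B * (1 - -(y : H →L[ℂ] H) * T) - 1 := by noncomm_ring
      _ = 0 := by rw [hB1, sub_self]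

lemma isClosed_cstarOf (L : Set (H →L[ℂ] H)) : IsClosed (CStarOf L : Set (H →L[ℂ] H)) :=
  StarSubalgebra.isClosed_topologicalClosure _

lemma completeSpace_cstarOf (L : Set (H →L[ℂ] H)) : CompleteSpace (CStarOf L) :=
  (isClosed_cstarOf L).completeSpace_coe

lemma eq_zero_of_characters (hL : IsCSL L) (Z : CStarOf L)
    (h : ∀ φ : WeakDual.characterSpace ℂ (CStarOf L), φ Z = 0) : Z = 0 := by
  let i1 : CStarAlgebra (CStarOf L) :=
    StarSubalgebra.cstarAlgebra _ (h_closed := isClosed_cstarOf L)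
  let i2 : CommCStarAlgebra (CStarOf L) := { i1 with mul_comm := cstarOf_comm hL }
  apply (gelfandTransform_bijective (CStarOf L)).injective
  rw [map_zero]
  exact ContinuousMap.ext fun φ => h φ

/-- The prime filter of a character. -/
def filterOf (L : Set (H →L[ℂ] H)) (φ : WeakDual.characterSpace ℂ (CStarOf L)) :
    Set (H →L[ℂ] H) := {M | ∃ h : M ∈ L, φ ⟨M, mem_cstarOf h⟩ = 1}

lemma char_mul (φ : WeakDual.characterSpace ℂ (CStarOf L)) {P Q : H →L[ℂ] H}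
    (hP : P ∈ CStarOf L) (hQ : Q ∈ CStarOf L) :
    φ ⟨P * Q, mul_mem hP hQ⟩ = φ ⟨P, hP⟩ * φ ⟨Q, hQ⟩ := by
  rw [← map_mul]
  rfl

lemma char_sub (φ : WeakDual.characterSpace ℂ (CStarOf L)) {P Q : H →L[ℂ] H}
    (hP : P ∈ CStarOf L) (hQ : Q ∈ CStarOf L) :
    φ ⟨P - Q, sub_mem hP hQ⟩ = φ ⟨P, hP⟩ - φ ⟨Q, hQ⟩ := by
  rw [← map_sub]
  rfl

lemma char_add (φ : WeakDual.characterSpace ℂ (CStarOf L)) {P Q : H →L[ℂ] H}
    (hP : P ∈ CStarOf L) (hQ : Q ∈ CStarOf L) :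
    φ ⟨P + Q, add_mem hP hQ⟩ = φ ⟨P, hP⟩ + φ ⟨Q, hQ⟩ := by
  rw [← map_add]
  rfl

lemma char_idem (φ : WeakDual.characterSpace ℂ (CStarOf L)) {P : H →L[ℂ] H}
    (hP : P ∈ CStarOf L) (hPP : P * P = P) : φ ⟨P, hP⟩ = 0 ∨ φ ⟨P, hP⟩ = 1 := by
  have h1 := char_mul φ hP hP
  have e : (⟨P * P, mul_mem hP hP⟩ : CStarOf L) = ⟨P, hP⟩ := Subtype.ext hPP
  rw [e] at h1
  have h2 : φ ⟨P, hP⟩ * (φ ⟨P, hP⟩ - 1) = 0 := by
    rw [mul_sub, mul_one, ← h1, sub_self]
  rcases mul_eq_zero.mp h2 with h | h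
  · exact Or.inl h
  · exact Or.inr (sub_eq_zero.mp h)

lemma filterOf_pf (hL : IsCSL L) (φ : WeakDual.characterSpace ℂ (CStarOf L)) :
    PF L (filterOf L φ) where
  sub := fun M hM => hM.1
  one := ⟨hL.one_mem, by
    have : (⟨1, mem_cstarOf hL.one_mem⟩ : CStarOf L) = 1 := rfl
    rw [this, map_one]⟩
  zero := by
    rintro ⟨h, h1⟩
    have : (⟨0, mem_cstarOf h⟩ : CStarOf L) = 0 := rfl
    rw [this, map_zero] at h1
    exact zero_ne_one h1
  inf := by
    rintro P ⟨hP, h1⟩ Q ⟨hQ, h2⟩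
    refine ⟨hL.inf_mem P hP Q hQ, ?_⟩
    have := char_mul φ (mem_cstarOf hP) (mem_cstarOf hQ)
    rw [h1, h2, one_mul] at this
    exact this
  up := by
    rintro P ⟨hP, h1⟩ Q hQ hPQ
    refine ⟨hQ, ?_⟩
    have := char_mul φ (mem_cstarOf hP) (mem_cstarOf hQ)
    rw [h1, one_mul] at this
    have e : (⟨P * Q, mul_mem (mem_cstarOf hP) (mem_cstarOf hQ)⟩ : CStarOf L) =
        ⟨P, mem_cstarOf hP⟩ := Subtype.ext hPQ
    rw [e, h1] at this
    exact this.symm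
  prime := by
    rintro P hP Q hQ ⟨h0, h1⟩
    have hP' := mem_cstarOf hP
    have hQ' := mem_cstarOf hQ
    have e1 := char_sub φ (add_mem hP' hQ') (mul_mem hP' hQ')
    rw [char_add φ hP' hQ', char_mul φ hP' hQ'] at e1
    have e2 : φ ⟨P + Q - P * Q, sub_mem (add_mem hP' hQ') (mul_mem hP' hQ')⟩ = 1 := h1
    rw [e2] at e1
    have h2 : (1 - φ ⟨P, hP'⟩) * (1 - φ ⟨Q, hQ'⟩) = 0 := by
      linear_combination e1
    rcases mul_eq_zero.mp h2 with h | h
    · exact Or.inl ⟨hP, (sub_eq_zero.mp h).symm⟩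
    · exact Or.inr ⟨hQ, (sub_eq_zero.mp h).symm⟩

lemma seminormAt_nonneg (φ : WeakDual.characterSpace ℂ (CStarOf L)) (T : H →L[ℂ] H) :
    0 ≤ seminormAt L φ T := by
  refine Real.sInf_nonneg ?_
  rintro r ⟨E, _, _, rfl⟩
  exact norm_nonneg _

lemma interval_mem (hL : IsCSL L) {P Q : H →L[ℂ] H} (hP : P ∈ L) (hQ : Q ∈ L) :
    IsInterval L (P * (1 - Q)) := by
  refine ⟨P, hP, P * Q, hL.inf_mem P hP Q hQ, ?_, ?_⟩
  · rw [← mul_assoc, (hL.proj P hP).isIdempotentElem.eq]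
  · rw [mul_sub, mul_one]

/-- The inclusion of the radical in every `I_φ`. -/
lemma seminormAt_eq_zero (hL : IsCSL L) {T : H →L[ℂ] H} (hT : InRad L T)
    (φ : WeakDual.characterSpace ℂ (CStarOf L)) : seminormAt L φ T = 0 := by
  refine le_antisymm ?_ (seminormAt_nonneg φ T)
  refine le_of_forall_pos_le_add fun ε hε => ?_
  rw [zero_add]
  obtain ⟨P, ⟨hP, hP1⟩, Q, hQ, hQF, hb⟩ := rad_le hL.isPL hL.closed (filterOf_pf hL φ) hT hε
  have hP' := mem_cstarOf hP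
  have hQ' := mem_cstarOf hQ
  have hQ0 : φ ⟨Q, hQ'⟩ = 0 := by
    rcases char_idem φ hQ' (hL.proj Q hQ).isIdempotentElem.eq with h | h
    · exact h
    · exact (hQF ⟨hQ, h⟩).elim
  have hE : P * (1 - Q) ∈ CStarOf L := mul_mem hP' (sub_mem (one_mem _) hQ')
  have hφE : φ ⟨P * (1 - Q), hE⟩ = 1 := by
    have e1 := char_mul φ hP' (sub_mem (one_mem _) hQ')
    have e2 := char_sub φ (one_mem (CStarOf L)) hQ'
    have e3 : φ ⟨1, one_mem (CStarOf L)⟩ = 1 := by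
      have : (⟨1, one_mem (CStarOf L)⟩ : CStarOf L) = 1 := rfl
      rw [this, map_one]
    rw [e2, e3, hQ0, hP1, sub_zero, one_mul] at e1
    exact e1
  have hmem : ‖cmp T (P * (1 - Q))‖ ∈ {r : ℝ | ∃ E : CStarOf L, IsInterval L (E : H →L[ℂ] H) ∧
      φ E = 1 ∧ r = ‖(E : H →L[ℂ] H) * T * (E : H →L[ℂ] H)‖} :=
    ⟨⟨P * (1 - Q), hE⟩, interval_mem hL hP hQ, hφE, rfl⟩
  have hbd : BddBelow {r : ℝ | ∃ E : CStarOf L, IsInterval L (E : H →L[ℂ] H) ∧
      φ E = 1 ∧ r = ‖(E : H →L[ℂ] H) * T * (E : H →L[ℂ] H)‖} := by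
    refine ⟨0, ?_⟩
    rintro r ⟨E, _, _, rfl⟩
    exact norm_nonneg _
  exact (csInf_le hbd hmem).trans hb

/-- The converse inclusion. -/
lemma inRad_of_seminormAt (hL : IsCSL L) {T : H →L[ℂ] H} (hT : T ∈ AlgL L)
    (h : ∀ φ : WeakDual.characterSpace ℂ (CStarOf L), seminormAt L φ T = 0) : InRad L T := by
  classical
  refine inRad_of_cover hL.isPL hT fun ε hε => ?_
  have hex : ∀ φ : WeakDual.characterSpace ℂ (CStarOf L), ∃ E : CStarOf L,
      IsInterval L (E : H →L[ℂ] H) ∧ φ E = 1 ∧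
        ‖(E : H →L[ℂ] H) * T * (E : H →L[ℂ] H)‖ < ε := by
    intro φ
    have hne : {r : ℝ | ∃ E : CStarOf L, IsInterval L (E : H →L[ℂ] H) ∧ φ E = 1 ∧
        r = ‖(E : H →L[ℂ] H) * T * (E : H →L[ℂ] H)‖}.Nonempty := by
      refine ⟨_, 1, ⟨1, hL.one_mem, 0, hL.zero_mem, by simp, ?_⟩, map_one φ, rfl⟩
      simp
    have hlt : sInf {r : ℝ | ∃ E : CStarOf L, IsInterval L (E : H →L[ℂ] H) ∧ φ E = 1 ∧
        r = ‖(E : H →L[ℂ] H) * T * (E : H →L[ℂ] H)‖} < ε := by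
      have := h φ
      unfold seminormAt at this
      rw [this]
      exact hε
    obtain ⟨r, ⟨E, h1, h2, rfl⟩, h3⟩ := exists_lt_of_csInf_lt hne hlt
    exact ⟨E, h1, h2, h3⟩
  choose E hE1 hE2 hE3 using hex
  unfold IsInterval at hE1
  choose P hP Q hQ hPQ hEe using hE1
  have hcs := completeSpace_cstarOf L
  have hcompact : CompactSpace (WeakDual.characterSpace ℂ (CStarOf L)) := inferInstance
  have hcont : ∀ a : CStarOf L,
      Continuous fun ψ : WeakDual.characterSpace ℂ (CStarOf L) => ψ a := by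
    intro a
    exact (WeakDual.eval_continuous a).comp continuous_subtype_val
  obtain ⟨t, ht⟩ := (isCompact_univ (X := WeakDual.characterSpace ℂ (CStarOf L))).elim_finite_subcover
    (fun φ => {ψ | ψ (E φ) ≠ 0}) (fun φ => isOpen_ne_fun (hcont (E φ)) continuous_const)
    (fun φ _ => Set.mem_iUnion.mpr ⟨φ, by simp [hE2]⟩)
  have heq : ∀ φ, P φ * (1 - Q φ) = (E φ : H →L[ℂ] H) := by
    intro φ
    rw [mul_sub, mul_one, hPQ, hEe]
  refine ⟨t.image fun φ => (P φ, Q φ), ?_, ?_⟩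
  · intro x hx
    obtain ⟨φ, _, rfl⟩ := Finset.mem_image.mp hx
    refine ⟨hP φ, hQ φ, ?_⟩
    simp only [heq]
    exact (hE3 φ).le
  · intro Z hZ hZx
    have hZc := gen_cstarOf hZ
    have h0 : (⟨Z, hZc⟩ : CStarOf L) = 0 := by
      refine eq_zero_of_characters hL _ fun ψ => ?_
      obtain ⟨φ, hφ⟩ := Set.mem_iUnion.mp (ht (Set.mem_univ ψ))
      obtain ⟨hφt, hφψ⟩ := Set.mem_iUnion.mp hφ
      have h1 := hZx (P φ, Q φ) (Finset.mem_image.mpr ⟨φ, hφt, rfl⟩)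
      simp only [heq] at h1
      have h2 := char_mul ψ hZc (E φ).2
      have e : (⟨Z * (E φ : H →L[ℂ] H), mul_mem hZc (E φ).2⟩ : CStarOf L) = 0 := Subtype.ext h1
      rw [e, map_zero] at h2
      rcases mul_eq_zero.mp h2.symm with h | h
      · exact h
      · exact absurd h hφψ
    exact congrArg (fun X : CStarOf L => (X : H →L[ℂ] H)) h0

end proof

/-- The main theorem. -/
theorem jacobson_eq (L : Set (H →L[ℂ] H)) (hL : IsCSL L) :
    ((Ring.jacobson (AlgCSL L) : Ideal (AlgCSL L)) : Set (AlgCSL L)) =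
      ⋂ φ : Chars L, idealAt L φ := by
  ext T
  rw [SetLike.mem_coe, mem_jacobson_iff_inRad hL, Set.mem_iInter]
  constructor
  · intro h φ
    exact seminormAt_eq_zero hL h φ
  · intro h
    exact inRad_of_seminormAt hL ((mem_algCSL hL _).mp T.2) h

end Pool.Agent.CSLRad
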